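import Pool.Agent.Helper51.Moser.Cyc

open Finset

namespace Pool.Agent.Helper51.Moser

lemma LL_periodic (θ : ℝ) : LL (θ + 2 * Real.pi) = LL θ := by
  unfold LL
  have h : Real.cos ((θ + 2 * Real.pi) / 2) = - Real.cos (θ / 2) := by
    rw [show (θ + 2 * Real.pi) / 2 = θ / 2 + Real.pi by ring, Real.cos_add_pi]
  rw [h, show 2 * -Real.cos (θ / 2) = -(2 * Real.cos (θ / 2)) by ring, Real.log_neg_eq_log]

lemma log_analyticAt_aux {x : ℝ} (h : x ≠ 0) : AnalyticAt ℝ Real.log x := by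
  rcases lt_or_gt_of_ne h with h1 | h1
  · have h2 : AnalyticAt ℝ (fun y : ℝ => Real.log (-y)) x := by
      have : AnalyticAt ℝ Real.log (-x) := analyticAt_log (by linarith)
      exact this.comp' (analyticAt_id.neg)
    exact h2.congr (Filter.Eventually.of_forall fun y => Real.log_neg_eq_log y)
  · exact analyticAt_log h1

lemma LL_analyticAt {θ : ℝ} (h : Real.cos (θ / 2) ≠ 0) : AnalyticAt ℝ LL θ := by
  unfold LL
  have h1 : AnalyticAt ℝ (fun θ : ℝ => 2 * Real.cos (θ / 2)) θ := by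
    have : AnalyticAt ℝ (fun θ : ℝ => Real.cos (θ / 2)) θ :=
      Real.analyticAt_cos.comp' (f := fun θ : ℝ => θ / 2) (analyticAt_id.div_const)
    exact analyticAt_const.mul this
  exact (log_analyticAt_aux (by simpa using h)).comp' h1

lemma KK_analyticAt {θ : ℝ} (h : Real.sin (θ / 2) ≠ 0) : AnalyticAt ℝ KK θ := by
  unfold KK
  have h1 : AnalyticAt ℝ (fun θ : ℝ => 2 * Real.sin (θ / 2)) θ := by
    have : AnalyticAt ℝ (fun θ : ℝ => Real.sin (θ / 2)) θ :=
      Real.analyticAt_sin.comp' (f := fun θ : ℝ => θ / 2) (analyticAt_id.div_const)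
    exact analyticAt_const.mul this
  exact (log_analyticAt_aux (by simpa using h)).comp' h1

lemma cos_ne {q : ℕ} (hq : Odd q) (w a : ℤ) : Real.cos (w * (2 * Real.pi * a / q) / 2) ≠ 0 := by
  intro h
  rw [Real.cos_eq_zero_iff] at h
  obtain ⟨k, hk⟩ := h
  have hq0 : (q : ℝ) ≠ 0 := by
    rcases hq with ⟨m, rfl⟩
    positivity
  have hpi : Real.pi ≠ 0 := Real.pi_ne_zero
  field_simp at hk
  have h2 : (w : ℝ) * a * 2 = q * (2 * k + 1) := by
    have := hk
    nlinarith [this]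
  have h3 : w * a * 2 = (q : ℤ) * (2 * k + 1) := by exact_mod_cast h2
  obtain ⟨m, hm⟩ := hq
  have : (q : ℤ) = 2 * m + 1 := by exact_mod_cast hm
  rw [this] at h3
  have h4 : (2 * (m : ℤ) + 1) * (2 * k + 1) = 2 * (2 * m * k + m + k) + 1 := by ring
  omega

end Pool.Agent.Helper51.Moser
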