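import Pool.Agent.Helper51.Moser.Cyc
import Pool.Agent.Helper51.Moser.Basic

open Finset

namespace Pool.Agent.Helper51.Moser

/-- auxiliary Hurwitz sums -/
noncomputable def KKaux_A (j : ℕ) (x : ℝ) : ℝ := ∑' n : ℕ, 1 / ((n : ℝ) + x) ^ j

lemma KKaux_summable (j : ℕ) (hj : 2 ≤ j) (x : ℝ) (hx : 0 < x) :
    Summable fun n : ℕ => 1 / ((n : ℝ) + x) ^ j := by
  have h1 : Summable fun n : ℕ => 1 / ((n : ℝ)) ^ j := by
    simpa using Real.summable_one_div_nat_pow.mpr (by omega : 1 < j)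
  have h2 : Summable fun n : ℕ => 1 / (((n + 1 : ℕ) : ℝ)) ^ j :=
    (summable_nat_add_iff 1 (f := fun n : ℕ => 1 / ((n : ℝ)) ^ j)).mpr h1
  rw [← summable_nat_add_iff 1]
  refine Summable.of_nonneg_of_le (fun n => by positivity) (fun n => ?_) h2
  apply one_div_le_one_div_of_le (by positivity)
  apply pow_le_pow_left₀ (by positivity)
  linarith

lemma KKaux_term (j : ℕ) (n : ℕ) (x : ℝ) (hx : 0 < x) :
    HasDerivAt (fun x : ℝ => 1 / ((n : ℝ) + x) ^ j) (-(j : ℝ) * (1 / ((n : ℝ) + x) ^ (j + 1))) x := by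
  have hn : (n : ℝ) + x ≠ 0 := by positivity
  have h1 : HasDerivAt (fun x : ℝ => (n : ℝ) + x) 1 x := by
    simpa using (hasDerivAt_id x).const_add (n : ℝ)
  have h2 := (h1.pow j).inv (pow_ne_zero j hn)
  simp only [one_div]
  convert! h2 using 1
  rcases Nat.eq_zero_or_pos j with hj | hj
  · subst hj; simp
  · obtain ⟨k, rfl⟩ : ∃ k, j = k + 1 := ⟨j - 1, by omega⟩
    simp only [Nat.add_sub_cancel, mul_one, Pi.pow_apply]
    field_simp
    ring

lemma KKaux_A_deriv (j : ℕ) (hj : 2 ≤ j) (x : ℝ) (hx : 0 < x) :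
    HasDerivAt (KKaux_A j) (-(j : ℝ) * KKaux_A (j + 1) x) x := by
  have h := hasDerivAt_tsum_of_isPreconnected (𝕜 := ℝ) (F := ℝ)
    (u := fun n : ℕ => (j : ℝ) * (1 / ((n : ℝ) + x / 2) ^ (j + 1)))
    (g := fun (n : ℕ) (y : ℝ) => 1 / ((n : ℝ) + y) ^ j)
    (g' := fun (n : ℕ) (y : ℝ) => -(j : ℝ) * (1 / ((n : ℝ) + y) ^ (j + 1)))
    (t := Set.Ioi (x / 2)) (y₀ := x) (y := x)
    ((KKaux_summable (j + 1) (by omega) (x / 2) (by linarith)).mul_left _)
    isOpen_Ioi isPreconnected_Ioi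
    (fun n y hy => KKaux_term j n y (by have : x / 2 < y := hy; linarith))
    (fun n y hy => ?_) (by show x / 2 < x; linarith)
    (KKaux_summable j hj x hx) (by show x / 2 < x; linarith)
  · rw [tsum_mul_left] at h
    exact h
  · have hy' : x / 2 < y := hy
    have hy0 : 0 < y := by linarith
    rw [norm_mul, norm_neg, Real.norm_eq_abs, Real.norm_eq_abs, abs_of_nonneg (by positivity),
      abs_of_nonneg (by positivity)]
    apply mul_le_mul_of_nonneg_left _ (by positivity)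
    apply one_div_le_one_div_of_le (by positivity)
    apply pow_le_pow_left₀ (by positivity)
    linarith

lemma KKaux_integerCompl (x : ℝ) (h0 : 0 < x) (h1 : x < 1) :
    (x : ℂ) ∈ Complex.integerComplement := by
  rw [Complex.mem_integerComplement_iff]
  rintro ⟨n, hn⟩
  have hn' : (n : ℝ) = x := by exact_mod_cast hn
  rw [← hn'] at h0 h1
  have h2 : (0 : ℤ) < n := by exact_mod_cast h0
  have h3 : n < (1 : ℤ) := by exact_mod_cast h1
  omega

lemma KKaux_cot (x : ℝ) (h0 : 0 < x) (h1 : x < 1) :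
    Real.pi * Real.cos (Real.pi * x) / Real.sin (Real.pi * x) =
      1 / x + ∑' n : ℕ, (1 / (x - ((n : ℝ) + 1)) + 1 / (x + ((n : ℝ) + 1))) := by
  have h := cot_series_rep' (KKaux_integerCompl x h0 h1)
  have h2 : ((Real.pi * Real.cos (Real.pi * x) / Real.sin (Real.pi * x) : ℝ) : ℂ) =
      Real.pi * Complex.cot (Real.pi * x) := by
    rw [Complex.cot_eq_cos_div_sin]
    push_cast
    ring
  have h3 : ((∑' n : ℕ, (1 / (x - ((n : ℝ) + 1)) + 1 / (x + ((n : ℝ) + 1))) : ℝ) : ℂ) =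
      ∑' n : ℕ, (1 / ((x : ℂ) - (n + 1)) + 1 / ((x : ℂ) + (n + 1))) := by
    rw [Complex.ofReal_tsum]
    apply tsum_congr
    intro n
    push_cast
    rfl
  rw [← Complex.ofReal_inj, h2, Complex.ofReal_add, h3, ← h]
  push_cast
  ring

lemma KKaux_summable_cot (x : ℝ) (h0 : 0 < x) (h1 : x < 1) :
    Summable fun n : ℕ => (1 / (x - ((n : ℝ) + 1)) + 1 / (x + ((n : ℝ) + 1))) := by
  have h := summable_cotTerm (KKaux_integerCompl x h0 h1)
  rw [← Complex.summable_ofReal]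
  apply h.congr
  intro n
  simp only [cotTerm]
  push_cast
  rfl

lemma KKaux_G_deriv (x : ℝ) (h0 : 0 < x) (h1 : x < 1) :
    HasDerivAt (fun x => Real.pi * Real.cos (Real.pi * x) / Real.sin (Real.pi * x))
      (-(KKaux_A 2 x + KKaux_A 2 (1 - x))) x := by
  obtain ⟨δ, hδ, hδx, hδ1⟩ : ∃ δ : ℝ, 0 < δ ∧ δ < x ∧ x < 1 - δ := by
    refine ⟨min x (1 - x) / 2, ?_, ?_, ?_⟩
    · have : 0 < min x (1 - x) := lt_min h0 (by linarith)
      linarith
    · have : min x (1 - x) ≤ x := min_le_left _ _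
      linarith
    · have : min x (1 - x) ≤ 1 - x := min_le_right _ _
      linarith
  have hterm : ∀ (n : ℕ) (y : ℝ), y ∈ Set.Ioo δ (1 - δ) →
      HasDerivAt (fun y : ℝ => 1 / (y - ((n : ℝ) + 1)) + 1 / (y + ((n : ℝ) + 1)))
        (-(1 / ((n : ℝ) + (1 - y)) ^ 2) + -(1 / (((n + 1 : ℕ) : ℝ) + y) ^ 2)) y := by
    intro n y hy
    obtain ⟨hy1, hy2⟩ := hy
    have hn : (0 : ℝ) ≤ n := Nat.cast_nonneg n
    have e1 : y - ((n : ℝ) + 1) ≠ 0 := by
      have : y - ((n : ℝ) + 1) < 0 := by linarith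
      exact this.ne
    have hy0 : 0 < y := by linarith
    have e2 : y + ((n : ℝ) + 1) ≠ 0 := by positivity
    have d1 : HasDerivAt (fun y : ℝ => y - ((n : ℝ) + 1)) 1 y := by
      simpa using (hasDerivAt_id y).sub_const ((n : ℝ) + 1)
    have d2 : HasDerivAt (fun y : ℝ => y + ((n : ℝ) + 1)) 1 y := by
      simpa using (hasDerivAt_id y).add_const ((n : ℝ) + 1)
    have h := (d1.inv e1).add (d2.inv e2)
    simp only [one_div]
    convert! h using 1
    have e3 : (n : ℝ) + (1 - y) ≠ 0 := by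
      have : 0 < (n : ℝ) + (1 - y) := by linarith
      exact this.ne'
    have e4 : ((n + 1 : ℕ) : ℝ) + y = y + ((n : ℝ) + 1) := by push_cast; ring
    have e5 : ((n : ℝ) + (1 - y)) ^ 2 = (y - ((n : ℝ) + 1)) ^ 2 := by ring
    rw [e4, e5]
    ring
  have hS : Summable fun n : ℕ => 1 / ((n : ℝ) + δ) ^ 2 + 1 / (((n + 1 : ℕ) : ℝ) + δ) ^ 2 :=
    (KKaux_summable 2 le_rfl δ hδ).add
      ((summable_nat_add_iff 1 (f := fun n : ℕ => 1 / ((n : ℝ) + δ) ^ 2)).mpr
        (KKaux_summable 2 le_rfl δ hδ))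
  have h := hasDerivAt_tsum_of_isPreconnected (𝕜 := ℝ) (F := ℝ)
    (u := fun n : ℕ => 1 / ((n : ℝ) + δ) ^ 2 + 1 / (((n + 1 : ℕ) : ℝ) + δ) ^ 2)
    (g := fun (n : ℕ) (y : ℝ) => 1 / (y - ((n : ℝ) + 1)) + 1 / (y + ((n : ℝ) + 1)))
    (g' := fun (n : ℕ) (y : ℝ) => -(1 / ((n : ℝ) + (1 - y)) ^ 2) + -(1 / (((n + 1 : ℕ) : ℝ) + y) ^ 2))
    (t := Set.Ioo δ (1 - δ)) (y₀ := x) (y := x) hS isOpen_Ioo isPreconnected_Ioo hterm
    (fun n y hy => ?_) ⟨hδx, hδ1⟩ (KKaux_summable_cot x h0 h1) ⟨hδx, hδ1⟩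
  swap
  · obtain ⟨hy1, hy2⟩ := hy
    rw [← neg_add, norm_neg, Real.norm_eq_abs,
      abs_of_nonneg (add_nonneg (one_div_nonneg.mpr (sq_nonneg _))
        (one_div_nonneg.mpr (sq_nonneg _)))]
    apply add_le_add
    · apply one_div_le_one_div_of_le (by positivity)
      apply pow_le_pow_left₀ (by positivity)
      linarith
    · have hy0 : 0 < y := by linarith
      apply one_div_le_one_div_of_le (by positivity)
      apply pow_le_pow_left₀ (by positivity)
      linarith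
  -- derivative of 1/x
  have hinv : HasDerivAt (fun y : ℝ => 1 / y) (-(1 / x ^ 2)) x := by
    have := hasDerivAt_inv h0.ne'
    simp only [one_div]
    exact this
  have hsum := hinv.add h
  have hval : -(1 / x ^ 2) + ∑' n : ℕ, (-(1 / ((n : ℝ) + (1 - x)) ^ 2) +
      -(1 / (((n + 1 : ℕ) : ℝ) + x) ^ 2)) = -(KKaux_A 2 x + KKaux_A 2 (1 - x)) := by
    have s1 := KKaux_summable 2 le_rfl x h0
    have s2 := KKaux_summable 2 le_rfl (1 - x) (by linarith)
    have s3 : Summable fun n : ℕ => 1 / (((n + 1 : ℕ) : ℝ) + x) ^ 2 :=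
      (summable_nat_add_iff 1 (f := fun n : ℕ => 1 / ((n : ℝ) + x) ^ 2)).mpr s1
    rw [(s2.neg).tsum_add s3.neg, tsum_neg, tsum_neg]
    unfold KKaux_A
    rw [s1.tsum_eq_zero_add]
    simp only [Nat.cast_zero, zero_add]
    ring
  rw [hval] at hsum
  refine hsum.congr_of_eventuallyEq ?_
  have hnhds : Set.Ioo (0 : ℝ) 1 ∈ nhds x := Ioo_mem_nhds h0 h1
  filter_upwards [hnhds] with y hy
  exact KKaux_cot y hy.1 hy.2

lemma KKaux_F_deriv (x : ℝ) (h0 : 0 < x) (h1 : x < 1) :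
    HasDerivAt (fun x => KK (2 * Real.pi * x))
      (Real.pi * Real.cos (Real.pi * x) / Real.sin (Real.pi * x)) x := by
  have hpi := Real.pi_pos
  have hs : 0 < Real.sin (Real.pi * x) :=
    Real.sin_pos_of_pos_of_lt_pi (by positivity) (by nlinarith)
  have hfun : (fun x => KK (2 * Real.pi * x)) = fun x => Real.log (2 * Real.sin (Real.pi * x)) := by
    funext y
    unfold KK
    congr 3
    ring
  rw [hfun]
  have d1 : HasDerivAt (fun y : ℝ => Real.pi * y) Real.pi x := by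
    simpa using (hasDerivAt_id x).const_mul Real.pi
  have d2 := (d1.sin).const_mul 2
  have d3 := d2.log (by positivity)
  convert! d3 using 1
  field_simp

lemma KKaux_scale (f : ℝ → ℝ) (c : ℝ) (n : ℕ) (x : ℝ) :
    iteratedDeriv n (fun y => f (c * y)) x = c ^ n * iteratedDeriv n f (c * x) := by
  induction n generalizing x with
  | zero => simp
  | succ n ih =>
    rw [iteratedDeriv_succ, iteratedDeriv_succ]
    have : iteratedDeriv n (fun y => f (c * y)) = fun y => c ^ n * iteratedDeriv n f (c * y) :=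
      funext ih
    rw [this, deriv_const_mul_field, deriv_comp_mul_left c (iteratedDeriv n f) x, smul_eq_mul,
      pow_succ]
    ring

lemma KKaux_formula (j : ℕ) (x : ℝ) (h0 : 0 < x) (h1 : x < 1) :
    iteratedDeriv (j + 2) (fun x => KK (2 * Real.pi * x)) x =
      (-1) ^ (j + 1) * ((j + 1).factorial : ℝ) *
        (KKaux_A (j + 2) x + (-1) ^ (j + 2) * KKaux_A (j + 2) (1 - x)) := by
  induction j generalizing x with
  | zero =>
    have hd : ∀ y ∈ Set.Ioo (0 : ℝ) 1, deriv (fun x => KK (2 * Real.pi * x)) y =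
        Real.pi * Real.cos (Real.pi * y) / Real.sin (Real.pi * y) :=
      fun y hy => (KKaux_F_deriv y hy.1 hy.2).deriv
    rw [iteratedDeriv_succ, iteratedDeriv_one]
    have hev : deriv (fun x => KK (2 * Real.pi * x)) =ᶠ[nhds x]
        fun y => Real.pi * Real.cos (Real.pi * y) / Real.sin (Real.pi * y) := by
      filter_upwards [Ioo_mem_nhds h0 h1] with y hy using hd y hy
    rw [hev.deriv_eq, (KKaux_G_deriv x h0 h1).deriv]
    norm_num
  | succ j ih =>
    rw [show j + 1 + 2 = (j + 2) + 1 from rfl, iteratedDeriv_succ]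
    have hev : iteratedDeriv (j + 2) (fun x => KK (2 * Real.pi * x)) =ᶠ[nhds x]
        fun y => (-1) ^ (j + 1) * ((j + 1).factorial : ℝ) *
        (KKaux_A (j + 2) y + (-1) ^ (j + 2) * KKaux_A (j + 2) (1 - y)) := by
      filter_upwards [Ioo_mem_nhds h0 h1] with y hy using ih y hy.1 hy.2
    rw [hev.deriv_eq]
    have dA := KKaux_A_deriv (j + 2) (by omega) x h0
    have dB0 := KKaux_A_deriv (j + 2) (by omega) (1 - x) (by linarith)
    have dsub : HasDerivAt (fun y : ℝ => 1 - y) (-1) x := by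
      simpa using (hasDerivAt_id x).const_sub 1
    have dB := HasDerivAt.comp x dB0 dsub
    have dT := (dA.add (dB.const_mul ((-1 : ℝ) ^ (j + 2)))).const_mul
      ((-1 : ℝ) ^ (j + 1) * ((j + 1).factorial : ℝ))
    have := dT.deriv
    simp only [Function.comp_def] at this
    refine Eq.trans this ?_
    rw [Nat.factorial_succ (j + 1)]
    push_cast
    ring

theorem KK_iteratedDeriv (j : ℕ) (hj : 2 ≤ j) (x : ℝ) (h0 : 0 < x) (h1 : x < 1) :
    (2 * Real.pi) ^ j * iteratedDeriv j KK (2 * Real.pi * x) =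
      (-1) ^ (j - 1) * ((j - 1).factorial : ℝ) *
        ((∑' n : ℕ, 1 / ((n : ℝ) + x) ^ j) + (-1) ^ j * ∑' n : ℕ, 1 / ((n : ℝ) + (1 - x)) ^ j) := by
  obtain ⟨k, rfl⟩ : ∃ k, j = k + 2 := ⟨j - 2, by omega⟩
  rw [← KKaux_scale KK (2 * Real.pi) (k + 2) x]
  exact KKaux_formula k x h0 h1

end Pool.Agent.Helper51.Moser
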