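import Pool.Agent.Helper51.Moser.Cyc
import Pool.Agent.Helper51.Moser.KKDeriv

open Finset

namespace Pool.Agent.Helper51.Moser

theorem KK_sum_ge_two {N : ℕ} [NeZero N] (χ : DirichletCharacter ℂ N) (h1 : χ ≠ 1) (j : ℕ)
    (hj : 2 ≤ j) (hp : χ (-1) = (-1) ^ j) :
    ∑ a : ZMod N, χ a * ((iteratedDeriv j KK (2 * Real.pi * (a.val : ℝ) / N) : ℝ) : ℂ) ≠ 0 := by
  classical
  intro hS
  obtain ⟨A, hA⟩ : ∃ A : ℝ → ℝ, ∀ x, A x = ∑' n : ℕ, 1 / ((n:ℝ) + x) ^ j := ⟨_, fun _ => rfl⟩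
  have hN0 : (0:ℝ) < N := by exact_mod_cast Nat.pos_of_ne_zero (NeZero.ne N)
  have hπ := Real.pi_pos
  have hχ0 : χ 0 = 0 := by
    apply χ.map_nonunit
    intro hu
    have hss : Subsingleton (ZMod N) := subsingleton_of_zero_eq_one (isUnit_zero_iff.mp hu)
    apply h1
    apply MulChar.ext
    intro a
    have ha : a = 1 := Units.ext (Subsingleton.elim _ _)
    rw [ha]
    simp
  have hval : ∀ a : ZMod N, a ≠ 0 → 0 < (a.val : ℝ) / N ∧ (a.val : ℝ) / N < 1 := by
    intro a ha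
    have e1 : 0 < a.val := Nat.pos_of_ne_zero ((ZMod.val_ne_zero a).mpr ha)
    have e2 : a.val < N := ZMod.val_lt a
    have e1' : (0:ℝ) < a.val := by exact_mod_cast e1
    have e2' : (a.val : ℝ) < N := by exact_mod_cast e2
    exact ⟨div_pos e1' hN0, (div_lt_one hN0).mpr e2'⟩
  have hneg : ∀ a : ZMod N, a ≠ 0 → ((-a).val : ℝ) / N = 1 - (a.val : ℝ) / N := by
    intro a ha
    rw [ZMod.neg_val, if_neg ha, Nat.cast_sub (ZMod.val_lt a).le, sub_div, div_self hN0.ne']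
  obtain ⟨c, hc⟩ : ∃ c : ℂ, c = (-1) ^ (j - 1) * ((j - 1).factorial : ℂ) := ⟨_, rfl⟩
  have hc0 : c ≠ 0 := by
    rw [hc]
    apply mul_ne_zero
    · exact pow_ne_zero _ (by norm_num)
    · exact_mod_cast (Nat.factorial_ne_zero _)
  have hterm : ∀ a : ZMod N, (2 * (Real.pi : ℂ)) ^ j *
      (χ a * ((iteratedDeriv j KK (2 * Real.pi * (a.val : ℝ) / N) : ℝ) : ℂ))
      = c * (χ a * ((A ((a.val : ℝ) / N) : ℝ) : ℂ)
        + χ (-a) * ((A (((-a).val : ℝ) / N) : ℝ) : ℂ)) := by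
    intro a
    by_cases ha : a = 0
    · rw [ha, neg_zero, hχ0]
      simp
    · obtain ⟨e1, e2⟩ := hval a ha
      have e3 := KK_iteratedDeriv j hj ((a.val : ℝ) / N) e1 e2
      rw [← hA, ← hA, ← hneg a ha] at e3
      have e4 : 2 * Real.pi * ((a.val : ℝ) / N) = 2 * Real.pi * (a.val : ℝ) / N := by ring
      rw [e4] at e3
      have e5 := congrArg (fun x : ℝ => (x : ℂ)) e3
      simp only [Complex.ofReal_mul, Complex.ofReal_pow, Complex.ofReal_ofNat, Complex.ofReal_add,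
        Complex.ofReal_neg, Complex.ofReal_one, Complex.ofReal_natCast] at e5
      have e6 : χ (-a) = (-1) ^ j * χ a := by
        rw [← hp, ← map_mul, neg_one_mul]
      rw [e6, hc]
      linear_combination (χ a) * e5
  have hsum : (2 * (Real.pi : ℂ)) ^ j *
      (∑ a : ZMod N, χ a * ((iteratedDeriv j KK (2 * Real.pi * (a.val : ℝ) / N) : ℝ) : ℂ))
      = c * (2 * ∑ a : ZMod N, χ a * ((A ((a.val : ℝ) / N) : ℝ) : ℂ)) := by
    rw [Finset.mul_sum, Finset.sum_congr rfl (fun a _ => hterm a), ← Finset.mul_sum,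
      Finset.sum_add_distrib]
    congr 1
    have e1 := Equiv.sum_comp (Equiv.neg (ZMod N))
      (fun a : ZMod N => χ a * ((A ((a.val : ℝ) / N) : ℝ) : ℂ))
    simp only [Equiv.neg_apply] at e1
    rw [e1]
    ring
  rw [hS, mul_zero] at hsum
  have hz : ∑ a : ZMod N, χ a * ((A ((a.val : ℝ) / N) : ℝ) : ℂ) = 0 := by
    have e1 := (mul_eq_zero.mp hsum.symm).resolve_left hc0
    exact (mul_eq_zero.mp e1).resolve_left (by norm_num)
  have hjre : 1 < ((j : ℕ) : ℂ).re := by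
    rw [Complex.natCast_re]
    exact_mod_cast (by omega : 1 < j)
  have hL : DirichletCharacter.LFunction χ (j : ℂ) = 0 := by
    unfold DirichletCharacter.LFunction ZMod.LFunction
    have e1 : ∀ a : ZMod N, χ a * HurwitzZeta.hurwitzZeta (ZMod.toAddCircle a) (j : ℂ)
        = χ a * ((A ((a.val : ℝ) / N) : ℝ) : ℂ) := by
      intro a
      by_cases ha : a = 0
      · rw [ha, hχ0, zero_mul, zero_mul]
      · obtain ⟨f1, f2⟩ := hval a ha
        congr 1
        rw [ZMod.toAddCircle_apply,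
          ← (HurwitzZeta.hasSum_hurwitzZeta_of_one_lt_re ⟨f1.le, f2.le⟩ hjre).tsum_eq, hA,
          Complex.ofReal_tsum]
        apply tsum_congr
        intro n
        rw [Complex.cpow_natCast]
        push_cast
        rfl
    rw [Finset.sum_congr rfl (fun a _ => e1 a), hz, mul_zero]
  exact DirichletCharacter.LFunction_ne_zero_of_one_le_re χ (Or.inl h1) hjre.le hL

end Pool.Agent.Helper51.Moser
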