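import Pool.Agent.Helper51.Moser.Cyc

open Finset

namespace Pool.Agent.Helper51.Moser

/-- the block sums for real exponent -/
noncomputable def blk {N : ℕ} (χ : DirichletCharacter ℂ N) (s : ℝ) (m : ℕ) : ℂ :=
  ∑ a ∈ Finset.range N, χ ((a + 1 : ℕ) : ZMod N) * ((((m * N + (a + 1) : ℕ) : ℝ) ^ (-s) : ℝ) : ℂ)

theorem blk_hasSum {N : ℕ} [NeZero N] (χ : DirichletCharacter ℂ N) (s : ℝ) (hs : 1 < s) :
    HasSum (blk χ s) (DirichletCharacter.LFunction χ (s : ℂ)) := by
  have hs' : 1 < (s : ℂ).re := by simpa using hs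
  have h1 : LSeriesSummable (fun n => χ n) (s : ℂ) := DirichletCharacter.LSeriesSummable_of_one_lt_re χ hs'
  have h2 : HasSum (LSeries.term (fun n => χ n) (s : ℂ)) (DirichletCharacter.LFunction χ (s : ℂ)) := by
    rw [DirichletCharacter.LFunction_eq_LSeries χ hs']
    exact h1.hasSum
  have h3 : HasSum (fun n : ℕ => χ ((n + 1 : ℕ) : ZMod N) * ((((n + 1 : ℕ) : ℝ) ^ (-s) : ℝ) : ℂ))
      (DirichletCharacter.LFunction χ (s : ℂ)) := by
    have h4 := (hasSum_nat_add_iff' (f := LSeries.term (fun n => χ n) (s : ℂ)) 1).mpr h2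
    simp only [Finset.sum_range_one, LSeries.term_zero, sub_zero] at h4
    have e : (fun n : ℕ => LSeries.term (fun n => χ n) (s : ℂ) (n + 1)) =
        (fun n : ℕ => χ ((n + 1 : ℕ) : ZMod N) * ((((n + 1 : ℕ) : ℝ) ^ (-s) : ℝ) : ℂ)) := by
      funext n
      rw [LSeries.term_of_ne_zero (Nat.succ_ne_zero n), Complex.ofReal_cpow (by positivity),
        Complex.ofReal_neg, Complex.cpow_neg, div_eq_mul_inv, Complex.ofReal_natCast]
    rw [← e]
    exact h4
  have h5 := (Nat.divModEquiv N).symm.hasSum_iff.mpr h3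
  have h6 := h5.prod_fiberwise (g := fun m : ℕ => blk χ s m) ?_
  · exact h6
  · intro m
    have h7 := hasSum_fintype (fun c : Fin N => ((fun n : ℕ => χ ((n + 1 : ℕ) : ZMod N) *
      ((((n + 1 : ℕ) : ℝ) ^ (-s) : ℝ) : ℂ)) ∘ (Nat.divModEquiv N).symm) (m, c))
    convert h7 using 1
    unfold blk
    rw [Finset.sum_range]
    refine Finset.sum_congr rfl fun c _ => ?_
    have e : (Nat.divModEquiv N).symm (m, c) = m * N + c := rfl
    simp only [Function.comp, e]
    congr 2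
    push_cast
    simp

theorem blk_bound {N : ℕ} [NeZero N] (χ : DirichletCharacter ℂ N) (hχ : χ ≠ 1) (s : ℝ) (hs : 1 ≤ s)
    (hs2 : s ≤ 2) (m : ℕ) : ‖blk χ s m‖ ≤ 2 * (N : ℝ) ^ 2 * (1 / ((m : ℝ) + 1) ^ 2) := by
  have hN : 1 ≤ N := Nat.one_le_iff_ne_zero.mpr (NeZero.ne N)
  have hNr : (1 : ℝ) ≤ N := by exact_mod_cast hN
  -- sum of characters
  have hsum : ∑ a ∈ Finset.range N, χ ((a + 1 : ℕ) : ZMod N) = 0 := by
    have h1 : ∑ x : ZMod N, χ x = 0 := MulChar.sum_eq_zero_of_ne_one hχ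
    have h2 : ∑ x : ZMod N, χ (x + 1) = 0 := by
      rw [← h1]
      exact Fintype.sum_equiv (Equiv.addRight (1 : ZMod N)) _ _ (fun x => rfl)
    rw [← h2, Finset.sum_range]
    obtain ⟨n, rfl⟩ : ∃ n, N = n + 1 := ⟨N - 1, by omega⟩
    refine Fintype.sum_equiv (Equiv.refl (Fin (n + 1))) _ (fun x : ZMod (n + 1) => χ (x + 1)) (fun i => ?_)
    have h3 : ((i : ℕ) : ZMod (n + 1)) = (show ZMod (n + 1) from i) := Fin.cast_val_eq_self i
    show χ (((i : ℕ) + 1 : ℕ) : ZMod (n + 1)) = χ ((show ZMod (n + 1) from i) + 1)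
    rw [Nat.cast_add, Nat.cast_one, h3]
  have e : blk χ s m = ∑ a ∈ Finset.range N, χ ((a + 1 : ℕ) : ZMod N) *
      (((((m * N + (a + 1) : ℕ) : ℝ) ^ (-s) - (((m : ℝ) + 1) * N) ^ (-s) : ℝ)) : ℂ) := by
    unfold blk
    rw [← sub_zero (∑ a ∈ Finset.range N, χ ((a + 1 : ℕ) : ZMod N) * ((((m * N + (a + 1) : ℕ) : ℝ) ^ (-s) : ℝ) : ℂ)),
      ← zero_mul ((((((m : ℝ) + 1) * N) ^ (-s) : ℝ)) : ℂ), ← hsum, Finset.sum_mul, ← Finset.sum_sub_distrib]
    refine Finset.sum_congr rfl fun a _ => ?_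
    rw [Complex.ofReal_sub]; ring
  rw [e]
  refine (norm_sum_le _ _).trans ?_
  have hb : ∀ a ∈ Finset.range N, ‖χ ((a + 1 : ℕ) : ZMod N) *
      (((((m * N + (a + 1) : ℕ) : ℝ) ^ (-s) - (((m : ℝ) + 1) * N) ^ (-s) : ℝ)) : ℂ)‖ ≤
        2 * (N : ℝ) * (1 / ((m : ℝ) + 1) ^ 2) := by
    intro a ha
    rw [Finset.mem_range] at ha
    rw [norm_mul, Complex.norm_real, Real.norm_eq_abs]
    have hχ1 : ‖χ ((a + 1 : ℕ) : ZMod N)‖ ≤ 1 := DirichletCharacter.norm_le_one χ _
    set x : ℝ := ((m * N + (a + 1) : ℕ) : ℝ) with hx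
    set y : ℝ := ((m : ℝ) + 1) * N with hy
    have hx1 : (m : ℝ) + 1 ≤ x := by
      rw [hx]; push_cast
      have : (m : ℝ) ≤ m * N := by nlinarith [Nat.cast_nonneg (α := ℝ) m]
      have : (0 : ℝ) ≤ a := Nat.cast_nonneg _
      linarith
    have hxy : x ≤ y := by
      rw [hx, hy]
      have : m * N + (a + 1) ≤ (m + 1) * N := by nlinarith
      exact_mod_cast this
    have hyx : y - x ≤ N := by
      rw [hx, hy]; push_cast
      have : (0 : ℝ) ≤ a := Nat.cast_nonneg _
      linarith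
    have hm0 : (0 : ℝ) ≤ m := Nat.cast_nonneg _
    have hy1 : (m : ℝ) + 1 ≤ y := hx1.trans hxy
    have hx0 : 0 < x := by linarith
    have hy0 : 0 < y := by linarith
    have hkey : |x ^ (-s) - y ^ (-s)| ≤ 2 * (N : ℝ) * (1 / ((m : ℝ) + 1) ^ 2) := by
      have hmono : y ^ (-s) ≤ x ^ (-s) := Real.rpow_le_rpow_of_nonpos hx0 hxy (by linarith)
      rw [abs_of_nonneg (by linarith)]
      -- x^-s - y^-s = x^-s (1 - (x/y)^s)
      have h1 : y ^ (-s) = x ^ (-s) * (x / y) ^ s := by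
        rw [Real.div_rpow hx0.le hy0.le, Real.rpow_neg hx0.le, Real.rpow_neg hy0.le]
        field_simp
      have h2 : 1 + s * (x / y - 1) ≤ (1 + (x / y - 1)) ^ s :=
        one_add_mul_self_le_rpow_one_add (by have : 0 ≤ x / y := by positivity
                                             linarith) hs
      rw [show 1 + (x / y - 1) = x / y by ring] at h2
      have h3 : x ^ (-s) - y ^ (-s) ≤ x ^ (-s) * (s * (1 - x / y)) := by
        rw [h1]
        have : 0 ≤ x ^ (-s) := Real.rpow_nonneg hx0.le _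
        nlinarith
      have h4 : x ^ (-s) ≤ 1 / x := by
        rw [one_div, ← Real.rpow_neg_one x]
        exact Real.rpow_le_rpow_of_exponent_le (by linarith) (by linarith)
      have h5 : 0 ≤ 1 - x / y := by
        rw [sub_nonneg, div_le_one hy0]; exact hxy
      have h6 : s * (1 - x / y) ≤ 2 * (N / y) := by
        have : 1 - x / y = (y - x) / y := by field_simp
        rw [this]
        have h7 : (y - x) / y ≤ N / y := by gcongr
        have h8 : 0 ≤ (y - x) / y := by rw [← this]; exact h5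
        nlinarith
      have h9 : x ^ (-s) * (s * (1 - x / y)) ≤ 1 / x * (2 * (N / y)) := by
        gcongr
      refine h3.trans (h9.trans ?_)
      have h10 : 1 / x * (2 * (N / y)) = 2 * (N : ℝ) * (1 / (x * y)) := by field_simp
      rw [h10]
      have h11 : ((m : ℝ) + 1) ^ 2 ≤ x * y := by nlinarith
      gcongr
    calc ‖χ ((a + 1 : ℕ) : ZMod N)‖ * |x ^ (-s) - y ^ (-s)| ≤ 1 * (2 * (N : ℝ) * (1 / ((m : ℝ) + 1) ^ 2)) := by
          gcongr
      _ = _ := one_mul _
  refine (Finset.sum_le_sum hb).trans ?_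
  rw [Finset.sum_const, Finset.card_range, nsmul_eq_mul]
  apply le_of_eq; ring

theorem LFunction_one_block {N : ℕ} [NeZero N] (χ : DirichletCharacter ℂ N) (hχ : χ ≠ 1) :
    HasSum (fun m : ℕ => ∑ a ∈ Finset.range N, χ ((a + 1 : ℕ) : ZMod N) / ((m * N + (a + 1) : ℕ) : ℂ))
      (DirichletCharacter.LFunction χ 1) := by
  have hbs : Summable (fun m : ℕ => 2 * (N : ℝ) ^ 2 * (1 / ((m : ℝ) + 1) ^ 2)) := by
    refine Summable.mul_left _ ?_
    have := (summable_nat_add_iff 1).mpr (Real.summable_one_div_nat_pow.mpr (by norm_num : 1 < 2))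
    refine this.congr fun m => ?_
    push_cast; rfl
  have h1 : blk χ 1 = (fun m : ℕ => ∑ a ∈ Finset.range N, χ ((a + 1 : ℕ) : ZMod N) / ((m * N + (a + 1) : ℕ) : ℂ)) := by
    funext m
    unfold blk
    refine Finset.sum_congr rfl fun a _ => ?_
    rw [Real.rpow_neg_one, Complex.ofReal_inv, Complex.ofReal_natCast, div_eq_mul_inv]
  rw [← h1]
  have hsum1 : Summable (blk χ 1) :=
    Summable.of_norm_bounded hbs (fun m => blk_bound χ hχ 1 le_rfl (by norm_num) m)
  have ht : Filter.Tendsto (fun s : ℝ => ∑' m, blk χ s m) (nhdsWithin 1 (Set.Ioi 1))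
      (nhds (∑' m, blk χ 1 m)) := by
    refine tendsto_tsum_of_dominated_convergence hbs ?_ ?_
    · intro m
      unfold blk
      refine tendsto_finsetSum _ fun a _ => ?_
      refine Filter.Tendsto.const_mul _ ?_
      refine (Complex.continuous_ofReal.tendsto _).comp ?_
      refine Filter.Tendsto.mono_left ?_ nhdsWithin_le_nhds
      have hc : Continuous (fun s : ℝ => (((m * N + (a + 1) : ℕ) : ℝ)) ^ (-s)) :=
        Real.continuous_const_rpow (by positivity) |>.comp continuous_neg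
      exact hc.tendsto 1
    · have h2 : ∀ᶠ s : ℝ in nhdsWithin 1 (Set.Ioi 1), s ∈ Set.Ioo (1 : ℝ) 2 :=
        Ioo_mem_nhdsGT (by norm_num)
      filter_upwards [h2] with s hs m
      exact blk_bound χ hχ s hs.1.le hs.2.le m
  have ht2 : Filter.Tendsto (fun s : ℝ => ∑' m, blk χ s m) (nhdsWithin 1 (Set.Ioi 1))
      (nhds (DirichletCharacter.LFunction χ 1)) := by
    have hc : Filter.Tendsto (fun s : ℝ => DirichletCharacter.LFunction χ (s : ℂ))
        (nhdsWithin 1 (Set.Ioi 1)) (nhds (DirichletCharacter.LFunction χ 1)) := by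
      have h3 : Continuous (fun s : ℝ => DirichletCharacter.LFunction χ (s : ℂ)) :=
        (DirichletCharacter.differentiable_LFunction hχ).continuous.comp Complex.continuous_ofReal
      have h4 := (h3.tendsto 1).mono_left (nhdsWithin_le_nhds (s := Set.Ioi (1 : ℝ)))
      simpa using h4
    refine hc.congr' ?_
    filter_upwards [self_mem_nhdsWithin] with s hs
    exact ((blk_hasSum χ s hs).tsum_eq).symm
  have := tendsto_nhds_unique ht ht2
  rw [← this]
  exact hsum1.hasSum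

end Pool.Agent.Helper51.Moser
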