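import Pool.Agent.Helper51.Moser.Cyc
import Pool.Agent.Helper51.Moser.Basic
import Pool.Agent.Helper51.Moser.LFunBlock

open Finset

namespace Pool.Agent.Helper51.Moser

theorem KK_sum_one {N : ℕ} [NeZero N] (χ : DirichletCharacter ℂ N)
    (ho : χ (-1) = -1) :
    ∑ a : ZMod N, χ a * ((deriv KK (2 * Real.pi * (a.val : ℝ) / N) : ℝ) : ℂ) ≠ 0 := by
  classical
  have hNpos : 0 < N := Nat.pos_of_ne_zero (NeZero.ne N)
  have hNC : (N : ℂ) ≠ 0 := by exact_mod_cast hNpos.ne'
  have hN1 : N ≠ 1 := by
    rintro rfl
    have : (-1 : ZMod 1) = 1 := Subsingleton.elim _ _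
    rw [this, map_one] at ho
    norm_num at ho
  have hχ : χ ≠ 1 := by
    rintro rfl
    have hu : IsUnit (-1 : ZMod N) := isUnit_one.neg
    rw [MulChar.one_apply hu] at ho
    norm_num at ho
  have hnt : Nontrivial (ZMod N) := by
    have : Fact (1 < N) := ⟨by omega⟩
    infer_instance
  have hχ0 : χ 0 = 0 := MulChar.map_zero χ
  -- points
  let x : ZMod N → ℂ := fun a => (a.val : ℂ) / N
  have hmem : ∀ a : ZMod N, a ≠ 0 → x a ∈ Complex.integerComplement := by
    intro a ha
    rw [Complex.mem_integerComplement_iff]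
    rintro ⟨n, hn⟩
    have h1 : (n : ℂ) * N = a.val := by
      rw [hn]; simp only [x]; field_simp
    have h2 : n * (N : ℤ) = (a.val : ℤ) := by exact_mod_cast h1
    have h3 : 0 < a.val := Nat.pos_of_ne_zero fun h => ha ((ZMod.val_eq_zero a).1 h)
    have h4 : a.val < N := ZMod.val_lt a
    have h5 : 0 < n := by
      by_contra h
      push Not at h
      have : n * (N : ℤ) ≤ 0 := mul_nonpos_of_nonpos_of_nonneg h (by positivity)
      omega
    have h6 : (N : ℤ) ≤ n * N := by nlinarith
    omega
  let S : ℕ → ℂ := fun n => ∑ a : ZMod N, χ a * (1 / (x a + n))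
  have hS : HasSum S (N * DirichletCharacter.LFunction χ 1) := by
    have h := (LFunction_one_block χ hχ).mul_left (N : ℂ)
    suffices hh : S = fun m : ℕ => (N : ℂ) * ∑ a ∈ Finset.range N,
        χ ((a + 1 : ℕ) : ZMod N) / ((m * N + (a + 1) : ℕ) : ℂ) by
      rw [hh]; exact h
    funext m
    let F : ℕ → ℂ := fun b => χ ((b : ℕ) : ZMod N) / ((m * N + b : ℕ) : ℂ)
    have e1 : ∑ a ∈ Finset.range N, χ ((a + 1 : ℕ) : ZMod N) / ((m * N + (a + 1) : ℕ) : ℂ)
        = ∑ b ∈ Finset.range N, F b := by
      have h1 := Finset.sum_range_succ' F N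
      have h2 := Finset.sum_range_succ F N
      have h3 : F 0 = 0 := by simp [F, hχ0]
      have h4 : F N = 0 := by simp [F, hχ0]
      rw [h3, add_zero] at h1
      rw [h4, add_zero] at h2
      rw [← h2, h1]
    have e2 : ∑ b ∈ Finset.range N, F b = ∑ a : ZMod N, F a.val := by
      refine Finset.sum_bij' (fun b _ => ((b : ℕ) : ZMod N)) (fun a _ => a.val) ?_ ?_ ?_ ?_ ?_
      · intro b _; exact Finset.mem_univ _
      · intro a _; exact Finset.mem_range.2 (ZMod.val_lt a)
      · intro b hb; exact ZMod.val_natCast_of_lt (Finset.mem_range.1 hb)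
      · intro a _; exact ZMod.natCast_zmod_val a
      · intro b hb
        rw [ZMod.val_natCast_of_lt (Finset.mem_range.1 hb)]
    rw [e1, e2, Finset.mul_sum]
    refine Finset.sum_congr rfl fun a _ => ?_
    simp only [F, x, ZMod.natCast_zmod_val]
    by_cases ha : a = 0
    · subst ha; simp [hχ0]
    · have h3 : 0 < a.val := Nat.pos_of_ne_zero fun h => ha ((ZMod.val_eq_zero a).1 h)
      have h4 : ((m * N + a.val : ℕ) : ℂ) ≠ 0 := by
        have : 0 < m * N + a.val := by positivity
        exact_mod_cast this.ne'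
      have h5 : (a.val : ℂ) / N + m ≠ 0 := by
        intro h
        apply h4
        have : (a.val : ℂ) / N + m = ((m * N + a.val : ℕ) : ℂ) / N := by
          push_cast; field_simp; ring
        rw [this] at h
        rcases div_eq_zero_iff.1 h with h | h
        · exact h
        · exact absurd h hNC
      push_cast at h4 ⊢
      field_simp
      ring
  have hS1 : HasSum (fun n => S (n + 1)) (N * DirichletCharacter.LFunction χ 1 - S 0) := by
    have := (hasSum_nat_add_iff' (f := S) 1).2 hS
    simpa using this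
  -- cot series
  have hcot : HasSum (fun n : ℕ => ∑ a : ZMod N, χ a *
      (1 / (x a - (n + 1)) + 1 / (x a + (n + 1))))
      (∑ a : ZMod N, χ a * (Real.pi * Complex.cot (Real.pi * x a) - 1 / x a)) := by
    refine hasSum_sum fun a _ => ?_
    by_cases ha : a = 0
    · subst ha
      simp only [hχ0, zero_mul]
      exact hasSum_zero
    · refine HasSum.mul_left _ ?_
      rw [cot_series_rep' (hmem a ha)]
      exact (summable_cotTerm (hmem a ha)).hasSum
  have hterm : ∀ n : ℕ, ∑ a : ZMod N, χ a * (1 / (x a - (n + 1)) + 1 / (x a + (n + 1)))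
      = S n + S (n + 1) := by
    intro n
    simp only [mul_add, Finset.sum_add_distrib]
    congr 1
    · rw [← Equiv.sum_comp (Equiv.neg (ZMod N))]
      refine Finset.sum_congr rfl fun a _ => ?_
      simp only [Equiv.neg_apply]
      by_cases ha : a = 0
      · subst ha; simp [hχ0]
      · have h1 : χ (-a) = - χ a := by
          rw [← neg_one_mul, map_mul, ho, neg_one_mul]
        have h2 : x (-a) = 1 - x a := by
          simp only [x, ZMod.neg_val, if_neg ha]
          rw [Nat.cast_sub (ZMod.val_lt a).le]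
          field_simp
        rw [h1, h2]
        have h3 : (1 - x a - ((n : ℂ) + 1)) = -(x a + n) := by ring
        rw [h3, one_div, one_div, inv_neg]
        ring
    · refine Finset.sum_congr rfl fun a _ => ?_
      push_cast
      rfl
  simp only [hterm] at hcot
  have huniq := hcot.unique (hS.add hS1)
  have hmain : ∑ a : ZMod N, χ a * (Real.pi * Complex.cot (Real.pi * x a))
      = 2 * (N * DirichletCharacter.LFunction χ 1) := by
    have h1 : ∑ a : ZMod N, χ a * (Real.pi * Complex.cot (Real.pi * x a) - 1 / x a)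
        = ∑ a : ZMod N, χ a * (Real.pi * Complex.cot (Real.pi * x a)) - S 0 := by
      simp only [S, mul_sub, Finset.sum_sub_distrib]
      simp
    rw [h1] at huniq
    linear_combination huniq
  intro hT
  have hder : ∀ a : ZMod N, χ a * (Real.pi * Complex.cot (Real.pi * x a))
      = (2 * Real.pi) * (χ a * ((deriv KK (2 * Real.pi * (a.val : ℝ) / N) : ℝ) : ℂ)) := by
    intro a
    by_cases ha : a = 0
    · subst ha; simp [hχ0]
    · set θ : ℝ := 2 * Real.pi * (a.val : ℝ) / N with hθ
      have h3 : 0 < a.val := Nat.pos_of_ne_zero fun h => ha ((ZMod.val_eq_zero a).1 h)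
      have h4 : a.val < N := ZMod.val_lt a
      have hNr : (0 : ℝ) < N := by exact_mod_cast hNpos
      have h5 : 0 < θ / 2 := by
        have : (0 : ℝ) < a.val := by exact_mod_cast h3
        have := Real.pi_pos
        positivity
      have h6 : θ / 2 < Real.pi := by
        have h7 : (a.val : ℝ) < N := by exact_mod_cast h4
        have h8 : θ / 2 = Real.pi * ((a.val : ℝ) / N) := by rw [hθ]; ring
        rw [h8]
        have h9 : (a.val : ℝ) / N < 1 := (div_lt_one hNr).2 h7
        nlinarith [Real.pi_pos]
      have hs : 0 < Real.sin (θ / 2) := Real.sin_pos_of_pos_of_lt_pi h5 h6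
      have hd : HasDerivAt KK ((2 * (Real.cos (θ / 2) * (1 / 2))) / (2 * Real.sin (θ / 2))) θ := by
        have h1 : HasDerivAt (fun t : ℝ => t / 2) (1 / 2) θ := (hasDerivAt_id θ).div_const 2
        have h2 := (h1.sin.const_mul 2).log (by positivity)
        exact h2
      rw [hd.deriv]
      have h10 : (Real.pi : ℂ) * x a = ((θ / 2 : ℝ) : ℂ) := by
        simp only [x, hθ]; push_cast; ring
      rw [h10, Complex.cot_eq_cos_div_sin, ← Complex.ofReal_cos, ← Complex.ofReal_sin]
      have h11 : ((Real.sin (θ / 2) : ℝ) : ℂ) ≠ 0 := by exact_mod_cast hs.ne'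
      push_cast at h11 ⊢
      field_simp
  have hzero : (2 : ℂ) * (N * DirichletCharacter.LFunction χ 1) = 0 := by
    rw [← hmain]
    simp only [hder]
    rw [← Finset.mul_sum, hT, mul_zero]
  have hL := DirichletCharacter.LFunction_apply_one_ne_zero hχ
  apply hL
  rcases mul_eq_zero.1 hzero with h | h
  · norm_num at h
  · rcases mul_eq_zero.1 h with h | h
    · exact absurd h hNC
    · exact h

end Pool.Agent.Helper51.Moser
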