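import Pool.Agent.Helper51.Moser.Cyc
import Pool.Agent.Helper51.Moser.LFunBlock

open Finset

namespace Pool.Agent.Helper51.Moser

theorem tendsto_LFunction_one {N : ℕ} [NeZero N] (χ : DirichletCharacter ℂ N) (hχ : χ ≠ 1) :
    Filter.Tendsto (fun M : ℕ => ∑ n ∈ Finset.range M, χ (n : ZMod N) / n) Filter.atTop
      (nhds (DirichletCharacter.LFunction χ 1)) := by 

  classical
  obtain ⟨L, hL⟩ : ∃ L, L = DirichletCharacter.LFunction χ 1 := ⟨_, rfl⟩
  obtain ⟨f, hf⟩ : ∃ f : ℕ → ℂ, f = fun n : ℕ => χ (n : ZMod N) / (n : ℂ) := ⟨_, rfl⟩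
  have hNpos : 0 < N := Nat.pos_of_ne_zero (NeZero.ne N)
  rw [← hL]
  have hB : ∀ m : ℕ, ∑ k ∈ Finset.range m, (∑ a ∈ Finset.range N,
      χ ((a + 1 : ℕ) : ZMod N) / ((k * N + (a + 1) : ℕ) : ℂ)) =
      ∑ n ∈ Finset.range (m * N + 1), f n := by
    intro m
    induction m with
    | zero => simp [hf]
    | succ m ih =>
      rw [Finset.sum_range_succ, ih]
      have h1 : (m + 1) * N + 1 = (m * N + 1) + N := by ring
      rw [h1, Finset.sum_range_add f (m * N + 1) N]
      congr 1
      refine Finset.sum_congr rfl fun a _ => ?_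
      rw [hf]
      have h2 : m * N + 1 + a = m * N + (a + 1) := by ring
      have h3 : ((m * N + (a + 1) : ℕ) : ZMod N) = ((a + 1 : ℕ) : ZMod N) := by
        push_cast
        rw [ZMod.natCast_self]
        ring
      simp only [h2, h3]
  have h0 : Filter.Tendsto f Filter.atTop (nhds 0) := by
    refine squeeze_zero_norm (a := fun n : ℕ => (1 : ℝ) / n) ?_ tendsto_one_div_atTop_nhds_zero_nat
    intro n
    rw [hf]
    show ‖χ (n : ZMod N) / (n : ℂ)‖ ≤ 1 / (n : ℝ)
    rw [norm_div, Complex.norm_natCast]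
    exact div_le_div_of_nonneg_right (DirichletCharacter.norm_le_one χ _) (Nat.cast_nonneg n)
  have h1 : Filter.Tendsto (fun m : ℕ => ∑ n ∈ Finset.range (m * N + 1), f n) Filter.atTop
      (nhds L) := by
    have h2 := (LFunction_one_block χ hχ).tendsto_sum_nat
    rw [← hL] at h2
    exact h2.congr hB
  have hlin : ∀ r : ℕ, Filter.Tendsto (fun m : ℕ => m * N + r) Filter.atTop Filter.atTop := by
    intro r
    refine Filter.tendsto_atTop_mono (fun m => ?_) Filter.tendsto_id
    show m ≤ m * N + r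
    have : m * 1 ≤ m * N := Nat.mul_le_mul_left m hNpos
    omega
  have hr : ∀ r : ℕ, Filter.Tendsto (fun m : ℕ => ∑ n ∈ Finset.range (m * N + (r + 1)), f n)
      Filter.atTop (nhds L) := by
    intro r
    induction r with
    | zero => exact h1
    | succ r ih =>
      have h3 := ih.add (h0.comp (hlin (r + 1)))
      rw [add_zero] at h3
      refine h3.congr fun m => ?_
      have h4 : m * N + (r + 1 + 1) = (m * N + (r + 1)) + 1 := by ring
      rw [h4, Finset.sum_range_succ]
      rfl
  have hr0 : Filter.Tendsto (fun m : ℕ => ∑ n ∈ Finset.range (m * N + 0), f n)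
      Filter.atTop (nhds L) := by
    have h3 := h1.sub (h0.comp (hlin 0))
    rw [sub_zero] at h3
    refine h3.congr fun m => ?_
    rw [Finset.sum_range_succ]
    simp
  have hall : ∀ r : ℕ, Filter.Tendsto (fun m : ℕ => ∑ n ∈ Finset.range (m * N + r), f n)
      Filter.atTop (nhds L) := by
    intro r
    cases r with
    | zero => exact hr0
    | succ r => exact hr r
  rw [Metric.tendsto_nhds]
  intro ε hε
  have h5 : ∀ᶠ m : ℕ in Filter.atTop, ∀ r ∈ Finset.range N,
      dist (∑ n ∈ Finset.range (m * N + r), f n) L < ε := by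
    rw [Finset.eventually_all]
    intro r _
    exact (Metric.tendsto_nhds.1 (hall r)) ε hε
  have h6 : Filter.Tendsto (fun M : ℕ => M / N) Filter.atTop Filter.atTop :=
    Nat.tendsto_div_const_atTop hNpos.ne'
  filter_upwards [h6.eventually h5] with M hM
  have h7 := hM (M % N) (Finset.mem_range.2 (Nat.mod_lt M hNpos))
  rw [Nat.div_add_mod', hf] at h7
  exact h7

end Pool.Agent.Helper51.Moser
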