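import Pool.Agent.Helper51.Moser.Cyc

open Finset

namespace Pool.Agent.Helper51.Moser

theorem tendsto_log_series (ζ : ℂ) (h1 : ‖ζ‖ = 1) (h : ζ ≠ 1) :
    Filter.Tendsto (fun M : ℕ => ∑ n ∈ Finset.range M, ζ ^ n / n) Filter.atTop
      (nhds (-Complex.log (1 - ζ))) := by
  -- convergence by the Dirichlet test
  have hζ1 : ζ - 1 ≠ 0 := sub_ne_zero.2 h
  have hb : ∀ n : ℕ, ‖∑ i ∈ Finset.range n, ζ ^ (i + 1)‖ ≤ 2 / ‖ζ - 1‖ := by
    intro n
    have h2 : ∑ i ∈ Finset.range n, ζ ^ (i + 1) = ζ * ((ζ ^ n - 1) / (ζ - 1)) := by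
      rw [← geom_sum_eq h n, Finset.mul_sum]
      refine Finset.sum_congr rfl fun i _ => ?_
      ring
    rw [h2, norm_mul, h1, one_mul, norm_div]
    gcongr
    calc ‖ζ ^ n - 1‖ ≤ ‖ζ ^ n‖ + ‖(1 : ℂ)‖ := norm_sub_le _ _
      _ = 2 := by rw [norm_pow, h1, one_pow, norm_one]; norm_num
  have hanti : Antitone (fun n : ℕ => (1 : ℝ) / ((n : ℝ) + 1)) := by
    intro a b hab
    show (1 : ℝ) / ((b : ℝ) + 1) ≤ 1 / ((a : ℝ) + 1)
    gcongr
  have h0 : Filter.Tendsto (fun n : ℕ => (1 : ℝ) / ((n : ℝ) + 1)) Filter.atTop (nhds 0) :=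
    tendsto_one_div_add_atTop_nhds_zero_nat
  have hC := hanti.cauchySeq_series_mul_of_tendsto_zero_of_bounded h0 hb
  obtain ⟨l, hl⟩ := cauchySeq_tendsto_of_complete hC
  have hl' : Filter.Tendsto (fun M : ℕ => ∑ n ∈ Finset.range M, ζ ^ n / n) Filter.atTop
      (nhds l) := by
    rw [← Filter.tendsto_add_atTop_iff_nat 1]
    refine hl.congr fun M => ?_
    rw [Finset.sum_range_succ']
    have : ζ ^ 0 / ((0 : ℕ) : ℂ) = 0 := by simp
    rw [this, add_zero]
    refine Finset.sum_congr rfl fun i _ => ?_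
    rw [Complex.real_smul]
    push_cast
    ring
  -- Abel's theorem
  have hA := Complex.tendsto_tsum_powerSeries_nhdsWithin_lt hl'
  rw [Filter.tendsto_map'_iff] at hA
  have hev : (fun x : ℝ => -Complex.log (1 - ζ * (x : ℂ))) =ᶠ[nhdsWithin (1 : ℝ) (Set.Iio 1)]
      ((fun z : ℂ => ∑' n : ℕ, ζ ^ n / n * z ^ n) ∘ Complex.ofReal) := by
    have hI : Set.Ioo (0 : ℝ) 1 ∈ nhdsWithin (1 : ℝ) (Set.Iio 1) :=
      Ioo_mem_nhdsLT (by norm_num)
    filter_upwards [hI] with x hx
    have hn : ‖ζ * (x : ℂ)‖ < 1 := by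
      rw [norm_mul, h1, one_mul, Complex.norm_real, Real.norm_eq_abs, abs_of_pos hx.1]
      exact hx.2
    have := (Complex.hasSum_taylorSeries_neg_log hn).tsum_eq
    rw [← this]
    show ∑' n : ℕ, (ζ * (x : ℂ)) ^ n / (n : ℂ) = ∑' n : ℕ, ζ ^ n / n * (x : ℂ) ^ n
    refine tsum_congr fun n => ?_
    rw [mul_pow]
    ring
  have hB : Filter.Tendsto (fun x : ℝ => -Complex.log (1 - ζ * (x : ℂ)))
      (nhdsWithin (1 : ℝ) (Set.Iio 1)) (nhds l) := hA.congr' hev.symm
  have hre : 0 < (1 - ζ).re := by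
    have hle : ζ.re ≤ 1 := by
      have := Complex.re_le_norm ζ
      rwa [h1] at this
    have hne : ζ.re ≠ 1 := by
      intro hre
      apply h
      have hsq : ζ.re ^ 2 + ζ.im ^ 2 = 1 := by
        have := Complex.sq_norm ζ
        rw [h1, Complex.normSq_apply] at this
        nlinarith
      have him : ζ.im = 0 := by
        rw [hre] at hsq
        nlinarith
      exact Complex.ext (by rw [hre]; simp) (by rw [him]; simp)
    rw [Complex.sub_re, Complex.one_re]
    have := lt_of_le_of_ne hle hne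
    linarith
  have hD : Filter.Tendsto (fun x : ℝ => -Complex.log (1 - ζ * (x : ℂ)))
      (nhdsWithin (1 : ℝ) (Set.Iio 1)) (nhds (-Complex.log (1 - ζ))) := by
    have hcont : ContinuousAt (fun x : ℝ => -Complex.log (1 - ζ * (x : ℂ))) 1 := by
      refine ContinuousAt.neg ?_
      refine ContinuousAt.clog ?_ ?_
      · exact (continuous_const.sub (continuous_const.mul Complex.continuous_ofReal)).continuousAt
      · rw [Complex.ofReal_one, mul_one]
        exact Or.inl hre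
    have := hcont.tendsto
    simp only [Complex.ofReal_one, mul_one] at this
    exact this.mono_left nhdsWithin_le_nhds
  have hll : l = -Complex.log (1 - ζ) := tendsto_nhds_unique hB hD
  rw [← hll]
  exact hl'

end Pool.Agent.Helper51.Moser
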