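import Pool.Agent.Helper51.Moser.Cyc
import Pool.Agent.Helper51.Moser.LFunPartial
import Pool.Agent.Helper51.Moser.LogSeries

open Finset

namespace Pool.Agent.Helper51.Moser

theorem ksz_gauss {N : ℕ} [NeZero N] (χ : DirichletCharacter ℂ N) (hχ : χ.IsPrimitive) :
    gaussSum χ (ZMod.stdAddChar) ≠ 0 := by
  intro h0
  have h1 : ZMod.dft (χ : ZMod N → ℂ) = 0 := by
    funext k
    rw [hχ.fourierTransform_eq_inv_mul_gaussSum, h0, mul_zero]
    rfl
  have h2 : (χ : ZMod N → ℂ) = 0 := (LinearEquiv.map_eq_zero_iff _).1 h1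
  have h3 := congrFun h2 1
  rw [map_one] at h3
  exact one_ne_zero h3

theorem ksz_norm (x : ℝ) : Real.log ‖(1:ℂ) - Complex.exp (Complex.I * x)‖ = KK x := by
  rw [norm_sub_rev, Complex.norm_exp_I_mul_ofReal_sub_one, Real.norm_eq_abs, Real.log_abs]
  rfl

theorem KK_sum_zero {N : ℕ} [NeZero N] (χ : DirichletCharacter ℂ N) (hχ : χ.IsPrimitive)
    (h1 : χ ≠ 1) (he : χ (-1) = 1) :
    ∑ a : ZMod N, χ a * ((KK (2 * Real.pi * (a.val : ℝ) / N) : ℝ) : ℂ) ≠ 0 := by
  have hN : N ≠ 1 := by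
    rintro rfl
    exact h1 (DirichletCharacter.level_one χ)
  have : Nontrivial (ZMod N) := ZMod.nontrivial_iff.2 hN
  set e : AddChar (ZMod N) ℂ := ZMod.stdAddChar with hedef
  set τ := gaussSum χ e with hτdef
  have hτ : τ ≠ 0 := ksz_gauss χ hχ
  have hχ0 : χ 0 = 0 := MulChar.map_nonunit _ not_isUnit_zero
  have hinv : χ⁻¹ ≠ 1 := by
    intro h
    apply h1
    rw [← inv_inv χ, h, inv_one]
  set Lv := DirichletCharacter.LFunction χ⁻¹ 1 with hLv
  have hL : Lv ≠ 0 := DirichletCharacter.LFunction_apply_one_ne_zero hinv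
  -- properties of the additive character
  have hnorm : ∀ a, ‖e a‖ = 1 := fun a => by
    rw [hedef, ZMod.stdAddChar_apply]
    exact Circle.norm_coe _
  have hne1 : ∀ a, a ≠ 0 → e a ≠ 1 := by
    intro a ha h
    apply ha
    apply ZMod.injective_stdAddChar
    rw [AddChar.map_zero_eq_one]
    exact h
  have hpow : ∀ (a : ZMod N) (n : ℕ), e ((n : ZMod N) * a) = e a ^ n := by
    intro a n
    rw [← nsmul_eq_mul, AddChar.map_nsmul_eq_pow]
  -- the partial sums
  have hpart : ∀ M : ℕ, τ * ∑ n ∈ Finset.range M, χ⁻¹ (n : ZMod N) / n =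
      ∑ a : ZMod N, χ a * ∑ n ∈ Finset.range M, e a ^ n / n := by
    intro M
    simp only [Finset.mul_sum]
    rw [Finset.sum_comm]
    apply Finset.sum_congr rfl
    intro n _
    have h2 := gaussSum_mulShift_of_isPrimitive e hχ (n : ZMod N)
    have h3 : gaussSum χ (e.mulShift (n : ZMod N)) = ∑ a : ZMod N, χ a * e a ^ n := by
      unfold gaussSum
      apply Finset.sum_congr rfl
      intro a _
      rw [AddChar.mulShift_apply, hpow]
    have h4 : τ * (χ⁻¹ (n : ZMod N) / n) = (χ⁻¹ (n : ZMod N) * gaussSum χ e) / n := by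
      rw [hτdef]; ring
    rw [h4, ← h2, h3, Finset.sum_div]
    apply Finset.sum_congr rfl
    intro a _
    ring
  have hlim1 : Filter.Tendsto (fun M : ℕ => τ * ∑ n ∈ Finset.range M, χ⁻¹ (n : ZMod N) / n)
      Filter.atTop (nhds (τ * Lv)) := (tendsto_LFunction_one χ⁻¹ hinv).const_mul τ
  have hlim2 : Filter.Tendsto (fun M : ℕ => ∑ a : ZMod N, χ a * ∑ n ∈ Finset.range M, e a ^ n / n)
      Filter.atTop (nhds (∑ a : ZMod N, χ a * (-Complex.log (1 - e a)))) := by
    apply tendsto_finsetSum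
    intro a _
    by_cases ha : a = 0
    · subst ha
      simp only [hχ0, zero_mul]
      exact tendsto_const_nhds
    · exact (tendsto_log_series (e a) (hnorm a) (hne1 a ha)).const_mul _
  have heq : τ * Lv = ∑ a : ZMod N, χ a * (-Complex.log (1 - e a)) :=
    tendsto_nhds_unique hlim1 (hlim2.congr fun M => (hpart M).symm)
  -- symmetrisation
  have hconj : ∀ a, e (-a) = (starRingEnd ℂ) (e a) := by
    intro a
    have h2 : e (-a) = (e a)⁻¹ := AddChar.map_neg_eq_inv e a
    rw [h2, Complex.inv_def, Complex.normSq_eq_norm_sq, hnorm]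
    simp
  have heven : ∀ a, χ (-a) = χ a := by
    intro a
    rw [← neg_one_mul, map_mul, he, one_mul]
  have hS : ∑ a : ZMod N, χ a * (-Complex.log (1 - e a)) =
      ∑ a : ZMod N, χ a * (-(starRingEnd ℂ) (Complex.log (1 - e a))) := by
    rw [← Equiv.sum_comp (Equiv.neg (ZMod N))]
    apply Finset.sum_congr rfl
    intro a _
    rw [Equiv.neg_apply, heven]
    by_cases ha : a = 0
    · subst ha; rw [hχ0, zero_mul, zero_mul]
    · have h3 : 1 - e (-a) = (starRingEnd ℂ) (1 - e a) := by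
        rw [map_sub, map_one, hconj]
      have h4 : (1 - e a).arg ≠ Real.pi := by
        intro h5
        rw [Complex.arg_eq_pi_iff] at h5
        have h6 : (e a).re ≤ 1 := (Complex.re_le_norm _).trans (hnorm a).le
        have h7 : (1 - e a).re = 1 - (e a).re := by simp
        rw [h7] at h5
        linarith [h5.1]
      rw [h3, Complex.log_conj _ h4]
  have hKK : ∀ a : ZMod N, ((KK (2 * Real.pi * (a.val : ℝ) / N) : ℝ) : ℂ) =
      (Complex.log (1 - e a) + (starRingEnd ℂ) (Complex.log (1 - e a))) / 2 := by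
    intro a
    rw [Complex.add_conj, Complex.log_re, ← ksz_norm]
    have h3 : e a = Complex.exp (Complex.I * ((2 * Real.pi * (a.val : ℝ) / N : ℝ) : ℂ)) := by
      rw [hedef, ZMod.stdAddChar_apply, ZMod.toCircle_apply]
      congr 1
      push_cast
      ring
    rw [← h3]
    push_cast
    ring
  have hfin : ∑ a : ZMod N, χ a * ((KK (2 * Real.pi * (a.val : ℝ) / N) : ℝ) : ℂ) = -(τ * Lv) := by
    have h2 : ∑ a : ZMod N, χ a * ((KK (2 * Real.pi * (a.val : ℝ) / N) : ℝ) : ℂ) =
        -((∑ a : ZMod N, χ a * (-Complex.log (1 - e a)) +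
          ∑ a : ZMod N, χ a * (-(starRingEnd ℂ) (Complex.log (1 - e a)))) / 2) := by
      rw [← Finset.sum_add_distrib, Finset.sum_div, ← Finset.sum_neg_distrib]
      apply Finset.sum_congr rfl
      intro a _
      rw [hKK]
      ring
    rw [h2, ← hS, ← heq]
    ring
  rw [hfin]
  exact neg_ne_zero.2 (mul_ne_zero hτ hL)

end Pool.Agent.Helper51.Moser
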