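import Pool.Agent.Helper51.Moser.Cyc
import Pool.Agent.Helper51.Moser.Basic
import Pool.Agent.Helper51.Moser.KKSumGeTwo
import Pool.Agent.Helper51.Moser.KKSumOne
import Pool.Agent.Helper51.Moser.KKSumZero

open Finset

namespace Pool.Agent.Helper51.Moser

theorem j13657_scale (f : ℝ → ℝ) (c : ℝ) (n : ℕ) :
    iteratedDeriv n (fun t => f (c * t)) = fun x => c ^ n * iteratedDeriv n f (c * x) := by
  induction n with
  | zero => simp
  | succ n ih =>
    rw [iteratedDeriv_succ, ih]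
    funext x
    rw [deriv_const_mul_field, iteratedDeriv_succ]
    have := deriv_comp_mul_left (𝕜 := ℝ) (c := c) (f := iteratedDeriv n f) (x := x)
    rw [this, smul_eq_mul]
    ring

theorem j13657_per1 (θ : ℝ) : KK (θ + 2 * Real.pi) = KK θ := by
  unfold KK
  have : (θ + 2 * Real.pi) / 2 = θ / 2 + Real.pi := by ring
  rw [this, Real.sin_add_pi, mul_neg, Real.log_neg_eq_log]

theorem j13657_per (j q : ℕ) (θ : ℝ) :
    iteratedDeriv j KK (θ + q * (2 * Real.pi)) = iteratedDeriv j KK θ := by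
  have h1 : ∀ (q : ℕ), (fun z => KK (z + q * (2 * Real.pi))) = KK := by
    intro q
    induction q with
    | zero => funext z; simp
    | succ q ih =>
      funext z
      have h2 : z + ((q + 1 : ℕ) : ℝ) * (2 * Real.pi) = (z + q * (2 * Real.pi)) + 2 * Real.pi := by
        push_cast; ring
      rw [h2, j13657_per1]
      exact congrFun ih z
  have h3 := iteratedDeriv_comp_add_const j KK ((q : ℝ) * (2 * Real.pi))
  rw [h1 q] at h3
  exact (congrFun h3 θ).symm

theorem j13657_LL (j : ℕ) (θ : ℝ) (h : Real.sin θ ≠ 0) :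
    iteratedDeriv j LL θ = 2 ^ j * iteratedDeriv j KK (2 * θ) - iteratedDeriv j KK θ := by
  have hs2 : Real.sin (θ / 2) ≠ 0 := by
    intro h0
    apply h
    have : θ = 2 * (θ / 2) := by ring
    rw [this, Real.sin_two_mul, h0]; ring
  have hev : LL =ᶠ[nhds θ] fun t => KK (2 * t) - KK t := by
    have hcont : Continuous fun t : ℝ => Real.sin t := Real.continuous_sin
    filter_upwards [hcont.continuousAt.eventually_ne h] with t ht
    have h1 : Real.sin (t / 2) ≠ 0 ∧ Real.cos (t / 2) ≠ 0 := by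
      have h2 : t = 2 * (t / 2) := by ring
      constructor
      · intro h0; apply ht; rw [h2, Real.sin_two_mul, h0]; ring
      · intro h0; apply ht; rw [h2, Real.sin_two_mul, h0]; ring
    unfold LL KK
    have h3 : 2 * Real.sin (2 * t / 2) = (2 * Real.sin (t / 2)) * (2 * Real.cos (t / 2)) := by
      have h2 : 2 * t / 2 = 2 * (t / 2) := by ring
      rw [h2, Real.sin_two_mul]; ring
    rw [h3, Real.log_mul (mul_ne_zero two_ne_zero h1.1) (mul_ne_zero two_ne_zero h1.2)]
    ring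
  rw [hev.iteratedDeriv_eq]
  have hK1 : ContDiffAt ℝ j (fun t => KK (2 * t)) θ := by
    have h4 : AnalyticAt ℝ KK (2 * θ) := by
      apply KK_analyticAt
      have : 2 * θ / 2 = θ := by ring
      rwa [this]
    have h5 : AnalyticAt ℝ (fun t : ℝ => 2 * t) θ := analyticAt_const.mul analyticAt_id
    exact (AnalyticAt.comp' (f := fun t : ℝ => 2 * t) h4 h5).contDiffAt
  have hK2 : ContDiffAt ℝ j KK θ := (KK_analyticAt hs2).contDiffAt
  rw [iteratedDeriv_fun_sub hK1 hK2, j13657_scale]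

theorem j13657_sin {N : ℕ} (hN : Odd N) {k : ℕ} (hk : k < N) (hk0 : k ≠ 0) :
    Real.sin (2 * Real.pi * (k : ℝ) / N) ≠ 0 := by
  intro h
  rw [Real.sin_eq_zero_iff] at h
  obtain ⟨n, hn⟩ := h
  have hN0 : (N : ℝ) ≠ 0 := by
    have : 0 < N := by omega
    exact_mod_cast this.ne'
  have h1 : (n : ℝ) * N = 2 * k := by
    field_simp at hn
    linarith
  have h2 : n * (N : ℤ) = 2 * (k : ℤ) := by exact_mod_cast h1
  have h3 : (N : ℤ) ∣ 2 * (k : ℤ) := ⟨n, by rw [← h2]; ring⟩
  have h4 : N ∣ 2 * k := by exact_mod_cast h3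
  have h5 : Nat.Coprime N 2 := Nat.coprime_two_right.2 hN
  have h6 : N ∣ k := h5.dvd_of_dvd_mul_left h4
  exact absurd (Nat.le_of_dvd (Nat.pos_of_ne_zero hk0) h6) (by omega)

theorem LL_sum_ne {N : ℕ} [NeZero N] (hN : Odd N) (χ : DirichletCharacter ℂ N)
    (hχ : χ.IsPrimitive) (h1 : χ ≠ 1) (j : ℕ) (hp : χ (-1) = (-1) ^ j)
    (h0 : j = 0 → χ 2 ≠ 1) :
    ∑ a : ZMod N, χ a * ((iteratedDeriv j LL (2 * Real.pi * (a.val : ℝ) / N) : ℝ) : ℂ) ≠ 0 := by
  have hN1 : N ≠ 1 := by
    intro h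
    exact h1 (DirichletCharacter.level_one' χ h)
  have hNpos : 0 < N := Nat.pos_of_ne_zero (NeZero.ne N)
  haveI : Fact (1 < N) := ⟨by omega⟩
  have hN0 : (N : ℝ) ≠ 0 := by exact_mod_cast hNpos.ne'
  have hχ0 : χ 0 = 0 := χ.map_nonunit (by simp)
  set G : ZMod N → ℂ := fun b => ((iteratedDeriv j KK (2 * Real.pi * (b.val : ℝ) / N) : ℝ) : ℂ)
    with hG
  have hT : ∑ b : ZMod N, χ b * G b ≠ 0 := by
    rcases Nat.lt_or_ge j 2 with hj | hj
    · interval_cases j
      · have := KK_sum_zero χ hχ h1 (by simpa using hp)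
        simpa [hG] using this
      · have := KK_sum_one χ (by simpa using hp)
        simpa [hG, iteratedDeriv_one] using this
    · exact KK_sum_ge_two χ h1 j hj hp
  have hG2 : ∀ a : ZMod N, ((iteratedDeriv j KK (2 * (2 * Real.pi * (a.val : ℝ) / N)) : ℝ) : ℂ) =
      G (2 * a) := by
    intro a
    have h2 : (2 * a).val = (2 * a.val) % N := by
      have h3 : (2 * a : ZMod N) = ((2 * a.val : ℕ) : ZMod N) := by
        push_cast
        rw [ZMod.natCast_zmod_val]
      rw [h3, ZMod.val_natCast]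
    have h4 : (2 * a.val) % N + N * ((2 * a.val) / N) = 2 * a.val := Nat.mod_add_div _ _
    have h5 : 2 * (2 * Real.pi * (a.val : ℝ) / N) =
        2 * Real.pi * (((2 * a).val : ℕ) : ℝ) / N + ((2 * a.val / N : ℕ) : ℝ) * (2 * Real.pi) := by
      rw [h2]
      have h6 : ((2 * a.val % N : ℕ) : ℝ) + (N : ℝ) * ((2 * a.val / N : ℕ) : ℝ) = 2 * (a.val : ℝ) := by
        exact_mod_cast h4
      have h7 : ((2 * a.val % N : ℕ) : ℝ) = 2 * (a.val : ℝ) - (N : ℝ) * ((2 * a.val / N : ℕ) : ℝ) := by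
        linarith
      rw [h7]
      field_simp
      ring
    rw [h5, j13657_per]
  have hterm : ∀ a : ZMod N, χ a * ((iteratedDeriv j LL (2 * Real.pi * (a.val : ℝ) / N) : ℝ) : ℂ) =
      2 ^ j * (χ a * G (2 * a)) - χ a * G a := by
    intro a
    by_cases ha : a = 0
    · rw [ha, hχ0]; ring
    · have h3 : a.val ≠ 0 := by
        rw [Ne, ZMod.val_eq_zero]; exact ha
      rw [j13657_LL j _ (j13657_sin hN (ZMod.val_lt a) h3), ← hG2]
      push_cast
      simp only [hG]
      ring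
  rw [Finset.sum_congr rfl fun a _ => hterm a, Finset.sum_sub_distrib, ← Finset.mul_sum]
  have hcop : Nat.Coprime 2 N := Nat.coprime_two_left.2 hN
  set u : (ZMod N)ˣ := ZMod.unitOfCoprime 2 hcop with hu
  have hu2 : (u : ZMod N) = 2 := by
    rw [hu, ZMod.coe_unitOfCoprime]; norm_num
  have hbij : χ 2 * ∑ a : ZMod N, χ a * G (2 * a) = ∑ b : ZMod N, χ b * G b := by
    rw [Finset.mul_sum, ← Equiv.sum_comp (Units.mulLeft u) (fun b => χ b * G b)]
    refine Finset.sum_congr rfl fun a _ => ?_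
    rw [Units.mulLeft_apply, hu2, map_mul, mul_assoc]
  intro hzero
  set U := ∑ a : ZMod N, χ a * G (2 * a) with hU
  rw [← hbij] at hzero hT
  have hU0 : U ≠ 0 := right_ne_zero_of_mul hT
  have h8 : ((2 : ℂ) ^ j - χ 2) * U = 0 := by
    rw [sub_mul]; exact hzero
  have h9 : (2 : ℂ) ^ j = χ 2 := by
    rcases mul_eq_zero.1 h8 with h | h
    · exact sub_eq_zero.1 h
    · exact absurd h hU0
  have h10 : ‖(2 : ℂ) ^ j‖ ≤ 1 := by
    rw [h9]; exact χ.norm_le_one 2
  rw [norm_pow, Complex.norm_ofNat] at h10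
  have hj0 : j = 0 := by
    by_contra hj
    have : (1 : ℝ) < 2 ^ j := one_lt_pow₀ (by norm_num) hj
    linarith
  apply h0 hj0
  rw [← h9, hj0, pow_zero]

end Pool.Agent.Helper51.Moser
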