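import Pool.Agent.Helper51.Moser.Cyc
import Pool.Agent.Helper51.Moser.Basic
import Pool.Agent.Helper51.Moser.LLSumNe

open Finset

namespace Pool.Agent.Helper51.Moser

lemma j13658_per (j : ℕ) (x : ℝ) (k : ℕ) :
    iteratedDeriv j LL (x + k * (2 * Real.pi)) = iteratedDeriv j LL x := by
  have h1 : Function.Periodic (iteratedDeriv j LL) (2 * Real.pi) := by
    intro y
    have h := iteratedDeriv_comp_add_const (𝕜 := ℝ) j LL (2 * Real.pi)
    have h2 : (fun z => LL (z + 2 * Real.pi)) = LL := funext LL_periodic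
    rw [h2] at h
    exact (congrFun h y).symm
  exact h1.nat_mul k x

lemma j13658_val (j N : ℕ) [NeZero N] (m : ℕ) :
    iteratedDeriv j LL (2 * Real.pi * (m : ℝ) / N) =
      iteratedDeriv j LL (2 * Real.pi * (((m : ZMod N)).val : ℝ) / N) := by
  have hN : (N : ℝ) ≠ 0 := by
    exact_mod_cast NeZero.ne N
  rw [ZMod.val_natCast]
  have h1 : (m : ℝ) = ((m % N : ℕ) : ℝ) + N * ((m / N : ℕ) : ℝ) := by
    exact_mod_cast (Nat.mod_add_div m N).symm
  have h2 : 2 * Real.pi * (m : ℝ) / N =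
      2 * Real.pi * ((m % N : ℕ) : ℝ) / N + ((m / N : ℕ) : ℝ) * (2 * Real.pi) := by
    field_simp
    exact h1
  rw [h2]
  exact j13658_per j _ _

/-- a primitive character modulo `l ^ s` is nontrivial on the units fixing a nonunit -/
lemma j13658_unit (l : ℕ) (hl : l.Prime) (s : ℕ) (hs : 1 ≤ s) [NeZero (l ^ s)]
    (χ : DirichletCharacter ℂ (l ^ s)) (hχ : χ.IsPrimitive) (w : ℕ) (hw : l ∣ w) :
    ∃ u : (ZMod (l ^ s))ˣ, (w : ZMod (l ^ s)) * u = w ∧ χ u ≠ 1 := by
  by_contra hcon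
  push Not at hcon
  have hd : l ^ (s - 1) ∣ l ^ s := pow_dvd_pow l (Nat.sub_le s 1)
  have hft : χ.FactorsThrough (l ^ (s - 1)) := by
    rw [DirichletCharacter.factorsThrough_iff_ker_unitsMap hd]
    intro u hu
    have hu1 : ZMod.castHom hd (ZMod (l ^ (s - 1))) (u : ZMod (l ^ s)) = 1 := by
      have := congrArg Units.val (MonoidHom.mem_ker.1 hu)
      simpa [ZMod.unitsMap_def] using this
    have hu2 : ZMod.castHom hd (ZMod (l ^ (s - 1))) ((u : ZMod (l ^ s)) - 1) = 0 := by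
      rw [map_sub, hu1, map_one, sub_self]
    have hwu : (w : ZMod (l ^ s)) * u = w := by
      have h3 : ((((u : ZMod (l ^ s)) - 1).val : ℕ) : ZMod (l ^ (s - 1))) = 0 := by
        rw [ZMod.natCast_val]
        simpa [ZMod.castHom_apply] using hu2
      rw [ZMod.natCast_eq_zero_iff] at h3
      obtain ⟨k, hk⟩ := h3
      obtain ⟨w', hw'⟩ := hw
      have h4 : (u : ZMod (l ^ s)) - 1 = ((l ^ (s - 1) * k : ℕ) : ZMod (l ^ s)) := by
        rw [← hk, ZMod.natCast_zmod_val]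
      have h5 : (w : ZMod (l ^ s)) * ((u : ZMod (l ^ s)) - 1) = 0 := by
        rw [h4, hw', ← Nat.cast_mul, ZMod.natCast_eq_zero_iff]
        refine ⟨w' * k, ?_⟩
        have h6 : l ^ s = l * l ^ (s - 1) := by
          rw [← pow_succ', Nat.sub_add_cancel hs]
        rw [h6]
        ring
      have h7 : (w : ZMod (l ^ s)) * u = w * ((u : ZMod (l ^ s)) - 1) + w := by ring
      rw [h7, h5, zero_add]
    have h8 := hcon u hwu
    rw [MonoidHom.mem_ker]
    apply Units.ext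
    rw [Units.val_one, ← h8]
    simp
  have h9 : χ.conductor ≤ l ^ (s - 1) := Nat.sInf_le hft
  rw [(DirichletCharacter.isPrimitive_def χ).1 hχ] at h9
  have h10 : l ^ (s - 1) < l ^ s := Nat.pow_lt_pow_right hl.one_lt (by omega)
  omega

theorem char_moment (l : ℕ) (hl : l.Prime) (hl2 : l ≠ 2) (s : ℕ) (hs : 1 ≤ s) (Δ : ℕ →₀ ℤ)
    (j : ℕ) (hv : ∀ a : ℤ, ¬ (l : ℤ) ∣ a → cond Δ j (2 * Real.pi * a / (l : ℝ) ^ s) = 0)
    (χ : DirichletCharacter ℂ (l ^ s)) (hχ : χ.IsPrimitive) (h1 : χ ≠ 1)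
    (hp : χ (-1) = (-1) ^ j) (h0 : j = 0 → χ 2 ≠ 1) :
    (Δ.sum fun w d => (d : ℂ) * (w : ℂ) ^ j * χ⁻¹ (w : ZMod (l ^ s))) = 0 := by
  haveI : NeZero (l ^ s) := ⟨pow_ne_zero _ hl.ne_zero⟩
  have hodd : Odd (l ^ s) := (hl.odd_of_ne_two hl2).pow
  have hS := LL_sum_ne hodd χ hχ h1 j hp h0
  obtain ⟨f, hf⟩ : ∃ f : ZMod (l ^ s) → ℂ, f = fun a =>
    ((iteratedDeriv j LL (2 * Real.pi * (a.val : ℝ) / (l ^ s : ℕ)) : ℝ) : ℂ) := ⟨_, rfl⟩
  have hS' : ∑ a : ZMod (l ^ s), χ a * f a ≠ 0 := by rw [hf]; exact hS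
  -- values of the condition
  have hfw : ∀ (w : ℕ) (a : ZMod (l ^ s)),
      ((iteratedDeriv j LL (w * (2 * Real.pi * (a.val : ℝ) / (l ^ s : ℕ))) : ℝ) : ℂ) =
        f (w * a) := by
    intro w a
    rw [hf]
    simp only
    congr 1
    have h2 : (w : ℝ) * (2 * Real.pi * (a.val : ℝ) / (l ^ s : ℕ)) =
        2 * Real.pi * ((w * a.val : ℕ) : ℝ) / (l ^ s : ℕ) := by
      push_cast
      ring
    rw [h2, j13658_val j (l ^ s) (w * a.val)]
    congr 4
    push_cast
    rw [ZMod.natCast_zmod_val]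
  have hzero : ∀ a : ZMod (l ^ s), χ a *
      (Δ.sum fun w d => (d : ℂ) * (w : ℂ) ^ j * f (w * a)) = 0 := by
    intro a
    by_cases hla : l ∣ a.val
    · have hna : ¬ IsUnit a := by
        intro hu
        have h2 : (a.val).Coprime (l ^ s) := by
          rw [← ZMod.isUnit_iff_coprime, ZMod.natCast_zmod_val]
          exact hu
        have h3 : l ∣ Nat.gcd a.val (l ^ s) :=
          Nat.dvd_gcd hla (dvd_pow_self l (by omega))
        rw [Nat.coprime_iff_gcd_eq_one.1 h2] at h3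
        exact hl.one_lt.ne' (Nat.dvd_one.1 h3)
      rw [MulChar.map_nonunit χ hna, zero_mul]
    · have h2 := hv (a.val : ℤ) (by
        intro h
        exact hla (by exact_mod_cast h))
      have h3 : (Δ.sum fun w d => (d : ℂ) * (w : ℂ) ^ j * f (w * a)) =
          ((cond Δ j (2 * Real.pi * ((a.val : ℤ) : ℝ) / (l : ℝ) ^ s) : ℝ) : ℂ) := by
        unfold cond Finsupp.sum
        push_cast
        apply Finset.sum_congr rfl
        intro w _
        rw [← hfw w a]
        push_cast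
        rfl
      rw [h3, h2]
      simp
  have hT : ∀ w : ℕ, ∑ a : ZMod (l ^ s), χ a * f (w * a) =
      χ⁻¹ (w : ZMod (l ^ s)) * ∑ a : ZMod (l ^ s), χ a * f a := by
    intro w
    by_cases hw : l ∣ w
    · have hnw : ¬ IsUnit (w : ZMod (l ^ s)) := by
        intro hu
        have h2 : w.Coprime (l ^ s) := (ZMod.isUnit_iff_coprime w (l ^ s)).1 hu
        have h3 : l ∣ Nat.gcd w (l ^ s) :=
          Nat.dvd_gcd hw (dvd_pow_self l (by omega))
        rw [Nat.coprime_iff_gcd_eq_one.1 h2] at h3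
        exact hl.one_lt.ne' (Nat.dvd_one.1 h3)
      rw [MulChar.map_nonunit _ hnw, zero_mul]
      obtain ⟨u, hu1, hu2⟩ := j13658_unit l hl s hs χ hχ w hw
      have h4 : ∑ a : ZMod (l ^ s), χ a * f (w * a) =
          χ u * ∑ a : ZMod (l ^ s), χ a * f (w * a) := by
        rw [Finset.mul_sum]
        rw [← Equiv.sum_comp (Units.mulLeft u) (fun a : ZMod (l ^ s) => χ a * f (w * a))]
        apply Finset.sum_congr rfl
        intro a _
        rw [Units.mulLeft_apply, map_mul, ← mul_assoc (w : ZMod (l ^ s)), hu1, mul_assoc]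
      have h5 : (χ u - 1) * ∑ a : ZMod (l ^ s), χ a * f (w * a) = 0 := by
        rw [sub_mul, one_mul, ← h4, sub_self]
      rcases mul_eq_zero.1 h5 with h6 | h6
      · exact absurd (sub_eq_zero.1 h6) hu2
      · exact h6
    · have hu : IsUnit (w : ZMod (l ^ s)) := by
        rw [ZMod.isUnit_iff_coprime]
        exact Nat.Coprime.pow_right s ((Nat.coprime_comm).1 ((Nat.Prime.coprime_iff_not_dvd hl).2 hw))
      obtain ⟨u, hu⟩ := hu
      rw [← hu]
      rw [← Equiv.sum_comp (Units.mulLeft u⁻¹) (fun a : ZMod (l ^ s) => χ a * f (u * a)),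
        Finset.mul_sum]
      apply Finset.sum_congr rfl
      intro a _
      rw [Units.mulLeft_apply, map_mul, ← mul_assoc (u : ZMod (l ^ s)), Units.mul_inv, one_mul,
        MulChar.inv_apply, Ring.inverse_unit, mul_assoc]
  have hfinal : (Δ.sum fun w d => (d : ℂ) * (w : ℂ) ^ j * χ⁻¹ (w : ZMod (l ^ s))) *
      ∑ a : ZMod (l ^ s), χ a * f a = 0 := by
    have h2 : ∑ a : ZMod (l ^ s), χ a *
      (Δ.sum fun w d => (d : ℂ) * (w : ℂ) ^ j * f (w * a)) = 0 :=
      Finset.sum_eq_zero fun a _ => hzero a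
    rw [← h2]
    unfold Finsupp.sum
    have h3 : ∑ a : ZMod (l ^ s), χ a *
        (∑ w ∈ Δ.support, (Δ w : ℂ) * (w : ℂ) ^ j * f (w * a)) =
        ∑ w ∈ Δ.support, ∑ a : ZMod (l ^ s), χ a * ((Δ w : ℂ) * (w : ℂ) ^ j * f (w * a)) := by
      simp only [Finset.mul_sum]
      exact Finset.sum_comm
    rw [h3, Finset.sum_mul]
    apply Finset.sum_congr rfl
    intro w _
    rw [mul_assoc, ← hT w, Finset.mul_sum]
    apply Finset.sum_congr rfl
    intro a _
    ring
  rcases mul_eq_zero.1 hfinal with h | h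
  · exact h
  · exact absurd h hS'

end Pool.Agent.Helper51.Moser
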