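import Pool.Agent.Helper51.Moser.Cyc
import Pool.Agent.Helper51.Moser.Basic

open Finset

namespace Pool.Agent.Helper51.Moser

theorem iteratedDeriv_comp_mul_aux (c : ℝ) (f : ℝ → ℝ) (j : ℕ) :
    iteratedDeriv j (fun θ => f (c * θ)) = fun θ => c ^ j * iteratedDeriv j f (c * θ) := by
  induction j with
  | zero =>
    funext θ
    simp [iteratedDeriv_zero]
  | succ n ih =>
    funext θ
    rw [iteratedDeriv_succ, ih, iteratedDeriv_succ, deriv_const_mul_field]
    have := deriv_comp_mul_left c (iteratedDeriv n f) θ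
    rw [this, smul_eq_mul, pow_succ]
    ring

theorem cond_eq (Δ : ℕ →₀ ℤ) (j q : ℕ) (hq : Odd q) (a : ℤ) :
    iteratedDeriv j (fun θ => Δ.sum fun w d => (d : ℝ) * LL (w * θ)) (2 * Real.pi * a / q) =
      cond Δ j (2 * Real.pi * a / q) := by
  unfold cond Finsupp.sum
  rw [iteratedDeriv_fun_sum]
  · refine Finset.sum_congr rfl fun w _ => ?_
    rw [iteratedDeriv_const_mul_field, iteratedDeriv_comp_mul_aux]
    ring
  · intro w _
    have h1 := cos_ne hq (w : ℤ) a
    have h2 : AnalyticAt ℝ LL ((w : ℝ) * (2 * Real.pi * a / q)) := by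
      apply LL_analyticAt
      simpa using h1
    have h3 : ContDiffAt ℝ j LL ((w : ℝ) * (2 * Real.pi * a / q)) := h2.contDiffAt
    have h4 : ContDiffAt ℝ j (fun θ : ℝ => (w : ℝ) * θ) (2 * Real.pi * a / q) :=
      contDiffAt_const.mul contDiffAt_id
    have h5 : ContDiffAt ℝ j (fun θ : ℝ => LL ((w : ℝ) * θ)) (2 * Real.pi * a / q) :=
      ContDiffAt.comp (g := LL) (f := fun θ : ℝ => (w : ℝ) * θ) (2 * Real.pi * a / q) h3 h4
    exact ContDiffAt.mul (f := fun _ : ℝ => ((Δ w : ℤ) : ℝ)) contDiffAt_const h5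

end Pool.Agent.Helper51.Moser
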