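import Pool.Agent.Helper51.Moser.Cyc

open Finset

namespace Pool.Agent.Helper51.Moser

theorem prod_cos_norm (φ : ℝ) :
    ‖1 + Complex.exp ((φ : ℂ) * Complex.I)‖ = |2 * Real.cos (φ / 2)| := by
  have h1 : 1 + Complex.exp ((φ : ℂ) * Complex.I) =
      Complex.exp (((φ / 2 : ℝ) : ℂ) * Complex.I) * ((2 * Real.cos (φ / 2) : ℝ) : ℂ) := by
    have h2 : ((2 * Real.cos (φ / 2) : ℝ) : ℂ) = Complex.exp (((φ / 2 : ℝ) : ℂ) * Complex.I) +
        Complex.exp (-((φ / 2 : ℝ) : ℂ) * Complex.I) := by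
      push_cast
      rw [Complex.cos]
      ring
    rw [h2, mul_add, ← Complex.exp_add, ← Complex.exp_add]
    have e1 : ((φ / 2 : ℝ) : ℂ) * Complex.I + -((φ / 2 : ℝ) : ℂ) * Complex.I = 0 := by ring
    have e2 : ((φ / 2 : ℝ) : ℂ) * Complex.I + ((φ / 2 : ℝ) : ℂ) * Complex.I =
        (φ : ℂ) * Complex.I := by
      push_cast
      ring
    rw [e1, e2, Complex.exp_zero]
    ring
  rw [h1, norm_mul, Complex.norm_exp_ofReal_mul_I, one_mul, Complex.norm_real, Real.norm_eq_abs]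

theorem prod_cos (q : ℕ) (hq : Odd q) (θ : ℝ) :
    |∏ i ∈ Finset.range q, (2 * Real.cos ((θ + 2 * Real.pi * i / q) / 2))| =
      |2 * Real.cos (q * θ / 2)| := by
  have hq0 : q ≠ 0 := by
    rintro rfl
    exact (by decide : ¬ Odd 0) hq
  have hpos : 0 < q := Nat.pos_of_ne_zero hq0
  have hζ : IsPrimitiveRoot (Complex.exp (2 * Real.pi * Complex.I / q)) q :=
    Complex.isPrimitiveRoot_exp q hq0
  set ζ := Complex.exp (2 * Real.pi * Complex.I / q) with hζd
  set u := Complex.exp ((θ : ℂ) * Complex.I) with hu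
  have h1 : (1 : ℂ) ^ q + u ^ q = ∏ z ∈ Polynomial.nthRootsFinset q (1 : ℂ), (1 + z * u) :=
    hζ.pow_add_pow_eq_prod_add_mul 1 u hq
  have h2 : ∏ i ∈ Finset.range q, (1 + ζ ^ i * u) =
      ∏ z ∈ Polynomial.nthRootsFinset q (1 : ℂ), (1 + z * u) := by
    refine Finset.prod_nbij (fun i => ζ ^ i) ?_ ?_ ?_ (fun i _ => rfl)
    · intro i _
      rw [Polynomial.mem_nthRootsFinset hpos, ← pow_mul, mul_comm, pow_mul, hζ.pow_eq_one, one_pow]
    · intro i hi j hj hij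
      exact hζ.pow_inj (Finset.mem_range.1 (Finset.mem_coe.1 hi))
        (Finset.mem_range.1 (Finset.mem_coe.1 hj)) hij
    · intro z hz
      rw [Finset.mem_coe, Polynomial.mem_nthRootsFinset hpos] at hz
      haveI : NeZero q := ⟨hq0⟩
      obtain ⟨i, hi, hzi⟩ := hζ.eq_pow_of_pow_eq_one hz
      exact ⟨i, Finset.mem_coe.2 (Finset.mem_range.2 hi), hzi⟩
  have h3 : ∀ i ∈ Finset.range q, |2 * Real.cos ((θ + 2 * Real.pi * i / q) / 2)| =
      ‖1 + ζ ^ i * u‖ := by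
    intro i _
    rw [← prod_cos_norm]
    congr 2
    rw [hζd, hu, ← Complex.exp_nat_mul, ← Complex.exp_add]
    congr 1
    push_cast
    ring
  rw [Finset.abs_prod, Finset.prod_congr rfl h3, ← norm_prod, h2, ← h1, one_pow]
  have h4 : u ^ q = Complex.exp (((q * θ : ℝ) : ℂ) * Complex.I) := by
    rw [hu, ← Complex.exp_nat_mul]
    congr 1
    push_cast
    ring
  rw [h4, prod_cos_norm]

end Pool.Agent.Helper51.Moser
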