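import Pool.Agent.Helper51.Moser.Cyc
import Pool.Agent.Helper51.Moser.Basic
import Pool.Agent.Helper51.Moser.ProdCos

open Finset

namespace Pool.Agent.Helper51.Moser

theorem iterD_mul13621 (f : ℝ → ℝ) (c : ℝ) (j : ℕ) :
    iteratedDeriv j (fun t => f (c*t)) = fun t => c^j * iteratedDeriv j f (c*t) := by
  induction j with
  | zero => funext t; simp
  | succ n ih =>
    funext t
    rw [iteratedDeriv_succ, ih, iteratedDeriv_succ]
    rw [deriv_const_mul_field, deriv_comp_mul_left c (iteratedDeriv n f) t]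
    rw [smul_eq_mul, pow_succ]; ring



theorem LL_distrib (q : ℕ) (hq : Odd q) (j : ℕ) (θ : ℝ) (h : Real.cos (q * θ / 2) ≠ 0) :
    ∑ i ∈ Finset.range q, iteratedDeriv j LL (θ + 2 * Real.pi * i / q) =
      (q : ℝ) ^ j * iteratedDeriv j LL (q * θ) := by
  have hopen : ∀ᶠ t in nhds θ, Real.cos (q * t / 2) ≠ 0 := by
    have hc : Continuous (fun t : ℝ => Real.cos (q * t / 2)) := by fun_prop
    exact hc.continuousAt.eventually_ne h
  have hfac : ∀ t : ℝ, Real.cos (q * t / 2) ≠ 0 → ∀ i ∈ Finset.range q,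
      2 * Real.cos ((t + 2 * Real.pi * i / q) / 2) ≠ 0 := by
    intro t ht i hi h0
    have := prod_cos q hq t
    rw [Finset.prod_eq_zero hi h0] at this
    rw [abs_zero] at this
    have := abs_eq_zero.mp this.symm
    apply ht
    linarith
  have hsum : ∀ t : ℝ, Real.cos (q * t / 2) ≠ 0 →
      ∑ i ∈ Finset.range q, LL (t + 2 * Real.pi * i / q) = LL (q * t) := by
    intro t ht
    unfold LL
    rw [← Real.log_prod (hfac t ht), ← Real.log_abs, prod_cos q hq t, Real.log_abs]
  have hev : (fun t => ∑ i ∈ Finset.range q, LL (t + 2 * Real.pi * i / q)) =ᶠ[nhds θ]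
      fun t => LL (q * t) := hopen.mono hsum
  have h1 := hev.iteratedDeriv_eq j
  rw [iterD_mul13621] at h1
  rw [iteratedDeriv_fun_sum] at h1
  · refine Eq.trans ?_ h1
    apply Finset.sum_congr rfl
    intro i _
    rw [iteratedDeriv_comp_add_const]
  · intro i hi
    have h2 : AnalyticAt ℝ LL (θ + 2 * Real.pi * i / q) := by
      apply LL_analyticAt
      intro h0
      exact hfac θ h i hi (by rw [h0, mul_zero])
    have h3 : ContDiffAt ℝ j LL (θ + 2 * Real.pi * i / q) := h2.contDiffAt
    have h4 : ContDiffAt ℝ j (fun t : ℝ => t + 2 * Real.pi * i / q) θ := by fun_prop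
    exact ContDiffAt.comp (g := LL) (f := fun t : ℝ => t + 2 * Real.pi * i / q) θ h3 h4

end Pool.Agent.Helper51.Moser
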