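import Pool.Agent.Helper51.Moser.Cyc
import Pool.Agent.Helper51.Moser.Basic
import Pool.Agent.Helper51.Moser.LLDistrib

open Finset

namespace Pool.Agent.Helper51.Moser

private theorem cn_per (j : ℕ) : Function.Periodic (iteratedDeriv j LL) (2 * Real.pi) := by
  intro x
  have h1 : (fun z => LL (z + 2 * Real.pi)) = LL := funext LL_periodic
  have h2 := congrFun (iteratedDeriv_comp_add_const j LL (2 * Real.pi)) x
  rw [h1] at h2
  exact h2.symm

private theorem cn_cond_add (Δ Δ' : ℕ →₀ ℤ) (j : ℕ) (x : ℝ) :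
    cond (Δ + Δ') j x = cond Δ j x + cond Δ' j x := by
  unfold cond
  rw [Finsupp.sum_add_index']
  · intro w; simp
  · intro w d d'; push_cast; ring

private theorem cn_cond_single (w : ℕ) (d : ℤ) (j : ℕ) (x : ℝ) :
    cond (Finsupp.single w d) j x = (d : ℝ) * (w : ℝ) ^ j * iteratedDeriv j LL (w * x) := by
  unfold cond
  rw [Finsupp.sum_single_index]
  simp

private theorem cn_nrm_add (l : ℕ) (Δ Δ' : ℕ →₀ ℤ) : nrm l (Δ + Δ') = nrm l Δ + nrm l Δ' := by
  unfold nrm
  rw [Finsupp.sum_add_index']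
  · intro w; split_ifs <;> simp
  · intro w d d'
    split_ifs
    · rw [mul_add, Finsupp.single_add]
    · rw [Finsupp.single_add]

private theorem cn_nrm_single (l w : ℕ) (d : ℤ) : nrm l (Finsupp.single w d) =
    if l ∣ w then Finsupp.single (w / l) ((l : ℤ) * d) else Finsupp.single w d := by
  unfold nrm
  rw [Finsupp.sum_single_index]
  split_ifs <;> simp

private theorem cn_perm (l w : ℕ) (hl : l.Prime) (hw : ¬ l ∣ w) (f : ℕ → ℝ)
    (hf : ∀ n, f n = f (n % l)) : ∑ i ∈ Finset.range l, f (w * i) = ∑ i ∈ Finset.range l, f i := by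
  have hinj : Set.InjOn (fun i => w * i % l) (Finset.range l : Set ℕ) := by
    intro i hi i' hi' h
    simp only [Finset.coe_range, Set.mem_Iio] at hi hi'
    have h1 : w * i ≡ w * i' [MOD l] := h
    have h2 : i ≡ i' [MOD l] := Nat.ModEq.cancel_left_of_coprime
      ((Nat.Prime.coprime_iff_not_dvd hl).2 hw) h1
    exact Nat.ModEq.eq_of_lt_of_lt h2 hi hi'
  have hmaps : ∀ i ∈ Finset.range l, w * i % l ∈ Finset.range l := fun i _ =>
    Finset.mem_range.2 (Nat.mod_lt _ hl.pos)
  refine Finset.sum_nbij (fun i => w * i % l) hmaps hinj ?_ (fun i _ => hf _)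
  exact Finset.surjOn_of_injOn_of_card_le _ hmaps hinj le_rfl



theorem cond_norm (l : ℕ) (hl : l.Prime) (hl2 : l ≠ 2) (Δ : ℕ →₀ ℤ) (j s : ℕ) (a : ℤ) :
    ∑ i ∈ Finset.range l,
        cond Δ j (2 * Real.pi * ((a + (l : ℤ) ^ s * i : ℤ) : ℝ) / (l : ℝ) ^ (s + 1)) =
      (l : ℝ) ^ j * cond (nrm l Δ) j (2 * Real.pi * a / (l : ℝ) ^ s) := by
  have hl0 : (l : ℝ) ≠ 0 := by exact_mod_cast hl.ne_zero
  have hodd : Odd l := hl.odd_of_ne_two hl2
  set θ : ℝ := 2 * Real.pi * a / (l : ℝ) ^ s with hθ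
  have hpt : ∀ i : ℕ, 2 * Real.pi * ((a + (l : ℤ) ^ s * i : ℤ) : ℝ) / (l : ℝ) ^ (s + 1) =
      (θ + 2 * Real.pi * i) / l := by
    intro i
    rw [hθ]
    push_cast
    field_simp
    ring
  simp only [hpt]
  induction Δ using Finsupp.induction_linear with
  | zero => simp [cond, nrm]
  | add Δ Δ' h1 h2 =>
    simp only [cn_cond_add, cn_nrm_add, Finset.sum_add_distrib, h1, h2]
    ring
  | single w d =>
    simp only [cn_cond_single, cn_nrm_single]
    by_cases hw : l ∣ w
    · obtain ⟨k, rfl⟩ := hw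
      rw [if_pos ⟨k, rfl⟩, Nat.mul_div_cancel_left k hl.pos, cn_cond_single]
      have h1 : ∀ i ∈ Finset.range l, (d : ℝ) * ((l * k : ℕ) : ℝ) ^ j *
          iteratedDeriv j LL (((l * k : ℕ) : ℝ) * ((θ + 2 * Real.pi * i) / l)) =
          (d : ℝ) * ((l * k : ℕ) : ℝ) ^ j * iteratedDeriv j LL (k * θ) := by
        intro i _
        have h2 : ((l * k : ℕ) : ℝ) * ((θ + 2 * Real.pi * i) / l) =
            k * θ + ((k * i : ℕ) : ℝ) * (2 * Real.pi) := by
          push_cast
          field_simp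
        rw [h2, (cn_per j).nat_mul (k * i) (k * θ)]
      rw [Finset.sum_congr rfl h1, Finset.sum_const, Finset.card_range, nsmul_eq_mul]
      push_cast
      ring
    · rw [if_neg hw, cn_cond_single, ← Finset.mul_sum]
      have h1 : ∀ i : ℕ, (w : ℝ) * ((θ + 2 * Real.pi * i) / l) =
          (w * θ / l) + 2 * Real.pi * ((w * i : ℕ) : ℝ) / l := by
        intro i
        push_cast
        field_simp
      have h2 := cn_perm l w hl hw (fun n => iteratedDeriv j LL ((w * θ / l) + 2 * Real.pi * n / l)) (by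
        intro n
        have h3 : (w * θ / l) + 2 * Real.pi * n / l =
            ((w * θ / l) + 2 * Real.pi * ((n % l : ℕ) : ℝ) / l) + ((n / l : ℕ) : ℝ) * (2 * Real.pi) := by
          have h4 : (n : ℝ) = l * ((n / l : ℕ) : ℝ) + ((n % l : ℕ) : ℝ) := by
            exact_mod_cast (Nat.div_add_mod n l).symm
          have h9 : 2 * Real.pi * (n : ℝ) / l = 2 * Real.pi * ((n % l : ℕ) : ℝ) / l +
              ((n / l : ℕ) : ℝ) * (2 * Real.pi) := by
            rw [eq_comm, div_add' _ _ _ hl0, div_left_inj' hl0]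
            linear_combination (-2 * Real.pi) * h4
          rw [h9]
          ring
        show iteratedDeriv j LL ((w * θ / l) + 2 * Real.pi * n / l) = _
        rw [h3, (cn_per j).nat_mul])
      have h5 := LL_distrib l hodd j (w * θ / l) (by
        have h6 := cos_ne (q := l ^ s) (hodd.pow) (w : ℤ) a
        have h7 : (l : ℝ) * (w * θ / l) / 2 = ((w : ℤ) : ℝ) * (2 * Real.pi * a / ((l ^ s : ℕ) : ℝ)) / 2 := by
          rw [hθ]
          push_cast
          field_simp
        rw [h7]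
        exact h6)
      have h8 : ∑ i ∈ Finset.range l, iteratedDeriv j LL ((w : ℝ) * ((θ + 2 * Real.pi * i) / l)) =
          (l : ℝ) ^ j * iteratedDeriv j LL (w * θ) := by
        simp only [h1]
        rw [h2, h5]
        congr 2
        field_simp
      rw [h8]
      ring

end Pool.Agent.Helper51.Moser
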