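import Pool.Agent.Helper51.Moser.Cyc

open Finset

namespace Pool.Agent.Helper51.Moser

theorem dbl_rel_pairs (z : ℂ) (hz : z ≠ 0) (X : Finset ℤ) (a : ℤ) (ha : a ∉ X) :
    ∑ s ∈ (insert a X).powersetCard 2, z ^ (∑ x ∈ s, x) =
      (∑ s ∈ X.powersetCard 2, z ^ (∑ x ∈ s, x)) + z ^ a * ∑ x ∈ X, z ^ x := by
  rw [Finset.powersetCard_succ_insert ha]
  have hdis : Disjoint (X.powersetCard (Nat.succ 1)) ((X.powersetCard 1).image (insert a)) := by
    rw [Finset.disjoint_left]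
    intro s hs hs'
    obtain ⟨t, _, rfl⟩ := Finset.mem_image.1 hs'
    exact ha ((Finset.mem_powersetCard.1 hs).1 (Finset.mem_insert_self a t))
  rw [Finset.sum_union hdis]
  congr 1
  have hinj : Set.InjOn (insert a) ((X.powersetCard 1 : Finset (Finset ℤ)) : Set (Finset ℤ)) := by
    intro s hs t ht hst
    have h1 : a ∉ s := fun h => ha ((Finset.mem_powersetCard.1 hs).1 h)
    have h2 : a ∉ t := fun h => ha ((Finset.mem_powersetCard.1 ht).1 h)
    have h3 := congrArg (fun u => Finset.erase u a) hst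
    simpa [Finset.erase_insert h1, Finset.erase_insert h2] using h3
  rw [Finset.sum_image hinj, Finset.powersetCard_one, Finset.sum_map, Finset.mul_sum]
  refine Finset.sum_congr rfl fun x hx => ?_
  have hax : a ∉ ({x} : Finset ℤ) := by
    rw [Finset.mem_singleton]
    rintro rfl
    exact ha hx
  show z ^ (∑ y ∈ insert a ({x} : Finset ℤ), y) = z ^ a * z ^ x
  rw [Finset.sum_insert hax, Finset.sum_singleton, zpow_add₀ hz]

theorem dbl_rel_sq (z : ℂ) (hz : z ≠ 0) (X : Finset ℤ) :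
    (∑ x ∈ X, z ^ x) ^ 2 = (∑ x ∈ X, (z ^ 2) ^ x) +
      2 * ∑ s ∈ X.powersetCard 2, z ^ (∑ x ∈ s, x) := by
  induction X using Finset.induction_on with
  | empty =>
    have e : (∅ : Finset ℤ).powersetCard 2 = ∅ := by
      rw [Finset.powersetCard_eq_empty]
      simp
    rw [e]
    simp
  | insert a X ha ih =>
    rw [dbl_rel_pairs z hz X a ha, Finset.sum_insert ha, Finset.sum_insert ha]
    have e : (z ^ 2) ^ a = z ^ a * z ^ a := by
      rw [pow_two, mul_zpow]
    rw [e]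
    linear_combination ih

theorem dbl_rel {X Y : Finset ℤ} (h : pairSums X = pairSums Y) (z : ℂ) (hz : z ≠ 0) :
    (∑ x ∈ X, (z ^ 2) ^ x) - ∑ x ∈ Y, (z ^ 2) ^ x =
      ((∑ x ∈ X, z ^ x) - ∑ x ∈ Y, z ^ x) * ((∑ x ∈ X, z ^ x) + ∑ x ∈ Y, z ^ x) := by
  have hX := dbl_rel_sq z hz X
  have hY := dbl_rel_sq z hz Y
  have hp : ∀ W : Finset ℤ, ∑ s ∈ W.powersetCard 2, z ^ (∑ x ∈ s, x) =
      ((pairSums W).map (fun n => z ^ n)).sum := by
    intro W
    unfold pairSums
    rw [Multiset.map_map]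
    rfl
  rw [hp] at hX hY
  rw [← h] at hY
  linear_combination hY - hX

end Pool.Agent.Helper51.Moser
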