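import Pool.Agent.Helper51.Moser.Cyc
import Pool.Agent.Helper51.Moser.DblRel

open Finset

namespace Pool.Agent.Helper51.Moser

/-- the cofactor of `X - ζ` in the cyclotomic polynomial -/
noncomputable def cyc_step_R (q : ℕ) (ζ : ℂ) : Polynomial ℂ :=
  Polynomial.cyclotomic q ℂ /ₘ (Polynomial.X - Polynomial.C ζ)

theorem cyc_step_R_mul (q : ℕ) (hq : q ≠ 0) (ζ : ℂ) (hζ : IsPrimitiveRoot ζ q) (z : ℂ) :
    (Polynomial.cyclotomic q ℂ).eval z = (z - ζ) * (cyc_step_R q ζ).eval z := by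
  have hroot : (Polynomial.cyclotomic q ℂ).IsRoot ζ := by
    have : NeZero (q : ℂ) := ⟨by exact_mod_cast hq⟩
    exact Polynomial.isRoot_cyclotomic_iff.2 hζ
  have h := Polynomial.mul_divByMonic_eq_iff_isRoot.2 hroot
  conv_lhs => rw [← h]
  rw [Polynomial.eval_mul]
  simp [cyc_step_R]

theorem cyc_step_R_ne (q : ℕ) (hq : q ≠ 0) (ζ : ℂ) (hζ : IsPrimitiveRoot ζ q) :
    (cyc_step_R q ζ).eval ζ ≠ 0 := by
  have hroot : (Polynomial.cyclotomic q ℂ).IsRoot ζ := by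
    have : NeZero (q : ℂ) := ⟨by exact_mod_cast hq⟩
    exact Polynomial.isRoot_cyclotomic_iff.2 hζ
  have h := Polynomial.mul_divByMonic_eq_iff_isRoot.2 hroot
  have hsep : (Polynomial.cyclotomic q ℂ).Separable := by
    have : NeZero (q : ℂ) := ⟨by exact_mod_cast hq⟩
    exact Polynomial.separable_cyclotomic q ℂ
  have h1 : (Polynomial.derivative (Polynomial.cyclotomic q ℂ)).eval ζ ≠ 0 := by
    have := hsep.aeval_derivative_ne_zero (x := ζ) (by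
      rw [Polynomial.coe_aeval_eq_eval]
      exact hroot)
    rwa [Polynomial.coe_aeval_eq_eval] at this
  have h2 : (Polynomial.derivative (Polynomial.cyclotomic q ℂ)).eval ζ =
      (cyc_step_R q ζ).eval ζ := by
    conv_lhs => rw [← h]
    rw [Polynomial.derivative_mul]
    simp [cyc_step_R]
  rwa [h2] at h1

/-- the regular part of the difference of the generating functions at `ζ` -/
noncomputable def cyc_step_U (e : ℕ →₀ ℕ) (b : ℤ) (σ : ℂ) (q : ℕ) (ζ z : ℂ) : ℂ :=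
  σ * z ^ b * ((cyc_step_R q ζ).eval z ^ e q *
    (e.erase q).prod fun m k => (Polynomial.cyclotomic m ℂ).eval z ^ k)

theorem cyc_step_U_mul (e : ℕ →₀ ℕ) (b : ℤ) (σ : ℂ) (q : ℕ) (hq : q ≠ 0) (ζ : ℂ)
    (hζ : IsPrimitiveRoot ζ q) (z : ℂ) :
    σ * z ^ b * e.prod (fun m k => (Polynomial.cyclotomic m ℂ).eval z ^ k) =
      (z - ζ) ^ e q * cyc_step_U e b σ q ζ z := by
  have h1 := Finsupp.mul_prod_erase' e q (fun m k => (Polynomial.cyclotomic m ℂ).eval z ^ k)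
    (fun _ => pow_zero _)
  rw [← h1]
  unfold cyc_step_U
  rw [cyc_step_R_mul q hq ζ hζ z, mul_pow]
  ring

theorem cyc_step_U_ne (e : ℕ →₀ ℕ) (he0 : e 0 = 0) (b : ℤ) (σ : ℂ) (hσ : σ ≠ 0) (q : ℕ)
    (hq : q ≠ 0) (ζ : ℂ) (hζ : IsPrimitiveRoot ζ q) : cyc_step_U e b σ q ζ ζ ≠ 0 := by
  unfold cyc_step_U
  have hζ0 : ζ ≠ 0 := hζ.ne_zero hq
  refine mul_ne_zero (mul_ne_zero hσ (zpow_ne_zero _ hζ0))
    (mul_ne_zero (pow_ne_zero _ (cyc_step_R_ne q hq ζ hζ)) ?_)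
  refine Finset.prod_ne_zero_iff.2 fun m hm => pow_ne_zero _ ?_
  intro h0
  rw [Finsupp.mem_support_iff] at hm
  have hmq : m ≠ q := by
    rintro rfl
    exact hm (Finsupp.erase_same)
  rw [Finsupp.erase_ne hmq] at hm
  have hm0 : m ≠ 0 := by
    rintro rfl
    exact hm he0
  have : NeZero (m : ℂ) := ⟨by exact_mod_cast hm0⟩
  have h1 : IsPrimitiveRoot ζ m := Polynomial.isRoot_cyclotomic_iff.1 h0
  exact hmq (h1.unique hζ)

theorem cyc_step_U_cont (e : ℕ →₀ ℕ) (b : ℤ) (σ : ℂ) (q : ℕ) (ζ z : ℂ) (hz : z ≠ 0) :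
    ContinuousAt (cyc_step_U e b σ q ζ) z := by
  unfold cyc_step_U
  refine ContinuousAt.mul (continuousAt_const.mul (continuousAt_zpow₀ z b (Or.inl hz))) ?_
  refine Continuous.continuousAt ?_
  refine ((cyc_step_R q ζ).continuous.pow _).mul ?_
  unfold Finsupp.prod
  exact continuous_finsetProd _ fun m _ => (Polynomial.continuous _).pow _

theorem cyc_step_S_cont (X : Finset ℤ) (z : ℂ) (hz : z ≠ 0) :
    ContinuousAt (fun z : ℂ => ∑ x ∈ X, z ^ x) z := by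
  induction X using Finset.induction_on with
  | empty => simpa using continuousAt_const
  | insert a s ha ih =>
    simp only [Finset.sum_insert ha]
    exact (continuousAt_zpow₀ z a (Or.inl hz)).add ih



theorem cyc_step {X Y : Finset ℤ} (h : pairSums X = pairSums Y) {e : ℕ →₀ ℕ}
    (he : CycFac X Y e) (q : ℕ) (hq : Odd q) : ∃ lam : ℂ → ℂ,
      ∀ ζ : ℂ, IsPrimitiveRoot ζ q → lam ζ ≠ 0 ∧
        (2 * ζ) ^ e q * lam (ζ ^ 2) = lam ζ * ((∑ x ∈ X, ζ ^ x) + ∑ x ∈ Y, ζ ^ x) := by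
  classical
  obtain ⟨he0, b, σ, hσ, hD⟩ := he
  have hq0 : q ≠ 0 := by
    rintro rfl
    exact absurd hq (by decide)
  have hσ0 : σ ≠ 0 := by
    rcases hσ with rfl | rfl
    · exact one_ne_zero
    · exact neg_ne_zero.2 one_ne_zero
  refine ⟨fun ζ => cyc_step_U e b σ q ζ ζ, fun ζ hζ => ⟨cyc_step_U_ne e he0 b σ hσ0 q hq0 ζ hζ, ?_⟩⟩
  have hζ0 : ζ ≠ 0 := hζ.ne_zero hq0
  have hζ2 : IsPrimitiveRoot (ζ ^ 2) q :=
    hζ.pow_of_coprime 2 (by
      rw [Nat.coprime_two_left]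
      exact hq)
  have hF : ContinuousAt (fun z : ℂ => (z + ζ) ^ e q * cyc_step_U e b σ q (ζ ^ 2) (z ^ 2)) ζ := by
    refine ContinuousAt.mul (by fun_prop) ?_
    have h1 : ContinuousAt (cyc_step_U e b σ q (ζ ^ 2)) ((fun z : ℂ => z ^ 2) ζ) :=
      cyc_step_U_cont e b σ q (ζ ^ 2) (ζ ^ 2) (pow_ne_zero 2 hζ0)
    exact ContinuousAt.comp (f := fun z : ℂ => z ^ 2) h1 ((continuous_pow 2).continuousAt)
  have hG : ContinuousAt (fun z : ℂ => cyc_step_U e b σ q ζ z *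
      ((∑ x ∈ X, z ^ x) + ∑ x ∈ Y, z ^ x)) ζ :=
    (cyc_step_U_cont e b σ q ζ ζ hζ0).mul ((cyc_step_S_cont X ζ hζ0).add (cyc_step_S_cont Y ζ hζ0))
  have heq : (fun z : ℂ => (z + ζ) ^ e q * cyc_step_U e b σ q (ζ ^ 2) (z ^ 2)) =ᶠ[nhdsWithin ζ {ζ}ᶜ]
      (fun z : ℂ => cyc_step_U e b σ q ζ z * ((∑ x ∈ X, z ^ x) + ∑ x ∈ Y, z ^ x)) := by
    have h00 : ∀ᶠ z in nhds ζ, z ≠ (0 : ℂ) := isOpen_ne.mem_nhds hζ0
    have h0 : ∀ᶠ z in nhdsWithin ζ {ζ}ᶜ, z ≠ (0 : ℂ) := h00.filter_mono nhdsWithin_le_nhds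
    filter_upwards [h0, self_mem_nhdsWithin] with z hz hzζ
    have hzζ' : z - ζ ≠ 0 := sub_ne_zero.2 hzζ
    have h1 := dbl_rel h z hz
    rw [hD z hz, hD (z ^ 2) (pow_ne_zero 2 hz), cyc_step_U_mul e b σ q hq0 ζ hζ z,
      cyc_step_U_mul e b σ q hq0 (ζ ^ 2) hζ2 (z ^ 2)] at h1
    have h2 : z ^ 2 - ζ ^ 2 = (z - ζ) * (z + ζ) := by ring
    rw [h2, mul_pow, mul_assoc, mul_assoc] at h1
    exact mul_left_cancel₀ (pow_ne_zero _ hzζ') h1
  have h3 := tendsto_nhds_unique_of_eventuallyEq (hF.tendsto.mono_left nhdsWithin_le_nhds)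
    (hG.tendsto.mono_left nhdsWithin_le_nhds) heq
  rw [two_mul]
  exact h3

end Pool.Agent.Helper51.Moser
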