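import Pool.Agent.Helper51.Moser.Cyc
import Pool.Agent.Helper51.Moser.CycStep

open Finset

namespace Pool.Agent.Helper51.Moser

theorem cyc_one {X Y : Finset ℤ} {k : ℕ} (hX : X.card = 2 ^ k) (hY : Y.card = 2 ^ k)
    (h : pairSums X = pairSums Y) {e : ℕ →₀ ℕ} (he : CycFac X Y e) : e 1 = k + 1 := by
  obtain ⟨lam, hlam⟩ := cyc_step h he 1 odd_one
  obtain ⟨h1, h2⟩ := hlam 1 IsPrimitiveRoot.one
  simp only [one_zpow, one_pow, mul_one, Finset.sum_const, nsmul_eq_mul] at h2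
  rw [hX, hY] at h2
  have h3 : ((2 : ℂ) ^ e 1) = 2 ^ (k + 1) := by
    have h4 : lam 1 * ((2 : ℂ) ^ e 1) = lam 1 * 2 ^ (k + 1) := by
      push_cast at h2
      rw [pow_succ]
      linear_combination h2
    exact mul_left_cancel₀ h1 h4
  have h5 : (2 : ℕ) ^ e 1 = 2 ^ (k + 1) := by exact_mod_cast h3
  exact Nat.pow_right_injective le_rfl h5

end Pool.Agent.Helper51.Moser
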