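import Pool.Agent.Helper51.Moser.Cyc
import Pool.Agent.Helper51.Moser.CycOne
import Pool.Agent.Helper51.Moser.CycStep

open Finset

namespace Pool.Agent.Helper51.Moser

theorem cyc_le_norm_lt {a b : ℂ} (ha : ‖a‖ = 1) (hb : ‖b‖ = 1) (hab : a ≠ b) : ‖a + b‖ < 2 := by
  have h1 := parallelogram_law_with_norm ℝ a b
  have h2 : 0 < ‖a - b‖ := norm_pos_iff.2 (sub_ne_zero.2 hab)
  rw [ha, hb] at h1
  have h3 : ‖a + b‖ * ‖a + b‖ < 2 * 2 := by nlinarith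
  nlinarith [norm_nonneg (a + b)]

theorem cyc_le_sum_le (Z : Finset ℤ) {ζ : ℂ} (hζ : ‖ζ‖ = 1) : ‖∑ z ∈ Z, ζ ^ z‖ ≤ Z.card := by
  refine (norm_sum_le _ _).trans ?_
  simp [norm_zpow, hζ]

theorem cyc_le {X Y : Finset ℤ} {k : ℕ} (hX : X.card = 2 ^ k) (hY : Y.card = 2 ^ k)
    (sX : Sym X) (h : pairSums X = pairSums Y) {e : ℕ →₀ ℕ} (he : CycFac X Y e) (l : ℕ)
    (hl : l.Prime) (hl2 : l ≠ 2) (s : ℕ) (hs : 1 ≤ s) {x : ℤ} (hx : x ∈ X)
    (hlx : ¬ (l : ℤ) ∣ x) : e (l ^ s) ≤ k := by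
  have hlodd : Odd l := hl.odd_of_ne_two hl2
  set q : ℕ := l ^ s with hq
  have hqodd : Odd q := hlodd.pow
  have hlq : l ∣ q := dvd_pow_self l (by omega)
  have hqpos : 0 < q := pow_pos hl.pos s
  have hq1 : 1 < q := by
    have := Nat.le_of_dvd hqpos hlq
    have := hl.one_lt
    omega
  by_contra hcon
  push Not at hcon
  obtain ⟨lam, hlam⟩ := cyc_step h he q hqodd
  set ζ : ℂ := Complex.exp (2 * Real.pi * Complex.I / q) with hζdef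
  have hζ : IsPrimitiveRoot ζ q := Complex.isPrimitiveRoot_exp q hqpos.ne'
  have hprim : ∀ i : ℕ, IsPrimitiveRoot (ζ ^ (2 ^ i)) q := by
    intro i
    apply hζ.pow_of_coprime
    apply Nat.Coprime.pow_left
    exact (Nat.coprime_two_left).2 hqodd
  have hnorm : ∀ i : ℕ, ‖ζ ^ (2 ^ i)‖ = 1 := fun i =>
    Complex.norm_eq_one_of_pow_eq_one (hprim i).pow_eq_one hqpos.ne'
  set r : ℕ := q.totient with hr
  have hrpos : 0 < r := Nat.totient_pos.2 hqpos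
  have hcyc : ζ ^ (2 ^ r) = ζ := by
    have h1 : 2 ^ r ≡ 1 [MOD q] := Nat.ModEq.pow_totient ((Nat.coprime_two_left).2 hqodd)
    have h3 : q ∣ 2 ^ r - 1 := (Nat.modEq_iff_dvd' Nat.one_le_two_pow).1 h1.symm
    obtain ⟨t, ht⟩ := h3
    have h4 : 1 ≤ 2 ^ r := Nat.one_le_two_pow
    have h5 : 2 ^ r = q * t + 1 := by omega
    rw [h5, pow_succ, pow_mul, hζ.pow_eq_one, one_pow, one_mul]
  set S : ℂ → ℂ := fun z => (∑ x ∈ X, z ^ x) + ∑ x ∈ Y, z ^ x with hS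
  have hSle : ∀ i : ℕ, ‖S (ζ ^ (2 ^ i))‖ ≤ 2 ^ (k + 1) := by
    intro i
    have h1 := cyc_le_sum_le X (hnorm i)
    have h2 := cyc_le_sum_le Y (hnorm i)
    rw [hX] at h1
    rw [hY] at h2
    push_cast at h1 h2
    calc ‖S (ζ ^ (2 ^ i))‖ ≤ _ := norm_add_le _ _
      _ ≤ 2 ^ k + 2 ^ k := add_le_add h1 h2
      _ = 2 ^ (k + 1) := by ring
  have hSlt : ‖S (ζ ^ (2 ^ 0))‖ < 2 ^ (k + 1) := by
    have hn := hnorm 0
    set w := ζ ^ (2 ^ 0) with hw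
    have hwprim : IsPrimitiveRoot w q := hprim 0
    have h2 := cyc_le_sum_le Y hn
    rw [hY] at h2
    push_cast at h2
    have hne : w ^ x ≠ w ^ (-x) := by
      intro heq
      have hw0 : w ≠ 0 := hwprim.ne_zero hqpos.ne'
      have h3 : w ^ (2 * x) = 1 := by
        rw [two_mul, zpow_add₀ hw0]
        nth_rewrite 2 [heq]
        rw [← zpow_add₀ hw0]
        simp
      have h4 := (hwprim.zpow_eq_one_iff_dvd _).1 h3
      have h5 : (l : ℤ) ∣ 2 * x := dvd_trans (by exact_mod_cast hlq) h4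
      have h6 : IsCoprime (l : ℤ) 2 := by
        have : Nat.Coprime l 2 := (Nat.coprime_two_right).2 hlodd
        exact_mod_cast Nat.isCoprime_iff_coprime.2 this
      exact hlx (h6.dvd_of_dvd_mul_left h5)
    have hxne : -x ≠ x := by
      intro heq
      apply hne
      rw [heq]
    have hxm := sX x hx
    have hxm' : -x ∈ X.erase x := Finset.mem_erase.2 ⟨hxne, hxm⟩
    have h7 : ∑ y ∈ X, w ^ y = (w ^ x + w ^ (-x)) + ∑ y ∈ (X.erase x).erase (-x), w ^ y := by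
      rw [← Finset.add_sum_erase X _ hx, ← Finset.add_sum_erase (X.erase x) _ hxm']
      ring
    have h8 := cyc_le_sum_le ((X.erase x).erase (-x)) hn
    have hc1 : (X.erase x).card = 2 ^ k - 1 := by rw [Finset.card_erase_of_mem hx, hX]
    have hc2 : ((X.erase x).erase (-x)).card = 2 ^ k - 1 - 1 := by
      rw [Finset.card_erase_of_mem hxm', hc1]
    have hc3 : 1 ≤ (X.erase x).card := Finset.card_pos.2 ⟨_, hxm'⟩
    have hc4 : ((X.erase x).erase (-x)).card + 2 = 2 ^ k := by omega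
    have hc5 : (((X.erase x).erase (-x)).card : ℝ) + 2 = 2 ^ k := by exact_mod_cast hc4
    have h9 : ‖w ^ x + w ^ (-x)‖ < 2 :=
      cyc_le_norm_lt (by rw [norm_zpow, hn, one_zpow]) (by rw [norm_zpow, hn, one_zpow]) hne
    have h10 : ‖∑ y ∈ X, w ^ y‖ < 2 ^ k := by
      rw [h7]
      refine (norm_add_le _ _).trans_lt ?_
      linarith
    calc ‖S w‖ ≤ _ := norm_add_le _ _
      _ < 2 ^ k + 2 ^ k := add_lt_add_of_lt_of_le h10 h2
      _ = 2 ^ (k + 1) := by ring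
  -- the product identity
  have hstep : ∀ i : ℕ, (2 : ℝ) ^ e q * ‖lam (ζ ^ (2 ^ (i + 1)))‖ =
      ‖lam (ζ ^ (2 ^ i))‖ * ‖S (ζ ^ (2 ^ i))‖ := by
    intro i
    have h1 := (hlam (ζ ^ (2 ^ i)) (hprim i)).2
    have h2 := congrArg norm h1
    rw [norm_mul, norm_mul, norm_pow, norm_mul, hnorm i, mul_one] at h2
    rw [← pow_mul, ← pow_succ] at h2
    have h3 : ‖(2 : ℂ)‖ = 2 := by simp
    rw [h3] at h2
    exact h2
  have hne : ∀ i : ℕ, ‖lam (ζ ^ (2 ^ i))‖ ≠ 0 := fun i => norm_ne_zero_iff.2 (hlam _ (hprim i)).1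
  have hprod : ∀ m : ℕ, ((2 : ℝ) ^ e q) ^ m * ‖lam (ζ ^ (2 ^ m))‖ =
      ‖lam (ζ ^ (2 ^ 0))‖ * ∏ i ∈ Finset.range m, ‖S (ζ ^ (2 ^ i))‖ := by
    intro m
    induction m with
    | zero => simp
    | succ m ih =>
      rw [Finset.prod_range_succ, ← mul_assoc, ← ih, pow_succ]
      have := hstep m
      calc ((2 : ℝ) ^ e q) ^ m * 2 ^ e q * ‖lam (ζ ^ (2 ^ (m + 1)))‖
          = ((2 : ℝ) ^ e q) ^ m * (2 ^ e q * ‖lam (ζ ^ (2 ^ (m + 1)))‖) := by ring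
        _ = _ := by rw [this]; ring
  have hfin := hprod r
  have h0 : ζ ^ (2 ^ 0) = ζ := by simp
  rw [hcyc] at hfin
  have hne0 := hne 0
  rw [h0] at hfin hne0
  have hfin2 : ((2 : ℝ) ^ e q) ^ r = ∏ i ∈ Finset.range r, ‖S (ζ ^ (2 ^ i))‖ := by
    have : ‖lam ζ‖ * ((2 : ℝ) ^ e q) ^ r = ‖lam ζ‖ * ∏ i ∈ Finset.range r, ‖S (ζ ^ (2 ^ i))‖ := by
      rw [← hfin]; ring
    exact mul_left_cancel₀ hne0 this
  have hlt : ∏ i ∈ Finset.range r, ‖S (ζ ^ (2 ^ i))‖ < (2 ^ (k + 1)) ^ r := by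
    obtain ⟨r', hr'⟩ : ∃ r', r = r' + 1 := ⟨r - 1, by omega⟩
    rw [hr', Finset.prod_range_succ', pow_succ]
    have h1 : ∏ i ∈ Finset.range r', ‖S (ζ ^ (2 ^ (i + 1)))‖ ≤ (2 ^ (k + 1)) ^ r' := by
      calc ∏ i ∈ Finset.range r', ‖S (ζ ^ (2 ^ (i + 1)))‖ ≤ ∏ i ∈ Finset.range r', (2 : ℝ) ^ (k + 1) :=
            Finset.prod_le_prod (fun i _ => norm_nonneg _) (fun i _ => hSle (i + 1))
        _ = _ := by simp
    calc (∏ i ∈ Finset.range r', ‖S (ζ ^ (2 ^ (i + 1)))‖) * ‖S (ζ ^ (2 ^ 0))‖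
        ≤ (2 ^ (k + 1)) ^ r' * ‖S (ζ ^ (2 ^ 0))‖ := mul_le_mul_of_nonneg_right h1 (norm_nonneg _)
      _ < (2 ^ (k + 1)) ^ r' * 2 ^ (k + 1) := mul_lt_mul_of_pos_left hSlt (by positivity)
  rw [← hfin2] at hlt
  have hge : ((2 : ℝ) ^ (k + 1)) ^ r ≤ ((2 : ℝ) ^ e q) ^ r := by
    apply pow_le_pow_left₀ (by positivity)
    exact pow_le_pow_right₀ (by norm_num) hcon
  linarith

end Pool.Agent.Helper51.Moser
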