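import Pool.Agent.Helper51.Moser.Cyc

open Finset

namespace Pool.Agent.Helper51.Moser

theorem j13673_key (k : ℕ) : ∀ g : ℂ → ℂ, Differentiable ℂ g →
    iteratedDeriv k (fun t : ℂ => (Complex.exp t - 1) ^ k * g t) 0 = (k.factorial : ℂ) * g 0 := by
  induction k with
  | zero =>
    intro g _
    rw [iteratedDeriv_zero]
    simp
  | succ k ih =>
    intro g hg
    have hd : deriv (fun t : ℂ => (Complex.exp t - 1) ^ (k + 1) * g t) =
        fun t : ℂ => (Complex.exp t - 1) ^ k *
          (((k : ℂ) + 1) * Complex.exp t * g t + (Complex.exp t - 1) * deriv g t) := by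
      funext t
      have h1 : HasDerivAt (fun t : ℂ => Complex.exp t - 1) (Complex.exp t) t :=
        (Complex.hasDerivAt_exp t).sub_const 1
      have h2 := (h1.fun_pow (k + 1)).fun_mul (hg t).hasDerivAt
      rw [h2.deriv]
      push_cast
      ring
    have hg' : Differentiable ℂ (deriv g) := by
      have := (differentiableOn_univ.2 hg).deriv isOpen_univ
      exact differentiableOn_univ.1 this
    rw [iteratedDeriv_succ', hd, ih (fun t : ℂ => ((k : ℂ) + 1) * Complex.exp t * g t +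
      (Complex.exp t - 1) * deriv g t)]
    · rw [Complex.exp_zero, Nat.factorial_succ]
      push_cast
      ring
    · exact ((Complex.differentiable_exp.const_mul ((k : ℂ) + 1)).mul hg).add
        ((Complex.differentiable_exp.sub_const 1).mul hg')

theorem j13673_iter (X Y : Finset ℤ) (k : ℕ) : ∀ c : ℤ → ℂ,
    iteratedDeriv k (fun t : ℂ => (∑ x ∈ X, c x * Complex.exp ((x : ℂ) * t)) -
      ∑ x ∈ Y, c x * Complex.exp ((x : ℂ) * t)) 0 =
      (∑ x ∈ X, c x * (x : ℂ) ^ k) - ∑ x ∈ Y, c x * (x : ℂ) ^ k := by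
  induction k with
  | zero =>
    intro c
    rw [iteratedDeriv_zero]
    simp
  | succ k ih =>
    intro c
    have hd : deriv (fun t : ℂ => (∑ x ∈ X, c x * Complex.exp ((x : ℂ) * t)) -
        ∑ x ∈ Y, c x * Complex.exp ((x : ℂ) * t)) =
        fun t : ℂ => (∑ x ∈ X, (c x * (x : ℂ)) * Complex.exp ((x : ℂ) * t)) -
          ∑ x ∈ Y, (c x * (x : ℂ)) * Complex.exp ((x : ℂ) * t) := by
      funext t
      have h0 : ∀ Z : Finset ℤ, HasDerivAt
          (fun t : ℂ => ∑ x ∈ Z, c x * Complex.exp ((x : ℂ) * t))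
          (∑ x ∈ Z, (c x * (x : ℂ)) * Complex.exp ((x : ℂ) * t)) t := by
        intro Z
        refine HasDerivAt.fun_sum fun x _ => ?_
        have h1 : HasDerivAt (fun t : ℂ => (x : ℂ) * t) (x : ℂ) t := by
          simpa using (hasDerivAt_id t).const_mul (x : ℂ)
        have h2 := (h1.cexp).const_mul (c x)
        have e : (c x * (x : ℂ)) * Complex.exp ((x : ℂ) * t) =
            c x * (Complex.exp ((x : ℂ) * t) * (x : ℂ)) := by ring
        rw [e]
        exact h2
      exact ((h0 X).sub (h0 Y)).deriv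
    rw [iteratedDeriv_succ', hd, ih (fun x => c x * (x : ℂ))]
    congr 1
    · refine Finset.sum_congr rfl fun x _ => ?_
      ring
    · refine Finset.sum_congr rfl fun x _ => ?_
      ring

theorem j13673_prod (e : ℕ →₀ ℕ) (f : ℕ → ℂ) :
    (e.prod fun m k => f m ^ k) = f 1 ^ e 1 * ∏ m ∈ e.support.erase 1, f m ^ e m := by
  unfold Finsupp.prod
  by_cases h : 1 ∈ e.support
  · exact (Finset.mul_prod_erase e.support (fun m => f m ^ e m) h).symm
  · rw [Finset.erase_eq_of_notMem h, Finsupp.notMem_support_iff.1 h, pow_zero, one_mul]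

theorem cyc_moment_value {X Y : Finset ℤ} {e : ℕ →₀ ℕ} (he : CycFac X Y e) :
    ∃ σ : ℤ, (σ = 1 ∨ σ = -1) ∧ (∑ x ∈ X, x ^ e 1) - ∑ x ∈ Y, x ^ e 1 =
      σ * (e 1).factorial * ∏ m ∈ e.support.erase 1, (Polynomial.cyclotomic m ℤ).eval 1 ^ e m := by
  obtain ⟨-, b, σ, hσ, hz⟩ := he
  have hf : (fun t : ℂ => (∑ x ∈ X, (1 : ℂ) * Complex.exp ((x : ℂ) * t)) -
      ∑ x ∈ Y, (1 : ℂ) * Complex.exp ((x : ℂ) * t)) =
      fun t : ℂ => (Complex.exp t - 1) ^ e 1 * (σ * Complex.exp ((b : ℂ) * t) *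
        ∏ m ∈ e.support.erase 1, (Polynomial.cyclotomic m ℂ).eval (Complex.exp t) ^ e m) := by
    funext t
    have h1 := hz (Complex.exp t) (Complex.exp_ne_zero t)
    rw [j13673_prod e (fun m => (Polynomial.cyclotomic m ℂ).eval (Complex.exp t)),
      Polynomial.cyclotomic_one, Polynomial.eval_sub, Polynomial.eval_X, Polynomial.eval_one] at h1
    simp only [one_mul, Complex.exp_int_mul]
    rw [h1]
    ring
  have hdiff : Differentiable ℂ (fun t : ℂ => σ * Complex.exp ((b : ℂ) * t) *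
      ∏ m ∈ e.support.erase 1, (Polynomial.cyclotomic m ℂ).eval (Complex.exp t) ^ e m) := by
    refine Differentiable.mul ?_ ?_
    · exact ((Complex.differentiable_exp.comp (differentiable_id.const_mul (b : ℂ))).const_mul σ)
    · refine Differentiable.fun_finsetProd fun m _ => ?_
      exact ((Polynomial.differentiable _).comp Complex.differentiable_exp).pow _
  have h1 := j13673_iter X Y (e 1) (fun _ => 1)
  rw [hf, j13673_key (e 1) _ hdiff] at h1
  have hcast : ∀ m : ℕ, (Polynomial.cyclotomic m ℂ).eval 1 =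
      (((Polynomial.cyclotomic m ℤ).eval 1 : ℤ) : ℂ) := by
    intro m
    rw [← Polynomial.map_cyclotomic_int m ℂ, Polynomial.eval_one_map]
    rfl
  simp only [mul_zero, Complex.exp_zero, mul_one, one_mul, hcast] at h1
  rcases hσ with h | h
  · refine ⟨1, Or.inl rfl, ?_⟩
    rw [h] at h1
    have h2 : (((∑ x ∈ X, x ^ e 1) - ∑ x ∈ Y, x ^ e 1 : ℤ) : ℂ) =
        ((1 * (e 1).factorial * ∏ m ∈ e.support.erase 1,
          (Polynomial.cyclotomic m ℤ).eval 1 ^ e m : ℤ) : ℂ) := by
      push_cast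
      rw [← h1]
      ring
    exact_mod_cast h2
  · refine ⟨-1, Or.inr rfl, ?_⟩
    rw [h] at h1
    have h2 : (((∑ x ∈ X, x ^ e 1) - ∑ x ∈ Y, x ^ e 1 : ℤ) : ℂ) =
        ((-1 * (e 1).factorial * ∏ m ∈ e.support.erase 1,
          (Polynomial.cyclotomic m ℤ).eval 1 ^ e m : ℤ) : ℂ) := by
      push_cast
      rw [← h1]
      ring
    exact_mod_cast h2

end Pool.Agent.Helper51.Moser
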