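import Pool.Agent.Helper51.Moser.Cyc
import Pool.Agent.Helper51.Moser.CycMomentValue

open Finset

namespace Pool.Agent.Helper51.Moser

theorem cm_pow (l : ℕ) [Fact l.Prime] (a : ℤ) (ha : a ≠ 0) (k : ℕ) :
    padicValInt l (a ^ k) = k * padicValInt l a := by
  induction k with
  | zero => simp
  | succ k ih =>
    rw [pow_succ, padicValInt.mul (pow_ne_zero k ha) ha, ih]
    ring

theorem cm_prod (l : ℕ) [Fact l.Prime] {ι : Type} [DecidableEq ι] (S : Finset ι) (f : ι → ℤ)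
    (h : ∀ i ∈ S, f i ≠ 0) :
    padicValInt l (∏ i ∈ S, f i) = ∑ i ∈ S, padicValInt l (f i) := by
  induction S using Finset.induction_on with
  | empty => simp
  | insert a S ha ih =>
    rw [Finset.prod_insert ha, Finset.sum_insert ha,
      padicValInt.mul (h a (Finset.mem_insert_self a S))
        (Finset.prod_ne_zero_iff.mpr fun i hi => h i (Finset.mem_insert_of_mem hi)),
      ih (fun i hi => h i (Finset.mem_insert_of_mem hi))]

theorem cyc_moment {X Y : Finset ℤ} {e : ℕ →₀ ℕ} (he : CycFac X Y e) (l : ℕ) (hl : l.Prime)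
    (I : ℕ) (hI : ∀ s, I < s → e (l ^ s) = 0) :
    (∑ x ∈ X, x ^ e 1) - ∑ x ∈ Y, x ^ e 1 ≠ 0 ∧
      padicValInt l ((∑ x ∈ X, x ^ e 1) - ∑ x ∈ Y, x ^ e 1) =
        padicValNat l (e 1).factorial + ∑ s ∈ Finset.Icc 1 I, e (l ^ s) := by
  have := Fact.mk hl
  obtain ⟨σ, hσ, hW⟩ := cyc_moment_value he
  have he0 := he.1
  have hσ0 : σ ≠ 0 := by rcases hσ with h | h <;> rw [h] <;> norm_num
  -- values of the cyclotomic polynomials at one
  have hc : ∀ m : ℕ, 2 ≤ m → (Polynomial.cyclotomic m ℤ).eval 1 ≠ 0 ∧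
      ((∀ s, 1 ≤ s → m ≠ l ^ s) → padicValInt l ((Polynomial.cyclotomic m ℤ).eval 1) = 0) := by
    intro m hm
    by_cases hpp : ∃ p k : ℕ, p.Prime ∧ p ^ k = m
    · obtain ⟨p, k, hp, rfl⟩ := hpp
      have := Fact.mk hp
      obtain ⟨k, rfl⟩ : ∃ k', k = k' + 1 := by
        cases k with
        | zero => simp at hm
        | succ k => exact ⟨k, rfl⟩
      rw [Polynomial.eval_one_cyclotomic_prime_pow]
      refine ⟨by exact_mod_cast hp.ne_zero, fun h => ?_⟩
      have hlp : l ≠ p := by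
        rintro rfl
        exact h (k + 1) (by omega) rfl
      rw [padicValInt.of_nat]
      exact padicValNat_primes hlp
    · have h1 : (Polynomial.cyclotomic m ℤ).eval 1 = 1 := by
        apply Polynomial.eval_one_cyclotomic_not_prime_pow
        intro p hp k hk
        exact hpp ⟨p, k, hp, hk⟩
      rw [h1]
      exact ⟨one_ne_zero, fun _ => padicValInt.one⟩
  have hc1 : ∀ s, 1 ≤ s → padicValInt l ((Polynomial.cyclotomic (l ^ s) ℤ).eval 1) = 1 := by
    intro s hs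
    obtain ⟨s, rfl⟩ : ∃ k', s = k' + 1 := ⟨s - 1, by omega⟩
    rw [Polynomial.eval_one_cyclotomic_prime_pow, padicValInt.of_nat]
    exact padicValNat_self
  have hm2 : ∀ m ∈ e.support.erase 1, 2 ≤ m := by
    intro m hm
    obtain ⟨h1, h2⟩ := Finset.mem_erase.mp hm
    have h3 : e m ≠ 0 := Finsupp.mem_support_iff.mp h2
    have h4 : m ≠ 0 := by
      rintro rfl
      exact h3 he0
    omega
  have hf : ∀ m ∈ e.support.erase 1, (Polynomial.cyclotomic m ℤ).eval 1 ^ e m ≠ 0 :=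
    fun m hm => pow_ne_zero _ (hc m (hm2 m hm)).1
  have hprod : ∏ m ∈ e.support.erase 1, (Polynomial.cyclotomic m ℤ).eval 1 ^ e m ≠ 0 :=
    Finset.prod_ne_zero_iff.mpr hf
  have hfac : (((e 1).factorial : ℕ) : ℤ) ≠ 0 := by exact_mod_cast (Nat.factorial_ne_zero _)
  rw [hW]
  refine ⟨mul_ne_zero (mul_ne_zero hσ0 hfac) hprod, ?_⟩
  rw [padicValInt.mul (mul_ne_zero hσ0 hfac) hprod, padicValInt.mul hσ0 hfac,
    cm_prod l _ _ hf, padicValInt.of_nat]
  have hσv : padicValInt l σ = 0 := by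
    rcases hσ with h | h <;> rw [h] <;> simp [padicValInt]
  rw [hσv, zero_add]
  congr 1
  have hinj : Set.InjOn (fun s => l ^ s) (Finset.Icc 1 I : Set ℕ) :=
    fun a _ b _ h => Nat.pow_right_injective hl.two_le h
  have hR : ∑ s ∈ Finset.Icc 1 I, e (l ^ s) =
      ∑ m ∈ (Finset.Icc 1 I).image (fun s => l ^ s), e m := (Finset.sum_image hinj).symm
  rw [hR]
  set A := e.support.erase 1 with hA
  set B := (Finset.Icc 1 I).image (fun s => l ^ s) with hB
  have e1 : ∑ m ∈ A, padicValInt l ((Polynomial.cyclotomic m ℤ).eval 1 ^ e m) =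
      ∑ m ∈ A ∩ B, padicValInt l ((Polynomial.cyclotomic m ℤ).eval 1 ^ e m) := by
    symm
    apply Finset.sum_subset Finset.inter_subset_left
    intro m hmA hmAB
    rw [cm_pow l _ (hc m (hm2 m hmA)).1, (hc m (hm2 m hmA)).2, mul_zero]
    intro s hs hms
    apply hmAB
    refine Finset.mem_inter.mpr ⟨hmA, Finset.mem_image.mpr ⟨s, Finset.mem_Icc.mpr ⟨hs, ?_⟩,
      hms.symm⟩⟩
    by_contra hcon
    push Not at hcon
    have h2 : e m ≠ 0 := Finsupp.mem_support_iff.mp (Finset.mem_erase.mp hmA).2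
    rw [hms] at h2
    exact h2 (hI s hcon)
  have e2 : ∑ m ∈ B, e m = ∑ m ∈ A ∩ B, e m := by
    symm
    apply Finset.sum_subset Finset.inter_subset_right
    intro m hmB hmAB
    by_contra hne
    apply hmAB
    refine Finset.mem_inter.mpr ⟨Finset.mem_erase.mpr ⟨?_, Finsupp.mem_support_iff.mpr hne⟩, hmB⟩
    obtain ⟨s, hs, rfl⟩ := Finset.mem_image.mp hmB
    have hs1 := (Finset.mem_Icc.mp hs).1
    exact (Nat.one_lt_pow (by omega) hl.one_lt).ne'
  rw [e1, e2]
  apply Finset.sum_congr rfl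
  intro m hm
  obtain ⟨hmA, hmB⟩ := Finset.mem_inter.mp hm
  rw [cm_pow l _ (hc m (hm2 m hmA)).1]
  obtain ⟨s, hs, rfl⟩ := Finset.mem_image.mp hmB
  have hs1 := (Finset.mem_Icc.mp hs).1
  show e (l ^ s) * padicValInt l ((Polynomial.cyclotomic (l ^ s) ℤ).eval 1) = e (l ^ s)
  rw [hc1 s hs1, mul_one]

end Pool.Agent.Helper51.Moser
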