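import Pool.Agent.Helper51.Moser.Cyc

open Finset

namespace Pool.Agent.Helper51.Moser

open scoped ContDiff in
lemma cv5_van {g : ℝ → ℂ} (hg : ContDiff ℝ ∞ g) {t : ℝ} (h0 : g t = 0) :
    ∀ (j c : ℕ) (H : ℝ → ℂ), ContDiff ℝ ∞ H → j < c →
      iteratedDeriv j (fun θ => g θ ^ c * H θ) t = 0 := by
  intro j
  induction j with
  | zero =>
    intro c H hH hc
    rw [iteratedDeriv_zero, h0, zero_pow (by omega), zero_mul]
  | succ j ih =>
    intro c H hH hc
    obtain ⟨c, rfl⟩ : ∃ c', c = c' + 1 := ⟨c - 1, by omega⟩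
    rw [iteratedDeriv_succ']
    have hgd : ContDiff ℝ ∞ (deriv g) := (contDiff_infty_iff_deriv.1 hg).2
    have hHd : ContDiff ℝ ∞ (deriv H) := (contDiff_infty_iff_deriv.1 hH).2
    have e1 : deriv (fun θ => g θ ^ (c + 1) * H θ) =
        fun θ => g θ ^ c * (((c + 1 : ℕ) : ℂ) * deriv g θ * H θ + g θ * deriv H θ) := by
      funext θ
      have h1 := ((contDiff_infty_iff_deriv.1 hg).1 θ).hasDerivAt
      have h2 := ((contDiff_infty_iff_deriv.1 hH).1 θ).hasDerivAt
      have h3 : HasDerivAt (fun θ => g θ ^ (c + 1) * H θ)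
          ((((c + 1 : ℕ) : ℂ) * g θ ^ (c + 1 - 1) * deriv g θ) * H θ +
            g θ ^ (c + 1) * deriv H θ) θ := (h1.fun_pow (c + 1)).mul h2
      rw [h3.deriv, Nat.add_sub_cancel]
      ring
    rw [e1]
    exact ih c _ (((contDiff_const.mul hgd).mul hH).add (hg.mul hHd)) (by omega)

open scoped ContDiff in
lemma cv5_re : ∀ (j : ℕ) (f : ℝ → ℝ), ContDiff ℝ ∞ f → ∀ θ,
    iteratedDeriv j (fun θ => ((f θ : ℝ) : ℂ)) θ = ((iteratedDeriv j f θ : ℝ) : ℂ) := by
  intro j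
  induction j with
  | zero =>
    intro f hf θ
    rw [iteratedDeriv_zero, iteratedDeriv_zero]
  | succ j ih =>
    intro f hf θ
    rw [iteratedDeriv_succ', iteratedDeriv_succ']
    have e1 : deriv (fun θ => ((f θ : ℝ) : ℂ)) = fun θ => ((deriv f θ : ℝ) : ℂ) := by
      funext x
      exact (((contDiff_infty_iff_deriv.1 hf).1 x).hasDerivAt.ofReal_comp).deriv
    rw [e1]
    exact ih _ (contDiff_infty_iff_deriv.1 hf).2 θ

lemma cv5_tf {X : Finset ℤ} (hX : Sym X) (θ : ℝ) :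
    ∑ x ∈ X, (Complex.exp (θ * Complex.I)) ^ x = ((tf X θ : ℝ) : ℂ) := by
  have h1 : ∑ x ∈ X, (Complex.exp (θ * Complex.I)) ^ x =
      ∑ x ∈ X, (Complex.exp (θ * Complex.I)) ^ (-x) :=
    Finset.sum_nbij' (fun x => -x) (fun x => -x) (fun x hx => hX x hx) (fun x hx => hX x hx)
      (by simp) (by simp) (by simp)
  have h2 : ∀ x : ℤ, (Complex.exp (θ * Complex.I)) ^ x + (Complex.exp (θ * Complex.I)) ^ (-x) =
      2 * ((Real.cos (x * θ) : ℝ) : ℂ) := by
    intro x
    rw [← Complex.exp_int_mul, ← Complex.exp_int_mul, Complex.ofReal_cos, Complex.cos]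
    push_cast
    have e1 : (x : ℂ) * θ * Complex.I = x * (θ * Complex.I) := by ring
    have e2 : -((x : ℂ) * θ) * Complex.I = -x * (θ * Complex.I) := by ring
    rw [e1, e2]
    ring
  have h3 : 2 * ∑ x ∈ X, (Complex.exp (θ * Complex.I)) ^ x = 2 * ((tf X θ : ℝ) : ℂ) := by
    rw [two_mul]
    conv_lhs => rw [h1]
    nth_rewrite 1 [← h1]
    rw [← Finset.sum_add_distrib]
    unfold tf
    push_cast
    rw [Finset.mul_sum]
    refine Finset.sum_congr rfl fun x _ => ?_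
    have := h2 x
    push_cast at this
    exact this
  exact mul_left_cancel₀ two_ne_zero h3

open scoped ContDiff in
lemma cv5_tfd (X : Finset ℤ) : ContDiff ℝ ∞ (tf X) := by
  unfold tf
  exact ContDiff.sum fun x _ => (contDiff_const.mul contDiff_id).cos

open scoped ContDiff in
lemma cv5_poly (p : Polynomial ℂ) {f : ℝ → ℂ} (hf : ContDiff ℝ ∞ f) :
    ContDiff ℝ ∞ (fun θ => p.eval (f θ)) := by
  simp only [Polynomial.eval_eq_sum_range]
  exact ContDiff.sum fun i _ => contDiff_const.mul (hf.pow i)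


theorem cyc_vanish {X Y : Finset ℤ} (hX : Sym X) (hY : Sym Y) {e : ℕ →₀ ℕ}
    (he : CycFac X Y e) (m : ℕ) (hm : 0 < m) (a : ℤ) (ham : Int.gcd a m = 1) (j : ℕ)
    (hj : j < e m) :
    iteratedDeriv j (fun θ => tf X θ - tf Y θ) (2 * Real.pi * a / m) = 0 := by
  obtain ⟨he0, b, σ, hσ, hF⟩ := he
  set ζ : ℂ := Complex.exp (2 * Real.pi * Complex.I / m) ^ a with hζ
  have hprim : IsPrimitiveRoot ζ m :=
    (Complex.isPrimitiveRoot_exp m hm.ne').zpow_of_gcd_eq_one a ham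
  have hroot : Polynomial.IsRoot (Polynomial.cyclotomic m ℂ) ζ :=
    hprim.isRoot_cyclotomic hm
  set R : Polynomial ℂ := Polynomial.cyclotomic m ℂ /ₘ (Polynomial.X - Polynomial.C ζ) with hR
  have hRe : ∀ z : ℂ, (Polynomial.cyclotomic m ℂ).eval z = (z - ζ) * R.eval z := by
    intro z
    have h1 := Polynomial.mul_divByMonic_eq_iff_isRoot.2 hroot
    conv_lhs => rw [← h1]
    simp [hR]
  have hms : m ∈ e.support := Finsupp.mem_support_iff.2 (by omega)
  have hsm : ContDiff ℝ (⊤ : ℕ∞) (fun θ : ℝ => Complex.exp (θ * Complex.I)) :=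
    (Complex.ofRealCLM.contDiff.mul contDiff_const).cexp
  set g : ℝ → ℂ := fun θ => Complex.exp (θ * Complex.I) - ζ with hg
  set H : ℝ → ℂ := fun θ => σ * Complex.exp (b * (θ * Complex.I)) *
    (R.eval (Complex.exp (θ * Complex.I))) ^ (e m) *
      ∏ m' ∈ e.support.erase m,
        ((Polynomial.cyclotomic m' ℂ).eval (Complex.exp (θ * Complex.I))) ^ (e m') with hH
  have hgd : ContDiff ℝ (⊤ : ℕ∞) g := hsm.sub contDiff_const
  have hHd : ContDiff ℝ (⊤ : ℕ∞) H := by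
    refine ContDiff.mul (ContDiff.mul (contDiff_const.mul ?_) ((cv5_poly R hsm).pow _)) ?_
    · exact (contDiff_const.mul (Complex.ofRealCLM.contDiff.mul contDiff_const)).cexp
    · exact contDiff_prod fun m' _ => (cv5_poly _ hsm).pow _
  have hfd : ContDiff ℝ (⊤ : ℕ∞) (fun θ => tf X θ - tf Y θ) := (cv5_tfd X).sub (cv5_tfd Y)
  have hkey : (fun θ => (((tf X θ - tf Y θ : ℝ)) : ℂ)) = fun θ => g θ ^ (e m) * H θ := by
    funext θ
    have h1 := hF (Complex.exp (θ * Complex.I)) (Complex.exp_ne_zero _)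
    rw [cv5_tf hX, cv5_tf hY] at h1
    push_cast
    rw [h1, Finsupp.prod, ← Finset.mul_prod_erase _ _ hms, hRe]
    simp only [hg, hH]
    rw [Complex.exp_int_mul, mul_pow]
    ring
  have hgz : g (2 * Real.pi * a / m) = 0 := by
    simp only [hg]
    rw [sub_eq_zero, hζ, ← Complex.exp_int_mul]
    congr 1
    push_cast
    ring
  have h2 := cv5_van hgd hgz j (e m) H hHd hj
  rw [← hkey, cv5_re j _ hfd] at h2
  exact_mod_cast h2

end Pool.Agent.Helper51.Moser
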