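import Pool.Agent.Helper51.Moser.Cyc

open Finset

namespace Pool.Agent.Helper51.Moser

open Polynomial in
theorem poly_cyc_aux : ∀ (n : ℕ) (P : ℤ[X]), P.natDegree = n →
    (P.leadingCoeff = 1 ∨ P.leadingCoeff = -1) →
    (∀ α : ℂ, (P.map (Int.castRingHom ℂ)).eval α = 0 → ∃ m : ℕ, 0 < m ∧ α ^ m = 1) →
    ∃ e : ℕ →₀ ℕ, e 0 = 0 ∧ ∃ σ : ℤ, (σ = 1 ∨ σ = -1) ∧
      P = C σ * e.prod fun m k => cyclotomic m ℤ ^ k := by
  intro n
  induction n using Nat.strong_induction_on with
  | _ n ih =>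
    intro P hn hl hroot
    have hinj : Function.Injective (Int.castRingHom ℂ) := RingHom.injective_int _
    by_cases h0 : n = 0
    · refine ⟨0, rfl, P.leadingCoeff, hl, ?_⟩
      rw [Finsupp.prod_zero_index, mul_one, leadingCoeff, hn, h0]
      exact eq_C_of_natDegree_eq_zero (hn.trans h0)
    · have hdeg : (P.map (Int.castRingHom ℂ)).natDegree ≠ 0 := by
        rw [natDegree_map_eq_of_injective hinj, hn]; exact h0
      have hdeg' : (P.map (Int.castRingHom ℂ)).degree ≠ 0 := by
        intro h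
        exact hdeg (natDegree_eq_of_degree_eq_some h)
      obtain ⟨α, hα⟩ := IsAlgClosed.exists_root _ hdeg'
      obtain ⟨m0, hm0, hm1⟩ := hroot α hα
      have hfin : IsOfFinOrder α := isOfFinOrder_iff_pow_eq_one.mpr ⟨m0, hm0, hm1⟩
      have hpos : 0 < orderOf α := orderOf_pos_iff.mpr hfin
      have hprim : IsPrimitiveRoot α (orderOf α) := IsPrimitiveRoot.orderOf α
      have hint : IsIntegral ℤ α := hprim.isIntegral hpos
      have haev : aeval α P = 0 := by
        rw [IsRoot.def, eval_map] at hα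
        rw [aeval_def]
        exact hα
      have hdvd : cyclotomic (orderOf α) ℤ ∣ P := by
        rw [cyclotomic_eq_minpoly hprim hpos]
        exact minpoly.isIntegrallyClosed_dvd hint haev
      obtain ⟨Q, hQ⟩ := hdvd
      have hcm := cyclotomic.monic (orderOf α) ℤ
      have hlQ : Q.leadingCoeff = 1 ∨ Q.leadingCoeff = -1 := by
        rwa [hQ, leadingCoeff_mul, hcm.leadingCoeff, one_mul] at hl
      have hQ0 : Q ≠ 0 := by
        rintro rfl
        rw [leadingCoeff_zero] at hlQ
        rcases hlQ with h | h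
        · exact absurd h (by norm_num)
        · exact absurd h (by norm_num)
      have hdQ : Q.natDegree < n := by
        have h1 : P.natDegree = (cyclotomic (orderOf α) ℤ).natDegree + Q.natDegree := by
          conv_lhs => rw [hQ]
          exact natDegree_mul hcm.ne_zero hQ0
        rw [natDegree_cyclotomic, hn] at h1
        have h2 : 0 < Nat.totient (orderOf α) := Nat.totient_pos.mpr hpos
        omega
      obtain ⟨e, he0, σ, hσ, he⟩ := ih _ hdQ Q rfl hlQ (by
        intro β hβ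
        apply hroot β
        rw [hQ, Polynomial.map_mul, eval_mul, hβ, mul_zero])
      refine ⟨e + Finsupp.single (orderOf α) 1, ?_, σ, hσ, ?_⟩
      · rw [Finsupp.add_apply, he0, Finsupp.single_eq_of_ne (by omega), add_zero]
      · have h1 : (e + Finsupp.single (orderOf α) 1).prod (fun m k => cyclotomic m ℤ ^ k) =
            e.prod (fun m k => cyclotomic m ℤ ^ k) * cyclotomic (orderOf α) ℤ := by
          rw [Finsupp.prod_add_index' (h := fun m k => cyclotomic m ℤ ^ k)
            (fun _ => pow_zero _) (fun _ _ _ => pow_add _ _ _),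
            Finsupp.prod_single_index (h := fun m k => cyclotomic m ℤ ^ k) (pow_zero _), pow_one]
        rw [h1]
        conv_lhs => rw [hQ, he]
        ring

open Polynomial in
theorem poly_cyc (P : ℤ[X]) (h0 : P.coeff 0 ≠ 0) (hl : P.leadingCoeff = 1 ∨ P.leadingCoeff = -1)
    (hd : P.map (Int.castRingHom ℂ) ∣ (expand ℤ 2 P).map (Int.castRingHom ℂ)) :
    ∃ e : ℕ →₀ ℕ, e 0 = 0 ∧ ∃ σ : ℤ, (σ = 1 ∨ σ = -1) ∧
      P = C σ * e.prod fun m k => cyclotomic m ℤ ^ k := by
  refine poly_cyc_aux P.natDegree P rfl hl ?_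
  have hinj : Function.Injective (Int.castRingHom ℂ) := RingHom.injective_int _
  set f := P.map (Int.castRingHom ℂ) with hf
  have hP0 : P ≠ 0 := by
    rintro rfl
    exact h0 (coeff_zero 0)
  have hf0 : f ≠ 0 := by
    rw [hf]
    exact (Polynomial.map_ne_zero_iff hinj).mpr hP0
  have hsq : ∀ α : ℂ, f.eval α = 0 → f.eval (α ^ 2) = 0 := by
    intro α hα
    obtain ⟨g, hg⟩ := hd
    have h1 : ((expand ℤ 2 P).map (Int.castRingHom ℂ)).eval α = f.eval (α ^ 2) := by
      rw [map_expand, expand_eval]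
    rw [← h1, hg, eval_mul, hα, zero_mul]
  intro α hα
  have hα0 : α ≠ 0 := by
    rintro rfl
    rw [← coeff_zero_eq_eval_zero, hf, coeff_map] at hα
    exact h0 ((map_eq_zero_iff _ hinj).mp hα)
  have hpow : ∀ i : ℕ, f.eval (α ^ (2 ^ i)) = 0 := by
    intro i
    induction i with
    | zero => simpa using hα
    | succ i ih =>
      rw [pow_succ, pow_mul]
      exact hsq _ ih
  have hmaps : ∀ i : ℕ, α ^ (2 ^ i) ∈ (f.roots.toFinset : Set ℂ) := by
    intro i
    rw [Finset.mem_coe, Multiset.mem_toFinset, mem_roots hf0]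
    exact hpow i
  let F : ℕ → (f.roots.toFinset : Set ℂ) := fun i => ⟨α ^ (2 ^ i), hmaps i⟩
  haveI : Finite (f.roots.toFinset : Set ℂ) := (Finset.finite_toSet _).to_subtype
  obtain ⟨i, j, hij, hF⟩ := Finite.exists_ne_map_eq_of_infinite F
  have hF' : α ^ (2 ^ i) = α ^ (2 ^ j) := congrArg Subtype.val hF
  have key : ∀ i j : ℕ, i < j → α ^ (2 ^ i) = α ^ (2 ^ j) → ∃ m : ℕ, 0 < m ∧ α ^ m = 1 := by
    intro i j hlt h
    have h1 : 2 ^ i < 2 ^ j := Nat.pow_lt_pow_right (by norm_num) hlt
    refine ⟨2 ^ j - 2 ^ i, by omega, ?_⟩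
    have h2 : α ^ (2 ^ i) * α ^ (2 ^ j - 2 ^ i) = α ^ (2 ^ i) * 1 := by
      rw [← pow_add, Nat.add_sub_cancel' h1.le, mul_one, h]
    exact mul_left_cancel₀ (pow_ne_zero _ hα0) h2
  rcases Nat.lt_or_gt_of_ne hij with h | h
  · exact key i j h hF'
  · exact key j i h hF'.symm

end Pool.Agent.Helper51.Moser
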