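import Pool.Agent.Helper51.Moser.Cyc
import Pool.Agent.Helper51.Moser.DblRel
import Pool.Agent.Helper51.Moser.PolyCyc

open Finset

namespace Pool.Agent.Helper51.Moser

/-- shifted generating function -/
noncomputable def exists_cyc_gf (N : ℕ) (Z : Finset ℤ) : Polynomial ℤ :=
  ∑ x ∈ Z, Polynomial.X ^ (x + N).toNat

theorem exists_cyc_coeff (N : ℕ) (Z : Finset ℤ) (hZ : ∀ x ∈ Z, -(N : ℤ) ≤ x) (n : ℕ) :
    (exists_cyc_gf N Z).coeff n = if ((n : ℤ) - N) ∈ Z then 1 else 0 := by
  classical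
  unfold exists_cyc_gf
  rw [Polynomial.finsetSum_coeff]
  have h1 : ∀ x ∈ Z, (Polynomial.X ^ (x + (N : ℤ)).toNat : Polynomial ℤ).coeff n =
      if x = (n : ℤ) - N then 1 else 0 := by
    intro x hx
    rw [Polynomial.coeff_X_pow]
    have := hZ x hx
    congr 1
    apply propext
    omega
  rw [Finset.sum_congr rfl h1, Finset.sum_ite_eq']

theorem exists_cyc_eval (N : ℕ) (Z : Finset ℤ) (hZ : ∀ x ∈ Z, -(N : ℤ) ≤ x) (z : ℂ) (hz : z ≠ 0) :
    ((exists_cyc_gf N Z).map (Int.castRingHom ℂ)).eval z = z ^ (N : ℤ) * ∑ x ∈ Z, z ^ x := by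
  unfold exists_cyc_gf
  rw [Polynomial.map_sum, Polynomial.eval_finsetSum, Finset.mul_sum]
  refine Finset.sum_congr rfl (fun x hx => ?_)
  rw [Polynomial.map_pow, Polynomial.map_X, Polynomial.eval_pow, Polynomial.eval_X,
    ← zpow_natCast, Int.toNat_of_nonneg (by have := hZ x hx; omega), zpow_add₀ hz, mul_comm]

theorem exists_cyc {X Y : Finset ℤ} (hne : X ≠ Y) (h : pairSums X = pairSums Y) :
    ∃ e : ℕ →₀ ℕ, CycFac X Y e := by
  classical
  set N : ℕ := (X ∪ Y).sup Int.natAbs with hNdef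
  have hN : ∀ x ∈ X ∪ Y, -(N : ℤ) ≤ x := by
    intro x hx
    have h1 : x.natAbs ≤ N := Finset.le_sup (f := Int.natAbs) hx
    omega
  have hNX : ∀ x ∈ X, -(N : ℤ) ≤ x := fun x hx => hN x (Finset.mem_union_left _ hx)
  have hNY : ∀ x ∈ Y, -(N : ℤ) ≤ x := fun x hx => hN x (Finset.mem_union_right _ hx)
  set p := exists_cyc_gf N X with hp
  set q := exists_cyc_gf N Y with hq
  have hco : ∀ n, (p - q).coeff n =
      (if ((n : ℤ) - N) ∈ X then 1 else 0) - (if ((n : ℤ) - N) ∈ Y then 1 else 0) := by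
    intro n
    rw [Polynomial.coeff_sub, hp, hq, exists_cyc_coeff N X hNX, exists_cyc_coeff N Y hNY]
  have hD0 : p - q ≠ 0 := by
    intro h0
    apply hne
    ext x
    by_cases hx : -(N : ℤ) ≤ x
    · have h1 := hco (x + N).toNat
      rw [h0, Polynomial.coeff_zero, Int.toNat_of_nonneg (by omega), add_sub_cancel_right] at h1
      by_cases hX : x ∈ X
      · by_cases hY : x ∈ Y
        · exact ⟨fun _ => hY, fun _ => hX⟩
        · rw [if_pos hX, if_neg hY] at h1
          norm_num at h1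
      · by_cases hY : x ∈ Y
        · rw [if_neg hX, if_pos hY] at h1
          norm_num at h1
        · exact ⟨fun h => absurd h hX, fun h => absurd h hY⟩
    · constructor
      · intro h1; exact absurd (hNX x h1) hx
      · intro h1; exact absurd (hNY x h1) hx
  have hlc : (p - q).leadingCoeff = 1 ∨ (p - q).leadingCoeff = -1 := by
    have h1 : (p - q).leadingCoeff ≠ 0 := Polynomial.leadingCoeff_ne_zero.2 hD0
    have h2 := hco (p - q).natDegree
    rw [Polynomial.coeff_natDegree] at h2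
    rw [h2] at h1 ⊢
    clear h2
    have key : ∀ (A B : Prop) [Decidable A] [Decidable B],
        ((if A then (1 : ℤ) else 0) - (if B then 1 else 0)) ≠ 0 →
        ((if A then (1 : ℤ) else 0) - (if B then 1 else 0)) = 1 ∨
        ((if A then (1 : ℤ) else 0) - (if B then 1 else 0)) = -1 := by
      intro A B _ _
      by_cases hA : A <;> by_cases hB : B <;> simp [hA, hB]
    exact key _ _ h1
  obtain ⟨P, hP, hPX⟩ := Polynomial.exists_eq_pow_rootMultiplicity_mul_and_not_dvd (p - q) hD0 0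
  set b := Polynomial.rootMultiplicity 0 (p - q) with hb
  rw [Polynomial.C_0, sub_zero] at hP hPX
  have hP0 : P.coeff 0 ≠ 0 := fun h0 => hPX (Polynomial.X_dvd_iff.2 h0)
  have hPl : P.leadingCoeff = (p - q).leadingCoeff := by
    rw [hP, Polynomial.leadingCoeff_mul, Polynomial.leadingCoeff_X_pow, one_mul]
  -- the functional equation
  have hev : ∀ z : ℂ, z ≠ 0 → ((p - q).map (Int.castRingHom ℂ)).eval z =
      z ^ (N : ℤ) * ((∑ x ∈ X, z ^ x) - ∑ x ∈ Y, z ^ x) := by
    intro z hz
    rw [Polynomial.map_sub, Polynomial.eval_sub, hp, hq, exists_cyc_eval N X hNX z hz,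
      exists_cyc_eval N Y hNY z hz]
    ring
  have hfe : (Polynomial.expand ℤ 2 (p - q)).map (Int.castRingHom ℂ) =
      (p - q).map (Int.castRingHom ℂ) * (p + q).map (Int.castRingHom ℂ) := by
    apply Polynomial.eq_of_infinite_eval_eq
    refine Set.Infinite.mono ?_ ((Set.finite_singleton (0 : ℂ)).infinite_compl)
    intro z hz
    have hz0 : z ≠ 0 := hz
    show Polynomial.eval z _ = Polynomial.eval z _
    rw [Polynomial.map_expand, Polynomial.expand_eval, hev _ (pow_ne_zero 2 hz0), dbl_rel h z hz0,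
      Polynomial.eval_mul, hev z hz0, Polynomial.map_add, Polynomial.eval_add, hp, hq,
      exists_cyc_eval N X hNX z hz0, exists_cyc_eval N Y hNY z hz0]
    have h1 : (z ^ 2) ^ (N : ℤ) = z ^ (N : ℤ) * z ^ (N : ℤ) := by
      rw [zpow_natCast, zpow_natCast, ← pow_mul, ← pow_add]
      congr 1
      ring
    rw [h1]
    ring
  have hdiv : P.map (Int.castRingHom ℂ) ∣ (Polynomial.expand ℤ 2 P).map (Int.castRingHom ℂ) := by
    have hcop : IsCoprime (P.map (Int.castRingHom ℂ)) (Polynomial.X ^ (2 * b) : Polynomial ℂ) := by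
      apply IsCoprime.pow_right
      rw [isCoprime_comm]
      refine (Polynomial.irreducible_X.coprime_iff_not_dvd).2 ?_
      rw [Polynomial.X_dvd_iff, Polynomial.coeff_map]
      simpa using hP0
    refine hcop.dvd_of_dvd_mul_left ?_
    rw [hP] at hfe
    have h1 : (Polynomial.expand ℤ 2 (Polynomial.X ^ b * P)).map (Int.castRingHom ℂ) =
        Polynomial.X ^ (2 * b) * (Polynomial.expand ℤ 2 P).map (Int.castRingHom ℂ) := by
      rw [map_mul, map_pow, Polynomial.expand_X, Polynomial.map_mul, ← pow_mul,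
        Polynomial.map_pow, Polynomial.map_X]
    rw [h1] at hfe
    rw [hfe, Polynomial.map_mul]
    exact Dvd.dvd.mul_right (Dvd.dvd.mul_left dvd_rfl _) _
  obtain ⟨e, he0, σ, hσ, hPe⟩ := poly_cyc P hP0 (by rw [hPl]; exact hlc) hdiv
  refine ⟨e, he0, (b : ℤ) - N, (σ : ℂ), ?_, ?_⟩
  · rcases hσ with h1 | h1 <;> simp [h1]
  · intro z hz
    have h1 := hev z hz
    have hzN : z ^ (N : ℤ) ≠ 0 := zpow_ne_zero _ hz
    have h2 : ((p - q).map (Int.castRingHom ℂ)).eval z =
        z ^ b * ((σ : ℂ) * e.prod fun m k => (Polynomial.cyclotomic m ℂ).eval z ^ k) := by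
      rw [hP, hPe, Polynomial.map_mul, Polynomial.map_mul, Polynomial.map_pow, Polynomial.map_X,
        Polynomial.map_C, Polynomial.eval_mul, Polynomial.eval_mul, Polynomial.eval_pow,
        Polynomial.eval_X, Polynomial.eval_C]
      congr 2
      simp only [Finsupp.prod, Polynomial.map_prod, Polynomial.eval_prod, Polynomial.map_pow,
        Polynomial.map_cyclotomic, Polynomial.eval_pow]
    rw [h2] at h1
    have h3 : z ^ ((b : ℤ) - N) * z ^ (N : ℤ) = z ^ b := by
      rw [← zpow_add₀ hz, sub_add_cancel, zpow_natCast]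
    apply mul_left_cancel₀ hzN
    rw [← h1, ← h3]
    ring

end Pool.Agent.Helper51.Moser
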