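import Pool.Agent.Helper51.Moser.Cyc

open Finset

namespace Pool.Agent.Helper51.Moser

theorem padic_prim (l : ℕ) (hl : l.Prime) (h5 : 5 ≤ l) : ∃ g : ℕ, 2 ≤ g ∧ ¬ l ∣ g ∧
    ∀ m : ℕ, 1 ≤ m → padicValNat l (g ^ m - 1) =
      if (l - 1) ∣ m then 1 + padicValNat l m else 0 := by
  haveI : Fact l.Prime := ⟨hl⟩
  have hl2 : l ≠ 2 := by omega
  have hodd : Odd l := hl.odd_of_ne_two hl2
  have hcyc : IsCyclic (ZMod (l ^ 2))ˣ := ZMod.isCyclic_units_of_prime_pow l hl hl2 2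
  haveI : NeZero (l ^ 2) := ⟨pow_ne_zero 2 hl.ne_zero⟩
  obtain ⟨u, hu⟩ := hcyc.exists_generator
  have hord : orderOf u = l * (l - 1) := by
    rw [orderOf_eq_card_of_forall_mem_zpowers hu, Nat.card_eq_fintype_card,
      ZMod.card_units_eq_totient, Nat.totient_prime_pow hl (by norm_num)]
    norm_num
  obtain ⟨g, hg⟩ : ∃ g : ℕ, g = ((u : (ZMod (l ^ 2))ˣ) : ZMod (l ^ 2)).val := ⟨_, rfl⟩
  have hgu : ((g : ℕ) : ZMod (l ^ 2)) = (u : ZMod (l ^ 2)) := by
    rw [hg, ZMod.natCast_val, ZMod.cast_id', id_eq]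
  have hcop : Nat.Coprime g (l ^ 2) := by
    rw [hg]; exact ZMod.val_coe_unit_coprime u
  have hndvd : ¬ l ∣ g := by
    intro h
    have h1 : l ∣ Nat.gcd g (l ^ 2) := Nat.dvd_gcd h (dvd_pow_self l (by norm_num))
    rw [hcop.gcd_eq_one] at h1
    exact hl.one_lt.ne' (Nat.dvd_one.mp h1)
  have hkey : ∀ n : ℕ, l ^ 2 ∣ g ^ n - 1 ↔ l * (l - 1) ∣ n := by
    intro n
    have hg1 : 1 ≤ g ^ n := by
      apply Nat.one_le_pow
      rcases Nat.eq_zero_or_pos g with h | h
      · exact absurd (h ▸ dvd_zero l) hndvd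
      · exact h
    rw [← hord, orderOf_dvd_iff_pow_eq_one, ← Nat.modEq_iff_dvd' hg1]
    rw [Nat.ModEq.comm, ← ZMod.natCast_eq_natCast_iff]
    push_cast
    rw [hgu, ← Units.val_pow_eq_pow_val, ← Units.val_one, Units.val_inj]
  have hg2 : 2 ≤ g := by
    by_contra hcon
    have h1 : g = 0 ∨ g = 1 := by omega
    rcases h1 with h1 | h1
    · exact hndvd (h1 ▸ dvd_zero l)
    · have h2 := (hkey 1).mp (by rw [h1]; simp)
      have h3 := Nat.le_of_dvd one_pos h2
      have h4 : 1 < l * (l - 1) := by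
        have : 4 ≤ l - 1 := by omega
        nlinarith
      omega
  have hfer : l ∣ g ^ (l - 1) - 1 := by
    have hg1 : 1 ≤ g ^ (l - 1) := Nat.one_le_pow _ _ (by omega)
    rw [← Nat.modEq_iff_dvd' hg1]
    have hc : Nat.Coprime g l := ((Nat.Prime.coprime_iff_not_dvd hl).mpr hndvd).symm
    have := Nat.ModEq.pow_totient hc
    rw [Nat.totient_prime hl] at this
    exact this.symm
  have hpos : 1 < g ^ (l - 1) := Nat.one_lt_pow (by omega) (by omega)
  have hval1 : padicValNat l (g ^ (l - 1) - 1) = 1 := by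
    have hne : g ^ (l - 1) - 1 ≠ 0 := by omega
    have h1 : 1 ≤ padicValNat l (g ^ (l - 1) - 1) := one_le_padicValNat_of_dvd hne hfer
    have h2 : ¬ 2 ≤ padicValNat l (g ^ (l - 1) - 1) := by
      intro h
      have h3 : l ^ 2 ∣ g ^ (l - 1) - 1 := (padicValNat_dvd_iff_le hne).mpr h
      have h4 := Nat.le_of_dvd (by omega) ((hkey _).mp h3)
      have : 4 ≤ l - 1 := by omega
      nlinarith
    omega
  have hdiv : ∀ m : ℕ, l ∣ g ^ m - 1 → (l - 1) ∣ m := by
    intro m hm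
    have hg1 : 1 ≤ g ^ m := Nat.one_le_pow _ _ (by omega)
    have h1 : ((l : ℕ) : ℤ) ∣ (g : ℤ) ^ m - 1 := by
      have := Int.natCast_dvd_natCast.mpr hm
      rw [Nat.cast_sub hg1] at this
      push_cast at this
      exact this
    have h2 := dvd_sub_pow_of_dvd_sub h1 1
    rw [one_pow, pow_one, ← pow_mul] at h2
    have hg1' : 1 ≤ g ^ (m * l) := Nat.one_le_pow _ _ (by omega)
    have h3 : l ^ 2 ∣ g ^ (m * l) - 1 := by
      rw [← Int.natCast_dvd_natCast, Nat.cast_sub hg1']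
      push_cast
      exact h2
    have h4 := (hkey _).mp h3
    rw [mul_comm m l] at h4
    exact Nat.dvd_of_mul_dvd_mul_left hl.pos h4
  refine ⟨g, hg2, hndvd, ?_⟩
  intro m hm
  split_ifs with hdvd
  · obtain ⟨k, rfl⟩ := hdvd
    have hk : k ≠ 0 := by
      rintro rfl
      simp at hm
    have h1 := padicValNat.pow_sub_pow (p := l) hodd (x := g ^ (l - 1)) (y := 1) hpos hfer
      (fun h => hndvd (hl.dvd_of_dvd_pow h)) hk
    rw [one_pow, hval1, ← pow_mul] at h1
    rw [h1, padicValNat.mul (by omega) hk, padicValNat.eq_zero_of_not_dvd (n := l - 1), zero_add]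
    intro h
    have := Nat.le_of_dvd (by omega) h
    omega
  · apply padicValNat.eq_zero_of_not_dvd
    intro h
    exact hdvd (hdiv m h)

end Pool.Agent.Helper51.Moser
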