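import Pool.Agent.Helper51.Moser.Cyc
import Pool.Agent.Helper51.Moser.PadicPrim

open Finset

namespace Pool.Agent.Helper51.Moser

theorem exists_prim_fact (l : ℕ) (hl : l.Prime) (R : ℕ) :
    ∑ r ∈ Finset.range R, (1 + padicValNat l (r + 1)) ≤ 2 * R := by
  have : Fact l.Prime := ⟨hl⟩
  have h1 : ∀ R : ℕ, ∑ r ∈ Finset.range R, (1 + padicValNat l (r + 1)) =
      R + padicValNat l (Nat.factorial R) := by
    intro R
    induction R with
    | zero => simp
    | succ R ih =>
      rw [Finset.sum_range_succ, ih, Nat.factorial_succ,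
        padicValNat.mul (Nat.succ_ne_zero R) (Nat.factorial_ne_zero R)]
      ring
  have h2 : padicValNat l (Nat.factorial R) ≤ R := by
    have h3 := sub_one_mul_padicValNat_factorial (p := l) R
    have h4 : 1 ≤ l - 1 := by have := hl.two_le; omega
    calc padicValNat l (Nat.factorial R) = 1 * padicValNat l (Nat.factorial R) := by ring
      _ ≤ (l - 1) * padicValNat l (Nat.factorial R) := Nat.mul_le_mul_right _ h4
      _ ≤ R := by rw [h3]; exact Nat.sub_le _ _
  rw [h1]
  omega

theorem exists_prim_prod (l : ℕ) (hl : l.Prime) (B : Finset ℕ) (f : ℕ → ℕ)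
    (hf : ∀ j ∈ B, f j ≠ 0) :
    padicValNat l (∏ j ∈ B, f j) = ∑ j ∈ B, padicValNat l (f j) := by
  have : Fact l.Prime := ⟨hl⟩
  classical
  induction B using Finset.induction_on with
  | empty => simp
  | insert a s ha ih =>
    rw [Finset.prod_insert ha, Finset.sum_insert ha, padicValNat.mul
      (hf a (Finset.mem_insert_self a s))
      (Finset.prod_ne_zero_iff.2 fun j hj => hf j (Finset.mem_insert_of_mem hj)),
      ih fun j hj => hf j (Finset.mem_insert_of_mem hj)]

theorem exists_prim (l : ℕ) (hl : l.Prime) (h5 : 5 ≤ l) : ∃ g : ℕ, ¬ l ∣ g ∧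
    ∀ n c₀ c₁ : ℕ, Even n → 1 ≤ n → c₀ ≤ n → c₁ ≤ n - 1 → ∃ (e : ℕ) (u : ℤ),
      e ≤ n - 1 - c₀ ∧ ¬ (l : ℤ) ∣ u ∧
      ∏ j ∈ (Finset.range c₁).filter (fun j => 2 ≤ j ∧ Even j ∧ c₀ ≤ j),
        ((g : ℤ) ^ n - (g : ℤ) ^ j) = (l : ℤ) ^ e * u := by
  have : Fact l.Prime := ⟨hl⟩
  obtain ⟨g, hg2, hlg, hval⟩ := padic_prim l hl h5
  refine ⟨g, hlg, ?_⟩
  intro n c₀ c₁ _ hn1 hc0 hc1
  set B := (Finset.range c₁).filter (fun j => 2 ≤ j ∧ Even j ∧ c₀ ≤ j) with hB
  have hBm : ∀ j ∈ B, j < n ∧ c₀ ≤ j := by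
    intro j hj
    rw [hB, Finset.mem_filter, Finset.mem_range] at hj
    exact ⟨by omega, hj.2.2.2⟩
  have hpow : ∀ m : ℕ, 1 ≤ m → 2 ≤ g ^ m := by
    intro m hm
    calc 2 ≤ g := hg2
      _ = g ^ 1 := (pow_one g).symm
      _ ≤ g ^ m := Nat.pow_le_pow_right (by omega) hm
  set f : ℕ → ℕ := fun j => g ^ j * (g ^ (n - j) - 1) with hf
  have hfne : ∀ j ∈ B, f j ≠ 0 := by
    intro j hj
    have h1 := hpow (n - j) (by have := (hBm j hj).1; omega)
    have h2 : g ^ j ≠ 0 := pow_ne_zero _ (by omega)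
    exact Nat.mul_ne_zero h2 (by omega)
  have hcast : ∏ j ∈ B, ((g : ℤ) ^ n - (g : ℤ) ^ j) = ((∏ j ∈ B, f j : ℕ) : ℤ) := by
    rw [Nat.cast_prod]
    apply Finset.prod_congr rfl
    intro j hj
    have h1 := hpow (n - j) (by have := (hBm j hj).1; omega)
    rw [hf]
    simp only
    rw [Nat.cast_mul, Nat.cast_sub (by omega)]
    push_cast
    rw [mul_sub, ← pow_add, mul_one]
    congr 2
    have := (hBm j hj).1
    omega
  have hNne : ∏ j ∈ B, f j ≠ 0 := Finset.prod_ne_zero_iff.2 hfne
  obtain ⟨e, n', hn', hN⟩ := Nat.exists_eq_pow_mul_and_not_dvd hNne l hl.one_lt.ne'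
  refine ⟨e, n', ?_, ?_, ?_⟩
  · have hn0 : n' ≠ 0 := by
      rintro rfl
      exact hn' (dvd_zero l)
    have he : padicValNat l (∏ j ∈ B, f j) = e := by
      rw [hN, padicValNat.mul (pow_ne_zero _ hl.ne_zero) hn0, padicValNat.prime_pow,
        padicValNat.eq_zero_of_not_dvd hn', add_zero]
    rw [exists_prim_prod l hl B f hfne] at he
    have hterm : ∀ j ∈ B, padicValNat l (f j) =
        if (l - 1) ∣ (n - j) then 1 + padicValNat l (n - j) else 0 := by
      intro j hj
      have h1 := hpow (n - j) (by have := (hBm j hj).1; omega)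
      rw [hf]
      simp only
      rw [padicValNat.mul (pow_ne_zero _ (by omega)) (by omega),
        padicValNat.eq_zero_of_not_dvd (n := g ^ j) (fun h => hlg (hl.dvd_of_dvd_pow h)), zero_add]
      exact hval (n - j) (by have := (hBm j hj).1; omega)
    rw [Finset.sum_congr rfl hterm, ← Finset.sum_filter] at he
    set R := (n - c₀) / (l - 1) with hR
    have hl1 : 0 < l - 1 := by omega
    have hle : ∑ j ∈ B.filter (fun j => (l - 1) ∣ (n - j)), (1 + padicValNat l (n - j)) ≤
        ∑ r ∈ Finset.range R, (1 + padicValNat l (r + 1)) := by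
      have hq : ∀ j ∈ B.filter (fun j => (l - 1) ∣ (n - j)), ∃ q, n - j = (l - 1) * q ∧ 1 ≤ q ∧
          q ≤ R ∧ (n - j) / (l - 1) = q := by
        intro j hj
        rw [Finset.mem_filter] at hj
        obtain ⟨q, hq⟩ := hj.2
        have h1 := (hBm j hj.1)
        have hq1 : (n - j) / (l - 1) = q := by rw [hq]; exact Nat.mul_div_cancel_left q hl1
        refine ⟨q, hq, ?_, ?_, hq1⟩
        · rcases Nat.eq_zero_or_pos q with h0 | h0
          · subst h0; rw [mul_zero] at hq; omega
          · exact h0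
        · rw [← hq1]
          apply Nat.div_le_div_right
          omega
      have e1 : ∑ j ∈ B.filter (fun j => (l - 1) ∣ (n - j)), (1 + padicValNat l (n - j)) =
          ∑ r ∈ (B.filter (fun j => (l - 1) ∣ (n - j))).image (fun j => (n - j) / (l - 1) - 1),
            (1 + padicValNat l (r + 1)) := by
        rw [Finset.sum_image]
        · apply Finset.sum_congr rfl
          intro j hj
          obtain ⟨q, hq1, hq2, _, hq4⟩ := hq j hj
          rw [hq4, Nat.sub_add_cancel hq2, hq1, padicValNat.mul (by omega) (by omega),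
            padicValNat.eq_zero_of_not_dvd (n := l - 1), zero_add]
          intro hdvd
          have := Nat.le_of_dvd hl1 hdvd
          omega
        · intro j hj j' hj' heq
          obtain ⟨q, hq1, hq2, _, hq4⟩ := hq j hj
          obtain ⟨q', hq1', hq2', _, hq4'⟩ := hq j' hj'
          simp only at heq
          rw [hq4, hq4'] at heq
          have hqq : q = q' := by omega
          subst hqq
          have a1 := (hBm j (Finset.mem_filter.1 hj).1).1
          have a2 := (hBm j' (Finset.mem_filter.1 hj').1).1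
          omega
      rw [e1]
      apply Finset.sum_le_sum_of_subset
      intro r hr
      rw [Finset.mem_image] at hr
      obtain ⟨j, hj, rfl⟩ := hr
      obtain ⟨q, _, hq2, hq3, hq4⟩ := hq j hj
      rw [Finset.mem_range, hq4]
      omega
    have h2 := exists_prim_fact l hl R
    have h4 : 4 * R ≤ n - c₀ := by
      have h6 : R * (l - 1) ≤ n - c₀ := Nat.div_mul_le_self _ _
      have h7 : R * 4 ≤ R * (l - 1) := Nat.mul_le_mul_left _ (by omega)
      omega
    omega
  · intro h
    exact hn' (by exact_mod_cast h)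
  · rw [hcast, hN]
    push_cast
    rfl

end Pool.Agent.Helper51.Moser
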