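import Pool.Agent.Helper51.Moser.Cyc

open Finset

namespace Pool.Agent.Helper51.Moser

theorem shift_char (l : ℕ) (hl : l.Prime) (s : ℕ) (hs : 2 ≤ s)
    (χ : DirichletCharacter ℂ (l ^ s)) (hχ : ¬ χ.IsPrimitive) (b : ZMod (l ^ s)) :
    χ (b + ((l ^ (s - 1) : ℕ) : ZMod (l ^ s))) = χ b := by
  have : NeZero (l ^ s) := ⟨pow_ne_zero _ hl.ne_zero⟩
  -- the conductor divides `l ^ (s-1)`
  have hc : χ.conductor ∣ l ^ s := χ.conductor_dvd_level
  obtain ⟨k, hk, hk2⟩ := (Nat.dvd_prime_pow hl).1 hc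
  have hks : k ≠ s := by
    rintro rfl
    exact hχ hk2
  have hdvd : χ.conductor ∣ l ^ (s - 1) := by
    rw [hk2]; exact pow_dvd_pow l (by omega)
  have hunit : IsUnit (b + ((l ^ (s - 1) : ℕ) : ZMod (l ^ s))) ↔ IsUnit b := by
    have e1 : b = ((b.val : ℕ) : ZMod (l ^ s)) := (ZMod.natCast_zmod_val b).symm
    rw [e1, ← Nat.cast_add, ZMod.isUnit_iff_coprime, ZMod.isUnit_iff_coprime]
    rw [Nat.coprime_pow_right_iff (by omega), Nat.coprime_pow_right_iff (by omega),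
      Nat.coprime_comm, hl.coprime_iff_not_dvd, Nat.coprime_comm, hl.coprime_iff_not_dvd,
      Nat.dvd_add_left (dvd_pow_self l (by omega))]
  by_cases hb : IsUnit b
  · have hb' := hunit.2 hb
    have hfac := χ.factorsThrough_conductor
    obtain ⟨hd, χ₀, h0⟩ := hfac
    obtain ⟨u, hu⟩ := hb
    obtain ⟨v, hv⟩ := hb'
    have h1 : χ b = χ₀ (ZMod.cast b : ZMod χ.conductor) := by
      rw [← hu]
      conv_lhs => rw [h0]
      exact DirichletCharacter.changeLevel_eq_cast_of_dvd χ₀ hd u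
    have h2 : χ (b + ((l ^ (s - 1) : ℕ) : ZMod (l ^ s))) =
        χ₀ (ZMod.cast (b + ((l ^ (s - 1) : ℕ) : ZMod (l ^ s))) : ZMod χ.conductor) := by
      rw [← hv]
      conv_lhs => rw [h0]
      exact DirichletCharacter.changeLevel_eq_cast_of_dvd χ₀ hd v
    rw [h1, h2]
    congr 1
    have h3 : (ZMod.cast (b + ((l ^ (s - 1) : ℕ) : ZMod (l ^ s))) : ZMod χ.conductor) =
        ZMod.cast b + ZMod.cast ((l ^ (s - 1) : ℕ) : ZMod (l ^ s)) := ZMod.cast_add hc _ _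
    rw [h3, ZMod.cast_natCast hc, (ZMod.natCast_eq_zero_iff _ _).2 hdvd, add_zero]
  · rw [MulChar.map_nonunit χ hb, MulChar.map_nonunit χ (fun hh => hb (hunit.1 hh))]

theorem gs_zero (l : ℕ) (hl : l.Prime) (s : ℕ) (hs : 2 ≤ s) [NeZero (l ^ s)]
    (χ : DirichletCharacter ℂ (l ^ s)) (hχ : ¬ χ.IsPrimitive)
    (e : AddChar (ZMod (l ^ s)) ℂ) (he : e ((l ^ (s - 1) : ℕ) : ZMod (l ^ s)) ≠ 1) :
    gaussSum χ e = 0 := by
  have h1 : gaussSum χ e = e ((l ^ (s - 1) : ℕ) : ZMod (l ^ s)) * gaussSum χ e := by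
    conv_lhs => rw [gaussSum]
    rw [← Equiv.sum_comp (Equiv.addRight ((l ^ (s - 1) : ℕ) : ZMod (l ^ s)))]
    rw [gaussSum, Finset.mul_sum]
    refine Finset.sum_congr rfl fun b _ => ?_
    rw [Equiv.coe_addRight, shift_char l hl s hs χ hχ, AddChar.map_add_eq_mul]
    ring
  have h2 : (1 - e ((l ^ (s - 1) : ℕ) : ZMod (l ^ s))) * gaussSum χ e = 0 := by
    linear_combination h1
  rcases mul_eq_zero.1 h2 with h3 | h3
  · exact absurd (sub_eq_zero.1 h3).symm he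
  · exact h3

theorem fourier_dual (l : ℕ) (hl : l.Prime) (s : ℕ) (hs : 1 ≤ s)
    (Δ : ℕ →₀ ℤ) (hsupp : ∀ w ∈ Δ.support, ¬ l ∣ w) (j : ℕ)
    (h : ∀ χ : DirichletCharacter ℂ (l ^ s), χ (-1) = (-1) ^ j → (χ.IsPrimitive ∨ s = 1) →
      (Δ.sum fun w d => (d : ℂ) * (w : ℂ) ^ j * χ⁻¹ (w : ZMod (l ^ s))) = 0)
    (ζ : ℂ) (hζ : IsPrimitiveRoot ζ (l ^ s)) :
    (Δ.sum fun w d => (d : ℂ) * (w : ℂ) ^ j * (ζ ^ w + (-1) ^ j * ζ⁻¹ ^ w)) = 0 := by
  have : NeZero (l ^ s) := ⟨pow_ne_zero _ hl.ne_zero⟩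
  set e : AddChar (ZMod (l ^ s)) ℂ := AddChar.zmodChar (l ^ s) hζ.pow_eq_one with he
  have heap : ∀ a : ℕ, e (a : ZMod (l ^ s)) = ζ ^ a := fun a =>
    AddChar.zmodChar_apply' hζ.pow_eq_one a
  have hwu : ∀ w ∈ Δ.support, IsUnit ((w : ℕ) : ZMod (l ^ s)) := by
    intro w hw
    rw [ZMod.isUnit_iff_coprime, Nat.coprime_pow_right_iff (by omega), Nat.coprime_comm,
      hl.coprime_iff_not_dvd]
    exact hsupp w hw
  -- the transform
  set G : ZMod (l ^ s) → ℂ := fun b =>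
    ∑ w ∈ Δ.support, ((Δ w : ℤ) : ℂ) * (w : ℂ) ^ j *
      (e (b * w) + (-1) ^ j * e (-(b * w))) with hG
  have hshift : ∀ (χ : DirichletCharacter ℂ (l ^ s)) (u : ZMod (l ^ s)), IsUnit u →
      ∑ b : ZMod (l ^ s), χ b * e (b * u) = χ⁻¹ u * gaussSum χ e := by
    intro χ u hu
    obtain ⟨v, rfl⟩ := hu
    have h1 := gaussSum_mulShift χ e v
    rw [gaussSum] at h1
    simp only [AddChar.mulShift_apply] at h1
    have h2 : χ⁻¹ (v : ZMod (l ^ s)) * χ (v : ZMod (l ^ s)) = 1 := by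
      rw [← MulChar.mul_apply, inv_mul_cancel, MulChar.one_apply_coe]
    have h3 : ∑ b : ZMod (l ^ s), χ b * e (b * (v : ZMod (l ^ s))) =
        ∑ b : ZMod (l ^ s), χ b * e ((v : ZMod (l ^ s)) * b) := by
      refine Finset.sum_congr rfl fun b _ => ?_
      rw [mul_comm b]
    rw [h3, ← h1, ← mul_assoc, h2, one_mul]
  have hT : ∀ χ : DirichletCharacter ℂ (l ^ s), ∑ b : ZMod (l ^ s), χ b * G b =
      gaussSum χ e * (1 + (-1) ^ j * χ (-1)) *
        (Δ.sum fun w d => (d : ℂ) * (w : ℂ) ^ j * χ⁻¹ (w : ZMod (l ^ s))) := by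
    intro χ
    simp only [hG, Finset.mul_sum, Finsupp.sum]
    rw [Finset.sum_comm]
    refine Finset.sum_congr rfl fun w hw => ?_
    have hw1 := hwu w hw
    have h1 := hshift χ _ hw1
    have h2 := hshift χ _ hw1.neg
    have h3 : χ⁻¹ (-((w : ℕ) : ZMod (l ^ s))) = χ (-1) * χ⁻¹ ((w : ℕ) : ZMod (l ^ s)) := by
      rw [← neg_one_mul, map_mul]
      congr 1
      rw [MulChar.inv_apply]
      congr 1
      have h0 := Ring.mul_inverse_cancel (-1 : ZMod (l ^ s)) isUnit_one.neg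
      linear_combination -h0
    have h4 : ∑ b : ZMod (l ^ s), χ b * (((Δ w : ℤ) : ℂ) * (w : ℂ) ^ j *
        (e (b * w) + (-1) ^ j * e (-(b * w)))) =
        ((Δ w : ℤ) : ℂ) * (w : ℂ) ^ j * (∑ b : ZMod (l ^ s), χ b * e (b * w)) +
        ((Δ w : ℤ) : ℂ) * (w : ℂ) ^ j * (-1) ^ j *
          (∑ b : ZMod (l ^ s), χ b * e (b * (-w))) := by
      rw [Finset.mul_sum, Finset.mul_sum, ← Finset.sum_add_distrib]
      refine Finset.sum_congr rfl fun b _ => ?_
      rw [mul_neg]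
      ring
    rw [h4, h1, h2, h3]
    ring
  have hzero : ∀ χ : DirichletCharacter ℂ (l ^ s), ∑ b : ZMod (l ^ s), χ b * G b = 0 := by
    intro χ
    rw [hT χ]
    by_cases hpar : χ (-1) = (-1) ^ j
    · by_cases hp : χ.IsPrimitive ∨ s = 1
      · rw [h χ hpar hp, mul_zero]
      · push Not at hp
        have hs2 : 2 ≤ s := by omega
        have hne : e ((l ^ (s - 1) : ℕ) : ZMod (l ^ s)) ≠ 1 := by
          rw [heap]
          refine hζ.pow_ne_one_of_pos_of_lt (pow_ne_zero _ hl.ne_zero) ?_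
          exact Nat.pow_lt_pow_right hl.one_lt (by omega)
        rw [gs_zero l hl s hs2 χ hp.1 e hne]
        ring
    · have h1 : χ (-1) = 1 ∨ χ (-1) = -1 := χ.even_or_odd
      have h2 := neg_one_pow_eq_or ℂ j
      have h3 : (1 + (-1) ^ j * χ (-1)) = 0 := by
        rcases h1 with h1 | h1 <;> rcases h2 with h2 | h2 <;> rw [h1, h2] at hpar ⊢ <;>
          first | (exact absurd rfl hpar) | norm_num
      rw [h3]
      ring
  -- orthogonality
  have hsum : ∑ χ : DirichletCharacter ℂ (l ^ s), ∑ b : ZMod (l ^ s), χ b * G b = 0 :=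
    Finset.sum_eq_zero fun χ _ => hzero χ
  rw [Finset.sum_comm] at hsum
  simp only [← Finset.sum_mul] at hsum
  simp only [DirichletCharacter.sum_characters_eq ℂ, ite_mul, zero_mul, Finset.sum_ite_eq',
    Finset.mem_univ, if_true] at hsum
  have hphi : (((l ^ s).totient : ℕ) : ℂ) ≠ 0 := by
    have := Nat.totient_pos.2 (Nat.pos_of_ne_zero (pow_ne_zero s hl.ne_zero))
    exact_mod_cast this.ne'
  have hG1 : G 1 = 0 := (mul_eq_zero.1 hsum).resolve_left hphi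
  rw [Finsupp.sum, ← hG1]
  simp only [hG]
  refine Finset.sum_congr rfl fun w _ => ?_
  rw [one_mul, AddChar.map_neg_eq_inv, heap, inv_pow]

end Pool.Agent.Helper51.Moser
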