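import Pool.Agent.Helper51.Moser.Cyc
import Pool.Agent.Helper51.Moser.Basic

open Finset

namespace Pool.Agent.Helper51.Moser

lemma tan_contDiffAt (n : WithTop ℕ∞) : ContDiffAt ℝ n Real.tan 0 := by
  rw [Real.contDiffAt_tan]; simp

theorem tan_deriv_zero (m : ℕ) : iteratedDeriv m Real.tan 0 = (tanN m : ℝ) := by
  induction m using Nat.strong_induction_on with
  | _ m ih =>
    match m, ih with
    | 0, _ => simp [tanN]
    | 1, _ => simp [tanN, iteratedDeriv_one]
    | (m + 2), ih =>
      have h1 : deriv Real.tan =ᶠ[nhds 0] fun x => 1 + (Real.tan * Real.tan) x := by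
        have hc : ∀ᶠ x in nhds (0 : ℝ), Real.cos x ≠ 0 := by
          have : ContinuousAt Real.cos 0 := Real.continuous_cos.continuousAt
          exact this.eventually_ne (by simp)
        filter_upwards [hc] with x hx
        rw [Real.deriv_tan, Pi.mul_apply, Real.tan_eq_sin_div_cos]
        field_simp
        nlinarith [Real.sin_sq_add_cos_sq x]
      rw [iteratedDeriv_succ', h1.iteratedDeriv_eq (m + 1), iteratedDeriv_const_add (by omega),
        iteratedDeriv_mul (tan_contDiffAt _) (tan_contDiffAt _)]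
      rw [tanN, Finset.sum_range]
      push_cast
      refine Finset.sum_congr rfl fun i _ => ?_
      rw [ih i (by omega), ih (m + 1 - i) (by omega)]

lemma iteratedDeriv_scale (f : ℝ → ℝ) (c : ℝ) (k : ℕ) :
    iteratedDeriv k (fun t => f (c * t)) = fun t => c ^ k * iteratedDeriv k f (c * t) := by
  induction k with
  | zero => ext t; simp
  | succ k ih =>
    ext t
    rw [iteratedDeriv_succ, ih, deriv_const_mul_field, deriv_comp_mul_left (f := iteratedDeriv k f),
      iteratedDeriv_succ, smul_eq_mul]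
    ring

theorem LL_deriv_zero (n : ℕ) (hn : 1 ≤ n) :
    iteratedDeriv n LL 0 = -(tanN (n - 1) : ℝ) / 2 ^ n := by
  obtain ⟨k, rfl⟩ : ∃ k, n = k + 1 := ⟨n - 1, by omega⟩
  have h1 : deriv LL =ᶠ[nhds 0] fun x => (-(1 / 2) : ℝ) * (fun t => Real.tan (1 / 2 * t)) x := by
    have hc : ∀ᶠ x in nhds (0 : ℝ), Real.cos (x / 2) ≠ 0 := by
      have : ContinuousAt (fun x : ℝ => Real.cos (x / 2)) 0 := by fun_prop
      exact this.eventually_ne (by simp)
    filter_upwards [hc] with x hx
    have h2 : HasDerivAt LL ((2 * (-Real.sin (x / 2) * (1 / 2))) / (2 * Real.cos (x / 2))) x := by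
      unfold LL
      refine HasDerivAt.log ?_ (by positivity)
      refine HasDerivAt.const_mul 2 ?_
      exact (Real.hasDerivAt_cos (x / 2)).comp x ((hasDerivAt_id x).div_const 2)
    rw [h2.deriv]
    rw [Real.tan_eq_sin_div_cos, show (1 / 2 * x : ℝ) = x / 2 by ring]
    field_simp
  rw [iteratedDeriv_succ', h1.iteratedDeriv_eq k, iteratedDeriv_const_mul_field,
    iteratedDeriv_scale]
  simp only [mul_zero, tan_deriv_zero, Nat.add_sub_cancel]
  rw [pow_succ, one_div, inv_pow]
  field_simp

end Pool.Agent.Helper51.Moser
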