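import Pool.Agent.Helper51.Moser.Cyc

open Finset

namespace Pool.Agent.Helper51.Moser

theorem log_cyclotomic (m : ℕ) (hm : 0 < m) (θ : ℝ) (h : Complex.exp (m * θ * Complex.I) ≠ 1) :
    Real.log ‖(Polynomial.cyclotomic m ℂ).eval (Complex.exp (θ * Complex.I))‖ =
      ∑ w ∈ m.divisors, (ArithmeticFunction.moebius (m / w) : ℝ) * KK (w * θ) := by
  set z := Complex.exp (θ * Complex.I) with hz
  have hzw : ∀ w : ℕ, z ^ w = Complex.exp (w * θ * Complex.I) := by
    intro w
    rw [hz, ← Complex.exp_nat_mul]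
    congr 1
    ring
  have hne : ∀ w : ℕ, w ∣ m → z ^ w ≠ 1 := by
    rintro w ⟨c, rfl⟩ hw
    apply h
    rw [← hzw, pow_mul, hw, one_pow]
  have hKK : ∀ w : ℕ, Real.log ‖z ^ w - 1‖ = KK (w * θ) := by
    intro w
    have h1 : z ^ w = Complex.exp (Complex.I * ((w * θ : ℝ) : ℂ)) := by
      rw [hzw]
      congr 1
      push_cast
      ring
    rw [h1, Complex.norm_exp_I_mul_ofReal_sub_one, Real.norm_eq_abs, Real.log_abs]
    rfl
  have hprod : ∀ n : ℕ, 0 < n → ∏ d ∈ n.divisors, (Polynomial.cyclotomic d ℂ).eval z =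
      z ^ n - 1 := by
    intro n hn
    rw [← Polynomial.eval_prod, Polynomial.prod_cyclotomic_eq_X_pow_sub_one hn]
    simp
  have hsum : ∀ n > 0, n ∈ {n : ℕ | n ∣ m} →
      (∑ d ∈ n.divisors, Real.log ‖(Polynomial.cyclotomic d ℂ).eval z‖) =
        (fun w : ℕ => KK (w * θ)) n := by
    intro n hn hnm
    change _ = KK (n * θ)
    rw [← hKK, ← hprod n hn, norm_prod, Real.log_prod]
    intro d hd hd0
    rw [norm_eq_zero] at hd0
    apply hne n hnm
    have := hprod n hn
    rw [Finset.prod_eq_zero hd hd0] at this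
    exact (sub_eq_zero.1 this.symm)
  have key := (ArithmeticFunction.sum_eq_iff_sum_mul_moebius_eq_on {n : ℕ | n ∣ m}
    (fun _ _ => Nat.dvd_trans)).1 hsum m hm (dvd_refl m)
  rw [← key, Nat.sum_divisorsAntidiagonal'
    (f := fun a b => ((ArithmeticFunction.moebius a : ℤ) : ℝ) * KK (b * θ))]

end Pool.Agent.Helper51.Moser
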