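import Pool.Agent.Helper51.Moser.Cyc

open Finset

namespace Pool.Agent.Helper51.Moser

theorem log_sub_aux {f g : ℝ → ℝ} {x : ℝ} (hf : AnalyticAt ℝ f x) (hg : AnalyticAt ℝ g x)
    (hf0 : f x ≠ 0) (hg0 : g x ≠ 0) (c : ℕ)
    (h : ∀ j < c, iteratedDeriv j (fun t => f t - g t) x = 0) (n : ℕ) (hn : n < c) :
    iteratedDeriv (n + 1) (fun t => Real.log (f t) - Real.log (g t)) x =
      iteratedDeriv (n + 1) (fun t => f t - g t) x / f x := by
  have hha : AnalyticAt ℝ (fun t => f t - g t) x := hf.sub hg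
  have hda : AnalyticAt ℝ (deriv (fun t => f t - g t)) x := hha.deriv
  have hua : AnalyticAt ℝ (fun t => (f t)⁻¹) x := hf.inv hf0
  have hwa : AnalyticAt ℝ (fun t => -(deriv g t) * ((f t)⁻¹ * (g t)⁻¹)) x :=
    (hg.deriv.neg).mul (hua.mul (hg.inv hg0))
  have hev : deriv (fun t => Real.log (f t) - Real.log (g t)) =ᶠ[nhds x]
      (deriv (fun t => f t - g t)) * (fun t => (f t)⁻¹) +
        (fun t => f t - g t) * (fun t => -(deriv g t) * ((f t)⁻¹ * (g t)⁻¹)) := by
    filter_upwards [hf.eventually_analyticAt, hg.eventually_analyticAt,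
      hf.continuousAt.eventually_ne hf0, hg.continuousAt.eventually_ne hg0] with t h1 h2 h3 h4
    have d1 := h1.differentiableAt.hasDerivAt
    have d2 := h2.differentiableAt.hasDerivAt
    have d3 := ((d1.log h3).sub (d2.log h4)).deriv
    have d4 := (d1.sub d2).deriv
    have d3' : deriv (fun t => Real.log (f t) - Real.log (g t)) t =
      deriv f t / f t - deriv g t / g t := d3
    have d4' : deriv (fun t => f t - g t) t = deriv f t - deriv g t := d4
    rw [d3']
    simp only [Pi.add_apply, Pi.mul_apply]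
    rw [d4']
    field_simp
    ring
  rw [iteratedDeriv_succ', hev.iteratedDeriv_eq n,
    iteratedDeriv_add (hda.mul hua).contDiffAt (hha.mul hwa).contDiffAt,
    iteratedDeriv_mul hda.contDiffAt hua.contDiffAt, iteratedDeriv_mul hha.contDiffAt hwa.contDiffAt]
  have hz : ∑ i ∈ Finset.range (n + 1), (n.choose i : ℝ) * iteratedDeriv i (fun t => f t - g t) x *
      iteratedDeriv (n - i) (fun t => -(deriv g t) * ((f t)⁻¹ * (g t)⁻¹)) x = 0 := by
    refine Finset.sum_eq_zero fun i hi => ?_
    rw [Finset.mem_range] at hi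
    rw [h i (by omega)]
    ring
  rw [hz, add_zero, Finset.sum_range_succ, Finset.sum_eq_zero (fun i hi => ?_)]
  · rw [Nat.choose_self, Nat.sub_self, iteratedDeriv_zero, ← iteratedDeriv_succ', div_eq_mul_inv]
    ring
  · rw [Finset.mem_range] at hi
    rw [← iteratedDeriv_succ', h (i + 1) (by omega)]
    ring

theorem log_sub_deriv {f g : ℝ → ℝ} {x : ℝ} (hf : AnalyticAt ℝ f x) (hg : AnalyticAt ℝ g x)
    (hf0 : f x ≠ 0) (hg0 : g x ≠ 0) (c : ℕ)
    (h : ∀ j < c, iteratedDeriv j (fun t => f t - g t) x = 0) :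
    (∀ j < c, iteratedDeriv j (fun t => Real.log (f t) - Real.log (g t)) x = 0) ∧
      (1 ≤ c → iteratedDeriv c (fun t => Real.log (f t) - Real.log (g t)) x =
        iteratedDeriv c (fun t => f t - g t) x / f x) := by
  constructor
  · intro j hj
    cases j with
    | zero =>
      have h0 := h 0 hj
      rw [iteratedDeriv_zero] at h0 ⊢
      have : f x = g x := by linarith
      rw [this, sub_self]
    | succ n =>
      rw [log_sub_aux hf hg hf0 hg0 c h n (by omega), h (n + 1) hj, zero_div]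
  · intro hc
    obtain ⟨n, rfl⟩ := Nat.exists_eq_add_of_le' hc
    exact log_sub_aux hf hg hf0 hg0 (n + 1) h n (by omega)

end Pool.Agent.Helper51.Moser
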