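import Pool.Agent.Helper51.Moser.Cyc

open Finset

namespace Pool.Agent.Helper51.Moser

theorem mr_mom_add (n : ℕ) (f g : ℕ →₀ ℤ) : mom (f + g) n = mom f n + mom g n := by
  unfold mom
  refine Finsupp.sum_add_index' ?_ ?_
  · intro a; simp
  · intro a b c; ring

theorem mr_momp_add (l n : ℕ) (f g : ℕ →₀ ℤ) :
    momp l (f + g) n = momp l f n + momp l g n := by
  unfold momp
  refine Finsupp.sum_add_index' ?_ ?_
  · intro a; simp
  · intro a b c
    split_ifs
    · simp
    · ring

theorem mr_nrm_add (l : ℕ) (f g : ℕ →₀ ℤ) : nrm l (f + g) = nrm l f + nrm l g := by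
  unfold nrm
  refine Finsupp.sum_add_index' ?_ ?_
  · intro a
    split_ifs <;> simp
  · intro a b c
    split_ifs
    · rw [mul_add, Finsupp.single_add]
    · rw [Finsupp.single_add]

theorem mom_rel (l : ℕ) (hl : 1 ≤ l) (Δ : ℕ →₀ ℤ) (n : ℕ) (hn : 1 ≤ n) :
    mom Δ n = (1 - (l : ℤ) ^ (n - 1)) * momp l Δ n + (l : ℤ) ^ (n - 1) * mom (nrm l Δ) n := by
  induction Δ using Finsupp.induction_linear with
  | zero => simp [mom, momp, nrm]
  | add f g hf hg =>
    rw [mr_mom_add, mr_momp_add, mr_nrm_add, mr_mom_add, hf, hg]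
    ring
  | single w d =>
    have h1 : ∀ (v : ℕ) (c : ℤ), mom (Finsupp.single v c) n = c * (v : ℤ) ^ n := by
      intro v c
      unfold mom
      rw [Finsupp.sum_single_index]
      simp
    have h2 : momp l (Finsupp.single w d) n = if l ∣ w then 0 else d * (w : ℤ) ^ n := by
      unfold momp
      rw [Finsupp.sum_single_index]
      simp
    have h3 : nrm l (Finsupp.single w d) =
        if l ∣ w then Finsupp.single (w / l) ((l : ℤ) * d) else Finsupp.single w d := by
      unfold nrm
      rw [Finsupp.sum_single_index]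
      split_ifs <;> simp
    rw [h1, h2, h3]
    split_ifs with h
    · obtain ⟨v, rfl⟩ := h
      rw [Nat.mul_div_cancel_left v (by omega), h1]
      obtain ⟨k, rfl⟩ : ∃ k, n = k + 1 := ⟨n - 1, by omega⟩
      rw [Nat.add_sub_cancel]
      push_cast
      ring
    · rw [h1]
      ring

end Pool.Agent.Helper51.Moser
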