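import Pool.Agent.Helper51.Moser.Cyc

open Finset

namespace Pool.Agent.Helper51.Moser

open Polynomial in
/-- moments of a polynomial -/
noncomputable def mdE (n : ℕ) : ℤ[X] →+ ℤ where
  toFun g := g.sum fun x a => a * (x : ℤ) ^ n
  map_zero' := Polynomial.sum_zero_index _
  map_add' f g := Polynomial.sum_add_index f g _ (fun i => by simp) (fun i a b => by ring)

open Polynomial in
theorem mdE_apply (n : ℕ) (g : ℤ[X]) : mdE n g = g.sum fun x a => a * (x : ℤ) ^ n := rfl

open Polynomial in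
theorem mdE_monomial (n k : ℕ) (a : ℤ) : mdE n (monomial k a) = a * (k : ℤ) ^ n := by
  rw [mdE_apply, Polynomial.sum_monomial_index _ _ (by simp)]

open Polynomial in
theorem mdE_X_pow (n k : ℕ) : mdE n (X ^ k) = (k : ℤ) ^ n := by
  rw [← Polynomial.monomial_one_right_eq_X_pow, mdE_monomial, one_mul]

open Polynomial in
theorem mdE_mul (n : ℕ) (f g : ℤ[X]) :
    mdE n (f * g) = ∑ m ∈ Finset.range (n + 1), (n.choose m : ℤ) * mdE m f * mdE (n - m) g := by
  induction f using Polynomial.induction_on' with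
  | add f₁ f₂ h₁ h₂ =>
    rw [add_mul, map_add, h₁, h₂, ← Finset.sum_add_distrib]
    refine Finset.sum_congr rfl fun m _ => ?_
    rw [map_add]
    ring
  | monomial i a =>
    induction g using Polynomial.induction_on' with
    | add g₁ g₂ h₁ h₂ =>
      rw [mul_add, map_add, h₁, h₂, ← Finset.sum_add_distrib]
      refine Finset.sum_congr rfl fun m _ => ?_
      rw [map_add]
      ring
    | monomial j b =>
      rw [Polynomial.monomial_mul_monomial, mdE_monomial]
      push_cast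
      rw [add_pow, Finset.mul_sum]
      refine Finset.sum_congr rfl fun m _ => ?_
      rw [mdE_monomial, mdE_monomial]
      ring

open Polynomial in
/-- all moments are divisible by `l ^ a` -/
def mdD (l a : ℕ) (g : ℤ[X]) : Prop := ∀ n, (l : ℤ) ^ a ∣ mdE n g

open Polynomial in
theorem mdD_mul {l a b : ℕ} {f g : ℤ[X]} (hf : mdD l a f) (hg : mdD l b g) :
    mdD l (a + b) (f * g) := by
  intro n
  rw [mdE_mul, pow_add]
  refine Finset.dvd_sum fun m _ => ?_
  rw [mul_assoc]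
  exact Dvd.dvd.mul_left (mul_dvd_mul (hf m) (hg (n - m))) _

open Polynomial in
theorem mdD_zero (l : ℕ) (g : ℤ[X]) : mdD l 0 g := by
  intro n
  rw [pow_zero]
  exact one_dvd _

open Polynomial in
theorem mdD_pow {l : ℕ} {f : ℤ[X]} (hf : mdD l 1 f) (k : ℕ) : mdD l k (f ^ k) := by
  induction k with
  | zero => exact mdD_zero l _
  | succ k ih =>
    rw [pow_succ]
    exact mdD_mul ih hf

open Polynomial in
theorem mdD_prod {l : ℕ} (f : ℕ → ℤ[X]) (a : ℕ → ℕ) (h : ∀ k, mdD l (a k) (f k)) (J : ℕ) :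
    mdD l (∑ k ∈ Finset.range J, a k) (∏ k ∈ Finset.range J, f k) := by
  induction J with
  | zero => exact mdD_zero l _
  | succ J ih =>
    rw [Finset.sum_range_succ, Finset.prod_range_succ]
    exact mdD_mul ih (h J)

open Polynomial in
theorem mdD_X_pow_sub_one (l : ℕ) : mdD l 1 (X ^ l - 1 : ℤ[X]) := by
  intro n
  have h1 : mdE n (1 : ℤ[X]) = 0 ^ n := by
    have := mdE_X_pow n 0
    simpa using this
  rw [map_sub, mdE_X_pow, h1, pow_one]
  rcases n with _ | n
  · simp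
  · rw [zero_pow (Nat.succ_ne_zero n), sub_zero, pow_succ]
    exact Dvd.intro_left _ rfl

open Polynomial in
theorem mdD_cyclotomic (l : ℕ) (hl : l.Prime) (k : ℕ) :
    mdD l 1 (cyclotomic (l ^ (k + 2)) ℤ) := by
  intro n
  rw [cyclotomic_prime_pow_eq_geom_sum hl, map_sum, pow_one]
  have h1 : ∀ i, mdE n ((X ^ l ^ (k + 1) : ℤ[X]) ^ i) = ((l ^ (k + 1) * i : ℕ) : ℤ) ^ n := by
    intro i
    rw [← pow_mul, mdE_X_pow]
  simp_rw [h1]
  rcases n with _ | n
  · simp
  · refine Finset.dvd_sum fun i _ => ?_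
    refine Dvd.dvd.trans ?_ (dvd_pow_self _ (Nat.succ_ne_zero n))
    push_cast
    refine Dvd.dvd.mul_right ?_ _
    exact dvd_pow_self _ (Nat.succ_ne_zero k)

open Polynomial in
theorem md_cyclotomic_pow_dvd (m : ℕ) (hm : m ≠ 0) (P : ℂ[X]) (k : ℕ)
    (h : ∀ ζ : ℂ, IsPrimitiveRoot ζ m → (X - C ζ) ^ k ∣ P) : (cyclotomic m ℂ) ^ k ∣ P := by
  rw [cyclotomic_eq_prod_X_sub_primitiveRoots (Complex.isPrimitiveRoot_exp m hm),
    ← Finset.prod_pow]
  apply Finset.prod_dvd_of_coprime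
  · intro a _ b _ hab
    apply IsCoprime.pow
    exact isCoprime_X_sub_C_of_isUnit_sub (sub_ne_zero.2 hab).isUnit
  · intro ζ hζ
    exact h ζ ((mem_primitiveRoots (Nat.pos_of_ne_zero hm)).1 hζ)

open Polynomial in
theorem md_coprime {a b : ℕ} (h : a ≠ b) : IsCoprime (cyclotomic a ℂ) (cyclotomic b ℂ) := by
  have h1 := (cyclotomic.isCoprime_rat h).map (Polynomial.mapRingHom (algebraMap ℚ ℂ))
  simpa using h1

open Polynomial in
theorem moment_dvd (l : ℕ) (hl : l.Prime) (G : ℤ[X]) (c : ℕ → ℕ) (I : ℕ)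
    (h0 : (X - C (1 : ℂ)) ^ c 1 ∣ G.map (Int.castRingHom ℂ))
    (h1 : ∀ s ∈ Finset.Icc 1 I, ∀ ζ : ℂ, IsPrimitiveRoot ζ (l ^ s) →
      (X - C ζ) ^ c s ∣ G.map (Int.castRingHom ℂ)) (N : ℤ) (n : ℕ) :
    (l : ℤ) ^ (∑ s ∈ Finset.Icc 1 I, c s) ∣ G.sum fun x g => g * ((x : ℤ) - N) ^ n := by
  rcases I with _ | J
  · simp
  have hlpos := hl.pos
  -- exponents
  obtain ⟨k, hk0, hk1⟩ : ∃ k : ℕ → ℕ, k 0 = c 1 ∧ ∀ s, k (s + 1) = c (s + 1) :=
    ⟨fun s => if s = 0 then c 1 else c s, by simp, fun s => by simp⟩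
  have hdvd : ∏ s ∈ Finset.range (J + 2), (cyclotomic (l ^ s) ℂ) ^ k s ∣
      G.map (Int.castRingHom ℂ) := by
    apply Finset.prod_dvd_of_coprime
    · intro a _ b _ hab
      apply IsCoprime.pow
      exact md_coprime fun h => hab (Nat.pow_right_injective hl.two_le h)
    · intro s hs
      rcases s with _ | s
      · rw [hk0, pow_zero, cyclotomic_one]
        simpa using h0
      · rw [hk1]
        apply md_cyclotomic_pow_dvd _ (pow_pos hlpos _).ne'
        exact h1 (s + 1) (Finset.mem_Icc.2 ⟨by omega, by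
          have := Finset.mem_range.1 hs
          omega⟩)
  have hmap : (∏ s ∈ Finset.range (J + 2), (cyclotomic (l ^ s) ℤ) ^ k s).map
      (Int.castRingHom ℂ) = ∏ s ∈ Finset.range (J + 2), (cyclotomic (l ^ s) ℂ) ^ k s := by
    rw [Polynomial.map_prod]
    refine Finset.prod_congr rfl fun s _ => ?_
    rw [Polynomial.map_pow, map_cyclotomic]
  have hmonic : (∏ s ∈ Finset.range (J + 2), (cyclotomic (l ^ s) ℤ) ^ k s).Monic :=
    monic_prod_of_monic _ _ fun s _ => (cyclotomic.monic _ _).pow _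
  rw [← hmap, Polynomial.map_dvd_map _ (RingHom.injective_int _) hmonic] at hdvd
  obtain ⟨H, hH⟩ := hdvd
  rw [Finset.prod_range_succ', Finset.prod_range_succ'] at hH
  simp only [hk0, hk1] at hH
  have : Fact l.Prime := ⟨hl⟩
  have e1 : (cyclotomic (l ^ (0 + 1)) ℤ) ^ c (0 + 1) * (cyclotomic (l ^ 0) ℤ) ^ c 1 =
      (X ^ l - 1) ^ c 1 := by
    rw [zero_add, pow_one, pow_zero, cyclotomic_one, ← mul_pow, cyclotomic_prime_mul_X_sub_one]
  rw [mul_assoc (∏ s ∈ Finset.range J, _), e1] at hH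
  have hD : mdD l ((∑ s ∈ Finset.range J, c (s + 1 + 1)) + c 1 + 0) G := by
    rw [hH]
    refine mdD_mul (mdD_mul ?_ (mdD_pow (mdD_X_pow_sub_one l) _)) (mdD_zero l H)
    exact mdD_prod _ _ (fun s => mdD_pow (mdD_cyclotomic l hl s) _) J
  have hsum : ∑ s ∈ Finset.Icc 1 (J + 1), c s = (∑ s ∈ Finset.range J, c (s + 1 + 1)) + c 1 := by
    have e2 : Finset.Icc 1 (J + 1) = Finset.Ico 1 (J + 2) := by
      ext s
      simp only [Finset.mem_Icc, Finset.mem_Ico]
      omega
    rw [e2, Finset.sum_Ico_eq_sum_range, show J + 2 - 1 = J + 1 by omega,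
      Finset.sum_range_succ']
    congr 1
    refine Finset.sum_congr rfl fun s _ => ?_
    congr 1
    omega
  rw [hsum]
  rw [add_zero] at hD
  -- expansion of the shifted moment
  have hexp : (G.sum fun x g => g * ((x : ℤ) - N) ^ n) =
      ∑ m ∈ Finset.range (n + 1), (n.choose m : ℤ) * (-N) ^ (n - m) * mdE m G := by
    simp_rw [mdE_apply, Polynomial.sum_def, Finset.mul_sum]
    rw [Finset.sum_comm]
    refine Finset.sum_congr rfl fun x _ => ?_
    rw [sub_eq_add_neg, add_pow, Finset.mul_sum]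
    refine Finset.sum_congr rfl fun m _ => ?_
    ring
  rw [hexp]
  exact Finset.dvd_sum fun m _ => Dvd.dvd.mul_left (hD m) _

end Pool.Agent.Helper51.Moser
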