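import Pool.Agent.Helper51.Moser.Cyc

open Finset

namespace Pool.Agent.Helper51.Moser

theorem size_ineq_prime {l : ℕ} (hl : l ∈ ({2, 3, 5, 7, 11, 13} : Finset ℕ)) : l.Prime := by
  simp only [Finset.mem_insert, Finset.mem_singleton] at hl
  rcases hl with rfl | rfl | rfl | rfl | rfl | rfl <;> norm_num

theorem size_ineq_leg (n : ℕ) (hn : n < 64) (l : ℕ) (hl : l ∈ ({2, 3, 5, 7, 11, 13} : Finset ℕ)) :
    padicValNat l n.factorial = ∑ i ∈ Finset.Ico 1 6, n / l ^ i := by
  have hp := size_ineq_prime hl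
  have : Fact l.Prime := ⟨hp⟩
  apply padicValNat_factorial
  have h1 : Nat.log l n ≤ Nat.log 2 n := Nat.log_anti_left (by norm_num) hp.two_le
  have h2 : Nat.log 2 n < 6 := Nat.log_lt_of_lt_pow' (by norm_num) (by norm_num; omega)
  omega

theorem size_ineq_small : ∀ n ∈ Finset.Ico 26 42,
    n * 62832 ^ n < 4 * 10000 ^ n * ∏ l ∈ ({2, 3, 5, 7, 11, 13} : Finset ℕ),
      l ^ (∑ i ∈ Finset.Ico 1 6, n / l ^ i) := by
  decide +kernel

theorem size_ineq_16 :
    ∏ l ∈ ({2, 3, 5, 7, 11, 13} : Finset ℕ), l ^ padicValNat l (Nat.factorial 16) =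
      20922789888000 := by
  rw [Finset.prod_congr rfl fun l hl => by rw [size_ineq_leg 16 (by norm_num) l hl]]
  decide +kernel

theorem size_ineq_step (n : ℕ) :
    (∏ l ∈ ({2, 3, 5, 7, 11, 13} : Finset ℕ), l ^ padicValNat l n.factorial) * 20922789888000 ≤
      ∏ l ∈ ({2, 3, 5, 7, 11, 13} : Finset ℕ), l ^ padicValNat l (n + 16).factorial := by
  rw [← size_ineq_16, ← Finset.prod_mul_distrib]
  apply Finset.prod_le_prod'
  intro l hl
  have hp := size_ineq_prime hl
  have : Fact l.Prime := ⟨hp⟩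
  rw [← pow_add]
  apply Nat.pow_le_pow_right hp.pos
  rw [← padicValNat.mul (Nat.factorial_ne_zero _) (Nat.factorial_ne_zero _)]
  exact padicValNat_dvd_iff_le (Nat.factorial_ne_zero _) |>.1
    ((pow_padicValNat_dvd).trans (Nat.factorial_mul_factorial_dvd_factorial_add n 16))

theorem size_ineq (n : ℕ) (hn : 26 ≤ n) :
    (n : ℝ) * (2 * Real.pi) ^ n <
      4 * ∏ l ∈ ({2, 3, 5, 7, 11, 13} : Finset ℕ), (l : ℝ) ^ padicValNat l n.factorial := by
  have hpi0 := Real.pi_pos
  have hpi : 2 * Real.pi ≤ 62832 / 10000 := by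
    have := Real.pi_lt_d4
    norm_num at this ⊢
    linarith
  induction n using Nat.strong_induction_on with
  | _ n ih =>
    by_cases h42 : n < 42
    · have h1 := size_ineq_small n (Finset.mem_Ico.2 ⟨hn, h42⟩)
      have h2 : ∏ l ∈ ({2, 3, 5, 7, 11, 13} : Finset ℕ), (l : ℝ) ^ padicValNat l n.factorial =
          ((∏ l ∈ ({2, 3, 5, 7, 11, 13} : Finset ℕ), l ^ (∑ i ∈ Finset.Ico 1 6, n / l ^ i) : ℕ) : ℝ) := by
        rw [Nat.cast_prod]
        apply Finset.prod_congr rfl
        intro l hl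
        rw [size_ineq_leg n (by omega) l hl, Nat.cast_pow]
      rw [h2]
      have h3 : (n : ℝ) * 62832 ^ n < 4 * 10000 ^ n *
          ((∏ l ∈ ({2, 3, 5, 7, 11, 13} : Finset ℕ), l ^ (∑ i ∈ Finset.Ico 1 6, n / l ^ i) : ℕ) : ℝ) := by
        exact_mod_cast h1
      calc (n : ℝ) * (2 * Real.pi) ^ n ≤ n * (62832 / 10000) ^ n := by gcongr
        _ = (n : ℝ) * 62832 ^ n / 10000 ^ n := by rw [div_pow]; ring
        _ < _ := by
          rw [div_lt_iff₀ (by positivity)]
          linarith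
    · obtain ⟨m, rfl⟩ : ∃ m, n = m + 16 := ⟨n - 16, by omega⟩
      have h1 := ih m (by omega) (by omega)
      have h2 := size_ineq_step m
      have h3 : (∏ l ∈ ({2, 3, 5, 7, 11, 13} : Finset ℕ), (l : ℝ) ^ padicValNat l m.factorial) *
          20922789888000 ≤
          ∏ l ∈ ({2, 3, 5, 7, 11, 13} : Finset ℕ), (l : ℝ) ^ padicValNat l (m + 16).factorial := by
        exact_mod_cast h2
      have hm : (26 : ℝ) ≤ m := by exact_mod_cast (by omega : 26 ≤ m)
      have hc : (42 : ℝ) / 26 * (62832 / 10000) ^ 16 ≤ 20922789888000 := by norm_num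
      have e1 : ((m + 16 : ℕ) : ℝ) = m + 16 := by push_cast; ring
      rw [e1]
      clear hn h42 ih h2 e1
      generalize (∏ l ∈ ({2, 3, 5, 7, 11, 13} : Finset ℕ), (l : ℝ) ^ padicValNat l m.factorial) = a
        at h1 h3
      generalize (∏ l ∈ ({2, 3, 5, 7, 11, 13} : Finset ℕ),
        (l : ℝ) ^ padicValNat l (m + 16).factorial) = b at h3 ⊢
      have hp16 : (2 * Real.pi) ^ 16 ≤ (62832 / 10000 : ℝ) ^ 16 :=
        pow_le_pow_left₀ (by positivity) hpi 16
      have hpm : 0 ≤ (2 * Real.pi) ^ m := by positivity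
      have hpm16 : 0 ≤ (2 * Real.pi) ^ 16 := by positivity
      rw [pow_add]
      have hF0 : (0 : ℝ) < 20922789888000 := by norm_num
      revert hc h3 hp16 hF0
      generalize (20922789888000 : ℝ) = F
      generalize (62832 / 10000 : ℝ) ^ 16 = c
      intro hc h3 hp16 hF0
      revert h1
      generalize (2 * Real.pi) ^ m = u at hpm ⊢
      generalize (2 * Real.pi) ^ 16 = v at hpm16 hp16 ⊢
      intro h1
      have h4 : ((m : ℝ) + 16) * v ≤ m * F := by
        have h5 : ((m : ℝ) + 16) ≤ 42 / 26 * m := by linarith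
        have h6 : ((m : ℝ) + 16) * v ≤ (42 / 26 * m) * c :=
          mul_le_mul h5 hp16 hpm16 (by positivity)
        have h7 : (m : ℝ) * (42 / 26 * c) ≤ m * F := mul_le_mul_of_nonneg_left hc (by positivity)
        linarith
      calc ((m : ℝ) + 16) * (u * v) = (((m : ℝ) + 16) * v) * u := by ring
        _ ≤ (m * F) * u := mul_le_mul_of_nonneg_right h4 hpm
        _ = (m * u) * F := by ring
        _ < (4 * a) * F := mul_lt_mul_of_pos_right h1 hF0
        _ ≤ _ := by linarith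

end Pool.Agent.Helper51.Moser
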