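import Pool.Agent.Helper51.Moser.Cyc

open Finset

namespace Pool.Agent.Helper51.Moser

/-- the table of values -/
def tanTab : ℕ → ℕ
  | 0 => 0
  | 1 => 1
  | 2 => 0
  | 3 => 2
  | 4 => 0
  | 5 => 16
  | 6 => 0
  | 7 => 272
  | 8 => 0
  | 9 => 7936
  | 10 => 0
  | 11 => 353792
  | 12 => 0
  | 13 => 22368256
  | 14 => 0
  | 15 => 1903757312
  | 16 => 0
  | 17 => 209865342976
  | 18 => 0
  | 19 => 29088885112832
  | 20 => 0
  | 21 => 4951498053124096
  | 22 => 0
  | 23 => 1015423886506852352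
  | _ => 0

theorem tanN_rec (m : ℕ) : tanN (m + 2) =
    ∑ i ∈ range (m + 2), (Nat.descFactorial (m + 1) i / Nat.factorial i) * tanN i *
      tanN (m + 1 - i) := by
  rw [tanN, Fin.sum_univ_eq_sum_range (fun i => Nat.choose (m + 1) i * tanN i * tanN (m + 1 - i))]
  refine Finset.sum_congr rfl fun i _ => ?_
  rw [Nat.choose_eq_descFactorial_div_factorial]

theorem tanTab_rec : ∀ m < 22, ∑ i ∈ range (m + 2),
    (Nat.descFactorial (m + 1) i / Nat.factorial i) * tanTab i * tanTab (m + 1 - i) =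
      tanTab (m + 2) := by
  decide +kernel

theorem tanN_eq_tab (m : ℕ) (hm : m < 24) : tanN m = tanTab m := by
  induction m using Nat.strong_induction_on with
  | _ m ih =>
    match m, hm, ih with
    | 0, _, _ => simp [tanN, tanTab]
    | 1, _, _ => simp [tanN, tanTab]
    | (k + 2), hm, ih =>
      rw [tanN_rec, ← tanTab_rec k (by omega)]
      refine Finset.sum_congr rfl fun i hi => ?_
      have hi' : i < k + 2 := Finset.mem_range.1 hi
      rw [ih i hi' (by omega), ih (k + 1 - i) (by omega) (by omega)]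

theorem small_aux (n l : ℕ) (hl : l.Prime) (h5 : 5 ≤ l) (hnl : n < l) (h2 : ¬ l ∣ 2 ^ n - 1)
    (h0 : tanN (n - 1) ≠ 0) (hd : l ∣ tanN (n - 1)) :
    ∃ l : ℕ, l.Prime ∧ 5 ≤ l ∧
      padicValNat l n.factorial + padicValNat l (2 ^ n - 1) < padicValNat l (tanN (n - 1)) := by
  refine ⟨l, hl, h5, ?_⟩
  have : Fact l.Prime := ⟨hl⟩
  have h1 : padicValNat l n.factorial = 0 := by
    apply padicValNat.eq_zero_of_not_dvd
    rw [hl.dvd_factorial]
    omega
  rw [h1, padicValNat.eq_zero_of_not_dvd h2, zero_add]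
  exact one_le_padicValNat_of_dvd h0 hd

theorem small_cases (n : ℕ) (hn : n ∈ ({12, 16, 18, 20, 22, 24} : Finset ℕ)) :
    ∃ l : ℕ, l.Prime ∧ 5 ≤ l ∧
      padicValNat l n.factorial + padicValNat l (2 ^ n - 1) < padicValNat l (tanN (n - 1)) := by
  have hn' : n = 12 ∨ n = 16 ∨ n = 18 ∨ n = 20 ∨ n = 22 ∨ n = 24 := by
    simpa using hn
  have e11 : tanN 11 = 353792 := by rw [tanN_eq_tab 11 (by norm_num)]; rfl
  have e15 : tanN 15 = 1903757312 := by rw [tanN_eq_tab 15 (by norm_num)]; rfl
  have e17 : tanN 17 = 209865342976 := by rw [tanN_eq_tab 17 (by norm_num)]; rfl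
  have e19 : tanN 19 = 29088885112832 := by rw [tanN_eq_tab 19 (by norm_num)]; rfl
  have e21 : tanN 21 = 4951498053124096 := by rw [tanN_eq_tab 21 (by norm_num)]; rfl
  have e23 : tanN 23 = 1015423886506852352 := by rw [tanN_eq_tab 23 (by norm_num)]; rfl
  rcases hn' with rfl | rfl | rfl | rfl | rfl | rfl
  · refine small_aux 12 691 (by norm_num) (by norm_num) (by norm_num) (by norm_num) ?_ ?_
    · show tanN 11 ≠ 0
      rw [e11]; norm_num
    · show 691 ∣ tanN 11
      rw [e11]; norm_num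
  · refine small_aux 16 3617 (by norm_num) (by norm_num) (by norm_num) (by norm_num) ?_ ?_
    · show tanN 15 ≠ 0
      rw [e15]; norm_num
    · show 3617 ∣ tanN 15
      rw [e15]; norm_num
  · refine small_aux 18 43867 (by norm_num) (by norm_num) (by norm_num) (by norm_num) ?_ ?_
    · show tanN 17 ≠ 0
      rw [e17]; norm_num
    · show 43867 ∣ tanN 17
      rw [e17]; norm_num
  · refine small_aux 20 283 (by norm_num) (by norm_num) (by norm_num) (by norm_num) ?_ ?_
    · show tanN 19 ≠ 0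
      rw [e19]; norm_num
    · show 283 ∣ tanN 19
      rw [e19]; norm_num
  · refine small_aux 22 131 (by norm_num) (by norm_num) (by norm_num) (by norm_num) ?_ ?_
    · show tanN 21 ≠ 0
      rw [e21]; norm_num
    · show 131 ∣ tanN 21
      rw [e21]; norm_num
  · refine small_aux 24 103 (by norm_num) (by norm_num) (by norm_num) (by norm_num) ?_ ?_
    · show tanN 23 ≠ 0
      rw [e23]; norm_num
    · show 103 ∣ tanN 23
      rw [e23]; norm_num

end Pool.Agent.Helper51.Moser
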