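import Pool.Agent.Helper51.Moser.Cyc

open Finset

namespace Pool.Agent.Helper51.Moser

theorem tanN_pos_odd : ∀ k : ℕ, 0 < tanN (2 * k + 1) := by
  intro k
  induction k with
  | zero => simp [tanN]
  | succ k ih =>
    rw [show 2 * (k + 1) + 1 = (2 * k + 1) + 2 by ring, tanN]
    have h1 : (⟨1, by omega⟩ : Fin (2 * k + 1 + 2)) ∈ (Finset.univ : Finset (Fin (2 * k + 1 + 2))) :=
      Finset.mem_univ _
    refine lt_of_lt_of_le ?_ (Finset.single_le_sum (f := fun i : Fin (2 * k + 1 + 2) =>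
      Nat.choose (2 * k + 1 + 1) i * tanN i * tanN (2 * k + 1 + 1 - i))
      (fun i _ => Nat.zero_le _) h1)
    have h2 : 0 < tanN 1 := by simp [tanN]
    have h3 : 0 < Nat.choose (2 * k + 1 + 1) 1 := Nat.choose_pos (by omega)
    have h4 : 2 * k + 1 + 1 - 1 = 2 * k + 1 := by omega
    change 0 < Nat.choose (2 * k + 1 + 1) 1 * tanN 1 * tanN (2 * k + 1 + 1 - 1)
    rw [h4]
    positivity

theorem tanN_pos (n : ℕ) (hn : Even n) (hn2 : 2 ≤ n) : 0 < tanN (n - 1) := by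
  obtain ⟨m, hm⟩ := hn
  obtain ⟨k, rfl⟩ : ∃ k, m = k + 1 := ⟨m - 1, by omega⟩
  rw [show n - 1 = 2 * k + 1 by omega]
  exact tanN_pos_odd k

end Pool.Agent.Helper51.Moser
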