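import Pool.Agent.Helper51.Moser.Cyc
import Pool.Agent.Helper51.Moser.TannPos

open Finset

namespace Pool.Agent.Helper51.Moser

section tanB

open PowerSeries

/-- `exp (2 x)` -/
noncomputable def tE : PowerSeries ℚ := rescale (2 : ℚ) (exp ℚ)

/-- `tanh` -/
noncomputable def tu : PowerSeries ℚ := (tE - 1) * (tE + 1)⁻¹

theorem tE_const : constantCoeff tE = 1 := by
  unfold tE
  rw [← coeff_zero_eq_constantCoeff_apply, coeff_rescale]
  simp

theorem tE1 : coeff 1 tE = 2 := by
  unfold tE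
  rw [coeff_rescale]
  simp

theorem tE_add_ne : tE + 1 ≠ 0 := by
  intro h
  have := congrArg (coeff 1) h
  rw [map_add, tE1, coeff_one] at this
  norm_num at this

theorem tE_sub_ne : tE - 1 ≠ 0 := by
  intro h
  have := congrArg (coeff 1) h
  rw [map_sub, tE1, coeff_one] at this
  norm_num at this

theorem tu_mul : tu * (tE + 1) = tE - 1 := by
  unfold tu
  rw [mul_assoc, PowerSeries.inv_mul_cancel _ (by rw [map_add, tE_const, map_one]; norm_num),
    mul_one]

theorem tE_deriv : derivative ℚ tE = 2 * tE := by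
  ext n
  rw [coeff_derivative]
  have h : (2 * tE : PowerSeries ℚ) = (C (2 : ℚ)) * tE := by
    rw [map_ofNat]
  rw [h, coeff_C_mul]
  unfold tE
  rw [coeff_rescale, coeff_rescale, coeff_exp, coeff_exp]
  simp only [Algebra.algebraMap_self, RingHom.id_apply]
  rw [Nat.factorial_succ]
  have h1 : ((n.factorial : ℕ) : ℚ) ≠ 0 := by exact_mod_cast n.factorial_ne_zero
  have h2 : ((n : ℚ) + 1) ≠ 0 := by positivity
  push_cast
  field_simp
  ring

theorem tu_deriv : derivative ℚ tu = 1 - tu * tu := by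
  have h1 := congrArg (derivative ℚ) tu_mul
  rw [Derivation.leibniz, map_add, map_sub, derivative_one, tE_deriv] at h1
  simp only [smul_eq_mul] at h1
  have h2 := tu_mul
  apply mul_right_cancel₀ tE_add_ne
  linear_combination h1 + (tu - 1) * h2

theorem X_mul_tu : X * tu = rescale (4 : ℚ) (bernoulliPowerSeries ℚ) -
    rescale (2 : ℚ) (bernoulliPowerSeries ℚ) + X := by
  have hb := bernoulliPowerSeries_mul_exp_sub_one ℚ
  have h2 := congrArg (rescale (2 : ℚ)) hb
  have h4 := congrArg (rescale (4 : ℚ)) hb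
  rw [map_mul, map_sub, map_one, rescale_X] at h2 h4
  have hE : rescale (4 : ℚ) (exp ℚ) = tE * tE := by
    unfold tE
    rw [exp_mul_exp_eq_exp_add]
    norm_num
  rw [hE] at h4
  change rescale (2 : ℚ) (bernoulliPowerSeries ℚ) * (tE - 1) = _ at h2
  have hu := tu_mul
  rw [map_ofNat] at h2 h4
  apply mul_right_cancel₀ tE_add_ne
  apply mul_right_cancel₀ tE_sub_ne
  linear_combination X * (tE - 1) * hu - h4 + (tE + 1) * h2

/-- scaled coefficients of `tanh` -/
noncomputable def ta (m : ℕ) : ℚ := coeff m tu * m.factorial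

theorem ta_zero : ta 0 = 0 := by
  unfold ta tu
  rw [coeff_zero_eq_constantCoeff_apply, map_mul, map_sub, tE_const]
  simp

theorem ta_one : ta 1 = 1 := by
  have h := congrArg (coeff 0) tu_deriv
  rw [coeff_derivative, map_sub, coeff_mul] at h
  have h0 : coeff 0 tu = 0 := by
    have := ta_zero
    unfold ta at this
    simpa using this
  simp [h0] at h
  unfold ta
  simp [h]

theorem ta_rec (m : ℕ) : ta (m + 2) =
    - ∑ i : Fin (m + 2), (Nat.choose (m + 1) i : ℚ) * ta i * ta (m + 1 - i) := by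
  have h := congrArg (coeff (m + 1)) tu_deriv
  rw [coeff_derivative, map_sub, coeff_mul, coeff_one, if_neg (Nat.succ_ne_zero m), zero_sub] at h
  unfold ta
  rw [Nat.factorial_succ]
  have h3 : coeff (m + 2) tu * (((m + 1 + 1) * (m + 1).factorial : ℕ) : ℚ) =
      (coeff (m + 1 + 1) tu * ((m + 1 : ℕ) + 1 : ℚ)) * ((m + 1).factorial : ℚ) := by
    push_cast; ring
  rw [h3, h, neg_mul, Finset.sum_mul]
  congr 1
  rw [Finset.Nat.sum_antidiagonal_eq_sum_range_succ
    (fun i j => coeff i tu * coeff j tu * ((m + 1).factorial : ℚ))]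
  rw [← Fin.sum_univ_eq_sum_range (fun i => coeff i tu * coeff (m + 1 - i) tu *
    ((m + 1).factorial : ℚ)) (m + 1 + 1)]
  apply Finset.sum_congr rfl
  intro i _
  have hi : (i : ℕ) ≤ m + 1 := Nat.lt_succ_iff.1 i.2
  have h4 : (((m + 1).factorial : ℕ) : ℚ) = (Nat.choose (m + 1) i : ℚ) * (i : ℕ).factorial *
      (m + 1 - (i : ℕ)).factorial := by
    rw [← Nat.choose_mul_factorial_mul_factorial hi]
    push_cast
    ring
  rw [h4]
  ring

theorem tanN_ta (m : ℕ) : ((tanN m : ℕ) : ℂ) = -Complex.I * Complex.I ^ m * ((ta m : ℚ) : ℂ) := by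
  induction m using Nat.strong_induction_on with
  | _ m ih =>
    match m, ih with
    | 0, _ => rw [ta_zero]; simp [tanN]
    | 1, _ => rw [ta_one]; simp [tanN]
    | (m + 2), ih =>
      rw [ta_rec]
      have h1 : tanN (m + 2) = ∑ i : Fin (m + 2), Nat.choose (m + 1) i * tanN i * tanN (m + 1 - i) := by
        rw [tanN]
      rw [h1]
      push_cast
      rw [mul_neg, Finset.mul_sum, ← Finset.sum_neg_distrib]
      apply Finset.sum_congr rfl
      intro i _
      have hi : (i : ℕ) ≤ m + 1 := Nat.lt_succ_iff.1 i.2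
      rw [ih i (by omega), ih (m + 1 - i) (by omega)]
      have h2 : Complex.I ^ (m + 2) = Complex.I ^ (i : ℕ) * Complex.I ^ (m + 1 - (i : ℕ)) *
          Complex.I := by
        rw [← pow_add, ← pow_succ]
        congr 1
        omega
      rw [h2]
      have h3 := Complex.I_mul_I
      ring

theorem tanN_abs (m : ℕ) : ((tanN m : ℕ) : ℚ) = |ta m| := by
  have h := congrArg (fun z : ℂ => ‖z‖) (tanN_ta m)
  simp only [norm_mul, norm_neg, norm_pow, Complex.norm_I, one_pow, one_mul] at h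
  have h1 : ‖((tanN m : ℕ) : ℂ)‖ = ((tanN m : ℕ) : ℝ) := by simp
  have h2 : ‖((ta m : ℚ) : ℂ)‖ = ((|ta m| : ℚ) : ℝ) := by
    rw [Rat.cast_abs]
    have : ((ta m : ℚ) : ℂ) = (((ta m : ℚ) : ℝ) : ℂ) := by push_cast; rfl
    rw [this, Complex.norm_real, Real.norm_eq_abs]
  rw [h1, h2] at h
  exact_mod_cast h

theorem ta_bernoulli (n : ℕ) (hn : 2 ≤ n) :
    (n : ℚ) * ta (n - 1) = 2 ^ n * (2 ^ n - 1) * bernoulli n := by
  obtain ⟨m, rfl⟩ : ∃ m, n = m + 1 := ⟨n - 1, by omega⟩
  have h := congrArg (coeff (m + 1)) X_mul_tu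
  rw [coeff_succ_X_mul, map_add, map_sub, coeff_rescale, coeff_rescale, coeff_X,
    if_neg (by omega), bernoulliPowerSeries, coeff_mk] at h
  simp only [Algebra.algebraMap_self, RingHom.id_apply, add_zero] at h
  rw [Nat.add_sub_cancel]
  unfold ta
  rw [h, Nat.factorial_succ]
  have h1 : ((m.factorial : ℕ) : ℚ) ≠ 0 := by exact_mod_cast m.factorial_ne_zero
  have h2 : ((m : ℚ) + 1) ≠ 0 := by positivity
  have h4 : (4 : ℚ) ^ (m + 1) = 2 ^ (m + 1) * 2 ^ (m + 1) := by
    rw [← mul_pow]; norm_num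
  push_cast
  rw [h4]
  field_simp

end tanB

theorem tanN_bernoulli (n : ℕ) (hn : Even n) (hn2 : 2 ≤ n) :
    (n : ℚ) * tanN (n - 1) = 2 ^ n * (2 ^ n - 1) * |bernoulli n| := by
  rw [tanN_abs]
  have h1 : (0 : ℚ) ≤ n := Nat.cast_nonneg n
  have h2 : (0 : ℚ) ≤ 2 ^ n * (2 ^ n - 1) := by
    have : (1 : ℚ) ≤ 2 ^ n := one_le_pow₀ (by norm_num)
    apply mul_nonneg (by positivity)
    linarith
  calc (n : ℚ) * |ta (n - 1)| = |(n : ℚ) * ta (n - 1)| := by rw [abs_mul, abs_of_nonneg h1]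
    _ = |2 ^ n * (2 ^ n - 1) * bernoulli n| := by rw [ta_bernoulli n hn2]
    _ = 2 ^ n * (2 ^ n - 1) * |bernoulli n| := by rw [abs_mul, abs_of_nonneg h2]

end Pool.Agent.Helper51.Moser
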