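import Pool.Agent.Helper51.Moser.Cyc
import Pool.Agent.Helper51.Moser.TannBernoulli

open Finset

namespace Pool.Agent.Helper51.Moser

theorem tanN_lower (n : ℕ) (hn : Even n) (hn2 : 2 ≤ n) :
    2 * (2 ^ n - 1) * ((n - 1).factorial : ℝ) ≤ Real.pi ^ n * tanN (n - 1) := by
  obtain ⟨k, hk⟩ := hn
  have hk0 : k ≠ 0 := by omega
  have hn2k : n = 2 * k := by omega
  have hs := hasSum_zeta_nat hk0
  have h1 := le_hasSum hs 1 (fun j _ => by positivity)
  rw [← hn2k] at h1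
  have h2 : (1 : ℝ) / ((1 : ℕ) : ℝ) ^ n = 1 := by simp
  rw [h2] at h1
  have hfac : (0 : ℝ) < (n.factorial : ℝ) := by positivity
  have hpi : (0 : ℝ) < Real.pi ^ n := by positivity
  have h3 : (n.factorial : ℝ) ≤ 2 ^ (n - 1) * Real.pi ^ n * |(bernoulli n : ℝ)| := by
    rw [le_div_iff₀ hfac, one_mul] at h1
    refine h1.trans ((le_abs_self _).trans (le_of_eq ?_))
    rw [abs_mul, abs_mul, abs_mul, abs_pow, abs_neg, abs_one, one_pow, one_mul, abs_of_pos hpi,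
      abs_of_pos (by positivity)]
  have h4 : (n : ℝ) * tanN (n - 1) = 2 ^ n * (2 ^ n - 1) * |(bernoulli n : ℝ)| := by
    exact_mod_cast congrArg (fun q : ℚ => (q : ℝ)) (tanN_bernoulli n ⟨k, hk⟩ hn2)
  have h5 : (n.factorial : ℝ) = n * ((n - 1).factorial : ℝ) := by
    rw [← Nat.cast_mul, Nat.mul_factorial_pred (by omega)]
  have h6 : (2 : ℝ) ^ n = 2 * 2 ^ (n - 1) := by
    rw [← pow_succ', Nat.sub_add_cancel (by omega)]
  have hnpos : (0 : ℝ) < n := by
    have : 0 < n := by omega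
    exact_mod_cast this
  have h7 : (0 : ℝ) ≤ 2 ^ n - 1 := by
    have : (1 : ℝ) ≤ 2 ^ n := one_le_pow₀ (by norm_num)
    linarith
  have h8 : n * (2 * (2 ^ n - 1) * ((n - 1).factorial : ℝ)) ≤
      n * (Real.pi ^ n * tanN (n - 1)) := by
    calc n * (2 * (2 ^ n - 1) * ((n - 1).factorial : ℝ))
        = (2 * (2 ^ n - 1)) * (n.factorial : ℝ) := by rw [h5]; ring
      _ ≤ (2 * (2 ^ n - 1)) * (2 ^ (n - 1) * Real.pi ^ n * |(bernoulli n : ℝ)|) :=
        mul_le_mul_of_nonneg_left h3 (by linarith)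
      _ = Real.pi ^ n * (2 ^ n * (2 ^ n - 1) * |(bernoulli n : ℝ)|) := by
        rw [h6]; ring
      _ = n * (Real.pi ^ n * tanN (n - 1)) := by rw [← h4]; ring
  exact le_of_mul_le_mul_left h8 hnpos

end Pool.Agent.Helper51.Moser
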