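import Pool.Agent.Helper51.Moser.Cyc

open Finset

namespace Pool.Agent.Helper51.Moser

section TanHelpers301

open Polynomial

variable {R : Type*} [CommRing R]

/-- the operator `(1+X^2) d/dX` -/
noncomputable def DD (p : R[X]) : R[X] := (1 + X ^ 2) * derivative p

theorem DD_add (p q : R[X]) : DD (p + q) = DD p + DD q := by
  unfold DD; rw [derivative_add]; ring

theorem DD_mul (p q : R[X]) : DD (p * q) = DD p * q + p * DD q := by
  unfold DD; rw [derivative_mul]; ring

theorem DD_C_mul (a : R) (p : R[X]) : DD (C a * p) = C a * DD p := by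
  unfold DD; rw [derivative_C_mul]; ring

theorem DD_one : DD (1 : R[X]) = 0 := by
  unfold DD; rw [derivative_one, mul_zero]

theorem DD_zero : DD (0 : R[X]) = 0 := by
  unfold DD; rw [derivative_zero, mul_zero]

theorem DD_sum {ι : Type*} (s : Finset ι) (f : ι → R[X]) : DD (∑ i ∈ s, f i) = ∑ i ∈ s, DD (f i) := by
  unfold DD; rw [derivative_sum, Finset.mul_sum]

theorem DD_nsmul (n : ℕ) (f : R[X]) : DD (n • f) = n • DD f := by
  unfold DD; rw [derivative_smul, mul_smul_comm]

theorem DD_iter_mul (n : ℕ) (f g : R[X]) :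
    DD^[n] (f * g) = ∑ ij ∈ antidiagonal n, (n.choose ij.1) • (DD^[ij.1] f * DD^[ij.2] g) := by
  induction n with
  | zero => simp
  | succ n ih =>
    rw [Function.iterate_succ_apply', ih, DD_sum,
      Finset.sum_antidiagonal_choose_succ_nsmul (fun i j => DD^[i] f * DD^[j] g) n,
      ← Finset.sum_add_distrib]
    refine Finset.sum_congr rfl fun ij hij => ?_
    rw [HasAntidiagonal.mem_antidiagonal] at hij
    have hch : n.choose ij.2 = n.choose ij.1 := by
      rw [← hij]
      exact (Nat.choose_symm_add).symm
    rw [hch, DD_nsmul, DD_mul, ← Function.iterate_succ_apply' DD, ← Function.iterate_succ_apply' DD,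
      smul_add, add_comm]

theorem DD_iter_one (n : ℕ) : DD^[n + 1] (1 : R[X]) = 0 := by
  rw [Function.iterate_succ_apply, DD_one]
  induction n with
  | zero => rfl
  | succ n ih => rw [Function.iterate_succ_apply, DD_zero, ih]

theorem DD_iter_add (n : ℕ) (f g : R[X]) : DD^[n] (f + g) = DD^[n] f + DD^[n] g := by
  induction n generalizing f g with
  | zero => rfl
  | succ n ih => rw [Function.iterate_succ_apply, DD_add, ih, ← Function.iterate_succ_apply,
      ← Function.iterate_succ_apply]

theorem DD_iter_C_mul (n : ℕ) (a : R) (f : R[X]) : DD^[n] (C a * f) = C a * DD^[n] f := by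
  induction n generalizing f with
  | zero => rfl
  | succ n ih => rw [Function.iterate_succ_apply, DD_C_mul, ih, ← Function.iterate_succ_apply]

theorem DD_X : DD (X : R[X]) = 1 + X * X := by
  unfold DD; rw [derivative_X]; ring

theorem tanN_eq (m : ℕ) : (tanN m : R) = (DD^[m] (X : R[X])).eval 0 := by
  induction m using Nat.strong_induction_on with
  | _ m ih =>
    match m, ih with
    | 0, _ => simp [tanN]
    | 1, _ => simp [tanN, DD_X]
    | (m + 2), ih =>
      rw [tanN]
      have h1 : DD^[m + 2] (X : R[X]) =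
          ∑ ij ∈ antidiagonal (m + 1), ((m + 1).choose ij.1) • (DD^[ij.1] X * DD^[ij.2] (X : R[X])) := by
        rw [Function.iterate_succ_apply, DD_X, DD_iter_add, DD_iter_one, zero_add, DD_iter_mul]
      rw [h1, eval_finsetSum]
      rw [Fin.sum_univ_eq_sum_range (fun i => Nat.choose (m + 1) i * tanN i * tanN (m + 1 - i)) (m + 2)]
      push_cast
      rw [Finset.Nat.sum_antidiagonal_eq_sum_range_succ
        (fun i j => eval 0 (((m + 1).choose i) • (DD^[i] X * DD^[j] (X : R[X])))) (m + 1)]
      refine Finset.sum_congr rfl fun i hi => ?_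
      rw [Finset.mem_range] at hi
      rw [eval_smul, eval_mul]
      by_cases hi0 : i = m + 1
      · subst hi0
        have h2 : m + 1 - (m + 1) = 0 := by omega
        rw [h2]
        simp [tanN]
      · by_cases hi1 : i = 0
        · subst hi1
          simp [tanN]
        · rw [ih i (by omega), ih (m + 1 - i) (by omega), nsmul_eq_mul, mul_assoc]

/-- polynomial of a list of natural numbers -/
noncomputable def toP (R : Type*) [CommRing R] : List ℕ → R[X]
  | [] => 0
  | (a :: t) => C (a : R) + X * toP R t

/-- padded sum -/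
def ladd : List ℕ → List ℕ → List ℕ
  | [], b => b
  | a, [] => a
  | (x :: a), (y :: b) => (x + y) :: ladd a b

/-- derivative -/
def lder : List ℕ → List ℕ
  | [] => []
  | (_ :: t) => ladd t (0 :: lder t)

/-- one step -/
def lstep (p : List ℕ) : List ℕ := ladd (lder p) (0 :: 0 :: lder p)

theorem toP_ladd (a b : List ℕ) : toP R (ladd a b) = toP R a + toP R b := by
  induction a generalizing b with
  | nil => simp [ladd, toP]
  | cons x a ih =>
    cases b with
    | nil => simp [ladd, toP]
    | cons y b =>
      simp only [ladd, toP, ih]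
      push_cast
      rw [C_add]
      ring

theorem toP_lder (a : List ℕ) : toP R (lder a) = derivative (toP R a) := by
  induction a with
  | nil => simp [lder, toP]
  | cons x a ih =>
    simp only [lder, toP, toP_ladd, ih, derivative_add, derivative_C, derivative_mul, derivative_X]
    simp

theorem toP_lstep (a : List ℕ) : toP R (lstep a) = DD (toP R a) := by
  simp only [lstep, toP_ladd, toP, toP_lder, DD]
  simp
  ring

theorem toP_iter (n : ℕ) : toP R (lstep^[n] [0, 1]) = DD^[n] (X : R[X]) := by
  induction n with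
  | zero => simp [toP]
  | succ n ih => rw [Function.iterate_succ_apply', toP_lstep, ih, Function.iterate_succ_apply']

theorem toP_eval_zero (a : List ℕ) : (toP R a).eval 0 = ((a.headD 0 : ℕ) : R) := by
  cases a <;> simp [toP]

theorem tanN_eq_head (m : ℕ) : tanN m = (lstep^[m] [0, 1]).headD 0 := by
  have h : ((tanN m : ℕ) : ℤ) = (((lstep^[m] [0, 1]).headD 0 : ℕ) : ℤ) := by
    rw [tanN_eq, ← toP_iter, toP_eval_zero]
  exact_mod_cast h

theorem toP_zero_of (l : ℕ) (hl : (l : R) = 0) (a : List ℕ) (h : ∀ x ∈ a, l ∣ x) : toP R a = 0 := by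
  induction a with
  | nil => simp [toP]
  | cons x a ih =>
    rw [toP, ih (fun y hy => h y (List.mem_cons_of_mem _ hy))]
    obtain ⟨k, hk⟩ := h x (List.mem_cons_self)
    rw [hk]
    push_cast
    rw [hl]
    simp

theorem toP_map_mul (s : ℕ) (a : List ℕ) : toP R (a.map (s * ·)) = C (s : R) * toP R a := by
  induction a with
  | nil => simp [toP]
  | cons x a ih =>
    simp only [List.map_cons, toP, ih]
    push_cast
    rw [C_mul]
    ring

theorem tan_period (l s : ℕ) (hs : ∀ x ∈ ladd (lstep^[l] [0, 1]) ((lstep^[1] [0, 1]).map (s * ·)), l ∣ x)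
    (m : ℕ) : (l ∣ tanN (m + l) + s * tanN (m + 1)) := by
  have h0 : ((l : ℕ) : ZMod l) = 0 := ZMod.natCast_self l
  have h1 := toP_zero_of (R := ZMod l) l h0 _ hs
  rw [toP_ladd, toP_map_mul, toP_iter, toP_iter] at h1
  have h2 : DD^[m + l] (X : (ZMod l)[X]) + C (s : ZMod l) * DD^[m + 1] X = 0 := by
    rw [Function.iterate_add_apply, Function.iterate_add_apply, ← DD_iter_C_mul, ← DD_iter_add, h1]
    cases m with
    | zero => rfl
    | succ m =>
      clear h1
      induction m with
      | zero => exact DD_zero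
      | succ m ih => rw [Function.iterate_succ_apply', ih, DD_zero]
  have h3 := congrArg (eval 0) h2
  rw [eval_add, eval_mul, eval_C, ← tanN_eq, ← tanN_eq, eval_zero] at h3
  rw [← CharP.cast_eq_zero_iff (ZMod l) l]
  push_cast
  exact h3

theorem tan_nd (l s : ℕ) (hl : l.Prime)
    (hs : ∀ x ∈ ladd (lstep^[l] [0, 1]) ((lstep^[1] [0, 1]).map (s * ·)), l ∣ x)
    (hsl : ¬ l ∣ s) (hodd : l % 2 = 1)
    (hb : ∀ m < l, m % 2 = 1 → ¬ l ∣ (lstep^[m] [0, 1]).headD 0) (m : ℕ) (hm : m % 2 = 1) :
    ¬ l ∣ tanN m := by
  induction m using Nat.strong_induction_on with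
  | _ m ih =>
    by_cases h : m < l
    · rw [tanN_eq_head]; exact hb m h hm
    · have h1 := tan_period l s hs (m - l)
      have h2 : m - l + l = m := by omega
      rw [h2] at h1
      intro h3
      have h4 : l ∣ s * tanN (m - l + 1) := (Nat.dvd_add_right h3).mp h1
      rcases (Nat.Prime.dvd_mul hl).mp h4 with h5 | h5
      · exact hsl h5
      · refine ih (m - l + 1) ?_ ?_ h5
        · have := hl.two_le
          omega
        · omega

end TanHelpers301

theorem tanN_not_dvd (n : ℕ) (hn : Even n) (hn2 : 2 ≤ n) (l : ℕ)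
    (hl : l ∈ ({3, 5, 7, 11, 13} : Finset ℕ)) : ¬ l ∣ tanN (n - 1) := by
  have hm : (n - 1) % 2 = 1 := by
    have := Nat.even_iff.mp hn
    omega
  simp only [Finset.mem_insert, Finset.mem_singleton] at hl
  rcases hl with rfl | rfl | rfl | rfl | rfl
  · exact tan_nd 3 1 (by norm_num) (by decide) (by norm_num) (by norm_num) (by decide) _ hm
  · exact tan_nd 5 4 (by norm_num) (by decide) (by norm_num) (by norm_num) (by decide) _ hm
  · exact tan_nd 7 1 (by norm_num) (by decide) (by norm_num) (by norm_num) (by decide) _ hm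
  · exact tan_nd 11 1 (by norm_num) (by decide) (by norm_num) (by norm_num) (by decide) _ hm
  · exact tan_nd 13 12 (by norm_num) (by decide) (by norm_num) (by norm_num) (by decide) _ hm

end Pool.Agent.Helper51.Moser
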