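import Pool.Agent.Helper51.Moser.Cyc
import Pool.Agent.Helper51.Moser.TannBernoulli
import Pool.Agent.Helper51.Moser.TannPos

open Finset

namespace Pool.Agent.Helper51.Moser

/-- Twice the Bernoulli number of an even index has an odd numerator and denominator. -/
theorem two_bernoulli_odd (k : ℕ) (hk : 1 ≤ k) :
    ∃ (D : ℕ) (N : ℤ), Odd D ∧ Odd N ∧ 2 * (D : ℚ) * bernoulli (2 * k) = N := by
  obtain ⟨m, hm⟩ := Bernoulli.vonStaudt_clausen k
  set S := (range (2 * k + 2)).filter (fun p => p.Prime ∧ (p - 1) ∣ 2 * k) with hS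
  have h2 : 2 ∈ S := by
    simp only [hS, mem_filter, mem_range]
    refine ⟨by omega, Nat.prime_two, by norm_num⟩
  have hsum : (∑ p ∈ S, (1 : ℚ) / p) = 1 / 2 + ∑ p ∈ S.erase 2, (1 : ℚ) / p := by
    rw [← Finset.add_sum_erase _ _ h2]
    norm_num
  refine ⟨∏ p ∈ S.erase 2, p,
    2 * ((∏ p ∈ S.erase 2, (p : ℤ)) * m - ∑ p ∈ S.erase 2, ∏ q ∈ (S.erase 2).erase p, (q : ℤ)) -
      ((∏ p ∈ S.erase 2, p : ℕ) : ℤ), ?_, ?_, ?_⟩
  · apply Finset.prod_induction (fun p : ℕ => p) Odd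
    · intro a b ha hb
      exact ha.mul hb
    · exact odd_one
    · intro p hp
      rw [mem_erase, hS, mem_filter] at hp
      exact hp.2.2.1.odd_of_ne_two hp.1
  · have hD : Odd (∏ p ∈ S.erase 2, p) := by
      apply Finset.prod_induction (fun p : ℕ => p) Odd
      · intro a b ha hb
        exact ha.mul hb
      · exact odd_one
      · intro p hp
        rw [mem_erase, hS, mem_filter] at hp
        exact hp.2.2.1.odd_of_ne_two hp.1
    apply Even.sub_odd
    · exact even_two_mul _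
    · exact_mod_cast hD
  · have hE : ((∏ p ∈ S.erase 2, p : ℕ) : ℚ) * ∑ p ∈ S.erase 2, (1 : ℚ) / p =
        ∑ p ∈ S.erase 2, ∏ q ∈ (S.erase 2).erase p, (q : ℚ) := by
      rw [Finset.mul_sum]
      apply Finset.sum_congr rfl
      intro p hp
      have hp0 : (p : ℚ) ≠ 0 := by
        rw [mem_erase, hS, mem_filter] at hp
        exact_mod_cast hp.2.2.1.ne_zero
      push_cast
      rw [← Finset.mul_prod_erase _ _ hp]
      field_simp
    have hB : bernoulli (2 * k) = m - 1 / 2 - ∑ p ∈ S.erase 2, (1 : ℚ) / p := by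
      rw [hsum] at hm
      linarith
    rw [hB]
    push_cast at hE ⊢
    linear_combination (-2) * hE

theorem tanN_two (n : ℕ) (hn : Even n) (hn2 : 2 ≤ n) :
    padicValNat 2 (tanN (n - 1)) ≤ n - 1 := by
  obtain ⟨k, rfl⟩ := hn
  have hk : 1 ≤ k := by omega
  obtain ⟨D, N, hD, hN, hB⟩ := two_bernoulli_odd k hk
  have hn : k + k = 2 * k := by ring
  have h1 := tanN_bernoulli (k + k) ⟨k, rfl⟩ hn2
  have hpos := tanN_pos (k + k) ⟨k, rfl⟩ hn2
  by_contra hcon
  push Not at hcon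
  have hdvd : 2 ^ (k + k) ∣ tanN (k + k - 1) := by
    rw [padicValNat_dvd_iff_le hpos.ne']
    omega
  obtain ⟨c, hc⟩ := hdvd
  have habs : 2 * (D : ℚ) * |bernoulli (k + k)| = (N.natAbs : ℚ) := by
    have : (0 : ℚ) ≤ 2 * (D : ℚ) := by positivity
    rw [hn, ← abs_of_nonneg this, ← abs_mul, hB, Nat.cast_natAbs]
    push_cast
    rfl
  have h3 : ((k + k : ℕ) : ℚ) * (2 ^ (k + k) * c) * (2 * D) =
      2 ^ (k + k) * (2 ^ (k + k) - 1) * (N.natAbs : ℚ) := by
    rw [← habs]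
    rw [hc] at h1
    push_cast at h1 ⊢
    linear_combination (2 * (D : ℚ)) * h1
  have h4 : ((k + k : ℕ) : ℚ) * c * (2 * D) = (2 ^ (k + k) - 1) * (N.natAbs : ℚ) := by
    have h0 : (2 : ℚ) ^ (k + k) ≠ 0 := by positivity
    apply mul_left_cancel₀ h0
    linear_combination h3
  have h5 : (k + k) * c * (2 * D) = (2 ^ (k + k) - 1) * N.natAbs := by
    have : (1 : ℕ) ≤ 2 ^ (k + k) := Nat.one_le_two_pow
    have h6 : ((2 ^ (k + k) - 1 : ℕ) : ℚ) = 2 ^ (k + k) - 1 := by
      push_cast [Nat.cast_sub this]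
      ring
    rw [← h6] at h4
    exact_mod_cast h4
  have h7 : Odd ((2 ^ (k + k) - 1) * N.natAbs) := by
    apply Odd.mul
    · apply Nat.Even.sub_odd Nat.one_le_two_pow
      · exact (Nat.even_pow.2 ⟨even_two, by omega⟩)
      · exact odd_one
    · exact Int.natAbs_odd.2 hN
  rw [← h5] at h7
  rw [← Nat.not_even_iff_odd] at h7
  apply h7
  exact ((even_two_mul D).mul_left _)

end Pool.Agent.Helper51.Moser
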