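import Pool.Agent.Helper51.Moser.Cyc
import Pool.Agent.Helper51.Moser.SizeIneq
import Pool.Agent.Helper51.Moser.SmallCases
import Pool.Agent.Helper51.Moser.TannLower
import Pool.Agent.Helper51.Moser.TannNotDvd
import Pool.Agent.Helper51.Moser.TannPos
import Pool.Agent.Helper51.Moser.TannTwo

open Finset

namespace Pool.Agent.Helper51.Moser

theorem j13684_dvd (n : ℕ) (hn : Even n) (hn2 : 26 ≤ n) (R Q : ℕ)
    (hQ : Q = ∏ l ∈ ({2, 3, 5, 7, 11, 13} : Finset ℕ), l ^ padicValNat l n.factorial)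
    (hR : n.factorial = Q * R)
    (hcon : ∀ l : ℕ, l.Prime → 5 ≤ l → padicValNat l (tanN (n - 1)) ≤
      padicValNat l n.factorial + padicValNat l (2 ^ n - 1)) :
    tanN (n - 1) ∣ 2 ^ (n - 1) * R * (2 ^ n - 1) := by
  have hT := tanN_pos n hn (by omega)
  have hN : n.factorial ≠ 0 := Nat.factorial_ne_zero n
  have hQ0 : Q ≠ 0 := by rintro rfl; simp at hR; exact hN hR
  have hR0 : R ≠ 0 := by rintro rfl; simp at hR; exact hN hR
  have h2n : 2 ^ n - 1 ≠ 0 := by
    have : 2 ^ 26 ≤ 2 ^ n := Nat.pow_le_pow_right (by norm_num) hn2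
    omega
  have hp2 : 2 ^ (n - 1) ≠ 0 := by positivity
  rw [← Nat.factorization_prime_le_iff_dvd hT.ne' (mul_ne_zero (mul_ne_zero hp2 hR0) h2n)]
  intro p hp
  rw [Nat.factorization_mul (mul_ne_zero hp2 hR0) h2n, Nat.factorization_mul hp2 hR0]
  simp only [Finsupp.add_apply]
  by_cases hp2' : p = 2
  · subst hp2'
    have h1 := tanN_two n hn (by omega)
    rw [← Nat.factorization_def _ Nat.prime_two] at h1
    have h2 : (2 ^ (n - 1)).factorization 2 = n - 1 := by
      rw [Nat.factorization_pow, Finsupp.smul_apply, Nat.Prime.factorization_self Nat.prime_two]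
      simp
    rw [h2]
    omega
  · by_cases hpS : p ∈ ({3, 5, 7, 11, 13} : Finset ℕ)
    · have h1 := tanN_not_dvd n hn (by omega) p hpS
      rw [Nat.factorization_eq_zero_of_not_dvd h1]
      exact Nat.zero_le _
    · have hp5 : 5 ≤ p := by
        by_contra hlt
        push Not at hlt
        interval_cases p
        · exact absurd hp (by norm_num)
        · exact absurd hp (by norm_num)
        · exact hp2' rfl
        · exact hpS (by simp)
        · exact absurd hp (by norm_num)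
      have h1 := hcon p hp hp5
      rw [← Nat.factorization_def _ hp, ← Nat.factorization_def _ hp, ← Nat.factorization_def _ hp,
        hR, Nat.factorization_mul hQ0 hR0, Finsupp.add_apply] at h1
      have h2 : Q.factorization p = 0 := by
        refine Nat.factorization_eq_zero_of_not_dvd ?_
        rw [hQ]
        intro h3
        obtain ⟨l, hl, h4⟩ := (Prime.dvd_finsetProd_iff hp.prime _).1 h3
        have h5 := hp.dvd_of_dvd_pow h4
        have hlp : l.Prime := by
          simp only [Finset.mem_insert, Finset.mem_singleton] at hl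
          rcases hl with rfl | rfl | rfl | rfl | rfl | rfl <;> norm_num
        have h6 : p = l := (Nat.prime_dvd_prime_iff_eq hp hlp).1 h5
        subst h6
        simp only [Finset.mem_insert, Finset.mem_singleton] at hl hpS
        tauto
      rw [h2] at h1
      omega

theorem j13684_big (n : ℕ) (hn : Even n) (hn2 : 26 ≤ n) :
    ∃ l : ℕ, l.Prime ∧ 5 ≤ l ∧
      padicValNat l n.factorial + padicValNat l (2 ^ n - 1) < padicValNat l (tanN (n - 1)) := by
  by_contra hcon
  push Not at hcon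
  have hN : n.factorial ≠ 0 := Nat.factorial_ne_zero n
  set Q : ℕ := ∏ l ∈ ({2, 3, 5, 7, 11, 13} : Finset ℕ), l ^ padicValNat l n.factorial with hQ
  have hQd : Q ∣ n.factorial := by
    have h1 : n.factorial = ∏ p ∈ n.factorial.primeFactors, p ^ n.factorial.factorization p := by
      conv_lhs => rw [← Nat.prod_factorization_pow_eq_self hN]
      rfl
    conv_rhs => rw [h1]
    have h2 : Q = ∏ l ∈ ({2, 3, 5, 7, 11, 13} : Finset ℕ), l ^ n.factorial.factorization l := by
      rw [hQ]
      refine Finset.prod_congr rfl fun l hl => ?_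
      have hlp : l.Prime := by
        simp only [Finset.mem_insert, Finset.mem_singleton] at hl
        rcases hl with rfl | rfl | rfl | rfl | rfl | rfl <;> norm_num
      rw [Nat.factorization_def _ hlp]
    rw [h2]
    refine Finset.prod_dvd_prod_of_subset _ _ _ fun l hl => ?_
    simp only [Finset.mem_insert, Finset.mem_singleton] at hl
    rw [Nat.mem_primeFactors]
    refine ⟨?_, ?_, hN⟩
    · rcases hl with rfl | rfl | rfl | rfl | rfl | rfl <;> norm_num
    · refine Nat.dvd_factorial ?_ ?_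
      · rcases hl with rfl | rfl | rfl | rfl | rfl | rfl <;> norm_num
      · rcases hl with rfl | rfl | rfl | rfl | rfl | rfl <;> omega
  obtain ⟨R, hR⟩ := hQd
  have hd := j13684_dvd n hn hn2 R Q hQ hR hcon
  have hR0 : R ≠ 0 := by rintro rfl; simp at hR; exact hN hR
  have h2n : 0 < 2 ^ n - 1 := by
    have : 2 ^ 26 ≤ 2 ^ n := Nat.pow_le_pow_right (by norm_num) hn2
    omega
  have hle := Nat.le_of_dvd (by positivity) hd
  have h1 := tanN_lower n hn (by omega)
  have h2 := size_ineq n hn2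
  have hQr : (Q : ℝ) = ∏ l ∈ ({2, 3, 5, 7, 11, 13} : Finset ℕ), (l : ℝ) ^ padicValNat l n.factorial := by
    rw [hQ]
    push_cast
    rfl
  rw [← hQr] at h2
  -- real version of the bound
  have h2n1 : ((2 ^ n - 1 : ℕ) : ℝ) = 2 ^ n - 1 := by
    rw [Nat.cast_sub Nat.one_le_two_pow]
    push_cast
    ring
  have hle' : (tanN (n - 1) : ℝ) ≤ 2 ^ (n - 1) * R * (2 ^ n - 1) := by
    rw [← h2n1]
    exact_mod_cast hle
  have hpos : (0 : ℝ) < 2 ^ n - 1 := by
    rw [← h2n1]
    exact_mod_cast h2n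
  obtain ⟨m, rfl⟩ : ∃ m, n = m + 1 := ⟨n - 1, by omega⟩
  rw [Nat.add_sub_cancel] at h1 hle'
  have hfac : ((m + 1 : ℕ) : ℝ) * (m.factorial : ℝ) = (Q : ℝ) * (R : ℝ) := by
    rw [Nat.factorial_succ] at hR
    exact_mod_cast hR
  have hQ0 : (0 : ℝ) ≤ Q := Nat.cast_nonneg _
  have hf : (0 : ℝ) < m.factorial := by exact_mod_cast m.factorial_pos
  have hpi : (0 : ℝ) ≤ Real.pi ^ (m + 1) := by positivity
  have h3 : 2 * ((2 : ℝ) ^ (m + 1) - 1) * (m.factorial : ℝ) * Q ≤
      Real.pi ^ (m + 1) * (2 ^ m * (2 ^ (m + 1) - 1)) * (((m + 1 : ℕ) : ℝ) * (m.factorial : ℝ)) := by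
    calc 2 * ((2 : ℝ) ^ (m + 1) - 1) * (m.factorial : ℝ) * Q
        ≤ Real.pi ^ (m + 1) * tanN m * Q := mul_le_mul_of_nonneg_right h1 hQ0
      _ ≤ Real.pi ^ (m + 1) * (2 ^ m * R * (2 ^ (m + 1) - 1)) * Q := by gcongr
      _ = Real.pi ^ (m + 1) * (2 ^ m * (2 ^ (m + 1) - 1)) * (Q * R) := by ring
      _ = _ := by rw [hfac]
  have h4 : 0 < (2 : ℝ) * ((2 : ℝ) ^ (m + 1) - 1) * (m.factorial : ℝ) := by positivity
  have h5 : (((2 : ℝ) ^ (m + 1) - 1) * (m.factorial : ℝ)) * (4 * Q) ≤
      (((2 : ℝ) ^ (m + 1) - 1) * (m.factorial : ℝ)) *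
        (((m + 1 : ℕ) : ℝ) * (2 * Real.pi) ^ (m + 1)) := by
    rw [mul_pow, pow_succ (2 : ℝ) m]
    rw [pow_succ (2 : ℝ) m] at h3
    linarith
  have h6 := le_of_mul_le_mul_left h5 (by positivity)
  linarith

theorem numeric (n : ℕ) (hn : Even n) (h : n = 12 ∨ 16 ≤ n) :
    ∃ l : ℕ, l.Prime ∧ 5 ≤ l ∧
      padicValNat l n.factorial + padicValNat l (2 ^ n - 1) < padicValNat l (tanN (n - 1)) := by
  rcases le_or_gt 26 n with h26 | h26
  · exact j13684_big n hn h26
  · apply small_cases
    rcases h with rfl | h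
    · simp
    · obtain ⟨k, rfl⟩ := hn
      have h1 : 8 ≤ k := by omega
      have h2 : k < 13 := by omega
      interval_cases k <;> simp

end Pool.Agent.Helper51.Moser
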