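import Pool.Agent.Helper51.Moser.Cyc

open Finset

namespace Pool.Agent.Helper51.Moser

section
open Polynomial

theorem dvd_of_theta (ζ : ℂ) (hζ : ζ ≠ 0) (c : ℕ) : ∀ g : ℂ[X],
    (∀ i < c, ((fun p : ℂ[X] => X * derivative p)^[i] g).eval ζ = 0) → (X - C ζ) ^ c ∣ g := by
  induction c with
  | zero => intro g _; simp
  | succ c ih =>
    intro g hg
    by_cases hg0 : g = 0
    · simp [hg0]
    have h0 : g.IsRoot ζ := by
      have := hg 0 (Nat.succ_pos c)
      simpa using this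
    have h1 : (X - C ζ) ^ c ∣ X * derivative g := by
      apply ih
      intro i hi
      have := hg (i + 1) (by omega)
      simpa [Function.iterate_succ_apply] using this
    have hcop : IsCoprime ((X - C ζ) ^ c) (X : ℂ[X]) := by
      apply IsCoprime.pow_left
      have : IsCoprime (X - C ζ : ℂ[X]) (X - C 0) := by
        apply Polynomial.isCoprime_X_sub_C_of_isUnit_sub
        simpa using hζ
      simpa using this
    have h2 : (X - C ζ) ^ c ∣ derivative g := hcop.dvd_of_dvd_mul_left h1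
    have hd0 : derivative g ≠ 0 := by
      intro hd
      have h3 := Polynomial.derivative_eq_zero.mp hd
      obtain ⟨a, ha⟩ := Polynomial.natDegree_eq_zero.mp h3
      rw [← ha] at h0 hg0
      simp [Polynomial.IsRoot] at h0
      simp [h0] at hg0
    have h4 : c ≤ (derivative g).rootMultiplicity ζ :=
      (Polynomial.le_rootMultiplicity_iff hd0).mpr h2
    have h5 := Polynomial.derivative_rootMultiplicity_of_root h0
    have h6 : 0 < g.rootMultiplicity ζ := (Polynomial.rootMultiplicity_pos hg0).mpr h0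
    rw [← Polynomial.le_rootMultiplicity_iff hg0]
    omega

theorem iter_mono (a : ℂ) (n i : ℕ) :
    (fun p : ℂ[X] => X * derivative p)^[i] (C a * X ^ n) = C (a * (n : ℂ) ^ i) * X ^ n := by
  induction i with
  | zero => simp
  | succ i ih =>
    rw [Function.iterate_succ_apply', ih]
    show X * derivative (C (a * (n : ℂ) ^ i) * X ^ n) = _
    rw [derivative_C_mul_X_pow]
    rcases n with _ | n
    · simp
    · rw [Nat.add_sub_cancel, pow_succ X n, pow_succ _ i, ← mul_assoc a]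
      ring

theorem iter_add (i : ℕ) (p q : ℂ[X]) :
    (fun p : ℂ[X] => X * derivative p)^[i] (p + q) =
     (fun p : ℂ[X] => X * derivative p)^[i] p + (fun p : ℂ[X] => X * derivative p)^[i] q := by
  induction i generalizing p q with
  | zero => simp
  | succ i ih =>
    simp only [Function.iterate_succ_apply]
    rw [← ih]
    congr 1
    simp [mul_add]

theorem iter_sum {ι : Type*} (s : Finset ι) (f : ι → ℂ[X]) (i : ℕ) :
    (fun p : ℂ[X] => X * derivative p)^[i] (∑ x ∈ s, f x) =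
     ∑ x ∈ s, (fun p : ℂ[X] => X * derivative p)^[i] (f x) := by
  classical
  induction s using Finset.induction_on with
  | empty =>
    simp
    induction i with
    | zero => simp
    | succ i ih => simp [Function.iterate_succ_apply, ih]
  | insert a s ha ih => rw [Finset.sum_insert ha, Finset.sum_insert ha, iter_add, ih]

end

open Polynomial in
theorem pow_dvd_of_moments (Δ : ℕ →₀ ℤ) (N : ℕ) (hN : ∀ w ∈ Δ.support, w ≤ N) (ζ : ℂ)
    (hζ : ζ ≠ 0) (c : ℕ)
    (h : ∀ j < c, (Δ.sum fun w d => (d : ℂ) * (w : ℂ) ^ j * (ζ ^ w + (-1) ^ j * ζ⁻¹ ^ w)) = 0) :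
    (X - C ζ) ^ c ∣ (Δ.sum fun w d => C d * (X ^ (N + w) + X ^ (N - w)) : ℤ[X]).map
      (Int.castRingHom ℂ) := by
  apply dvd_of_theta ζ hζ
  intro i hi
  have e1 : (Δ.sum fun w d => C d * (X ^ (N + w) + X ^ (N - w)) : ℤ[X]).map
      (Int.castRingHom ℂ) = ∑ w ∈ Δ.support, (C (Δ w : ℂ) * X ^ (N + w) + C (Δ w : ℂ) * X ^ (N - w)) := by
    simp [Finsupp.sum, Polynomial.map_sum, mul_add]
  rw [e1, iter_sum]
  have e2 : ∀ w ∈ Δ.support, (fun p : ℂ[X] => X * derivative p)^[i]
      (C (Δ w : ℂ) * X ^ (N + w) + C (Δ w : ℂ) * X ^ (N - w)) =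
      C ((Δ w : ℂ) * ((N + w : ℕ) : ℂ) ^ i) * X ^ (N + w) +
      C ((Δ w : ℂ) * ((N - w : ℕ) : ℂ) ^ i) * X ^ (N - w) := by
    intro w _
    rw [iter_add, iter_mono, iter_mono]
  rw [Finset.sum_congr rfl e2, Polynomial.eval_finsetSum]
  have e3 : ∀ w ∈ Δ.support, eval ζ (C ((Δ w : ℂ) * ((N + w : ℕ) : ℂ) ^ i) * X ^ (N + w) +
      C ((Δ w : ℂ) * ((N - w : ℕ) : ℂ) ^ i) * X ^ (N - w)) =
      ∑ j ∈ Finset.range (i + 1), (i.choose j : ℂ) * (N : ℂ) ^ (i - j) * ζ ^ N *
        ((Δ w : ℂ) * (w : ℂ) ^ j * (ζ ^ w + (-1) ^ j * ζ⁻¹ ^ w)) := by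
    intro w hw
    have hwN := hN w hw
    have p1 : ζ ^ (N - w) = ζ ^ N * ζ⁻¹ ^ w := by
      rw [inv_pow, ← div_eq_mul_inv, eq_div_iff (pow_ne_zero _ hζ), ← pow_add]
      congr 1; omega
    have q1 : ((N : ℂ) + w) ^ i = ∑ j ∈ Finset.range (i + 1), (w : ℂ) ^ j * (N : ℂ) ^ (i - j) * (i.choose j : ℂ) := by
      rw [add_comm, add_pow]
    have q2 : ((N : ℂ) - w) ^ i = ∑ j ∈ Finset.range (i + 1), (-(w : ℂ)) ^ j * (N : ℂ) ^ (i - j) * (i.choose j : ℂ) := by
      rw [sub_eq_add_neg, add_comm, add_pow]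
    simp only [eval_add, eval_mul, eval_C, eval_pow, eval_X]
    rw [Nat.cast_add, Nat.cast_sub hwN, q1, q2, p1, pow_add, Finset.mul_sum, Finset.mul_sum,
      Finset.sum_mul, Finset.sum_mul, ← Finset.sum_add_distrib]
    apply Finset.sum_congr rfl
    intro j _
    rw [neg_pow]
    ring
  rw [Finset.sum_congr rfl e3, Finset.sum_comm]
  apply Finset.sum_eq_zero
  intro j hj
  rw [← Finset.mul_sum]
  have := h j (by rw [Finset.mem_range] at hj; omega)
  rw [Finsupp.sum] at this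
  rw [this, mul_zero]

end Pool.Agent.Helper51.Moser
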