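import Pool.Agent.Helper51.Moser.Basic
import Pool.Agent.Helper51.Moser.ProdCos
import Pool.Agent.Helper51.Moser.LLDistrib
import Pool.Agent.Helper51.Moser.CondNorm
import Pool.Agent.Helper51.Moser.MomRel
import Pool.Agent.Helper51.Moser.LLDerivZero
import Pool.Agent.Helper51.Moser.TannPos
import Pool.Agent.Helper51.Moser.LogSeries
import Pool.Agent.Helper51.Moser.LFunBlock
import Pool.Agent.Helper51.Moser.LFunPartial
import Pool.Agent.Helper51.Moser.KKSumZero
import Pool.Agent.Helper51.Moser.KKSumOne
import Pool.Agent.Helper51.Moser.KKDeriv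
import Pool.Agent.Helper51.Moser.KKSumGeTwo
import Pool.Agent.Helper51.Moser.LLSumNe
import Pool.Agent.Helper51.Moser.CharMoment
import Pool.Agent.Helper51.Moser.FourierDual
import Pool.Agent.Helper51.Moser.PowDvd
import Pool.Agent.Helper51.Moser.MomentDvd
import Pool.Agent.Helper51.Moser.PadicPrim
import Pool.Agent.Helper51.Moser.ExistsPrim
import Pool.Agent.Helper51.Moser.DblRel
import Pool.Agent.Helper51.Moser.PolyCyc
import Pool.Agent.Helper51.Moser.ExistsCyc
import Pool.Agent.Helper51.Moser.LogCyclotomic
import Pool.Agent.Helper51.Moser.LogCyc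
import Pool.Agent.Helper51.Moser.CycVanish
import Pool.Agent.Helper51.Moser.CycStep
import Pool.Agent.Helper51.Moser.CycOne
import Pool.Agent.Helper51.Moser.CycMomentValue
import Pool.Agent.Helper51.Moser.CycMoment
import Pool.Agent.Helper51.Moser.CycLe
import Pool.Agent.Helper51.Moser.LogSubDeriv
import Pool.Agent.Helper51.Moser.CondEq
import Pool.Agent.Helper51.Moser.TannBernoulli
import Pool.Agent.Helper51.Moser.TannLower
import Pool.Agent.Helper51.Moser.TannTwo
import Pool.Agent.Helper51.Moser.TannNotDvd
import Pool.Agent.Helper51.Moser.SizeIneq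
import Pool.Agent.Helper51.Moser.SmallCases
import Pool.Agent.Helper51.Moser.Numeric
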