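import Pool.Agent.Helper51.Moser.Smooth

open Finset

namespace Pool.Agent.Helper51.Moser

lemma sum_shift (c : ℕ → ℕ) (I : ℕ) :
    ∑ s ∈ Finset.Icc 1 (I + 1), c s = c 1 + ∑ s ∈ Finset.Icc 1 I, c (s + 1) := by
  induction I with
  | zero => simp
  | succ I ih =>
    rw [Finset.sum_Icc_succ_top (by omega), ih, Finset.sum_Icc_succ_top (by omega)]
    ring

lemma dvd_of_lt {l : ℕ} {S a b : ℕ} {Y : ℤ} (hab : a ≤ b)
    (h : (l : ℤ) ^ S ∣ (l : ℤ) ^ a * Y) : (l : ℤ) ^ S ∣ (l : ℤ) ^ b * Y := by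
  refine h.trans ?_
  exact mul_dvd_mul_right (pow_dvd_pow _ hab) _

/-- The central estimate. -/
theorem core {l : ℕ} (hl : l.Prime) (h5 : 5 ≤ l) {n : ℕ} (hn : Even n) (hn1 : 1 ≤ n) (I : ℕ) :
    ∀ (Δ : ℕ →₀ ℤ) (c : ℕ → ℕ), c 0 ≤ n → (∀ s, 1 ≤ s → c s ≤ n - 1) →
      (∀ s, Lev l Δ s (c s)) →
      (l : ℤ) ^ (∑ s ∈ Finset.Icc 1 I, c s) ∣
        (l : ℤ) ^ (n - 1 - c 0) * ((2 ^ n - 1) * mom Δ n) := by
  have hl2 : l ≠ 2 := by omega
  have hlp : Prime (l : ℤ) := Nat.prime_iff_prime_int.mp hl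
  obtain ⟨g, hg, hprim⟩ := exists_prim l hl h5
  induction I with
  | zero =>
    intro Δ c _ _ _
    simp
  | succ I ih =>
    intro Δ c hc0 hc hLev
    -- the smoothed estimate
    have h1 := Lprime hl h5 hg hLev hn (I + 1)
    obtain ⟨e, u, he, hu, hprod⟩ := hprim n (c 0) (c 1) hn hn1 hc0 (hc 1 le_rfl)
    have hprod' : ∏ i ∈ Bset (c 0) (c 1), ((g : ℤ) ^ n - (g : ℤ) ^ i) = (l : ℤ) ^ e * u := hprod
    rw [hprod'] at h1
    set S := ∑ s ∈ Finset.Icc 1 (I + 1), c s with hS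
    have h2 : (l : ℤ) ^ S ∣ (l : ℤ) ^ (n - 1 - c 0) * ((2 ^ n - 1) * momp l Δ n) := by
      have h3 : (l : ℤ) ^ S ∣ (2 * u) * ((l : ℤ) ^ e * ((2 ^ n - 1) * momp l Δ n)) := by
        have h4 : (2 * u) * ((l : ℤ) ^ e * ((2 ^ n - 1) * momp l Δ n)) =
            2 * ((2 ^ n - 1) * ((l : ℤ) ^ e * u * momp l Δ n)) := by ring
        rw [h4]
        exact h1
      have hcop : IsCoprime ((l : ℤ) ^ S) (2 * u) := by
        apply IsCoprime.pow_left
        rw [Prime.coprime_iff_not_dvd hlp]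
        intro hd
        rcases hlp.dvd_or_dvd hd with h5' | h5'
        · have h6 := Int.le_of_dvd (by norm_num) h5'
          omega
        · exact hu h5'
      exact dvd_of_lt he (hcop.dvd_of_dvd_mul_left h3)
    -- the recursive estimate
    set c' : ℕ → ℕ := fun s => if s = 0 then min (c 0) (c 1) else c (s + 1) with hc'
    have hc1 := hc 1 le_rfl
    have h3 := ih (nrm l Δ) c' (by
        show (if (0 : ℕ) = 0 then min (c 0) (c 1) else c (0 + 1)) ≤ n
        rw [if_pos rfl]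
        exact (min_le_left _ _).trans hc0)
      (by
        intro s hs
        show (if s = 0 then min (c 0) (c 1) else c (s + 1)) ≤ n - 1
        rw [if_neg (by omega)]
        exact hc (s + 1) (by omega))
      (by
        intro s
        show Lev l (nrm l Δ) s (if s = 0 then min (c 0) (c 1) else c (s + 1))
        by_cases hs : s = 0
        · subst hs
          rw [if_pos rfl]
          exact Lev_zero hl hl2 (hLev 0) (hLev 1)
        · rw [if_neg hs]
          exact Lev_step hl hl2 (by omega) (hLev (s + 1)))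
    have hc'0 : c' 0 = min (c 0) (c 1) := by
      show (if (0 : ℕ) = 0 then min (c 0) (c 1) else c (0 + 1)) = _
      rw [if_pos rfl]
    have hsum : ∑ s ∈ Finset.Icc 1 I, c' s = ∑ s ∈ Finset.Icc 1 I, c (s + 1) := by
      refine Finset.sum_congr rfl fun s hs => ?_
      rw [Finset.mem_Icc] at hs
      show (if s = 0 then min (c 0) (c 1) else c (s + 1)) = _
      rw [if_neg (by omega)]
    rw [hc'0, hsum] at h3
    set S2 := ∑ s ∈ Finset.Icc 1 I, c (s + 1) with hS2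
    have hSS : S = c 1 + S2 := sum_shift c I
    have h4 : (l : ℤ) ^ S ∣ (l : ℤ) ^ (n - 1 - c 0) *
        ((2 ^ n - 1) * ((l : ℤ) ^ (n - 1) * mom (nrm l Δ) n)) := by
      have h5' : (l : ℤ) ^ (c 1) * (l : ℤ) ^ S2 ∣
          (l : ℤ) ^ (c 1) * ((l : ℤ) ^ (n - 1 - min (c 0) (c 1)) *
            ((2 ^ n - 1) * mom (nrm l Δ) n)) := mul_dvd_mul_left _ h3
      rw [← pow_add, ← hSS] at h5'
      refine h5'.trans ?_
      have h6 : (l : ℤ) ^ (c 1) * ((l : ℤ) ^ (n - 1 - min (c 0) (c 1)) *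
            ((2 ^ n - 1) * mom (nrm l Δ) n)) =
          (l : ℤ) ^ (c 1 + (n - 1 - min (c 0) (c 1))) * ((2 ^ n - 1) * mom (nrm l Δ) n) := by
        rw [pow_add]
        ring
      have h7 : (l : ℤ) ^ (n - 1 - c 0) *
          ((2 ^ n - 1) * ((l : ℤ) ^ (n - 1) * mom (nrm l Δ) n)) =
          (l : ℤ) ^ ((n - 1 - c 0) + (n - 1)) * ((2 ^ n - 1) * mom (nrm l Δ) n) := by
        rw [pow_add]
        ring
      rw [h6, h7]
      refine mul_dvd_mul_right (pow_dvd_pow _ ?_) _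
      rcases le_total (c 0) (c 1) with h8 | h8
      · rw [min_eq_left h8]
        omega
      · rw [min_eq_right h8]
        omega
    have h5' := mom_rel l hl.one_lt.le Δ n hn1
    have h6 : (l : ℤ) ^ (n - 1 - c 0) * ((2 ^ n - 1) * mom Δ n) =
        (1 - (l : ℤ) ^ (n - 1)) * ((l : ℤ) ^ (n - 1 - c 0) * ((2 ^ n - 1) * momp l Δ n)) +
        (l : ℤ) ^ (n - 1 - c 0) *
          ((2 ^ n - 1) * ((l : ℤ) ^ (n - 1) * mom (nrm l Δ) n)) := by
      rw [h5']
      ring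
    rw [h6]
    exact dvd_add (Dvd.dvd.mul_left h2 _) h4

end Pool.Agent.Helper51.Moser
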