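import Pool.Agent.Helper51.Moser.Defs

open Finset

namespace Pool.Agent.Helper51.Moser

/-- The difference of the generating functions of `X` and `Y` is plus or minus a monomial times
a product of cyclotomic polynomials with exponents `e`. -/
def CycFac (X Y : Finset ℤ) (e : ℕ →₀ ℕ) : Prop :=
  e 0 = 0 ∧ ∃ (b : ℤ) (σ : ℂ), (σ = 1 ∨ σ = -1) ∧ ∀ z : ℂ, z ≠ 0 →
    (∑ x ∈ X, z ^ x) - ∑ x ∈ Y, z ^ x =
      σ * z ^ b * e.prod fun m k => (Polynomial.cyclotomic m ℂ).eval z ^ k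

end Pool.Agent.Helper51.Moser
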