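import Mathlib

/-!
Definitions for the proof that three sets of `2 ^ k` integers never share a pair sum multiset.
-/

open Finset

namespace Pool.Agent.Helper51.Moser

/-- `log |2 cos (θ / 2)|` -/
noncomputable def LL (θ : ℝ) : ℝ := Real.log (2 * Real.cos (θ / 2))

/-- `log |2 sin (θ / 2)|` -/
noncomputable def KK (θ : ℝ) : ℝ := Real.log (2 * Real.sin (θ / 2))

/-- The `j`-th derivative at `θ` of `θ ↦ ∑ Δ_w LL (w θ)`. -/
noncomputable def cond (Δ : ℕ →₀ ℤ) (j : ℕ) (θ : ℝ) : ℝ :=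
  Δ.sum fun w d => (d : ℝ) * (w : ℝ) ^ j * iteratedDeriv j LL (w * θ)

/-- All derivatives of order less than `c` vanish at the primitive `l ^ s`-division points. -/
def Lev (l : ℕ) (Δ : ℕ →₀ ℤ) (s c : ℕ) : Prop :=
  ∀ a : ℤ, (s = 0 ∨ ¬ (l : ℤ) ∣ a) → ∀ j < c, cond Δ j (2 * Real.pi * a / (l : ℝ) ^ s) = 0

/-- The `n`-th moment. -/
def mom (Δ : ℕ →₀ ℤ) (n : ℕ) : ℤ := Δ.sum fun w d => d * (w : ℤ) ^ n

/-- The `n`-th moment over the weights prime to `l`. -/
def momp (l : ℕ) (Δ : ℕ →₀ ℤ) (n : ℕ) : ℤ :=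
  Δ.sum fun w d => if l ∣ w then 0 else d * (w : ℤ) ^ n

/-- The norm operator: a weight `w` divisible by `l` becomes `l` copies of `w / l`. -/
noncomputable def nrm (l : ℕ) (Δ : ℕ →₀ ℤ) : ℕ →₀ ℤ :=
  Δ.sum fun w d => if l ∣ w then Finsupp.single (w / l) ((l : ℤ) * d) else Finsupp.single w d

/-- Tangent numbers: `tanN m` is the `m`-th derivative of `tan` at `0`. -/
def tanN : ℕ → ℕ
  | 0 => 0
  | 1 => 1
  | (m + 2) => ∑ i : Fin (m + 2), Nat.choose (m + 1) i * tanN i * tanN (m + 1 - i)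

/-- A symmetric set of integers. -/
def Sym (X : Finset ℤ) : Prop := ∀ x ∈ X, -x ∈ X

/-- `∑ cos (x θ)` over a set. -/
noncomputable def tf (X : Finset ℤ) (θ : ℝ) : ℝ := ∑ x ∈ X, Real.cos (x * θ)

/-- The multiset of the sums of the two-element subsets of a finite set of integers. -/
def pairSums (X : Finset ℤ) : Multiset ℤ :=
  (X.powersetCard 2).val.map (fun s => ∑ x ∈ s, x)

end Pool.Agent.Helper51.Moser
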