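import Pool.Agent.Helper51.Moser.Defs

/-!
The even case, vendored from the hand-in `EvenExponent` of the same problem.
-/

namespace Pool.Agent.Helper51.Moser.EvenPart

open Polynomial LaurentPolynomial Finset

lemma pairSums_insert {a : ℤ} {X : Finset ℤ} (ha : a ∉ X) :
    pairSums (insert a X) = X.val.map (fun x => a + x) + pairSums X := by
  have h := Finset.powersetCard_succ_insert ha 1
  have hdisj : Disjoint (Finset.powersetCard 2 X)
      ((Finset.powersetCard 1 X).image (insert a)) := by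
    rw [Finset.disjoint_left]
    intro s hs hs'
    rw [Finset.mem_powersetCard] at hs
    rw [Finset.mem_image] at hs'
    obtain ⟨t, ht, rfl⟩ := hs'
    exact ha (hs.1 (Finset.mem_insert_self a t))
  have hinj : Set.InjOn (insert a)
      ((Finset.powersetCard 1 X : Finset (Finset ℤ)) : Set (Finset ℤ)) := by
    intro s hs t ht hst
    simp only [Finset.mem_coe, Finset.mem_powersetCard] at hs ht
    have has : a ∉ s := fun h => ha (hs.1 h)
    have hat : a ∉ t := fun h => ha (ht.1 h)
    rw [← Finset.erase_insert has, ← Finset.erase_insert hat, hst]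
  have h3 : Finset.powersetCard 2 (insert a X) =
      (Finset.powersetCard 2 X).disjUnion ((Finset.powersetCard 1 X).image (insert a)) hdisj := by
    rw [Finset.disjUnion_eq_union]
    exact h
  unfold pairSums
  rw [h3, Finset.disjUnion_val, Multiset.map_add, add_comm]
  congr 1
  rw [Finset.image_val_of_injOn hinj, Multiset.map_map, Finset.powersetCard_one, Finset.map_val,
    Multiset.map_map]
  refine Multiset.map_congr rfl fun x hx => ?_
  have hax : a ∉ ({x} : Finset ℤ) := by
    simp only [Finset.mem_singleton]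
    rintro rfl
    exact ha hx
  change ∑ y ∈ insert a ({x} : Finset ℤ), y = a + x
  rw [Finset.sum_insert hax, Finset.sum_singleton]

noncomputable def gf (X : Finset ℤ) : ℂ[T;T⁻¹] := ∑ x ∈ X, T x

noncomputable def pgf (X : Finset ℤ) : ℂ[T;T⁻¹] :=
  ((pairSums X).map (fun n => (T n : ℂ[T;T⁻¹]))).sum

noncomputable def dbl : ℂ[T;T⁻¹] →+* ℂ[T;T⁻¹] :=
  AddMonoidAlgebra.mapDomainRingHom ℂ (AddMonoidHom.mulLeft (2 : ℤ))

lemma dbl_T (n : ℤ) : dbl (T n) = T (2 * n) :=
  AddMonoidAlgebra.mapDomain_single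

lemma dbl_C (a : ℂ) : dbl (LaurentPolynomial.C a) = LaurentPolynomial.C a := by
  rw [← LaurentPolynomial.single_eq_C]
  exact AddMonoidAlgebra.mapDomain_single

lemma two_ne : (2 : ℂ[T;T⁻¹]) ≠ 0 := by
  have h : (2 : ℂ[T;T⁻¹]) = LaurentPolynomial.C 2 := (map_ofNat _ 2).symm
  rw [h]
  intro h0
  have := congrArg (fun f => f.coeff 0) h0
  simp at this

lemma gf_insert {a : ℤ} {X : Finset ℤ} (ha : a ∉ X) : gf (insert a X) = T a + gf X := by
  simp [gf, Finset.sum_insert ha]

lemma pgf_insert {a : ℤ} {X : Finset ℤ} (ha : a ∉ X) :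
    pgf (insert a X) = T a * gf X + pgf X := by
  unfold pgf gf
  rw [pairSums_insert ha, Multiset.map_add, Multiset.sum_add, Multiset.map_map, Finset.mul_sum]
  congr 1
  refine congrArg Multiset.sum (Multiset.map_congr rfl fun x _ => ?_)
  exact T_add a x

lemma gf_sq (X : Finset ℤ) : gf X * gf X = dbl (gf X) + 2 * pgf X := by
  induction X using Finset.induction_on with
  | empty =>
    have h : pairSums ∅ = 0 := rfl
    simp [gf, pgf, h]
  | insert a X ha ih =>
    rw [gf_insert ha, pgf_insert ha, map_add, dbl_T]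
    have h2 : (T (2 * a) : ℂ[T;T⁻¹]) = T a * T a := by rw [← T_add, two_mul]
    rw [h2]
    linear_combination ih

lemma gf_coeff (X : Finset ℤ) (n : ℤ) : (gf X).coeff n = if n ∈ X then 1 else 0 := by
  induction X using Finset.induction_on with
  | empty => simp [gf]
  | insert a X ha ih =>
    rw [gf_insert ha, AddMonoidAlgebra.coeff_add, Finsupp.add_apply, ih, T_apply]
    by_cases h : a = n
    · subst h
      simp [ha]
    · have h' : n ≠ a := fun e => h e.symm
      simp [h, h']

lemma gf_injective {X Y : Finset ℤ} (h : gf X = gf Y) : X = Y := by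
  ext n
  have := congrArg (fun f => f.coeff n) h
  simp only [gf_coeff] at this
  by_cases h1 : n ∈ X <;> by_cases h2 : n ∈ Y <;> simp_all

lemma msum_coeff (M : Multiset ℤ) (n : ℤ) :
    ((M.map (fun n => (T n : ℂ[T;T⁻¹]))).sum).coeff n = (M.count n : ℂ) := by
  induction M using Multiset.induction_on with
  | empty => simp
  | cons a M ih =>
    rw [Multiset.map_cons, Multiset.sum_cons, AddMonoidAlgebra.coeff_add, Finsupp.add_apply, ih,
      T_apply]
    by_cases h : a = n
    · subst h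
      simp [add_comm]
    · have h' : n ≠ a := fun e => h e.symm
      simp [h, Multiset.count_cons_of_ne h']

lemma pgf_injective {X Y : Finset ℤ} (h : pgf X = pgf Y) : pairSums X = pairSums Y := by
  ext n
  have := congrArg (fun f => f.coeff n) h
  simp only [pgf, msum_coeff] at this
  exact_mod_cast this

/-- Nonzero roots are closed under squaring, hence of norm one. -/
lemma norm_of_root {P H : ℂ[X]} {m : ℕ} (hP0 : P.coeff 0 ≠ 0)
    (hrel : Polynomial.expand ℂ 2 P * Polynomial.X ^ m = P * H) {α : ℂ} (hα : α ∈ P.roots) :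
    ‖α‖ = 1 := by
  have hP : P ≠ 0 := by
    rintro rfl
    simp at hP0
  have hne : ∀ β : ℂ, β ∈ P.roots → β ≠ 0 := by
    rintro β hβ rfl
    rw [Polynomial.mem_roots hP, Polynomial.IsRoot.def, ← Polynomial.coeff_zero_eq_eval_zero] at hβ
    exact hP0 hβ
  have hsq : ∀ β : ℂ, β ∈ P.roots → β ^ 2 ∈ P.roots := by
    intro β hβ
    have hb := hne β hβ
    rw [Polynomial.mem_roots hP, Polynomial.IsRoot.def] at hβ ⊢
    have := congrArg (Polynomial.eval β) hrel
    rw [Polynomial.eval_mul, Polynomial.eval_mul, hβ, zero_mul, Polynomial.expand_eval,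
      Polynomial.eval_pow, Polynomial.eval_X] at this
    exact (mul_eq_zero.mp this).resolve_right (pow_ne_zero m hb)
  have hit : ∀ j : ℕ, α ^ (2 ^ j) ∈ P.roots.toFinset := by
    intro j
    rw [Multiset.mem_toFinset]
    induction j with
    | zero => simpa using hα
    | succ j ih =>
      rw [pow_succ, pow_mul]
      exact hsq _ ih
  obtain ⟨i, j, hij, he⟩ := Finite.exists_ne_map_eq_of_infinite
    (fun j : ℕ => (⟨α ^ (2 ^ j), hit j⟩ : P.roots.toFinset))
  have he' : α ^ (2 ^ i) = α ^ (2 ^ j) := congrArg Subtype.val he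
  have hn : ‖α‖ ^ (2 ^ i) = ‖α‖ ^ (2 ^ j) := by
    rw [← norm_pow, ← norm_pow, he']
  by_contra h1
  have hpos : 0 < ‖α‖ := norm_pos_iff.mpr (hne α hα)
  have := pow_right_injective₀ hpos h1 hn
  exact hij (Nat.pow_right_injective (le_refl 2) this)

lemma reverse_lin (α : ℂ) :
    (Polynomial.X - Polynomial.C α).reverse = 1 - Polynomial.C α * Polynomial.X := by
  rw [sub_eq_add_neg, ← Polynomial.C_neg, Polynomial.reverse_add_C, Polynomial.natDegree_X,
    pow_one, Polynomial.C_neg]
  have h : (Polynomial.X : ℂ[X]).reverse = 1 := by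
    have h1 := Polynomial.reverse_X_mul (1 : ℂ[X])
    rw [mul_one] at h1
    rw [h1, ← Polynomial.C_1, Polynomial.reverse_C]
  rw [h]
  ring

lemma reverse_lin_pow (α : ℂ) (r : ℕ) :
    ((Polynomial.X - Polynomial.C α) ^ r).reverse =
      (1 - Polynomial.C α * Polynomial.X) ^ r := by
  induction r with
  | zero => rw [pow_zero, pow_zero, ← Polynomial.C_1, Polynomial.reverse_C]
  | succ r ih => rw [pow_succ, Polynomial.reverse_mul_of_domain, ih, reverse_lin, pow_succ]

lemma reverse_prod (s : Multiset ℂ) (hs : ∀ α ∈ s, ‖α‖ = 1) :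
    ∃ c : ℂ, c ≠ 0 ∧ ((s.map (fun α => Polynomial.X - Polynomial.C α)).prod).reverse =
      Polynomial.C c *
        ((s.map (fun α => Polynomial.X - Polynomial.C α)).prod).map (starRingEnd ℂ) := by
  induction s using Multiset.induction_on with
  | empty =>
    refine ⟨1, one_ne_zero, ?_⟩
    rw [Multiset.map_zero, Multiset.prod_zero, Polynomial.map_one, mul_one, ← Polynomial.C_1,
      Polynomial.reverse_C]
  | cons α s ih =>
    obtain ⟨c, hc, h⟩ := ih fun β hβ => hs β (Multiset.mem_cons_of_mem hβ)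
    have hα : ‖α‖ = 1 := hs α (Multiset.mem_cons_self α s)
    have hα0 : α ≠ 0 := by
      intro h0
      rw [h0] at hα
      simp at hα
    have hconj : α * (starRingEnd ℂ) α = 1 := by
      rw [Complex.mul_conj, Complex.normSq_eq_norm_sq, hα]
      simp
    refine ⟨-α * c, mul_ne_zero (neg_ne_zero.mpr hα0) hc, ?_⟩
    rw [Multiset.map_cons, Multiset.prod_cons, Polynomial.reverse_mul_of_domain, h,
      Polynomial.map_mul]
    rw [reverse_lin]
    have h4 : (1 - Polynomial.C α * Polynomial.X : ℂ[X]) =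
        Polynomial.C (-α) * (Polynomial.X - Polynomial.C ((starRingEnd ℂ) α)) := by
      rw [mul_sub, ← Polynomial.C_mul, neg_mul, hconj]
      simp
      ring
    rw [h4]
    simp only [Polynomial.map_sub, Polynomial.map_X, Polynomial.map_C, Polynomial.C_mul]
    ring

lemma reverse_eq {P : ℂ[X]} (hP : P ≠ 0) (hreal : P.map (starRingEnd ℂ) = P)
    (hroots : ∀ α ∈ P.roots, ‖α‖ = 1) : ∃ c : ℂ, c ≠ 0 ∧ P.reverse = Polynomial.C c * P := by
  have hsplit : P = Polynomial.C P.leadingCoeff *
      (P.roots.map (fun α => Polynomial.X - Polynomial.C α)).prod :=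
    (IsAlgClosed.splits P).eq_prod_roots
  obtain ⟨c, hc, h⟩ := reverse_prod P.roots hroots
  set R := (P.roots.map (fun α => Polynomial.X - Polynomial.C α)).prod with hR
  have hl : P.leadingCoeff ≠ 0 := Polynomial.leadingCoeff_ne_zero.mpr hP
  have hRreal : R.map (starRingEnd ℂ) = R := by
    have h1 : Polynomial.C ((starRingEnd ℂ) P.leadingCoeff) * R.map (starRingEnd ℂ) = Polynomial.C P.leadingCoeff * R := by
      rw [← Polynomial.map_C, ← Polynomial.map_mul, ← hsplit, hreal]
    have h2 : (starRingEnd ℂ) P.leadingCoeff = P.leadingCoeff := by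
      have := congrArg (fun Q => Q.coeff P.natDegree) hreal
      simpa using this
    rw [h2] at h1
    exact mul_left_cancel₀ (Polynomial.C_ne_zero.mpr hl) h1
  refine ⟨c, hc, ?_⟩
  rw [hRreal] at h
  calc P.reverse = (Polynomial.C P.leadingCoeff * R).reverse := by rw [← hsplit]
    _ = Polynomial.C P.leadingCoeff * R.reverse := by
        rw [Polynomial.reverse_mul_of_domain, Polynomial.reverse_C]
    _ = Polynomial.C c * (Polynomial.C P.leadingCoeff * R) := by rw [h]; ring
    _ = Polynomial.C c * P := by rw [← hsplit]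

lemma eval_one_reverse (Q : ℂ[X]) : Q.reverse.eval 1 = Q.eval 1 := by
  let _ : Invertible (1 : ℂ) := invertibleOne
  have h := Polynomial.eval₂_reverse_mul_pow (RingHom.id ℂ) (1 : ℂ) Q
  rw [invOf_one, one_pow, mul_one, Polynomial.eval₂_id, Polynomial.eval₂_id] at h
  exact h

lemma order_at_one {P H : ℂ[X]} {m : ℕ} (hP : P ≠ 0)
    (hrel : Polynomial.expand ℂ 2 P * Polynomial.X ^ m = P * H) {c : ℂ}
    (hc : P.reverse = Polynomial.C c * P) : ∃ r : ℕ, H.eval 1 = 2 ^ r ∧ c = (-1) ^ r := by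
  obtain ⟨Q, hQ, hQ1⟩ := Polynomial.exists_eq_pow_rootMultiplicity_mul_and_not_dvd P hP 1
  set r := Polynomial.rootMultiplicity 1 P with hr
  have hQ1' : Q.eval 1 ≠ 0 := by
    intro h
    exact hQ1 (Polynomial.dvd_iff_isRoot.mpr h)
  have hX : (Polynomial.X - Polynomial.C (1 : ℂ)) ^ r ≠ 0 :=
    pow_ne_zero _ (Polynomial.X_sub_C_ne_zero 1)
  refine ⟨r, ?_, ?_⟩
  · have h1 : Polynomial.expand ℂ 2 P = (Polynomial.X - Polynomial.C (1 : ℂ)) ^ r *
        ((Polynomial.X + Polynomial.C (1 : ℂ)) ^ r * Polynomial.expand ℂ 2 Q) := by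
      conv_lhs => rw [hQ]
      rw [map_mul, map_pow, map_sub, Polynomial.expand_X, Polynomial.expand_C, ← mul_assoc,
        ← mul_pow]
      congr 2
      simp
      ring
    rw [h1] at hrel
    have h2 : (Polynomial.X - Polynomial.C (1 : ℂ)) ^ r *
        (((Polynomial.X + Polynomial.C (1 : ℂ)) ^ r * Polynomial.expand ℂ 2 Q) *
          Polynomial.X ^ m) = (Polynomial.X - Polynomial.C (1 : ℂ)) ^ r * (Q * H) := by
      rw [← mul_assoc, hrel]
      conv_lhs => rw [hQ]
      ring
    have h3 := mul_left_cancel₀ hX h2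
    have h4 := congrArg (Polynomial.eval 1) h3
    simp only [Polynomial.eval_mul, Polynomial.eval_pow, Polynomial.eval_add, Polynomial.eval_X,
      Polynomial.eval_C, Polynomial.expand_eval, one_pow, mul_one] at h4
    have h5 : Q.eval 1 * H.eval 1 = Q.eval 1 * 2 ^ r := by
      rw [← h4]
      norm_num
      ring
    exact mul_left_cancel₀ hQ1' h5
  · have h1 : P.reverse = (Polynomial.X - Polynomial.C (1 : ℂ)) ^ r *
        ((Polynomial.C ((-1 : ℂ) ^ r)) * Q.reverse) := by
      conv_lhs => rw [hQ]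
      rw [Polynomial.reverse_mul_of_domain, reverse_lin_pow, Polynomial.C_pow, ← mul_assoc,
        ← mul_pow]
      congr 2
      simp
    rw [h1] at hc
    have h2 : (Polynomial.X - Polynomial.C (1 : ℂ)) ^ r *
        ((Polynomial.C ((-1 : ℂ) ^ r)) * Q.reverse) = (Polynomial.X - Polynomial.C (1 : ℂ)) ^ r *
        (Polynomial.C c * Q) := by
      rw [hc]
      conv_lhs => rw [hQ]
      ring
    have h3 := mul_left_cancel₀ hX h2
    have h4 := congrArg (Polynomial.eval 1) h3
    simp only [Polynomial.eval_mul, Polynomial.eval_C, eval_one_reverse] at h4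
    exact (mul_right_cancel₀ hQ1' h4).symm

lemma exists_poly (X Y : Finset ℤ) : ∃ (N : ℕ) (p q : ℂ[X]),
    p.map (starRingEnd ℂ) = p ∧ q.map (starRingEnd ℂ) = q ∧
      gf X = T (-(N : ℤ)) * toLaurent p ∧ gf Y = T (-(N : ℤ)) * toLaurent q := by
  set N : ℕ := ∑ x ∈ X ∪ Y, x.natAbs with hN
  have hle : ∀ x ∈ X ∪ Y, 0 ≤ x + N := by
    intro x hx
    have h : x.natAbs ≤ N :=
      Finset.single_le_sum (f := fun x : ℤ => x.natAbs) (fun _ _ => Nat.zero_le _) hx
    omega
  have main : ∀ Z ⊆ X ∪ Y, ∃ p : ℂ[X], p.map (starRingEnd ℂ) = p ∧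
      gf Z = T (-(N : ℤ)) * toLaurent p := by
    intro Z hZ
    refine ⟨∑ x ∈ Z, Polynomial.X ^ ((x + N).toNat), ?_, ?_⟩
    · rw [Polynomial.map_sum]
      simp
    · rw [map_sum, Finset.mul_sum]
      refine Finset.sum_congr rfl fun x hx => ?_
      rw [Polynomial.toLaurent_X_pow, ← T_add, Int.toNat_of_nonneg (hle x (hZ hx))]
      congr 1
      ring
  obtain ⟨p, hp, hp'⟩ := main X Finset.subset_union_left
  obtain ⟨q, hq, hq'⟩ := main Y Finset.subset_union_right
  exact ⟨N, p, q, hp, hq, hp', hq'⟩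

lemma dbl_toLaurent (P : ℂ[X]) : dbl (toLaurent P) = toLaurent (Polynomial.expand ℂ 2 P) := by
  induction P using Polynomial.induction_on' with
  | add p q hp hq => rw [map_add, map_add, hp, hq, map_add, map_add]
  | monomial n a =>
    rw [← Polynomial.C_mul_X_pow_eq_monomial, Polynomial.toLaurent_C_mul_X_pow, map_mul, dbl_C,
      dbl_T, map_mul, map_pow, Polynomial.expand_C, Polynomial.expand_X, ← pow_mul,
      Polynomial.toLaurent_C_mul_X_pow]
    congr 2

lemma invert_dbl (X : Finset ℤ) : invert (dbl (gf X)) = dbl (invert (gf X)) := by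
  unfold gf
  rw [map_sum, map_sum, map_sum, map_sum]
  refine Finset.sum_congr rfl fun x _ => ?_
  rw [dbl_T, invert_T, invert_T, dbl_T]
  congr 1
  ring

lemma card_eval (X : Finset ℤ) :
    LaurentPolynomial.eval₂ (RingHom.id ℂ) (1 : ℂˣ) (gf X) = (X.card : ℂ) := by
  unfold gf
  rw [map_sum]
  have : ∀ x ∈ X, LaurentPolynomial.eval₂ (RingHom.id ℂ) (1 : ℂˣ) (T x) = 1 := by
    intro x _
    rw [LaurentPolynomial.eval₂_T]
    simp
  rw [Finset.sum_congr rfl this]
  simp

lemma key {X Y : Finset ℤ} {n : ℕ} (hX : X.card = n) (hY : Y.card = n) (hne : X ≠ Y)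
    (h : pairSums X = pairSums Y) : ∃ (r : ℕ) (s : ℤ), (2 : ℂ) ^ r = 2 * n ∧
      invert (gf X - gf Y) = LaurentPolynomial.C ((-1) ^ r) * T (-s) * (gf X - gf Y) ∧
      invert (gf X + gf Y) = T (-s) * (gf X + gf Y) := by
  obtain ⟨N, p, q, hp, hq, hpX, hqY⟩ := exists_poly X Y
  have hD : gf X - gf Y ≠ 0 := fun h0 => hne (gf_injective (sub_eq_zero.mp h0))
  have hdbl : dbl (gf X - gf Y) = (gf X - gf Y) * (gf X + gf Y) := by
    have h1 := gf_sq X
    have h2 := gf_sq Y
    have h3 : pgf X = pgf Y := by unfold pgf; rw [h]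
    rw [map_sub]
    rw [h3] at h1
    linear_combination h2 - h1
  have hpq : gf X - gf Y = T (-(N : ℤ)) * toLaurent (p - q) := by
    rw [hpX, hqY, map_sub]
    ring
  have hpq0 : p - q ≠ 0 := by
    intro h0
    rw [h0, map_zero, mul_zero] at hpq
    exact hD hpq
  obtain ⟨P, hP, hP1⟩ := Polynomial.exists_eq_pow_rootMultiplicity_mul_and_not_dvd (p - q) hpq0 0
  set b := Polynomial.rootMultiplicity 0 (p - q) with hb
  rw [Polynomial.C_0, sub_zero] at hP hP1
  have hPcoeff : P.coeff 0 ≠ 0 := by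
    intro h0
    exact hP1 (Polynomial.X_dvd_iff.mpr h0)
  have hPne : P ≠ 0 := by
    rintro rfl
    simp at hPcoeff
  have hPreal : P.map (starRingEnd ℂ) = P := by
    have h1 : (p - q).map (starRingEnd ℂ) = p - q := by rw [Polynomial.map_sub, hp, hq]
    rw [hP, Polynomial.map_mul, Polynomial.map_pow, Polynomial.map_X] at h1
    exact mul_left_cancel₀ (pow_ne_zero b Polynomial.X_ne_zero) h1
  have hDP : gf X - gf Y = T ((b : ℤ) - N) * toLaurent P := by
    rw [hpq, hP, map_mul, Polynomial.toLaurent_X_pow, ← mul_assoc, ← T_add]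
    congr 2
    ring
  -- the sum polynomial
  have hsum : gf X + gf Y = T (-(N : ℤ)) * toLaurent (p + q) := by
    rw [hpX, hqY, map_add]
    ring
  have hrelL : toLaurent (Polynomial.expand ℂ 2 P) * T ((b : ℤ) - N) =
      toLaurent P * T (-(N : ℤ)) * toLaurent (p + q) := by
    have h1 : dbl (gf X - gf Y) = T (2 * ((b : ℤ) - N)) * toLaurent (Polynomial.expand ℂ 2 P) := by
      rw [hDP, map_mul, dbl_T, dbl_toLaurent]
    rw [hdbl, hsum, hDP] at h1
    have h2 : (T (2 * ((b : ℤ) - N)) : ℂ[T;T⁻¹]) = T ((b : ℤ) - N) * T ((b : ℤ) - N) := by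
      rw [← T_add, two_mul]
    rw [h2] at h1
    have h3 : (T ((b : ℤ) - N) : ℂ[T;T⁻¹]) ≠ 0 := (isUnit_T _).ne_zero
    refine mul_left_cancel₀ h3 ?_
    linear_combination -h1
  have hrel : Polynomial.expand ℂ 2 P * Polynomial.X ^ b = P * (p + q) := by
    rw [← Polynomial.toLaurent_inj, map_mul, map_mul, Polynomial.toLaurent_X_pow]
    have h3 : (T (-(N : ℤ)) : ℂ[T;T⁻¹]) ≠ 0 := (isUnit_T _).ne_zero
    refine mul_right_cancel₀ h3 ?_
    have h4 : (T ((b : ℤ) - N) : ℂ[T;T⁻¹]) = T (b : ℤ) * T (-(N : ℤ)) := by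
      rw [← T_add, sub_eq_add_neg]
    rw [h4] at hrelL
    linear_combination hrelL
  obtain ⟨c, hc0, hc⟩ := reverse_eq hPne hPreal fun α hα => norm_of_root hPcoeff hrel hα
  obtain ⟨r, hr1, hr2⟩ := order_at_one hPne hrel hc
  have hval : (p + q).eval 1 = 2 * n := by
    have h1 := congrArg (LaurentPolynomial.eval₂ (RingHom.id ℂ) (1 : ℂˣ)) hsum
    rw [map_add, card_eval, card_eval, map_mul, LaurentPolynomial.eval₂_T,
      LaurentPolynomial.eval₂_toLaurent, hX, hY] at h1
    simp only [one_zpow, Units.val_one, one_mul, Polynomial.eval₂_id] at h1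
    rw [← h1]
    ring
  -- the inversion of the difference
  set D := gf X - gf Y with hDdef
  set S := gf X + gf Y with hSdef
  have hinvP : invert (toLaurent P) =
      LaurentPolynomial.C c * T (-(P.natDegree : ℤ)) * toLaurent P := by
    have h1 := LaurentPolynomial.toLaurent_reverse P
    rw [hc, Polynomial.toLaurent_C_mul_eq] at h1
    have h2 : (T (P.natDegree : ℤ) : ℂ[T;T⁻¹]) ≠ 0 := (isUnit_T _).ne_zero
    refine mul_right_cancel₀ h2 ?_
    rw [← h1]
    have h3 : (T (-(P.natDegree : ℤ)) * T (P.natDegree : ℤ) : ℂ[T;T⁻¹]) = 1 := by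
      rw [← T_add, neg_add_cancel, T_zero]
    linear_combination (-LaurentPolynomial.C c * toLaurent P) * h3
  set s : ℤ := P.natDegree + 2 * ((b : ℤ) - N) with hs
  have hinvD : invert D = LaurentPolynomial.C c * T (-s) * D := by
    rw [hDP, map_mul, invert_T, hinvP]
    have h3 : (T (-((b : ℤ) - N)) * T (-(P.natDegree : ℤ)) : ℂ[T;T⁻¹]) =
        T (-s) * T ((b : ℤ) - N) := by
      rw [← T_add, ← T_add]
      congr 1
      rw [hs]
      ring
    linear_combination (LaurentPolynomial.C c * toLaurent P) * h3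
  have hinvS : invert S = T (-s) * S := by
    have h1 : invert (dbl D) = dbl (invert D) := by
      rw [hDdef, map_sub, map_sub, map_sub, map_sub, invert_dbl, invert_dbl]
    have h2 : dbl D = D * S := hdbl
    have h4 : dbl (invert D) = LaurentPolynomial.C c * T (-s) * T (-s) * (D * S) := by
      rw [hinvD, map_mul, map_mul, dbl_C, dbl_T, h2]
      have h5 : (T (2 * -s) : ℂ[T;T⁻¹]) = T (-s) * T (-s) := by rw [← T_add, two_mul]
      rw [h5]
      ring
    rw [h4, h2, map_mul, hinvD] at h1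
    have h5 : (LaurentPolynomial.C c * T (-s) * D : ℂ[T;T⁻¹]) ≠ 0 := by
      refine mul_ne_zero (mul_ne_zero ?_ (isUnit_T _).ne_zero) hD
      intro h0
      have := congrArg (fun f => f.coeff 0) h0
      simp at this
      exact hc0 this
    refine mul_left_cancel₀ h5 ?_
    linear_combination h1
  refine ⟨r, s, ?_, ?_, hinvS⟩
  · rw [← hval, hr1]
  · rw [hinvD, hr2]

lemma invert_gf (X : Finset ℤ) : invert (gf X) = gf (X.image fun x => -x) := by
  unfold gf
  rw [map_sum, Finset.sum_image (fun a _ b _ h => neg_injective h)]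
  exact Finset.sum_congr rfl fun x _ => invert_T x

lemma T_mul_gf (t : ℤ) (X : Finset ℤ) : T t * gf X = gf (X.image fun x => t + x) := by
  unfold gf
  rw [Finset.mul_sum, Finset.sum_image (fun a _ b _ h => add_left_cancel h)]
  exact Finset.sum_congr rfl fun x _ => (T_add t x).symm

/-- If `k` is even, two different sets with the same pair sums are reflections of each other. -/
lemma reflection {k : ℕ} (hk : Even k) {X Y : Finset ℤ} (hX : X.card = 2 ^ k)
    (hY : Y.card = 2 ^ k) (hne : X ≠ Y) (h : pairSums X = pairSums Y) :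
    ∃ s : ℤ, Y = X.image fun x => s - x := by
  obtain ⟨r, s, hr, h1, h2⟩ := key hX hY hne h
  have hr' : r = k + 1 := by
    have h3 : (2 : ℕ) ^ r = 2 ^ (k + 1) := by
      have h4 : ((2 ^ r : ℕ) : ℂ) = ((2 ^ (k + 1) : ℕ) : ℂ) := by
        push_cast
        rw [hr]
        push_cast
        ring
      exact_mod_cast h4
    exact Nat.pow_right_injective (le_refl 2) h3
  have hodd : ((-1 : ℂ)) ^ r = -1 := by
    rw [hr']
    exact (Even.add_one hk).neg_one_pow
  rw [hodd, map_neg, map_one] at h1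
  refine ⟨s, ?_⟩
  have h3 : invert (gf X) = T (-s) * gf Y := by
    have h4 : (2 : ℂ[T;T⁻¹]) * invert (gf X) = 2 * (T (-s) * gf Y) := by
      rw [map_sub] at h1
      rw [map_add] at h2
      linear_combination h1 + h2
    exact mul_left_cancel₀ two_ne h4
  have h5 : gf Y = gf (X.image fun x => s - x) := by
    have h6 : T s * invert (gf X) = gf Y := by
      rw [h3, ← mul_assoc, ← T_add, add_neg_cancel, T_zero, one_mul]
    rw [← h6, invert_gf, T_mul_gf, Finset.image_image]
    congr 1
  exact gf_injective h5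

lemma sum_pairSums (X : Finset ℤ) : (pairSums X).sum = (X.card - 1) * ∑ x ∈ X, x := by
  induction X using Finset.induction_on with
  | empty =>
    have h : pairSums ∅ = 0 := rfl
    simp [h]
  | insert a X ha ih =>
    rw [pairSums_insert ha, Multiset.sum_add, ih, Finset.card_insert_of_notMem ha,
      Finset.sum_insert ha]
    have h1 : (X.val.map fun x => a + x).sum = X.card * a + ∑ x ∈ X, x := by
      change ∑ x ∈ X, (a + x) = _
      rw [Finset.sum_add_distrib, Finset.sum_const, nsmul_eq_mul]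
    rw [h1]
    push_cast
    ring

lemma sum_reflect (X : Finset ℤ) (s : ℤ) :
    ∑ x ∈ X.image (fun x => s - x), x = X.card * s - ∑ x ∈ X, x := by
  rw [Finset.sum_image (fun a _ b _ h => sub_right_injective h), Finset.sum_sub_distrib,
    Finset.sum_const, nsmul_eq_mul]

lemma no_three {k : ℕ} (hk : Even k) (hk2 : 2 ≤ k) {X Y Z : Finset ℤ} (hX : X.card = 2 ^ k)
    (hY : Y.card = 2 ^ k) (hZ : Z.card = 2 ^ k) (hXY : X ≠ Y) (hXZ : X ≠ Z) (hYZ : Y ≠ Z)
    (h1 : pairSums X = pairSums Y) (h2 : pairSums X = pairSums Z) : False := by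
  obtain ⟨s, hs⟩ := reflection hk hX hY hXY h1
  obtain ⟨t, ht⟩ := reflection hk hX hZ hXZ h2
  have hc : (2 : ℤ) ^ k ≠ 0 := pow_ne_zero k two_ne_zero
  have hc1 : (2 : ℤ) ^ k - 1 ≠ 0 := by
    have h4 : (2 : ℤ) ^ 2 ≤ 2 ^ k := pow_le_pow_right₀ (by norm_num) hk2
    omega
  have e0 := sum_pairSums X
  have e1 := sum_pairSums Y
  have e2 := sum_pairSums Z
  have f1 := sum_reflect X s
  have f2 := sum_reflect X t
  rw [← hs] at f1
  rw [← ht] at f2
  rw [hX] at e0 f1 f2
  rw [hY, ← h1] at e1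
  rw [hZ, ← h2] at e2
  push_cast at e0 e1 e2 f1 f2
  have g1 : ∑ x ∈ X, x = ∑ x ∈ Y, x := mul_left_cancel₀ hc1 (e0.symm.trans e1)
  have g2 : ∑ x ∈ X, x = ∑ x ∈ Z, x := mul_left_cancel₀ hc1 (e0.symm.trans e2)
  have g3 : (2 : ℤ) ^ k * s = 2 ^ k * t := by linarith
  have g4 : s = t := mul_left_cancel₀ hc g3
  apply hYZ
  rw [hs, ht, g4]

lemma exists_pair (k : ℕ) (hk : 1 ≤ k) : ∃ A B : Finset ℤ, A ≠ B ∧ A.card = 2 ^ k ∧
    B.card = 2 ^ k ∧ pairSums A = pairSums B := by
  induction k, hk using Nat.le_induction with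
  | base =>
    refine ⟨{0, 3}, {1, 2}, ?_, rfl, rfl, ?_⟩
    · decide
    · decide
  | succ k hk ih =>
    obtain ⟨A, B, hAB, hA, hB, h⟩ := ih
    set N : ℕ := ∑ x ∈ A ∪ B, x.natAbs + 1 with hN
    have hle : ∀ x ∈ A ∪ B, -(N : ℤ) < x ∧ x < N := by
      intro x hx
      have h : x.natAbs ≤ ∑ x ∈ A ∪ B, x.natAbs :=
        Finset.single_le_sum (f := fun x : ℤ => x.natAbs) (fun _ _ => Nat.zero_le _) hx
      omega
    have hdis : ∀ P Q : Finset ℤ, P ⊆ A ∪ B → Q ⊆ A ∪ B →
        Disjoint P (Q.image fun x => 2 * (N : ℤ) + x) := by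
      intro P Q hP hQ
      rw [Finset.disjoint_left]
      intro x hx hx'
      rw [Finset.mem_image] at hx'
      obtain ⟨y, hy, hyx⟩ := hx'
      have h1 := hle x (hP hx)
      have h2 := hle y (hQ hy)
      omega
    have hAs : A ⊆ A ∪ B := Finset.subset_union_left
    have hBs : B ⊆ A ∪ B := Finset.subset_union_right
    have hinj : Function.Injective fun x : ℤ => 2 * (N : ℤ) + x :=
      fun a b h => add_left_cancel h
    have hgf : ∀ P Q : Finset ℤ, P ⊆ A ∪ B → Q ⊆ A ∪ B →
        gf (P ∪ Q.image fun x => 2 * (N : ℤ) + x) = gf P + T (2 * (N : ℤ)) * gf Q := by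
      intro P Q hP hQ
      rw [T_mul_gf]
      unfold gf
      rw [Finset.sum_union (hdis P Q hP hQ)]
    refine ⟨A ∪ B.image fun x => 2 * (N : ℤ) + x, B ∪ A.image fun x => 2 * (N : ℤ) + x,
      ?_, ?_, ?_, ?_⟩
    · intro heq
      apply hAB
      have hmem : ∀ P Q : Finset ℤ, P ⊆ A ∪ B → Q ⊆ A ∪ B → ∀ x : ℤ,
          x ∈ P ↔ (x ∈ P ∪ Q.image fun x => 2 * (N : ℤ) + x) ∧ x < N := by
        intro P Q hP hQ x
        constructor
        · intro hx
          exact ⟨Finset.mem_union_left _ hx, (hle x (hP hx)).2⟩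
        · rintro ⟨hx, hx2⟩
          rw [Finset.mem_union, Finset.mem_image] at hx
          rcases hx with hx | ⟨y, hy, hyx⟩
          · exact hx
          · have h2 := hle y (hQ hy)
            omega
      ext x
      rw [hmem A B hAs hBs x, hmem B A hBs hAs x, heq]
    · rw [Finset.card_union_of_disjoint (hdis A B hAs hBs), Finset.card_image_of_injective _ hinj,
        hA, hB, pow_succ]
      ring
    · rw [Finset.card_union_of_disjoint (hdis B A hBs hAs), Finset.card_image_of_injective _ hinj,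
        hA, hB, pow_succ]
      ring
    · apply pgf_injective
      have e1 := gf_sq (A ∪ B.image fun x => 2 * (N : ℤ) + x)
      have e2 := gf_sq (B ∪ A.image fun x => 2 * (N : ℤ) + x)
      rw [hgf A B hAs hBs, map_add, map_mul] at e1
      rw [hgf B A hBs hAs, map_add, map_mul] at e2
      have e3 := gf_sq A
      have e4 := gf_sq B
      have e5 : pgf A = pgf B := by unfold pgf; rw [h]
      have e6 : dbl (T (2 * (N : ℤ))) = T (2 * (N : ℤ)) * T (2 * (N : ℤ)) := by
        rw [dbl_T, ← T_add, ← two_mul]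
      rw [e6] at e1 e2
      rw [e5] at e3
      refine mul_left_cancel₀ two_ne ?_
      linear_combination e2 - e1 + (1 - T (2 * (N : ℤ)) * T (2 * (N : ℤ))) * (e3 - e4)

end Pool.Agent.Helper51.Moser.EvenPart
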