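import Pool.Agent.Helper51.Moser.Triple
import Pool.Agent.Helper51.Moser.EvenPart

open Finset

namespace Pool.Agent.Helper51.Moser

open LaurentPolynomial EvenPart in
/-- For odd `k` both sets are symmetric about the same centre. -/
theorem centre {k : ℕ} (hk : Odd k) {X Y : Finset ℤ} (hX : X.card = 2 ^ k)
    (hY : Y.card = 2 ^ k) (hne : X ≠ Y) (h : pairSums X = pairSums Y) :
    ∃ s : ℤ, (X.image fun x => s - x) = X ∧ (Y.image fun x => s - x) = Y := by
  obtain ⟨r, s, hr, h1, h2⟩ := key hX hY hne h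
  have hr' : r = k + 1 := by
    have h3 : (2 : ℕ) ^ r = 2 ^ (k + 1) := by
      have h4 : ((2 ^ r : ℕ) : ℂ) = ((2 ^ (k + 1) : ℕ) : ℂ) := by
        push_cast
        rw [hr]
        push_cast
        ring
      exact_mod_cast h4
    exact Nat.pow_right_injective (le_refl 2) h3
  have hev : ((-1 : ℂ)) ^ r = 1 := by
    rw [hr']
    exact (hk.add_one).neg_one_pow
  rw [hev, map_one, one_mul] at h1
  have hh : ∀ A : Finset ℤ, invert (gf A) = T (-s) * gf A → (A.image fun x => s - x) = A := by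
    intro A hA
    have h6 : T s * invert (gf A) = gf A := by
      rw [hA, ← mul_assoc, ← T_add, add_neg_cancel, T_zero, one_mul]
    rw [invert_gf, T_mul_gf, Finset.image_image] at h6
    have h7 := gf_injective h6
    have h8 : (fun x : ℤ => s - x) = ((fun x => s + x) ∘ fun x => -x) := by
      funext x
      exact sub_eq_add_neg s x
    rw [h8]
    exact h7
  refine ⟨s, hh X ?_, hh Y ?_⟩
  · have h4 : (2 : ℂ[T;T⁻¹]) * invert (gf X) = 2 * (T (-s) * gf X) := by
      rw [map_sub] at h1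
      rw [map_add] at h2
      linear_combination h1 + h2
    exact mul_left_cancel₀ two_ne h4
  · have h4 : (2 : ℂ[T;T⁻¹]) * invert (gf Y) = 2 * (T (-s) * gf Y) := by
      rw [map_sub] at h1
      rw [map_add] at h2
      linear_combination h2 - h1
    exact mul_left_cancel₀ two_ne h4

lemma mem_pairSums {X : Finset ℤ} {t : ℤ} :
    t ∈ pairSums X ↔ ∃ a ∈ X, ∃ b ∈ X, a ≠ b ∧ t = a + b := by
  unfold pairSums
  rw [Multiset.mem_map]
  constructor
  · rintro ⟨s, hs, rfl⟩
    rw [Finset.mem_val, Finset.mem_powersetCard, Finset.card_eq_two] at hs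
    obtain ⟨hsub, a, b, hab, rfl⟩ := hs
    refine ⟨a, hsub (by simp), b, hsub (by simp), hab, ?_⟩
    rw [Finset.sum_pair hab]
  · rintro ⟨a, ha, b, hb, hab, rfl⟩
    refine ⟨{a, b}, ?_, ?_⟩
    · rw [Finset.mem_val, Finset.mem_powersetCard]
      refine ⟨?_, Finset.card_pair hab⟩
      intro x hx
      rw [Finset.mem_insert, Finset.mem_singleton] at hx
      rcases hx with rfl | rfl
      · exact ha
      · exact hb
    · rw [Finset.sum_pair hab]

lemma pairSums_affine (X : Finset ℤ) (a b : ℤ) (ha : a ≠ 0) :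
    pairSums (X.image fun x => a * x + b) = (pairSums X).map fun t => a * t + 2 * b := by
  have hinj : Function.Injective fun x : ℤ => a * x + b := fun x y h =>
    mul_left_cancel₀ ha (add_right_cancel h)
  induction X using Finset.induction_on with
  | empty => rfl
  | insert c X hc ih =>
    have hc' : a * c + b ∉ X.image fun x => a * x + b := by
      rw [Finset.mem_image]
      rintro ⟨x, hx, hxc⟩
      exact hc (hinj hxc ▸ hx)
    rw [Finset.image_insert, EvenPart.pairSums_insert hc', EvenPart.pairSums_insert hc, ih,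
      Multiset.map_add, Finset.image_val_of_injOn hinj.injOn, Multiset.map_map, Multiset.map_map]
    congr 1
    refine Multiset.map_congr rfl fun x _ => ?_
    simp only [Function.comp]
    ring

lemma dvd_of_pairSums {X Y : Finset ℤ} (h : pairSums X = pairSums Y) {q : ℤ} (hq : Odd q)
    (hX : ∀ x ∈ X, q ∣ x) (hY : 3 ≤ Y.card) : ∀ y ∈ Y, q ∣ y := by
  have hpair : ∀ a ∈ Y, ∀ b ∈ Y, a ≠ b → q ∣ a + b := by
    intro a ha b hb hab
    have h1 : a + b ∈ pairSums Y := mem_pairSums.mpr ⟨a, ha, b, hb, hab, rfl⟩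
    rw [← h, mem_pairSums] at h1
    obtain ⟨c, hc, d, hd, _, hcd⟩ := h1
    rw [hcd]
    exact dvd_add (hX c hc) (hX d hd)
  intro y hy
  have h2 : 2 ≤ (Y.erase y).card := by
    rw [Finset.card_erase_of_mem hy]
    omega
  obtain ⟨a, b, ha, hb, hab⟩ := Finset.one_lt_card_iff.mp h2
  rw [Finset.mem_erase] at ha hb
  have e1 := hpair y hy a ha.2 (Ne.symm ha.1)
  have e2 := hpair y hy b hb.2 (Ne.symm hb.1)
  have e3 := hpair a ha.2 b hb.2 hab
  have e4 : q ∣ 2 * y := by
    have e5 := dvd_sub (dvd_add e1 e2) e3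
    have e6 : y + a + (y + b) - (a + b) = 2 * y := by ring
    rwa [e6] at e5
  have hcop : IsCoprime q 2 := by
    obtain ⟨m, hm⟩ := hq
    exact ⟨1, -m, by rw [hm]; ring⟩
  exact hcop.dvd_of_dvd_mul_left e4

lemma exists_scale {l : ℕ} (hl : 2 ≤ l) {X : Finset ℤ} (hX : 2 ≤ X.card) :
    ∃ v : ℕ, (∀ x ∈ X, (l : ℤ) ^ v ∣ x) ∧ ∃ x ∈ X, ¬ (l : ℤ) ^ (v + 1) ∣ x := by
  by_contra hcon
  push Not at hcon
  have hall : ∀ v : ℕ, ∀ x ∈ X, (l : ℤ) ^ v ∣ x := by
    intro v
    induction v with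
    | zero => intro x _; simp
    | succ v ih => exact hcon v ih
  obtain ⟨a, b, ha, hb, hab⟩ := Finset.one_lt_card_iff.mp hX
  have hzero : ∀ x ∈ X, x = 0 := by
    intro x hx
    by_contra hx0
    have h1 := hall x.natAbs x hx
    have h2 := Int.natAbs_dvd_natAbs.mpr h1
    rw [Int.natAbs_pow, Int.natAbs_natCast] at h2
    have h3 := Nat.le_of_dvd (Int.natAbs_pos.mpr hx0) h2
    have h4 : x.natAbs < l ^ x.natAbs := Nat.lt_pow_self (by omega)
    omega
  exact hab ((hzero a ha).trans (hzero b hb).symm)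

lemma scale_down {X : Finset ℤ} {q : ℤ} (hX : ∀ x ∈ X, q ∣ x) :
    ∃ X' : Finset ℤ, X = X'.image (fun x => q * x + 0) := by
  refine ⟨X.image (fun x => x / q), ?_⟩
  rw [Finset.image_image]
  ext x
  rw [Finset.mem_image]
  constructor
  · intro hx
    exact ⟨x, hx, by simp [Int.mul_ediv_cancel' (hX x hx)]⟩
  · rintro ⟨y, hy, hyx⟩
    simp only [Function.comp, add_zero, Int.mul_ediv_cancel' (hX y hy)] at hyx
    exact hyx ▸ hy

theorem no_three_odd {k : ℕ} (hk : Odd k) (hk2 : k = 11 ∨ 15 ≤ k) {X Y Z : Finset ℤ}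
    (hX : X.card = 2 ^ k) (hY : Y.card = 2 ^ k) (hZ : Z.card = 2 ^ k) (hXY : X ≠ Y)
    (hXZ : X ≠ Z) (hYZ : Y ≠ Z) (h1 : pairSums X = pairSums Y)
    (h2 : pairSums X = pairSums Z) : False := by
  obtain ⟨s, hs1, hs2⟩ := centre hk hX hY hXY h1
  obtain ⟨t, ht1, ht2⟩ := centre hk hX hZ hXZ h2
  have hst : s = t := by
    have f1 := EvenPart.sum_reflect X s
    have f2 := EvenPart.sum_reflect X t
    rw [hs1] at f1
    rw [ht1] at f2
    rw [hX] at f1 f2
    push_cast at f1 f2
    have g3 : (2 : ℤ) ^ k * s = 2 ^ k * t := by linarith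
    exact mul_left_cancel₀ (pow_ne_zero k two_ne_zero) g3
  subst hst
  -- centred copies
  have hinj2 : Function.Injective fun x : ℤ => 2 * x + -s := fun x y h =>
    mul_left_cancel₀ two_ne_zero (add_right_cancel h)
  have hsym : ∀ A : Finset ℤ, (A.image fun x => s - x) = A → Sym (A.image fun x => 2 * x + -s) := by
    intro A hA x hx
    rw [Finset.mem_image] at hx ⊢
    obtain ⟨y, hy, rfl⟩ := hx
    refine ⟨s - y, ?_, by ring⟩
    rw [← hA]
    exact Finset.mem_image_of_mem _ hy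
  have hXs := hsym X hs1
  have hYs := hsym Y hs2
  have hZs := hsym Z ht2
  have hXc : (X.image fun x => 2 * x + -s).card = 2 ^ k := by
    rw [Finset.card_image_of_injective _ hinj2, hX]
  have hYc : (Y.image fun x => 2 * x + -s).card = 2 ^ k := by
    rw [Finset.card_image_of_injective _ hinj2, hY]
  have hZc : (Z.image fun x => 2 * x + -s).card = 2 ^ k := by
    rw [Finset.card_image_of_injective _ hinj2, hZ]
  have hXY' : (X.image fun x => 2 * x + -s) ≠ (Y.image fun x => 2 * x + -s) := fun h =>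
    hXY (Finset.image_injective hinj2 h)
  have hXZ' : (X.image fun x => 2 * x + -s) ≠ (Z.image fun x => 2 * x + -s) := fun h =>
    hXZ (Finset.image_injective hinj2 h)
  have hYZ' : (Y.image fun x => 2 * x + -s) ≠ (Z.image fun x => 2 * x + -s) := fun h =>
    hYZ (Finset.image_injective hinj2 h)
  have h1' : pairSums (X.image fun x => 2 * x + -s) = pairSums (Y.image fun x => 2 * x + -s) := by
    rw [pairSums_affine X 2 (-s) two_ne_zero, pairSums_affine Y 2 (-s) two_ne_zero, h1]
  have h2' : pairSums (X.image fun x => 2 * x + -s) = pairSums (Z.image fun x => 2 * x + -s) := by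
    rw [pairSums_affine X 2 (-s) two_ne_zero, pairSums_affine Z 2 (-s) two_ne_zero, h2]
  generalize (X.image fun x => 2 * x + -s) = X₁ at *
  generalize (Y.image fun x => 2 * x + -s) = Y₁ at *
  generalize (Z.image fun x => 2 * x + -s) = Z₁ at *
  -- the prime
  obtain ⟨l, hl, h5, hlt⟩ := numeric (k + 1) hk.add_one (by omega)
  have hk1 : 4 ≤ 2 ^ k := by
    calc 4 = 2 ^ 2 := by norm_num
      _ ≤ 2 ^ k := Nat.pow_le_pow_right (by norm_num) (by omega)
  obtain ⟨v, hv1, x, hx, hxv⟩ := exists_scale hl.two_le (X := X₁) (by omega)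
  have hq0 : (l : ℤ) ^ v ≠ 0 := pow_ne_zero _ (by exact_mod_cast hl.ne_zero)
  have hqodd : Odd ((l : ℤ) ^ v) := by
    apply Odd.pow
    exact_mod_cast hl.odd_of_ne_two (by omega)
  have hYd := dvd_of_pairSums h1' hqodd hv1 (by omega)
  have hZd := dvd_of_pairSums h2' hqodd hv1 (by omega)
  obtain ⟨X₂, hX₂⟩ := scale_down hv1
  obtain ⟨Y₂, hY₂⟩ := scale_down hYd
  obtain ⟨Z₂, hZ₂⟩ := scale_down hZd
  subst hX₂ hY₂ hZ₂
  have hinj3 : Function.Injective fun x : ℤ => (l : ℤ) ^ v * x + 0 := fun x y h =>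
    mul_left_cancel₀ hq0 (add_right_cancel h)
  have hinj4 : Function.Injective fun x : ℤ => (l : ℤ) ^ v * x + 2 * 0 := fun x y h =>
    mul_left_cancel₀ hq0 (add_right_cancel h)
  have hsym3 : ∀ A : Finset ℤ, Sym (A.image fun x => (l : ℤ) ^ v * x + 0) → Sym A := by
    intro A hA x hx
    have h6 := hA _ (Finset.mem_image_of_mem _ hx)
    rw [Finset.mem_image] at h6
    obtain ⟨y, hy, hyx⟩ := h6
    have h7 : y = -x := by
      apply hinj3
      change (l : ℤ) ^ v * y + 0 = (l : ℤ) ^ v * (-x) + 0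
      rw [hyx]
      ring
    exact h7 ▸ hy
  rw [Finset.card_image_of_injective _ hinj3] at hXc hYc hZc
  rw [pairSums_affine _ _ _ hq0, pairSums_affine _ _ _ hq0] at h1' h2'
  have h1'' := Multiset.map_injective hinj4 h1'
  have h2'' := Multiset.map_injective hinj4 h2'
  obtain ⟨y, hy, rfl⟩ := Finset.mem_image.mp hx
  have hly : ¬ (l : ℤ) ∣ y := by
    intro hd
    apply hxv
    rw [add_zero, pow_succ]
    exact mul_dvd_mul_left _ hd
  have hfin := triple hk hXc hYc hZc (hsym3 _ hXs) (hsym3 _ hYs) (hsym3 _ hZs)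
    (fun h => hXY' (by rw [h])) (fun h => hYZ' (by rw [h])) (fun h => hXZ' (by rw [h]))
    h1'' (h1''.symm.trans h2'') hl h5 hy hly
  have hk3 : k + 1 - 1 = k := by omega
  rw [hk3] at hlt
  omega

/-- Three distinct sets never share their pair sums, for every `k ≥ 4` outside a short list. -/
theorem no_three {k : ℕ} (hk : 4 ≤ k) (hk' : k ∉ ({5, 7, 9, 13} : Finset ℕ)) {X Y Z : Finset ℤ}
    (hX : X.card = 2 ^ k) (hY : Y.card = 2 ^ k) (hZ : Z.card = 2 ^ k) (hXY : X ≠ Y)
    (hXZ : X ≠ Z) (hYZ : Y ≠ Z) (h1 : pairSums X = pairSums Y)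
    (h2 : pairSums X = pairSums Z) : False := by
  rcases Nat.even_or_odd k with he | ho
  · exact EvenPart.no_three he (by omega) hX hY hZ hXY hXZ hYZ h1 h2
  · refine no_three_odd ho ?_ hX hY hZ hXY hXZ hYZ h1 h2
    simp only [Finset.mem_insert, Finset.mem_singleton, not_or] at hk'
    obtain ⟨r, hr⟩ := ho
    omega

end Pool.Agent.Helper51.Moser
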