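import Pool.Agent.Helper51.Moser.All

open Finset

namespace Pool.Agent.Helper51.Moser

lemma Lev_step {l : ℕ} (hl : l.Prime) (hl2 : l ≠ 2) {Δ : ℕ →₀ ℤ} {s c : ℕ} (hs : 1 ≤ s)
    (h : Lev l Δ (s + 1) c) : Lev l (nrm l Δ) s c := by
  intro a ha j hj
  have ha' : ¬ (l : ℤ) ∣ a := by
    rcases ha with h0 | h1
    · omega
    · exact h1
  have h1 := cond_norm l hl hl2 Δ j s a
  have h2 : ∑ i ∈ Finset.range l,
        cond Δ j (2 * Real.pi * ((a + (l : ℤ) ^ s * i : ℤ) : ℝ) / (l : ℝ) ^ (s + 1)) = 0 := by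
    refine Finset.sum_eq_zero fun i _ => ?_
    refine h _ (Or.inr ?_) j hj
    intro hd
    apply ha'
    have h3 : (l : ℤ) ∣ (l : ℤ) ^ s * i := Dvd.dvd.mul_right (dvd_pow_self _ (by omega)) _
    exact (dvd_add_left h3).mp hd
  rw [h2] at h1
  have h4 : (l : ℝ) ^ j ≠ 0 := pow_ne_zero _ (by exact_mod_cast hl.ne_zero)
  exact (mul_eq_zero.mp h1.symm).resolve_left h4

lemma Lev_zero {l : ℕ} (hl : l.Prime) (hl2 : l ≠ 2) {Δ : ℕ →₀ ℤ} {c₀ c₁ : ℕ}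
    (h0 : Lev l Δ 0 c₀) (h1 : Lev l Δ 1 c₁) : Lev l (nrm l Δ) 0 (min c₀ c₁) := by
  intro a _ j hj
  have hl0 : (l : ℝ) ≠ 0 := by exact_mod_cast hl.ne_zero
  have h1' := cond_norm l hl hl2 Δ j 0 a
  have h2 : ∑ i ∈ Finset.range l,
        cond Δ j (2 * Real.pi * ((a + (l : ℤ) ^ 0 * i : ℤ) : ℝ) / (l : ℝ) ^ (0 + 1)) = 0 := by
    refine Finset.sum_eq_zero fun i _ => ?_
    by_cases hd : (l : ℤ) ∣ (a + (l : ℤ) ^ 0 * i)
    · obtain ⟨b, hb⟩ := hd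
      have h3 := h0 b (Or.inl rfl) j (lt_of_lt_of_le hj (min_le_left _ _))
      rw [hb]
      have h4 : 2 * Real.pi * (((l : ℤ) * b : ℤ) : ℝ) / (l : ℝ) ^ (0 + 1) =
          2 * Real.pi * (b : ℝ) / (l : ℝ) ^ 0 := by
        push_cast
        field_simp
      rw [h4]
      exact h3
    · exact h1 _ (Or.inr hd) j (lt_of_lt_of_le hj (min_le_right _ _))
  rw [h2] at h1'
  have h4 : (l : ℝ) ^ j ≠ 0 := pow_ne_zero _ hl0
  exact (mul_eq_zero.mp h1'.symm).resolve_left h4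

lemma cond_zero (Δ : ℕ →₀ ℤ) (j : ℕ) : cond Δ j 0 = mom Δ j * iteratedDeriv j LL 0 := by
  unfold cond mom Finsupp.sum
  push_cast
  rw [Finset.sum_mul]
  refine Finset.sum_congr rfl fun w _ => ?_
  rw [mul_zero]

lemma mom_zero_of_Lev {l : ℕ} {Δ : ℕ →₀ ℤ} {c : ℕ} (h : Lev l Δ 0 c) {j : ℕ} (hj : j < c)
    (he : Even j) (h2 : 2 ≤ j) : mom Δ j = 0 := by
  have h1 := h 0 (Or.inl rfl) j hj
  have h3 : 2 * Real.pi * ((0 : ℤ) : ℝ) / (l : ℝ) ^ 0 = 0 := by simp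
  rw [h3, cond_zero, LL_deriv_zero j (by omega)] at h1
  have h4 : -(tanN (j - 1) : ℝ) / 2 ^ j ≠ 0 := by
    have h5 := tanN_pos j he h2
    have h6 : (tanN (j - 1) : ℝ) ≠ 0 := by exact_mod_cast h5.ne'
    exact div_ne_zero (neg_ne_zero.mpr h6) (by positivity)
  have h7 := (mul_eq_zero.mp h1).resolve_right h4
  exact_mod_cast h7

lemma momp_zero {l : ℕ} (hl : l.Prime) (hl2 : l ≠ 2) {Δ : ℕ →₀ ℤ} {c₀ c₁ : ℕ}
    (h0 : Lev l Δ 0 c₀) (h1 : Lev l Δ 1 c₁) {j : ℕ} (hj0 : j < c₀) (hj1 : j < c₁) (he : Even j)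
    (h2 : 2 ≤ j) : momp l Δ j = 0 := by
  have h3 := mom_zero_of_Lev h0 hj0 he h2
  have h4 := mom_zero_of_Lev (Lev_zero hl hl2 h0 h1) (lt_min hj0 hj1) he h2
  have h5 := mom_rel l hl.one_lt.le Δ j (by omega)
  rw [h3, h4, mul_zero, add_zero] at h5
  have h6 : (1 - (l : ℤ) ^ (j - 1)) ≠ 0 := by
    have h7 : 1 < (l : ℤ) ^ (j - 1) := by
      exact_mod_cast Nat.one_lt_pow (by omega) hl.one_lt
    omega
  exact (mul_eq_zero.mp h5.symm).resolve_left h6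

/-! ### the operators -/

/-- Restriction to the weights prime to `l`. -/
noncomputable def rst (l : ℕ) (Δ : ℕ →₀ ℤ) : ℕ →₀ ℤ := Δ.filter fun w => ¬ l ∣ w

/-- `ψ^g - g^i` -/
noncomputable def op (g i : ℕ) (Δ : ℕ →₀ ℤ) : ℕ →₀ ℤ :=
  Δ.mapDomain (fun w => g * w) - ((g : ℤ) ^ i) • Δ

lemma op_sum {R : Type*} [CommRing R] (g i : ℕ) (Δ : ℕ →₀ ℤ) (F : ℕ → R)
    (hF : ∀ w, F (g * w) = F g * F w) :
    ((op g i Δ).sum fun w d => (d : R) * F w) =
      (F g - (g : R) ^ i) * Δ.sum fun w d => (d : R) * F w := by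
  unfold op
  rw [Finsupp.sum_sub_index (fun a b₁ b₂ => by push_cast; ring),
    Finsupp.sum_mapDomain_index (fun b => by simp) (fun b m₁ m₂ => by push_cast; ring),
    Finsupp.sum_smul_index (fun b => by simp), sub_mul, Finsupp.mul_sum, Finsupp.mul_sum]
  congr 1
  · refine Finsupp.sum_congr fun w _ => ?_
    rw [hF]
    ring
  · refine Finsupp.sum_congr fun w _ => ?_
    push_cast
    ring

lemma op_supp {l g i : ℕ} (hl : l.Prime) (hg : ¬ l ∣ g) {Δ : ℕ →₀ ℤ}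
    (h : ∀ w ∈ Δ.support, ¬ l ∣ w) : ∀ w ∈ (op g i Δ).support, ¬ l ∣ w := by
  classical
  intro w hw
  unfold op at hw
  have h1 := Finsupp.support_sub hw
  rw [Finset.mem_union] at h1
  rcases h1 with h1 | h1
  · have h2 := Finsupp.mapDomain_support h1
    rw [Finset.mem_image] at h2
    obtain ⟨v, hv, rfl⟩ := h2
    intro hd
    rcases (Nat.Prime.dvd_mul hl).mp hd with h3 | h3
    · exact hg h3
    · exact h v hv h3
  · exact h w (Finsupp.support_smul h1)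

lemma rst_supp (l : ℕ) (Δ : ℕ →₀ ℤ) : ∀ w ∈ (rst l Δ).support, ¬ l ∣ w := by
  intro w hw
  unfold rst at hw
  rw [Finsupp.support_filter, Finset.mem_filter] at hw
  exact hw.2

lemma rst_sum {R : Type*} [CommRing R] (l : ℕ) (Δ : ℕ →₀ ℤ) (F : ℕ → R)
    (hF : ∀ w, l ∣ w → F w = 0) :
    ((rst l Δ).sum fun w d => (d : R) * F w) = Δ.sum fun w d => (d : R) * F w := by
  unfold rst Finsupp.sum
  rw [Finsupp.support_filter, Finset.sum_filter]
  refine Finset.sum_congr rfl fun w hw => ?_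
  beta_reduce
  by_cases h : l ∣ w
  · rw [if_neg (not_not.mpr h), hF w h, mul_zero]
  · rw [if_pos h, Finsupp.filter_apply_pos (fun w => ¬ l ∣ w) _ h]

lemma rst_mom (l : ℕ) (Δ : ℕ →₀ ℤ) (n : ℕ) : mom (rst l Δ) n = momp l Δ n := by
  unfold mom momp rst Finsupp.sum
  rw [Finsupp.support_filter, Finset.sum_filter]
  refine Finset.sum_congr rfl fun w hw => ?_
  beta_reduce
  by_cases h : l ∣ w
  · rw [if_neg (not_not.mpr h), if_pos h]
  · rw [if_pos h, if_neg h, Finsupp.filter_apply_pos (fun w => ¬ l ∣ w) _ h]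

/-- Composite operator. -/
noncomputable def ops (g : ℕ) (L : List ℕ) (Δ : ℕ →₀ ℤ) : ℕ →₀ ℤ :=
  L.foldr (fun i D => op g i D) Δ

lemma ops_sum {R : Type*} [CommRing R] (g : ℕ) (L : List ℕ) (Δ : ℕ →₀ ℤ) (F : ℕ → R)
    (hF : ∀ w, F (g * w) = F g * F w) :
    ((ops g L Δ).sum fun w d => (d : R) * F w) =
      (L.map fun i => (F g - (g : R) ^ i)).prod * Δ.sum fun w d => (d : R) * F w := by
  induction L with
  | nil => simp [ops]
  | cons i L ih =>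
    have h1 : ops g (i :: L) Δ = op g i (ops g L Δ) := rfl
    rw [h1, op_sum g i _ F hF, ih, List.map_cons, List.prod_cons]
    ring

lemma ops_supp {l g : ℕ} (hl : l.Prime) (hg : ¬ l ∣ g) (L : List ℕ) {Δ : ℕ →₀ ℤ}
    (h : ∀ w ∈ Δ.support, ¬ l ∣ w) : ∀ w ∈ (ops g L Δ).support, ¬ l ∣ w := by
  induction L with
  | nil => exact h
  | cons i L ih => exact op_supp hl hg ih

end Pool.Agent.Helper51.Moser
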