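import Pool.Agent.Helper51.Moser.Cyc
import Pool.Agent.Helper51.Moser.Basic
import Pool.Agent.Helper51.Moser.DblRel
import Pool.Agent.Helper51.Moser.LogCyclotomic

open Finset

namespace Pool.Agent.Helper51.Moser

lemma KK_two (φ : ℝ) (h : Real.sin φ ≠ 0) : KK (2 * φ) - KK φ = LL φ := by
  unfold KK LL
  have e : Real.sin φ = 2 * Real.sin (φ/2) * Real.cos (φ/2) := by
    rw [← Real.sin_two_mul]; congr 1; ring
  have h1 : Real.sin (φ/2) ≠ 0 := by intro h0; apply h; rw [e, h0]; ring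
  have h2 : Real.cos (φ/2) ≠ 0 := by intro h0; apply h; rw [e, h0]; ring
  rw [show 2 * φ / 2 = φ by ring,
    show 2 * Real.sin φ = (2 * Real.sin (φ/2)) * (2 * Real.cos (φ/2)) by rw [e]; ring,
    Real.log_mul (mul_ne_zero two_ne_zero h1) (mul_ne_zero two_ne_zero h2)]
  ring

lemma sum_zpow_tf {X : Finset ℤ} (hX : Sym X) (θ : ℝ) :
    ∑ x ∈ X, (Complex.exp (θ * Complex.I)) ^ x = ((tf X θ : ℝ) : ℂ) := by
  have hs : ∑ x ∈ X, Real.sin (x * θ) = 0 := by
    have h1 : ∑ x ∈ X, Real.sin (x * θ) = ∑ x ∈ X, - Real.sin (x * θ) := by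
      refine Finset.sum_nbij' (fun x => -x) (fun x => -x) (fun x hx => hX x hx)
        (fun x hx => hX x hx) (fun x _ => neg_neg x) (fun x _ => neg_neg x) (fun x _ => ?_)
      push_cast
      rw [neg_mul, Real.sin_neg, neg_neg]
    rw [Finset.sum_neg_distrib] at h1
    linarith
  have h2 : ∀ x ∈ X, (Complex.exp (θ * Complex.I)) ^ x =
      ((Real.cos (x * θ) : ℝ) : ℂ) + ((Real.sin (x * θ) : ℝ) : ℂ) * Complex.I := by
    intro x _
    rw [← Complex.exp_int_mul, ← mul_assoc, ← Complex.ofReal_intCast, ← Complex.ofReal_mul,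
      Complex.exp_mul_I, ← Complex.ofReal_cos, ← Complex.ofReal_sin]
  rw [Finset.sum_congr rfl h2, Finset.sum_add_distrib, ← Finset.sum_mul, ← Complex.ofReal_sum,
    ← Complex.ofReal_sum, hs]
  simp [tf]

lemma exp_ne_one (x : ℝ) (h : Real.sin x ≠ 0) : Complex.exp (x * Complex.I) ≠ 1 := by
  intro h1
  have h2 := congrArg Complex.im h1
  rw [Complex.exp_ofReal_mul_I_im] at h2
  exact h (by simpa using h2)

lemma exp_ne_one' (x : ℝ) (h : Real.sin x ≠ 0) : Complex.exp ((2 * x : ℝ) * Complex.I) ≠ 1 := by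
  intro h1
  have h2 := congrArg Complex.re h1
  rw [Complex.exp_ofReal_mul_I_re] at h2
  simp only [Complex.one_re] at h2
  rw [Real.cos_two_mul'] at h2
  have h3 := Real.sin_sq_add_cos_sq x
  have h4 : Real.sin x ^ 2 = 0 := by linarith
  exact h (by simpa using h4)

lemma log_D {X Y : Finset ℤ} (hX : Sym X) (hY : Sym Y) {e : ℕ →₀ ℕ} (he : CycFac X Y e) (θ : ℝ)
    (hθ : ∀ m ∈ e.support, Complex.exp (m * θ * Complex.I) ≠ 1) :
    tf X θ - tf Y θ ≠ 0 ∧ Real.log (tf X θ - tf Y θ) =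
      ∑ m ∈ e.support, (e m : ℝ) *
        ∑ w ∈ m.divisors, (ArithmeticFunction.moebius (m / w) : ℝ) * KK (w * θ) := by
  obtain ⟨he0, b, σ, hσ, hfac⟩ := he
  have hm0 : ∀ m ∈ e.support, 0 < m := by
    intro m hm
    rcases Nat.eq_zero_or_pos m with rfl | h
    · exact absurd he0 (Finsupp.mem_support_iff.1 hm)
    · exact h
  have hz := hfac (Complex.exp (θ * Complex.I)) (Complex.exp_ne_zero _)
  rw [sum_zpow_tf hX, sum_zpow_tf hY, ← Complex.ofReal_sub] at hz
  have hΦ : ∀ m ∈ e.support,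
      (Polynomial.cyclotomic m ℂ).eval (Complex.exp (θ * Complex.I)) ≠ 0 := by
    intro m hm h0
    obtain ⟨r, hr⟩ := Polynomial.cyclotomic.dvd_X_pow_sub_one m ℂ
    have h1 := congrArg (Polynomial.eval (Complex.exp (θ * Complex.I))) hr
    rw [Polynomial.eval_mul, h0, zero_mul] at h1
    simp only [Polynomial.eval_sub, Polynomial.eval_pow, Polynomial.eval_X,
      Polynomial.eval_one] at h1
    apply hθ m hm
    rw [mul_assoc, Complex.exp_nat_mul]
    exact sub_eq_zero.1 h1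
  have hnorm : |tf X θ - tf Y θ| = ∏ m ∈ e.support,
      ‖(Polynomial.cyclotomic m ℂ).eval (Complex.exp (θ * Complex.I))‖ ^ e m := by
    have h1 := congrArg norm hz
    rw [Complex.norm_real, Real.norm_eq_abs, norm_mul, norm_mul, norm_zpow,
      Complex.norm_exp_ofReal_mul_I, one_zpow, mul_one] at h1
    have h2 : ‖σ‖ = 1 := by rcases hσ with rfl | rfl <;> simp
    rw [h2, one_mul] at h1
    rw [h1, Finsupp.prod, norm_prod]
    exact Finset.prod_congr rfl fun m _ => norm_pow _ _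
  have hpos : ∀ m ∈ e.support,
      ‖(Polynomial.cyclotomic m ℂ).eval (Complex.exp (θ * Complex.I))‖ ^ e m ≠ 0 :=
    fun m hm => pow_ne_zero _ (norm_ne_zero_iff.2 (hΦ m hm))
  refine ⟨?_, ?_⟩
  · intro h0
    rw [h0, abs_zero] at hnorm
    exact Finset.prod_ne_zero_iff.2 hpos hnorm.symm
  · rw [← Real.log_abs, hnorm, Real.log_prod hpos]
    refine Finset.sum_congr rfl fun m hm => ?_
    rw [Real.log_pow, log_cyclotomic m (hm0 m hm) θ (hθ m hm)]

lemma sin_ev (m : ℕ) (hm : 0 < m) (θ₀ : ℝ) :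
    ∀ᶠ θ in nhdsWithin θ₀ {θ₀}ᶜ, Real.sin (m * θ) ≠ 0 := by
  have hd : HasDerivAt (fun θ : ℝ => Real.sin (m * θ)) (Real.cos (m * θ₀) * (m * 1)) θ₀ :=
    ((hasDerivAt_id θ₀).const_mul (m : ℝ)).sin
  by_cases h : Real.sin (m * θ₀) = 0
  · have hc : Real.cos (m * θ₀) * ((m : ℝ) * 1) ≠ 0 := by
      have h3 := Real.sin_sq_add_cos_sq (m * θ₀)
      have h4 : Real.cos (m * θ₀) ≠ 0 := by
        intro h5; rw [h, h5] at h3; norm_num at h3
      have : (m : ℝ) ≠ 0 := by positivity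
      exact mul_ne_zero h4 (by simpa using this)
    have := hd.eventually_ne (c := Real.sin (m * θ₀)) hc
    rw [h] at this
    exact this
  · have := (hd.continuousAt.eventually_ne h)
    exact this.filter_mono nhdsWithin_le_nhds

/-- pairing of a weight vector with a function -/
noncomputable def pairL (f : ℕ → ℝ) : (ℕ →₀ ℤ) →+ ℝ where
  toFun ε := ε.sum fun w d => (d : ℝ) * f w
  map_zero' := by simp
  map_add' a b := by
    rw [Finsupp.sum_add_index']
    · intro; simp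
    · intro w b₁ b₂; push_cast; ring

lemma pairL_single (f : ℕ → ℝ) (w : ℕ) (d : ℤ) : pairL f (Finsupp.single w d) = (d : ℝ) * f w := by
  show (Finsupp.single w d).sum (fun w d => (d : ℝ) * f w) = _
  rw [Finsupp.sum_single_index (by simp)]



theorem log_cyc {X Y : Finset ℤ} (hX : Sym X) (hY : Sym Y) (h : pairSums X = pairSums Y)
    {e : ℕ →₀ ℕ} (he : CycFac X Y e) :
    ∃ ε : ℕ →₀ ℤ, ∀ (q : ℕ) (a : ℤ), Odd q →
      (∀ᶠ θ in nhds (2 * Real.pi * a / q),
        Real.log (tf X θ + tf Y θ) = ε.sum fun w d => (d : ℝ) * LL (w * θ)) ∧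
      tf X (2 * Real.pi * a / q) + tf Y (2 * Real.pi * a / q) ≠ 0 := by
  refine ⟨∑ m ∈ e.support, ∑ w ∈ m.divisors,
    Finsupp.single w ((e m : ℤ) * ArithmeticFunction.moebius (m / w)), ?_⟩
  intro q a hq
  set θ₀ : ℝ := 2 * Real.pi * a / q with hθ₀
  set ε : ℕ →₀ ℤ := ∑ m ∈ e.support, ∑ w ∈ m.divisors,
    Finsupp.single w ((e m : ℤ) * ArithmeticFunction.moebius (m / w)) with hε
  have hsum : ∀ f : ℕ → ℝ, ε.sum (fun w d => (d : ℝ) * f w) = ∑ m ∈ e.support, (e m : ℝ) *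
      ∑ w ∈ m.divisors, (ArithmeticFunction.moebius (m / w) : ℝ) * f w := by
    intro f
    show pairL f ε = _
    rw [hε, map_sum]
    refine Finset.sum_congr rfl fun m _ => ?_
    rw [map_sum, Finset.mul_sum]
    refine Finset.sum_congr rfl fun w _ => ?_
    rw [pairL_single]
    push_cast
    ring
  have hm0 : ∀ m ∈ e.support, 0 < m := by
    intro m hm
    rcases Nat.eq_zero_or_pos m with rfl | h
    · exact absurd he.1 (Finsupp.mem_support_iff.1 hm)
    · exact h
  -- the punctured neighbourhood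
  have hev : ∀ᶠ θ in nhdsWithin θ₀ {θ₀}ᶜ, ∀ m ∈ e.support, Real.sin (m * θ) ≠ 0 := by
    rw [Finset.eventually_all]
    exact fun m hm => sin_ev m (hm0 m hm) θ₀
  have hP : ∀ᶠ θ in nhdsWithin θ₀ {θ₀}ᶜ, tf X θ + tf Y θ ≠ 0 ∧
      Real.log (tf X θ + tf Y θ) = ε.sum fun w d => (d : ℝ) * LL (w * θ) := by
    filter_upwards [hev] with θ hθ
    obtain ⟨h1, h2⟩ := log_D hX hY he θ (by
      intro m hm
      have := exp_ne_one (m * θ) (hθ m hm)
      push_cast at this
      exact this)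
    obtain ⟨h3, h4⟩ := log_D hX hY he (2 * θ) (by
      intro m hm
      have := exp_ne_one' (m * θ) (hθ m hm)
      push_cast at this ⊢
      rw [show (m : ℂ) * (2 * (θ : ℂ)) = 2 * ((m : ℂ) * θ) by ring]
      exact this)
    have h5 := dbl_rel h (Complex.exp (θ * Complex.I)) (Complex.exp_ne_zero _)
    have h6 : Complex.exp (θ * Complex.I) ^ 2 = Complex.exp (((2 * θ : ℝ) : ℂ) * Complex.I) := by
      rw [← Complex.exp_nat_mul]
      congr 1
      push_cast
      ring
    rw [h6, sum_zpow_tf hX, sum_zpow_tf hY, sum_zpow_tf hX, sum_zpow_tf hY] at h5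
    have h7 : tf X (2 * θ) - tf Y (2 * θ) = (tf X θ - tf Y θ) * (tf X θ + tf Y θ) := by
      exact_mod_cast h5
    have h8 : tf X θ + tf Y θ ≠ 0 := by
      intro h0; rw [h0, mul_zero] at h7; exact h3 h7
    refine ⟨h8, ?_⟩
    have h9 := Real.log_mul h1 h8
    rw [← h7, h2, h4] at h9
    rw [hsum fun w => LL (w * θ)]
    have h10 : ∀ m ∈ e.support, (e m : ℝ) * ∑ w ∈ m.divisors,
        (ArithmeticFunction.moebius (m / w) : ℝ) * LL (w * θ) =
        (e m : ℝ) * ∑ w ∈ m.divisors,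
          (ArithmeticFunction.moebius (m / w) : ℝ) * KK (w * (2 * θ)) -
        (e m : ℝ) * ∑ w ∈ m.divisors,
          (ArithmeticFunction.moebius (m / w) : ℝ) * KK (w * θ) := by
      intro m hm
      rw [← mul_sub, ← Finset.sum_sub_distrib]
      congr 1
      refine Finset.sum_congr rfl fun w hw => ?_
      have hsw : Real.sin (w * θ) ≠ 0 := by
        intro h0
        obtain ⟨k, hk⟩ := Nat.dvd_of_mem_divisors hw
        obtain ⟨j, hj⟩ := Real.sin_eq_zero_iff.1 h0
        apply hθ m hm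
        rw [hk]
        push_cast
        rw [show (w : ℝ) * k * θ = ((k * j : ℤ) : ℝ) * Real.pi by
          push_cast; linear_combination (-(k:ℝ)) * hj]
        exact Real.sin_int_mul_pi _
      rw [← KK_two _ hsw]
      rw [show (w : ℝ) * (2 * θ) = 2 * (w * θ) by ring]
      ring
    rw [Finset.sum_congr rfl h10, Finset.sum_sub_distrib]
    linarith
  -- continuity
  have hLL : ContinuousAt (fun θ : ℝ => ε.sum fun w d => (d : ℝ) * LL (w * θ)) θ₀ := by
    unfold Finsupp.sum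
    refine tendsto_finsetSum _ fun w _ => ?_
    refine Filter.Tendsto.const_mul _ ?_
    have h1 : ContinuousAt LL ((w : ℝ) * θ₀) := by
      refine (LL_analyticAt ?_).continuousAt
      have := cos_ne hq (w : ℤ) a
      push_cast at this
      exact this
    exact h1.comp (f := fun θ : ℝ => (w : ℝ) * θ) (continuous_const.mul continuous_id).continuousAt
  have htf : ∀ Z : Finset ℤ, Continuous (tf Z) := by
    intro Z
    unfold tf
    fun_prop
  have hE : |tf X θ₀ + tf Y θ₀| = Real.exp (ε.sum fun w d => (d : ℝ) * LL (w * θ₀)) := by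
    have t1 : Filter.Tendsto (fun θ => |tf X θ + tf Y θ|) (nhdsWithin θ₀ {θ₀}ᶜ)
        (nhds |tf X θ₀ + tf Y θ₀|) :=
      (((htf X).add (htf Y)).abs.tendsto θ₀).mono_left nhdsWithin_le_nhds
    have t2 : Filter.Tendsto (fun θ => Real.exp (ε.sum fun w d => (d : ℝ) * LL (w * θ)))
        (nhdsWithin θ₀ {θ₀}ᶜ) (nhds (Real.exp (ε.sum fun w d => (d : ℝ) * LL (w * θ₀)))) :=
      (hLL.rexp.tendsto).mono_left nhdsWithin_le_nhds
    refine tendsto_nhds_unique (t1.congr' ?_) t2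
    filter_upwards [hP] with θ hθ
    rw [← hθ.2, ← Real.log_abs, Real.exp_log (abs_pos.2 hθ.1)]
  have hne : tf X θ₀ + tf Y θ₀ ≠ 0 := by
    rw [← abs_pos, hE]
    exact Real.exp_pos _
  refine ⟨?_, hne⟩
  filter_upwards [eventually_nhdsWithin_iff.1 hP] with θ hθ
  by_cases hθθ : θ = θ₀
  · rw [hθθ, ← Real.log_abs, hE, Real.log_exp]
  · exact (hθ hθθ).2

end Pool.Agent.Helper51.Moser
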