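import Pool.Agent.Helper51.Moser.Levels

open Finset

namespace Pool.Agent.Helper51.Moser

lemma char_unit {l s : ℕ} (hl : l.Prime) (hs : 1 ≤ s) {w : ℕ} (hw : l ∣ w)
    (χ : DirichletCharacter ℂ (l ^ s)) : χ (w : ZMod (l ^ s)) = 0 := by
  apply χ.map_nonunit
  rw [ZMod.isUnit_iff_coprime]
  intro h
  have h1 : Nat.Coprime w l := Nat.Coprime.coprime_dvd_right (dvd_pow_self l (by omega)) h
  have h2 : l ∣ 1 := by
    rw [← h1]
    exact Nat.dvd_gcd hw dvd_rfl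
  exact hl.one_lt.ne' (Nat.dvd_one.mp h2)

lemma one_unit {l s : ℕ} (hl : l.Prime) {w : ℕ} (hw : ¬ l ∣ w) :
    (1 : DirichletCharacter ℂ (l ^ s)) (w : ZMod (l ^ s)) = 1 := by
  apply MulChar.one_apply
  rw [ZMod.isUnit_iff_coprime]
  exact (Nat.Coprime.pow_left s ((Nat.Prime.coprime_iff_not_dvd hl).mpr hw)).symm

/-- The set of exceptional exponents. -/
def Bset (c₀ c₁ : ℕ) : Finset ℕ :=
  (Finset.range c₁).filter (fun j => 2 ≤ j ∧ Even j ∧ c₀ ≤ j)

/-- The smoothed weight function. -/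
noncomputable def hat (l g c₀ c₁ : ℕ) (Δ : ℕ →₀ ℤ) : ℕ →₀ ℤ :=
  op 2 0 (ops g (Bset c₀ c₁).toList (rst l Δ))

lemma hat_supp {l g : ℕ} (hl : l.Prime) (h5 : 5 ≤ l) (hg : ¬ l ∣ g) (c₀ c₁ : ℕ) (Δ : ℕ →₀ ℤ) :
    ∀ w ∈ (hat l g c₀ c₁ Δ).support, ¬ l ∣ w := by
  refine op_supp hl ?_ (ops_supp hl hg _ (rst_supp l Δ))
  intro h
  have := Nat.le_of_dvd (by norm_num) h
  omega

lemma hat_sum {R : Type*} [CommRing R] (l g c₀ c₁ : ℕ) (Δ : ℕ →₀ ℤ) (F : ℕ → R)
    (hF : ∀ v w, F (v * w) = F v * F w) :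
    ((hat l g c₀ c₁ Δ).sum fun w d => (d : R) * F w) =
      (F 2 - 1) * ((∏ i ∈ Bset c₀ c₁, (F g - (g : R) ^ i)) *
        (rst l Δ).sum fun w d => (d : R) * F w) := by
  unfold hat
  rw [op_sum 2 0 _ F (hF 2), ops_sum g _ _ F (hF g), Finset.prod_map_toList, pow_zero]

lemma hat_mom (l g c₀ c₁ : ℕ) (Δ : ℕ →₀ ℤ) (n : ℕ) :
    mom (hat l g c₀ c₁ Δ) n =
      (2 ^ n - 1) * ((∏ i ∈ Bset c₀ c₁, ((g : ℤ) ^ n - (g : ℤ) ^ i)) * momp l Δ n) := by
  have h := hat_sum (R := ℤ) l g c₀ c₁ Δ (fun w => (w : ℤ) ^ n)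
    (fun v w => by push_cast; rw [mul_pow])
  simp only [Int.cast_id] at h
  rw [← rst_mom]
  exact h

lemma hat_char {l : ℕ} (hl : l.Prime) (h5 : 5 ≤ l) {g : ℕ} (hg : ¬ l ∣ g) {Δ : ℕ →₀ ℤ}
    {c : ℕ → ℕ} (hLev : ∀ s, Lev l Δ s (c s)) {s : ℕ} (hs : 1 ≤ s) {j : ℕ} (hj : j < c s)
    (χ : DirichletCharacter ℂ (l ^ s)) (hp : χ (-1) = (-1) ^ j) (hor : χ.IsPrimitive ∨ s = 1) :
    ((hat l g (c 0) (c 1) Δ).sum fun w d =>
      (d : ℂ) * (w : ℂ) ^ j * χ⁻¹ (w : ZMod (l ^ s))) = 0 := by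
  have hl2 : l ≠ 2 := by omega
  have hne : NeZero (l ^ s) := ⟨pow_ne_zero _ hl.ne_zero⟩
  have hF : ∀ v w : ℕ, ((v * w : ℕ) : ℂ) ^ j * χ⁻¹ ((v * w : ℕ) : ZMod (l ^ s)) =
      ((v : ℂ) ^ j * χ⁻¹ (v : ZMod (l ^ s))) * ((w : ℂ) ^ j * χ⁻¹ (w : ZMod (l ^ s))) := by
    intro v w
    push_cast
    rw [map_mul, mul_pow]
    ring
  have h1 := hat_sum (R := ℂ) l g (c 0) (c 1) Δ
    (fun w => (w : ℂ) ^ j * χ⁻¹ (w : ZMod (l ^ s))) hF
  have h2 : ((hat l g (c 0) (c 1) Δ).sum fun w d =>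
      (d : ℂ) * (w : ℂ) ^ j * χ⁻¹ (w : ZMod (l ^ s))) =
      ((hat l g (c 0) (c 1) Δ).sum fun w d =>
        (d : ℂ) * ((w : ℂ) ^ j * χ⁻¹ (w : ZMod (l ^ s)))) :=
    Finsupp.sum_congr fun w _ => mul_assoc _ _ _
  rw [h2, h1]
  have h3 : ((rst l Δ).sum fun w d => (d : ℂ) * ((w : ℂ) ^ j * χ⁻¹ (w : ZMod (l ^ s)))) =
      Δ.sum fun w d => (d : ℂ) * ((w : ℂ) ^ j * χ⁻¹ (w : ZMod (l ^ s))) :=
    rst_sum l Δ _ fun w hw => by rw [char_unit hl hs hw, mul_zero]
  by_cases hχ1 : χ = 1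
  · -- trivial character
    subst hχ1
    have hs1 : s = 1 := by
      rcases hor with h | h
      · exfalso
        have h4 : (1 : DirichletCharacter ℂ (l ^ s)).conductor = l ^ s := h
        rw [DirichletCharacter.conductor_one] at h4
        have h5' : 1 < l ^ s := Nat.one_lt_pow (by omega) hl.one_lt
        omega
      · exact h
    subst hs1
    have hj2 : Even j := by
      by_contra ho
      rw [Nat.not_even_iff_odd] at ho
      rw [ho.neg_one_pow] at hp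
      have h4 : (1 : DirichletCharacter ℂ (l ^ 1)) (-1) = 1 :=
        MulChar.one_apply isUnit_one.neg
      rw [h4] at hp
      norm_num at hp
    by_cases hj0 : j = 0
    · subst hj0
      have h4 : ((2 : ℕ) : ℂ) ^ 0 *
          (1 : DirichletCharacter ℂ (l ^ 1))⁻¹ ((2 : ℕ) : ZMod (l ^ 1)) - 1 = 0 := by
        rw [inv_one, one_unit hl (fun h => by
          have := Nat.le_of_dvd (by norm_num) h
          omega)]
        norm_num
      rw [h4, zero_mul]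
    · have hj2' : 2 ≤ j := by
        obtain ⟨r, hr⟩ := hj2
        omega
      by_cases hc : c 0 ≤ j
      · have h4 : ∏ i ∈ Bset (c 0) (c 1), ((g : ℂ) ^ j *
            (1 : DirichletCharacter ℂ (l ^ 1))⁻¹ (g : ZMod (l ^ 1)) - (g : ℂ) ^ i) = 0 := by
          refine Finset.prod_eq_zero (i := j) ?_ ?_
          · unfold Bset
            rw [Finset.mem_filter, Finset.mem_range]
            exact ⟨hj, hj2', hj2, hc⟩
          · rw [inv_one, one_unit hl hg]
            ring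
        rw [h4, zero_mul, mul_zero]
      · push Not at hc
        have h4 := momp_zero hl hl2 (hLev 0) (hLev 1) hc hj hj2 hj2'
        have h5' : ((rst l Δ).sum fun w d => (d : ℂ) * ((w : ℂ) ^ j *
            (1 : DirichletCharacter ℂ (l ^ 1))⁻¹ (w : ZMod (l ^ 1)))) = 0 := by
          have h6 : ((mom (rst l Δ) j : ℤ) : ℂ) = 0 := by rw [rst_mom, h4]; simp
          rw [← h6]
          unfold mom Finsupp.sum
          push_cast
          refine Finset.sum_congr rfl fun w hw => ?_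
          rw [inv_one, one_unit hl (rst_supp l Δ w hw), mul_one]
        rw [h5', mul_zero, mul_zero]
  · have hprim : χ.IsPrimitive := by
      rcases hor with h | h
      · exact h
      · subst h
        have h4 : χ.conductor ∣ l ^ 1 := DirichletCharacter.conductor_dvd_level χ
        have h4' : χ.conductor ∣ l := by
          have h6 : l ^ 1 = l := pow_one l
          exact h4.trans (dvd_of_eq h6)
        rcases (Nat.dvd_prime hl).mp h4' with h5' | h5'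
        · exfalso
          exact hχ1 (DirichletCharacter.eq_one_iff_conductor_eq_one.mpr h5')
        · show χ.conductor = l ^ 1
          rw [h5']
          exact (pow_one l).symm
    by_cases hj0 : j = 0 ∧ χ 2 = 1
    · obtain ⟨rfl, h4⟩ := hj0
      have h5' : ((2 : ℕ) : ℂ) ^ 0 * χ⁻¹ ((2 : ℕ) : ZMod (l ^ s)) - 1 = 0 := by
        rw [MulChar.inv_apply_eq_inv']
        have h6 : χ ((2 : ℕ) : ZMod (l ^ s)) = 1 := by
          rw [← h4]
          norm_num
        rw [h6]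
        norm_num
      rw [h5', zero_mul]
    · have h4 : (Δ.sum fun w d => (d : ℂ) * (w : ℂ) ^ j * χ⁻¹ (w : ZMod (l ^ s))) = 0 := by
        refine char_moment l hl hl2 s hs Δ j ?_ χ hprim hχ1 hp ?_
        · intro a ha
          exact hLev s a (Or.inr ha) j hj
        · intro h0 h2'
          exact hj0 ⟨h0, h2'⟩
      have h5' : (Δ.sum fun w d => (d : ℂ) * ((w : ℂ) ^ j * χ⁻¹ (w : ZMod (l ^ s)))) = 0 := by
        rw [← h4]
        exact Finsupp.sum_congr fun w _ => (mul_assoc _ _ _).symm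
      rw [h3, h5', mul_zero, mul_zero]

open Polynomial in
theorem Lprime {l : ℕ} (hl : l.Prime) (h5 : 5 ≤ l) {g : ℕ} (hg : ¬ l ∣ g) {Δ : ℕ →₀ ℤ}
    {c : ℕ → ℕ} (hLev : ∀ s, Lev l Δ s (c s)) {n : ℕ} (hn : Even n) (I : ℕ) :
    (l : ℤ) ^ (∑ s ∈ Finset.Icc 1 I, c s) ∣
      2 * ((2 ^ n - 1) * ((∏ i ∈ Bset (c 0) (c 1), ((g : ℤ) ^ n - (g : ℤ) ^ i)) *
        momp l Δ n)) := by
  set D := hat l g (c 0) (c 1) Δ with hD
  obtain ⟨N, hN⟩ : ∃ N : ℕ, ∀ w ∈ D.support, w ≤ N :=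
    ⟨D.support.sup id, fun w hw => Finset.le_sup (f := id) hw⟩
  set G : ℤ[X] := D.sum fun w d => C d * (X ^ (N + w) + X ^ (N - w)) with hG
  have hsupp := hat_supp hl h5 hg (c 0) (c 1) Δ
  have h0 : (X - C (1 : ℂ)) ^ c 1 ∣ G.map (Int.castRingHom ℂ) := by
    refine pow_dvd_of_moments D N hN 1 one_ne_zero (c 1) fun j hj => ?_
    rcases Nat.even_or_odd j with he | ho
    · have h1 := hat_char hl h5 hg hLev le_rfl hj (1 : DirichletCharacter ℂ (l ^ 1))
        (by rw [he.neg_one_pow]; exact MulChar.one_apply isUnit_one.neg) (Or.inr rfl)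
      have h2 : (D.sum fun w d => (d : ℂ) * (w : ℂ) ^ j *
          ((1 : ℂ) ^ w + (-1) ^ j * (1 : ℂ)⁻¹ ^ w)) =
          2 * D.sum fun w d => (d : ℂ) * (w : ℂ) ^ j *
            (1 : DirichletCharacter ℂ (l ^ 1))⁻¹ (w : ZMod (l ^ 1)) := by
        rw [Finsupp.mul_sum]
        refine Finsupp.sum_congr fun w hw => ?_
        rw [inv_one, inv_one, one_unit hl (hsupp w hw), he.neg_one_pow, one_pow]
        ring
      rw [h2, h1, mul_zero]
    · refine Finset.sum_eq_zero fun w _ => ?_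
      beta_reduce
      rw [inv_one, one_pow, ho.neg_one_pow]
      ring
  have h1 : ∀ s ∈ Finset.Icc 1 I, ∀ ζ : ℂ, IsPrimitiveRoot ζ (l ^ s) →
      (X - C ζ) ^ c s ∣ G.map (Int.castRingHom ℂ) := by
    intro s hs ζ hζ
    rw [Finset.mem_Icc] at hs
    have hζ0 : ζ ≠ 0 := hζ.ne_zero (pow_ne_zero _ hl.ne_zero)
    refine pow_dvd_of_moments D N hN ζ hζ0 (c s) fun j hj => ?_
    refine fourier_dual l hl s hs.1 D hsupp j ?_ ζ hζ
    intro χ hp hor
    exact hat_char hl h5 hg hLev hs.1 hj χ hp hor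
  have h2 := moment_dvd l hl G c I h0 h1 N n
  have h3 : (G.sum fun x a => a * ((x : ℤ) - N) ^ n) = 2 * mom D n := by
    let E : ℤ[X] →+ ℤ := AddMonoidHom.mk' (fun p => p.sum fun x a => a * ((x : ℤ) - N) ^ n)
      (fun p q => Polynomial.sum_add_index p q (fun x a => a * ((x : ℤ) - N) ^ n)
        (fun i => by simp) (fun i a b => by ring))
    have hE : ∀ (x : ℕ), E (X ^ x) = ((x : ℤ) - N) ^ n := by
      intro x
      have h9 : E (X ^ x) =
          (X ^ x : ℤ[X]).sum (fun x a => a * ((x : ℤ) - N) ^ n) := rfl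
      rw [h9, ← Polynomial.monomial_one_right_eq_X_pow,
        Polynomial.sum_monomial_index (1 : ℤ) (fun (x : ℕ) (a : ℤ) => a * ((x : ℤ) - N) ^ n)
          (by simp)]
      ring
    have hE2 : ∀ (d : ℤ) (p : ℤ[X]), E (C d * p) = d * E p := by
      intro d p
      rw [← Polynomial.smul_eq_C_mul, map_zsmul, smul_eq_mul]
    change E G = _
    have hG2 : G = ∑ w ∈ D.support, C (D w) * (X ^ (N + w) + X ^ (N - w)) := rfl
    have hm : mom D n = ∑ w ∈ D.support, D w * (w : ℤ) ^ n := rfl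
    rw [hG2, hm, map_sum, Finset.mul_sum]
    refine Finset.sum_congr rfl fun w hw => ?_
    rw [hE2, map_add, hE, hE]
    have h4 : ((N - w : ℕ) : ℤ) = (N : ℤ) - w := by
      have := hN w hw
      push_cast [this]
      ring
    rw [h4]
    push_cast
    have h5' : ((N : ℤ) - w - N) ^ n = (w : ℤ) ^ n := by
      rw [show (N : ℤ) - w - N = -w by ring, hn.neg_pow]
    rw [h5']
    ring
  rw [h3, hD, hat_mom] at h2
  exact h2

end Pool.Agent.Helper51.Moser
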