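import Pool.Agent.Helper51.Moser.Core

open Finset

namespace Pool.Agent.Helper51.Moser

lemma tf_analyticAt (X : Finset ℤ) (θ : ℝ) : AnalyticAt ℝ (tf X) θ := by
  have h : tf X = fun θ => ∑ x ∈ X, Real.cos ((x : ℝ) * θ) := rfl
  rw [h]
  refine Finset.analyticAt_fun_sum _ fun x _ => ?_
  exact (Real.analyticAt_cos).comp (f := fun θ : ℝ => (x : ℝ) * θ)
    (analyticAt_const.mul analyticAt_id)

lemma tf_zero (X : Finset ℤ) : tf X 0 = X.card := by
  simp [tf]

/-- derivative of `tf` at zero -/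
lemma tf_deriv_zero (X : Finset ℤ) {n : ℕ} (hn : Even n) :
    iteratedDeriv n (tf X) 0 = (-1) ^ (n / 2) * ((∑ x ∈ X, x ^ n : ℤ) : ℝ) := by
  have h : tf X = fun θ => ∑ x ∈ X, Real.cos ((x : ℝ) * θ) := rfl
  rw [h, iteratedDeriv_fun_sum]
  · push_cast
    rw [Finset.mul_sum]
    refine Finset.sum_congr rfl fun x _ => ?_
    rw [iteratedDeriv_comp_mul_aux (x : ℝ) Real.cos n]
    obtain ⟨r, hr⟩ := hn
    have h2 : n = 2 * r := by omega
    have h3 : n / 2 = r := by omega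
    beta_reduce
    rw [h3, h2, Real.iteratedDeriv_even_cos, mul_zero]
    simp
    ring
  · intro x _
    exact (Real.contDiff_cos.comp (contDiff_const.mul contDiff_id)).contDiffAt

/-- The relation for three sets. -/
theorem triple {k : ℕ} (hk : Odd k) {X Y Z : Finset ℤ} (hX : X.card = 2 ^ k)
    (hY : Y.card = 2 ^ k) (hZ : Z.card = 2 ^ k) (sX : Sym X) (sY : Sym Y) (sZ : Sym Z)
    (hXY : X ≠ Y) (hYZ : Y ≠ Z) (hXZ : X ≠ Z) (h1 : pairSums X = pairSums Y)
    (h2 : pairSums Y = pairSums Z) {l : ℕ} (hl : l.Prime) (h5 : 5 ≤ l) {x : ℤ} (hx : x ∈ X)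
    (hlx : ¬ (l : ℤ) ∣ x) :
    padicValNat l (tanN k) ≤ padicValNat l (k + 1).factorial + padicValNat l (2 ^ (k + 1) - 1) := by
  have hl2 : l ≠ 2 := by omega
  have hfact : Fact l.Prime := ⟨hl⟩
  have hk1 : 1 ≤ k := hk.pos
  have hn : Even (k + 1) := hk.add_one
  have hlodd : Odd l := hl.odd_of_ne_two hl2
  obtain ⟨eA, heA⟩ := exists_cyc hXY h1
  obtain ⟨eB, heB⟩ := exists_cyc hYZ h2
  obtain ⟨eC, heC⟩ := exists_cyc hXZ (h1.trans h2)
  obtain ⟨εA, hεA⟩ := log_cyc sX sY h1 heA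
  obtain ⟨εB, hεB⟩ := log_cyc sY sZ h2 heB
  have hone : eC 1 = k + 1 := cyc_one hX hZ (h1.trans h2) heC
  set Δ : ℕ →₀ ℤ := εA - εB with hΔ
  -- the logarithmic identity
  have key : ∀ (q : ℕ) (a : ℤ), Odd q → ∀ c : ℕ,
      (∀ j < c, iteratedDeriv j (fun θ => tf X θ - tf Z θ) (2 * Real.pi * a / q) = 0) →
      (∀ j < c, cond Δ j (2 * Real.pi * a / q) = 0) ∧
      (1 ≤ c → cond Δ c (2 * Real.pi * a / q) =
        iteratedDeriv c (fun θ => tf X θ - tf Z θ) (2 * Real.pi * a / q) /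
          (tf X (2 * Real.pi * a / q) + tf Y (2 * Real.pi * a / q))) := by
    intro q a hq c hv
    obtain ⟨hA1, hA2⟩ := hεA q a hq
    obtain ⟨hB1, hB2⟩ := hεB q a hq
    set θ₀ : ℝ := 2 * Real.pi * a / q with hθ₀
    have hfg : (fun t => (tf X t + tf Y t) - (tf Y t + tf Z t)) =
        fun θ => tf X θ - tf Z θ := by
      funext t
      ring
    have hld := log_sub_deriv (f := fun t => tf X t + tf Y t) (g := fun t => tf Y t + tf Z t)
      (x := θ₀) ((tf_analyticAt X θ₀).add (tf_analyticAt Y θ₀))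
      ((tf_analyticAt Y θ₀).add (tf_analyticAt Z θ₀)) hA2 hB2 c
    beta_reduce at hld
    rw [hfg] at hld
    have hld2 := hld hv
    have hev : (fun t => Real.log (tf X t + tf Y t) - Real.log (tf Y t + tf Z t)) =ᶠ[nhds θ₀]
        fun θ => Δ.sum fun w d => (d : ℝ) * LL (w * θ) := by
      filter_upwards [hA1, hB1] with t ht1 ht2
      rw [ht1, ht2, hΔ, Finsupp.sum_sub_index]
      intro w b₁ b₂
      push_cast
      ring
    have hcond : ∀ j, iteratedDeriv j
        (fun t => Real.log (tf X t + tf Y t) - Real.log (tf Y t + tf Z t)) θ₀ =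
        cond Δ j θ₀ := by
      intro j
      rw [hev.iteratedDeriv_eq j]
      exact cond_eq Δ j q hq a
    refine ⟨fun j hj => ?_, fun hc => ?_⟩
    · rw [← hcond]
      exact hld2.1 j hj
    · rw [← hcond]
      exact hld2.2 hc
  -- the vanishing
  have hLev : ∀ s, Lev l Δ s (eC (l ^ s)) := by
    intro s a ha j hj
    have hgcd : Int.gcd a ((l ^ s : ℕ) : ℤ) = 1 := by
      rcases ha with rfl | ha
      · simp
      · push_cast
        rw [← Int.isCoprime_iff_gcd_eq_one]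
        apply IsCoprime.pow_right
        rw [isCoprime_comm]
        exact (Prime.coprime_iff_not_dvd (Nat.prime_iff_prime_int.mp hl)).mpr ha
    have h3 := (key (l ^ s) a hlodd.pow (eC (l ^ s)) fun i hi =>
      cyc_vanish sX sZ heC (l ^ s) (pow_pos hl.pos s) a hgcd i hi).1 j hj
    push_cast at h3
    exact h3
  have hc0 : eC (l ^ 0) ≤ k + 1 := by rw [pow_zero, hone]
  have hc : ∀ s, 1 ≤ s → eC (l ^ s) ≤ (k + 1) - 1 := fun s hs =>
    cyc_le hX hZ sX (h1.trans h2) heC l hl hl2 s hs hx hlx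
  obtain ⟨I, hI⟩ : ∃ I : ℕ, ∀ s, I < s → eC (l ^ s) = 0 := by
    refine ⟨eC.support.sup id, fun s hs => ?_⟩
    by_contra h0
    have h3 : l ^ s ∈ eC.support := Finsupp.mem_support_iff.mpr h0
    have h4 := Finset.le_sup (f := id) h3
    have h6 : s < l ^ s := Nat.lt_pow_self hl.one_lt
    simp only [id] at h4
    omega
  have hcore := core hl h5 hn (by omega) I Δ (fun s => eC (l ^ s)) hc0 hc hLev
  beta_reduce at hcore
  rw [pow_zero, hone] at hcore
  have h3 : k + 1 - 1 - (k + 1) = 0 := by omega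
  rw [h3, pow_zero, one_mul] at hcore
  obtain ⟨hW, hWv⟩ := cyc_moment heC l hl I hI
  rw [hone] at hW hWv
  set W : ℤ := (∑ x ∈ X, x ^ (k + 1)) - ∑ x ∈ Z, x ^ (k + 1) with hWdef
  -- the leading coefficient at zero
  have hrel : (mom Δ (k + 1)).natAbs * tanN k = W.natAbs := by
    have h4 := (key 1 0 odd_one (k + 1) fun i hi => by
      have h6 := cyc_vanish sX sZ heC 1 one_pos 0 (by simp) i (by rw [hone]; exact hi)
      exact h6).2 (by omega)
    have h6 : (2 * Real.pi * ((0 : ℤ) : ℝ) / ((1 : ℕ) : ℝ)) = 0 := by simp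
    rw [h6, cond_zero, LL_deriv_zero (k + 1) (by omega), tf_zero, tf_zero, hX, hY] at h4
    have h7 : iteratedDeriv (k + 1) (fun θ => tf X θ - tf Z θ) 0 =
        (-1) ^ ((k + 1) / 2) * (W : ℝ) := by
      rw [iteratedDeriv_fun_sub (tf_analyticAt X 0).contDiffAt (tf_analyticAt Z 0).contDiffAt,
        tf_deriv_zero X hn, tf_deriv_zero Z hn, hWdef]
      push_cast
      ring
    rw [h7] at h4
    have h8 : (2 : ℝ) ^ (k + 1) ≠ 0 := by positivity
    have h9 : ((2 ^ k : ℕ) : ℝ) + ((2 ^ k : ℕ) : ℝ) = 2 ^ (k + 1) := by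
      push_cast
      ring
    rw [h9] at h4
    have h10 : (mom Δ (k + 1) : ℝ) * -(tanN k : ℝ) = (-1) ^ ((k + 1) / 2) * (W : ℝ) := by
      have h11 : k + 1 - 1 = k := by omega
      rw [h11] at h4
      field_simp at h4
      linarith
    have h12 : (mom Δ (k + 1)) * -(tanN k : ℤ) = (-1) ^ ((k + 1) / 2) * W := by
      exact_mod_cast h10
    have h13 := congrArg Int.natAbs h12
    rw [Int.natAbs_mul, Int.natAbs_neg, Int.natAbs_natCast, Int.natAbs_mul, Int.natAbs_pow] at h13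
    simpa using h13
  have hm0 : (mom Δ (k + 1)).natAbs ≠ 0 := by
    intro h0
    rw [h0, zero_mul] at hrel
    exact hW (Int.natAbs_eq_zero.mp hrel.symm)
  have ht0 : tanN k ≠ 0 := by
    intro h0
    rw [h0, mul_zero] at hrel
    exact hW (Int.natAbs_eq_zero.mp hrel.symm)
  have hv1 : padicValNat l ((mom Δ (k + 1)).natAbs) + padicValNat l (tanN k) =
      padicValNat l W.natAbs := by
    rw [← hrel, padicValNat.mul hm0 ht0]
  have hWv' : padicValNat l W.natAbs =
      padicValNat l (k + 1).factorial + ∑ s ∈ Finset.Icc 1 I, eC (l ^ s) := hWv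
  have hpow0 : (2 ^ (k + 1) - 1 : ℕ) ≠ 0 := by
    have h4 : 1 < 2 ^ (k + 1) := Nat.one_lt_pow (by omega) (by norm_num)
    omega
  have hv2 : ∑ s ∈ Finset.Icc 1 I, eC (l ^ s) ≤
      padicValNat l (2 ^ (k + 1) - 1) + padicValNat l ((mom Δ (k + 1)).natAbs) := by
    rw [← padicValNat.mul hpow0 hm0]
    have h4 : l ^ (∑ s ∈ Finset.Icc 1 I, eC (l ^ s)) ∣
        (2 ^ (k + 1) - 1) * (mom Δ (k + 1)).natAbs := by
      have h6 := Int.natAbs_dvd_natAbs.mpr hcore
      rw [Int.natAbs_mul, Int.natAbs_pow, Int.natAbs_natCast] at h6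
      have h7 : ((2 : ℤ) ^ (k + 1) - 1).natAbs = 2 ^ (k + 1) - 1 := by
        have h8 : ((2 : ℤ) ^ (k + 1) - 1) = ((2 ^ (k + 1) - 1 : ℕ) : ℤ) := by
          have h9 : 1 ≤ 2 ^ (k + 1) := Nat.one_le_two_pow
          push_cast [h9]
          ring
        rw [h8, Int.natAbs_natCast]
      rw [h7] at h6
      exact h6
    exact (padicValNat_dvd_iff_le (mul_ne_zero hpow0 hm0)).mp h4
  omega

end Pool.Agent.Helper51.Moser
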